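import Pool.Agent.AcyGD.Base
import Pool.Agent.AcyK.DKind

/-! # The pairs of the same round (row D2) -/

set_option autoImplicit false
set_option linter.unusedSectionVars false

namespace Pool.Agent.AcyGD

open Finset
open Pool.Agent.Acy (IsPM wt Ex Pr mean)
open Pool.Agent.AcyK
open scoped Classical

universe u v

section

variable {V : Type u} [Fintype V] [DecidableEq V]

namespace DD

variable {D : DD V}

/-- The weight of a pair of vertices that both pick in the round. -/
noncomputable def rkG (D : DD V) (j : ℕ) (col : V → Option (Fin D.k × ℕ))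
    (lam : V → Option Bool) (w : V → V → ℝ) (u u' : V) : ℝ :=
  if (D.Now j col lam u ∧ D.Now j col lam u') ∧ u ≠ u' then w u u' else 0

section rk

variable {j : ℕ} {C : V → Option (Fin D.k × ℕ)} {m : ℕ}
  {col : V → Option (Fin D.k × ℕ)} {lam : V → Option Bool}
  {p : V → Fin D.k → ℝ}

theorem rkG_nonneg {w : V → V → ℝ} (hw : ∀ y y', 0 ≤ w y y') (u u' : V) :
    0 ≤ D.rkG j col lam w u u' := by
  unfold rkG
  split_ifs
  · exact hw _ _
  · exact le_rfl

theorem rkG_le {w : V → V → ℝ} (hw : ∀ y y', 0 ≤ w y y') (u u' : V) :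
    D.rkG j col lam w u u' ≤ if D.Now j col lam u ∧ D.Now j col lam u' then w u u' else 0 := by
  unfold rkG
  by_cases h : D.Now j col lam u ∧ D.Now j col lam u'
  · rw [if_pos h]
    split_ifs
    · exact le_rfl
    · exact hw _ _
  · rw [if_neg h, if_neg fun h1 => h h1.1]

/-- The new monochromatic pairs of equal rounds. -/
theorem S2r_step (h : D.DRnd j C m col lam p) (ω : V → Fin D.k) {w : V → V → ℝ}
    (hw : ∀ y y', 0 ≤ w y y') :
    D.S2r (D.addCol C j (updCol m col lam ω)) j w ≤ D.S2r (D.addCol C j col) j w +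
      ∑ u, ∑ u', if ω u = ω u' then D.rkG j col lam w u u' else 0 := by
  have hlt := h.prog.lt
  unfold S2r
  rw [← sum_add_distrib]
  refine sum_le_sum fun y _ => ?_
  rw [← sum_add_distrib]
  refine sum_le_sum fun y' _ => ?_
  have h0 : 0 ≤ (if D.lv y = j ∧ D.Same (D.addCol C j col) y y' ∧
      D.rd (D.addCol C j col) y = D.rd (D.addCol C j col) y' then w y y' else 0) := by
    split_ifs
    · exact hw _ _
    · exact le_rfl
  have h1 : 0 ≤ (if ω y = ω y' then D.rkG j col lam w y y' else 0) := by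
    split_ifs
    · exact rkG_nonneg hw _ _
    · exact le_rfl
  by_cases hc : D.lv y = j ∧ D.Same (D.addCol C j (updCol m col lam ω)) y y' ∧
      D.rd (D.addCol C j (updCol m col lam ω)) y = D.rd (D.addCol C j (updCol m col lam ω)) y'
  · rw [if_pos hc]
    obtain ⟨hy, hS, hr⟩ := hc
    have hy' : D.lv y' = j := by rw [← hS.2.1]; exact hy
    by_cases ha : D.Now j col lam y
    · have hb : D.Now j col lam y' := by
        refine now_of_rd (ω := ω) hlt hy' hS.right_ne_none ?_
        rw [← hr]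
        exact rd_now ha
      have hcol : ω y = ω y' := by
        obtain ⟨-, -, c, h2, h3⟩ := hS
        rw [(hasCol_now ha).1 h2, (hasCol_now hb).1 h3]
      rw [if_pos hcol]
      have : D.rkG j col lam w y y' = w y y' := by
        unfold rkG
        rw [if_pos ⟨⟨ha, hb⟩, hS.1⟩]
      rw [this]
      linarith
    · have hb : ¬ D.Now j col lam y' := by
        intro hb
        refine ha (now_of_rd (ω := ω) hlt hy hS.left_ne_none ?_)
        rw [hr]
        exact rd_now hb
      have e1 := upd_not_now (C := C) (m := m) (ω := ω) ha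
      have e2 := upd_not_now (C := C) (m := m) (ω := ω) hb
      rw [rd_congr e1, rd_congr e2] at hr
      rw [if_pos ⟨hy, (Same_congr e1 e2).1 hS, hr⟩]
      linarith
  · rw [if_neg hc]
    linarith

/-- The tail for one family of weights. -/
theorem rk_loc (h : D.DRnd j C m col lam p) (w : V → V → V → ℝ)
    (hw : ∀ a y y', 0 ≤ w a y y')
    (hS : ∀ a y y', w a y y' ≠ 0 → y ∈ D.ball 3 a ∧ y' ∈ D.ball 3 a) {A0 A1 M : ℝ} (hM : 0 < M)
    (h0 : ∀ a, ∑ u, ∑ u', D.rkG j col lam (w a) u u' ≤ A0) (h0' : D.rho * A0 ≤ M)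
    (h1 : ∀ a u, ∑ u', (D.rkG j col lam (w a) u u' + D.rkG j col lam (w a) u' u) ≤ A1)
    (h1' : D.rho * A1 ≤ M)
    (h2 : ∀ a u u', w a u u' + w a u' u ≤ M) :
    LocOK 39998 D.T p (fun ω => ∀ a,
      ∑ u, ∑ u', (if ω u = ω u' then D.rkG j col lam (w a) u u' else 0) ≤
        12 * D.T ^ 2 * M) := by
  have hD := h.ok
  have hT := hD.big
  have hrho := rho_nonneg hD
  have hp0 := h.pm.1
  have hp1 := h.pm.2
  have hg : ∀ a u u', 0 ≤ D.rkG j col lam (w a) u u' := fun a u u' => rkG_nonneg (hw a) u u'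
  have hgw : ∀ a u u', D.rkG j col lam (w a) u u' ≤ w a u u' := by
    intro a u u'
    unfold rkG
    split_ifs
    · exact le_rfl
    · exact hw _ _ _
  have key := loc_pair (Q := V) hT h.pm (κ := V) (fun _ => True)
    (fun a u u' (_ : Fin D.k) => D.rkG j col lam (w a) u u')
    (fun a u u' _ => hg a u u')
    (fun a u _ => by unfold rkG; rw [if_neg fun h3 => h3.2 rfl])
    (fun _ => M) (fun _ _ => hM)
    (fun a _ => by
      refine le_trans ?_ ((mul_le_mul_of_nonneg_left (h0 a) hrho).trans h0')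
      rw [mul_sum]
      refine sum_le_sum fun u _ => ?_
      rw [mul_sum]
      refine sum_le_sum fun u' _ => ?_
      rw [← mul_sum, mul_comm]
      refine mul_le_mul_of_nonneg_right ?_ (hg a u u')
      calc ∑ c, p u c * p u' c ≤ ∑ c, D.rho * p u' c :=
            sum_le_sum fun c _ => mul_le_mul_of_nonneg_right (h.p_le u c) (hp0 u' c)
        _ = D.rho := by rw [← mul_sum, hp1 u', mul_one])
    (fun a _ u c => by
      refine le_trans ?_ ((mul_le_mul_of_nonneg_left (h1 a u) hrho).trans h1')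
      rw [mul_sum]
      refine sum_le_sum fun u' _ => ?_
      rw [mul_comm]
      exact mul_le_mul_of_nonneg_right (h.p_le u' c) (add_nonneg (hg a u u') (hg a u' u)))
    (fun a _ u u' _ => (add_le_add (hgw a u u') (hgw a u' u)).trans (h2 a u u'))
    (fun a => D.ball 3 a)
    (fun a _ u u' _ hne => hS a u u' (by
      intro h3
      apply hne
      have h4 := hgw a u u'
      rw [h3] at h4
      exact le_antisymm h4 (hg a u u')))
    39998
    (fun a _ => (ball_card hD 3 a).trans (hT.pw (by norm_num)))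
    (fun y => ⟨D.ball 3 y, fun a _ ha => ball_symm hD ha,
      (ball_card hD 3 y).trans (hT.pw (by norm_num))⟩)
  exact LocOK.imp key fun ω hω a => hω a trivial

/-! ### Sums -/

theorem now_card (h : D.DRnd j C m col lam p) (a : V) :
    ∑ y, (if D.Now j col lam y ∧ y ∈ D.N a then (1 : ℝ) else 0) ≤ D.T ^ 2671 := by
  rw [sum_boole]
  refine le_trans (le_of_eq ?_) (h.lam.nbr a)
  congr 2
  ext y
  simp only [mem_filter, mem_univ, true_and]
  tauto

theorem rkM0 (h : D.DRnd j C m col lam p) (a : V) :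
    ∑ u, ∑ u', D.rkG j col lam (D.wM a a) u u' ≤ D.T ^ 5342 := by
  have hD := h.ok
  have h1 := now_card h a
  have h2 : ∑ u, ∑ u', D.rkG j col lam (D.wM a a) u u' ≤
      ∑ u, ∑ u', (if D.Now j col lam u ∧ u ∈ D.N a then (1 : ℝ) else 0) *
        (if D.Now j col lam u' ∧ u' ∈ D.N a then 1 else 0) := by
    refine sum_le_sum fun u _ => sum_le_sum fun u' _ => ?_
    unfold rkG wM
    split_ifs with a1 a2 a3 a4 a5 a6 a7 a8 <;> simp_all
  refine h2.trans ?_
  rw [← sum_mul_sum]
  calc _ ≤ D.T ^ 2671 * D.T ^ 2671 := by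
        refine mul_le_mul h1 h1 (sum_nonneg fun y _ => ?_) (Tp hD _).le
        split_ifs <;> norm_num
    _ = D.T ^ 5342 := by rw [← pow_add]

theorem rkM1 (h : D.DRnd j C m col lam p) (a u : V) :
    ∑ u', (D.rkG j col lam (D.wM a a) u u' + D.rkG j col lam (D.wM a a) u' u) ≤
      2 * D.T ^ 2671 := by
  have h1 := now_card h a
  have h2 : ∑ u', (D.rkG j col lam (D.wM a a) u u' + D.rkG j col lam (D.wM a a) u' u) ≤
      ∑ u', 2 * (if D.Now j col lam u' ∧ u' ∈ D.N a then (1 : ℝ) else 0) := by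
    refine sum_le_sum fun u' _ => ?_
    unfold rkG wM
    split_ifs <;> simp_all <;> norm_num
  rw [← mul_sum] at h2
  linarith

/-- Paths of length two to the vertices that pick in the round. -/
theorem now_cod (h : D.DRnd j C m col lam p) (u : V) :
    ∑ u', (if D.Now j col lam u' then D.cod u u' else 0) ≤ D.T ^ 6271 := by
  have hD := h.ok
  have h1 : ∀ u', (if D.Now j col lam u' then D.cod u u' else 0) =
      ∑ z ∈ D.N u, (if D.Now j col lam u' ∧ u' ∈ D.N z then (1 : ℝ) else 0) := by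
    intro u'
    by_cases hn : D.Now j col lam u'
    · rw [if_pos hn]
      unfold cod cN
      rw [← filter_mem_eq_inter, card_filter]
      push_cast
      refine sum_congr rfl fun z _ => ?_
      by_cases hz : z ∈ D.N u'
      · rw [if_pos hz, if_pos ⟨hn, (N_comm hD).1 hz⟩]
      · rw [if_neg hz, if_neg fun h2 => hz ((N_comm hD).1 h2.2)]
    · rw [if_neg hn]
      refine (sum_eq_zero fun z _ => ?_).symm
      rw [if_neg fun h2 => hn h2.1]
  rw [sum_congr rfl fun u' _ => h1 u', sum_comm]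
  calc _ ≤ ∑ _z ∈ D.N u, D.T ^ 2671 := sum_le_sum fun z _ => now_card h z
    _ = (D.N u).card * D.T ^ 2671 := by rw [sum_const, nsmul_eq_mul]
    _ ≤ D.T ^ 3600 * D.T ^ 2671 := mul_le_mul_of_nonneg_right (Nc hD u) (Tp hD _).le
    _ = D.T ^ 6271 := by rw [← pow_add]

theorem wP_nonneg' (a y y' : V) : 0 ≤ D.wP a y y' := by
  unfold wP
  split_ifs
  · exact cod_nonneg _ _
  · exact le_rfl

theorem rkP_row (h : D.DRnd j C m col lam p) (a u : V) :
    ∑ u', D.rkG j col lam (D.wP a) u u' ≤
      (if D.Now j col lam u ∧ u ∈ D.N a then 1 else 0) * D.T ^ 6271 := by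
  have hD := h.ok
  by_cases hu : D.Now j col lam u ∧ u ∈ D.N a
  · rw [if_pos hu, one_mul]
    refine le_trans (sum_le_sum fun u' _ => ?_) (now_cod h u)
    unfold rkG wP
    have := D.cod_nonneg u u'
    split_ifs <;> first | linarith | (exfalso; tauto)
  · rw [if_neg hu, zero_mul]
    refine sum_nonpos fun u' _ => ?_
    unfold rkG wP
    split_ifs <;> first | exact le_rfl | (exfalso; tauto)

theorem rkP0 (h : D.DRnd j C m col lam p) (a : V) :
    ∑ u, ∑ u', D.rkG j col lam (D.wP a) u u' ≤ D.T ^ 8942 := by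
  have hD := h.ok
  refine (sum_le_sum fun u _ => rkP_row h a u).trans ?_
  rw [← sum_mul]
  calc _ ≤ D.T ^ 2671 * D.T ^ 6271 := mul_le_mul_of_nonneg_right (now_card h a) (Tp hD _).le
    _ = D.T ^ 8942 := by rw [← pow_add]

theorem rkP1 (h : D.DRnd j C m col lam p) (a u : V) :
    ∑ u', (D.rkG j col lam (D.wP a) u u' + D.rkG j col lam (D.wP a) u' u) ≤
      2 * D.T ^ 6271 := by
  have hD := h.ok
  rw [sum_add_distrib]
  have h1 : ∑ u', D.rkG j col lam (D.wP a) u u' ≤ D.T ^ 6271 := by
    refine (rkP_row h a u).trans ?_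
    have := Tp hD 6271
    split_ifs <;> linarith
  have h2 : ∑ u', D.rkG j col lam (D.wP a) u' u ≤ D.T ^ 6271 := by
    refine le_trans (sum_le_sum fun u' _ => ?_) (now_cod h u)
    unfold rkG wP
    have h3 := D.cod_nonneg u u'
    have h4 : D.cod u' u = D.cod u u' := cod_comm hD u' u
    rw [h4]
    split_ifs <;> first | linarith | (exfalso; tauto)
  linarith

theorem wF_nonneg' (b : ℝ) (a y y' : V) : 0 ≤ D.wF b a y y' := by
  unfold wF
  split_ifs
  · exact Nat.cast_nonneg _
  · exact le_rfl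

theorem wF_symm' (hD : D.Ok) (b : ℝ) (a y y' : V) : D.wF b a y y' = D.wF b a y' y := by
  unfold wF
  rw [cN_comm D.N y y']
  refine if_congr ?_ rfl rfl
  constructor
  · rintro ⟨⟨h1, h2⟩, h3⟩
    exact ⟨⟨h2, h1⟩, fun h4 => h3 (Spc_symm hD h4)⟩
  · rintro ⟨⟨h1, h2⟩, h3⟩
    exact ⟨⟨h2, h1⟩, fun h4 => h3 (Spc_symm hD h4)⟩

theorem rkG_symm {w : V → V → ℝ} (hw : ∀ y y', w y y' = w y' y) (u u' : V) :
    D.rkG j col lam w u u' = D.rkG j col lam w u' u := by
  unfold rkG
  rw [hw u u']
  refine if_congr ?_ rfl rfl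
  constructor
  · rintro ⟨⟨h1, h2⟩, h3⟩
    exact ⟨⟨h2, h1⟩, h3.symm⟩
  · rintro ⟨⟨h1, h2⟩, h3⟩
    exact ⟨⟨h2, h1⟩, h3.symm⟩

theorem nba_card (h : D.DRnd j C m col lam p) {a x : V} (hx : D.cod x a ≤ D.am) :
    ∑ y, (if D.Now j col lam y ∧ y ∈ D.N a ∧ y ∈ D.N x then (1 : ℝ) else 0) ≤ D.T ^ 1474 := by
  rw [sum_boole]
  refine le_trans (le_of_eq ?_) (h.lam.nba x a hx)
  congr 2
  ext y
  simp only [mem_filter, mem_univ, true_and, mem_cN]
  tauto

theorem rkF_row (h : D.DRnd j C m col lam p) (a u : V) :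
    ∑ u', D.rkG j col lam (D.wF D.am a) u u' ≤
      (if D.Now j col lam u ∧ u ∈ D.N a then 1 else 0) * D.T ^ 5074 := by
  have hD := h.ok
  by_cases hu : D.Now j col lam u ∧ u ∈ D.N a
  · rw [if_pos hu, one_mul]
    have h1 : ∀ u', D.rkG j col lam (D.wF D.am a) u u' ≤
        ∑ x ∈ D.N u, (if D.cod x a ≤ D.am then
          (if D.Now j col lam u' ∧ u' ∈ D.N a ∧ u' ∈ D.N x then (1 : ℝ) else 0) else 0) := by
      intro u'
      have h0 : 0 ≤ ∑ x ∈ D.N u, (if D.cod x a ≤ D.am then
          (if D.Now j col lam u' ∧ u' ∈ D.N a ∧ u' ∈ D.N x then (1 : ℝ) else 0) else 0) := by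
        refine sum_nonneg fun x _ => ?_
        split_ifs <;> norm_num
      unfold rkG wF
      split_ifs with h2 h3
      · unfold cN
        rw [← filter_mem_eq_inter, filter_filter, card_filter]
        push_cast
        refine sum_le_sum fun x _ => ?_
        by_cases h4 : x ∈ D.N u' ∧ x ≠ a ∧ D.T ^ 2385 ≤ D.cod x a ∧ D.cod x a < D.am
        · rw [if_pos h4, if_pos h4.2.2.2.le, if_pos ⟨h2.1.2, h3.1.2, (N_comm hD).1 h4.1⟩]
        · rw [if_neg h4]
          split_ifs <;> norm_num
      · exact h0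
      · exact h0
    refine (sum_le_sum fun u' _ => h1 u').trans ?_
    rw [sum_comm]
    calc _ ≤ ∑ _x ∈ D.N u, D.T ^ 1474 := by
          refine sum_le_sum fun x _ => ?_
          by_cases hx : D.cod x a ≤ D.am
          · rw [sum_congr rfl fun u' _ => if_pos hx]
            exact nba_card h hx
          · rw [sum_congr rfl fun u' _ => if_neg hx, sum_const_zero]
            exact (Tp hD _).le
      _ = (D.N u).card * D.T ^ 1474 := by rw [sum_const, nsmul_eq_mul]
      _ ≤ D.T ^ 3600 * D.T ^ 1474 := mul_le_mul_of_nonneg_right (Nc hD u) (Tp hD _).le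
      _ = D.T ^ 5074 := by rw [← pow_add]
  · rw [if_neg hu, zero_mul]
    refine sum_nonpos fun u' _ => ?_
    unfold rkG wF
    split_ifs <;> first | exact le_rfl | (exfalso; tauto)

theorem rkF0 (h : D.DRnd j C m col lam p) (a : V) :
    ∑ u, ∑ u', D.rkG j col lam (D.wF D.am a) u u' ≤ D.T ^ 7745 := by
  have hD := h.ok
  refine (sum_le_sum fun u _ => rkF_row h a u).trans ?_
  rw [← sum_mul]
  calc _ ≤ D.T ^ 2671 * D.T ^ 5074 := mul_le_mul_of_nonneg_right (now_card h a) (Tp hD _).le
    _ = D.T ^ 7745 := by rw [← pow_add]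

theorem rkF1 (h : D.DRnd j C m col lam p) (a u : V) :
    ∑ u', (D.rkG j col lam (D.wF D.am a) u u' + D.rkG j col lam (D.wF D.am a) u' u) ≤
      2 * D.T ^ 5074 := by
  have hD := h.ok
  have h1 : ∑ u', D.rkG j col lam (D.wF D.am a) u u' ≤ D.T ^ 5074 := by
    refine (rkF_row h a u).trans ?_
    have := Tp hD 5074
    split_ifs <;> linarith
  rw [sum_add_distrib, sum_congr rfl fun u' _ =>
    rkG_symm (D := D) (j := j) (col := col) (lam := lam) (wF_symm' hD D.am a) u' u]
  linarith

theorem wF_le (hD : D.Ok) (a y y' : V) : D.wF D.am a y y' ≤ D.T ^ 2401 := by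
  unfold wF
  split_ifs with h1
  · refine le_trans ?_ (cod_le' hD h1.2)
    unfold cod
    exact_mod_cast card_filter_le _ _
  · exact (Tp hD _).le

theorem wP_le (hD : D.Ok) (a y y' : V) : D.wP a y y' ≤ D.T ^ 2401 := by
  unfold wP
  split_ifs with h1
  · exact cod_le' hD h1.2
  · exact (Tp hD _).le

/-- Monochromatic pairs of equal rounds. -/
theorem rkinds_step (h : D.DRnd j C m col lam p) :
    LocOK 40000 D.T p (fun ω =>
      (∀ v, D.S2r (D.addCol C j (updCol m col lam ω)) j (D.wM v v) ≤ (m + 1 : ℕ) * D.T ^ 1360) ∧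
      (∀ v, D.S2r (D.addCol C j (updCol m col lam ω)) j (D.wP v) ≤ (m + 1 : ℕ) * D.T ^ 4960) ∧
      ∀ v, D.S2r (D.addCol C j (updCol m col lam ω)) j (D.wF D.am v) ≤
        (m + 1 : ℕ) * D.T ^ 3760) := by
  have hD := h.ok
  have hT := hD.big
  have hT0 := T0 hD
  have hTb := Tb hD
  have wM0 : ∀ a y y', 0 ≤ D.wM a a y y' := by
    intro a y y'
    unfold wM
    split_ifs <;> norm_num
  have wM1 : ∀ a y y', D.wM a a y y' ≤ 1 := by
    intro a y y'
    unfold wM
    split_ifs <;> norm_num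
  have num : ∀ {a b : ℕ}, a + 3 ≤ b → 12 * D.T ^ 2 * D.T ^ a ≤ D.T ^ b := by
    intro a b hab
    rw [mul_assoc, ← pow_add]
    exact num_pow hD (by norm_num) (by omega)
  have lM := rk_loc h (fun a => D.wM a a) wM0 (M := D.T ^ 1345)
    (fun a y y' hne => by
      have h1 : y ∈ D.N a ∧ y' ∈ D.N a := by
        by_contra h2
        apply hne
        unfold wM
        rw [if_neg h2]
      exact ⟨ball_mono (by norm_num) a (mem_ball_one h1.1),
        ball_mono (by norm_num) a (mem_ball_one h1.2)⟩)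
    (Tp hD _) (rkM0 h) (rho_mul_le hD (by norm_num)) (rkM1 h)
    (by
      have h1 : D.rho * D.T ^ 2671 ≤ D.T ^ 1344 := rho_mul_le hD (by norm_num)
      have h2 : 2 * D.T ^ 1344 ≤ D.T ^ 1345 := num_pow hD (by norm_num) (by norm_num)
      linarith)
    (fun a u u' => by
      have h1 := wM1 a u u'
      have h2 := wM1 a u' u
      have h3 : 2 * D.T ^ 0 ≤ D.T ^ 1345 := num_pow hD (by norm_num) (by norm_num)
      rw [pow_zero] at h3
      linarith)
  have lP := rk_loc h (fun a => D.wP a) wP_nonneg' (M := D.T ^ 4945)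
    (fun a y y' hne => by
      have h1 : y ∈ D.N a ∧ D.cod y y' ≠ 0 := by
        constructor
        · by_contra h2
          apply hne
          unfold wP
          rw [if_neg fun h3 => h2 h3.1]
        · intro h2
          apply hne
          unfold wP
          rw [h2]
          split_ifs <;> rfl
      have h2 : (cN D.N y y').Nonempty := by
        rw [nonempty_iff_ne_empty]
        intro h3
        apply h1.2
        unfold cod
        rw [h3, card_empty, Nat.cast_zero]
      obtain ⟨z, hz⟩ := h2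
      rw [mem_cN] at hz
      have h4 := mem_ball_one h1.1
      exact ⟨ball_mono (by norm_num) a h4,
        ball_step (ball_step h4 hz.1) ((N_comm hD).1 hz.2)⟩)
    (Tp hD _) (rkP0 h) (rho_mul_le hD (by norm_num)) (rkP1 h)
    (by
      have h1 : D.rho * D.T ^ 6271 ≤ D.T ^ 4944 := rho_mul_le hD (by norm_num)
      have h2 : 2 * D.T ^ 4944 ≤ D.T ^ 4945 := num_pow hD (by norm_num) (by norm_num)
      linarith)
    (fun a u u' => by
      have h1 := wP_le hD a u u'
      have h2 := wP_le hD a u' u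
      have h3 : 2 * D.T ^ 2401 ≤ D.T ^ 4945 := num_pow hD (by norm_num) (by norm_num)
      linarith)
  have lF := rk_loc h (fun a => D.wF D.am a) (wF_nonneg' D.am) (M := D.T ^ 3748)
    (fun a y y' hne => by
      have h1 : y ∈ D.N a ∧ y' ∈ D.N a := by
        by_contra h2
        apply hne
        unfold wF
        rw [if_neg fun h3 => h2 h3.1]
      exact ⟨ball_mono (by norm_num) a (mem_ball_one h1.1),
        ball_mono (by norm_num) a (mem_ball_one h1.2)⟩)
    (Tp hD _) (rkF0 h) (rho_mul_le hD (by norm_num)) (rkF1 h)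
    (by
      have h1 : D.rho * D.T ^ 5074 ≤ D.T ^ 3747 := rho_mul_le hD (by norm_num)
      have h2 : 2 * D.T ^ 3747 ≤ D.T ^ 3748 := num_pow hD (by norm_num) (by norm_num)
      linarith)
    (fun a u u' => by
      have h1 := wF_le hD a u u'
      have h2 := wF_le hD a u' u
      have h3 : 2 * D.T ^ 2401 ≤ D.T ^ 3748 := num_pow hD (by norm_num) (by norm_num)
      linarith)
  refine LocOK.imp (LocOK.and hT (LocOK.and hT lM lP) (LocOK.mono hT lF (by norm_num)))
    fun ω hω => ?_
  obtain ⟨⟨g1, g2⟩, g3⟩ := hω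
  have e : ((m + 1 : ℕ) : ℝ) = (m : ℝ) + 1 := by push_cast; ring
  refine ⟨fun v => ?_, fun v => ?_, fun v => ?_⟩
  · have h1 := S2r_step h ω (wM0 v)
    have h2 := h.prog.rM v
    have h3 := g1 v
    have h4 : 12 * D.T ^ 2 * D.T ^ 1345 ≤ D.T ^ 1360 := num (by norm_num)
    rw [e, add_mul, one_mul]
    linarith
  · have h1 := S2r_step h ω (wP_nonneg' (D := D) v)
    have h2 := h.prog.rP v
    have h3 := g2 v
    have h4 : 12 * D.T ^ 2 * D.T ^ 4945 ≤ D.T ^ 4960 := num (by norm_num)
    rw [e, add_mul, one_mul]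
    linarith
  · have h1 := S2r_step h ω (wF_nonneg' (D := D) D.am v)
    have h2 := h.prog.rF v
    have h3 := g3 v
    have h4 : 12 * D.T ^ 2 * D.T ^ 3748 ≤ D.T ^ 3760 := num (by norm_num)
    rw [e, add_mul, one_mul]
    linarith

end rk

end DD

end

end Pool.Agent.AcyGD
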