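import Pool.Agent.AcyGD.Base

/-! # The tests for the choice of the vertices of a stage (helper30) -/

set_option autoImplicit false
set_option linter.unusedSectionVars false

namespace Pool.Agent.AcyGD

open Finset
open Pool.Agent.Acy (IsPM wt Ex Pr mean)
open Pool.Agent.AcyK
open scoped Classical

universe u v

section

variable {V : Type u} [Fintype V] [DecidableEq V]

namespace DD

variable {D : DD V}

/-- Index set of the tests. -/
abbrev TI (D : DD V) : Type u := V ⊕ (V × V) ⊕ V ⊕ (V × Fin D.NS × Fin D.k) ⊕ V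

/-- The tests. -/
noncomputable def tg (D : DD V) (C : V → Option (Fin D.k × ℕ)) (j : ℕ) : D.TI → V → ℝ
  | .inl v, z => if z ∈ D.N v then 1 else 0
  | .inr (.inl (u, x)), z => if D.cod u x ≤ D.T ^ 2401 ∧ z ∈ cN D.N u x then 1 else 0
  | .inr (.inr (.inl x)), z => if z ≠ x ∧ D.T ^ 2385 ≤ D.cod z x then 1 else 0
  | .inr (.inr (.inr (.inl (a, i, c)))), x => if (i : ℕ) < j ∧ x ∈ D.N a then
      ((univ.filter fun y => y ∈ D.N x ∧ D.lv y = i ∧ hasCol C y c ∧ a ≠ y ∧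
        ¬ D.Spc a y).card : ℝ) else 0
  | .inr (.inr (.inr (.inr v))), x => if x ≠ v ∧ ¬ D.Rp v x ∧ (∃ z z', D.Same C z z' ∧
      ¬ D.Spc z z' ∧ D.lv z < j ∧ z ∈ cN D.N v x ∧ z' ∈ cN D.N v x) then 1 else 0

/-- Maximum of a test. -/
noncomputable def tgm (D : DD V) : D.TI → ℝ
  | .inr (.inr (.inr (.inl _))) => D.T ^ 152
  | _ => 1

/-- Total weight of a test. -/
noncomputable def tgs (D : DD V) : D.TI → ℝ
  | .inl _ => D.T ^ 3600
  | .inr (.inl (u, x)) => if D.cod u x < D.T ^ 2385 then D.T ^ 2385 else D.T ^ 2401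
  | .inr (.inr (.inl _)) => D.T ^ 4815
  | .inr (.inr (.inr (.inl _))) => D.T ^ 2555
  | .inr (.inr (.inr (.inr _))) => 500 * D.T ^ 9589 / (D.k * D.R)

/-! ## The tests, one by one -/

section unf

variable (C : V → Option (Fin D.k × ℕ)) (j : ℕ)

theorem tg_a (v z : V) : D.tg C j (.inl v) z = if z ∈ D.N v then 1 else 0 := rfl

theorem tg_b (u x z : V) : D.tg C j (.inr (.inl (u, x))) z =
    if D.cod u x ≤ D.T ^ 2401 ∧ z ∈ cN D.N u x then 1 else 0 := rfl

theorem tg_c (x z : V) : D.tg C j (.inr (.inr (.inl x))) z =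
    if z ≠ x ∧ D.T ^ 2385 ≤ D.cod z x then 1 else 0 := rfl

theorem tg_d (a : V) (i : Fin D.NS) (c : Fin D.k) (x : V) :
    D.tg C j (.inr (.inr (.inr (.inl (a, i, c))))) x = if (i : ℕ) < j ∧ x ∈ D.N a then
      ((univ.filter fun y => y ∈ D.N x ∧ D.lv y = i ∧ hasCol C y c ∧ a ≠ y ∧
        ¬ D.Spc a y).card : ℝ) else 0 := rfl

theorem tg_e (v x : V) : D.tg C j (.inr (.inr (.inr (.inr v)))) x =
    if x ≠ v ∧ ¬ D.Rp v x ∧ (∃ z z', D.Same C z z' ∧
      ¬ D.Spc z z' ∧ D.lv z < j ∧ z ∈ cN D.N v x ∧ z' ∈ cN D.N v x) then 1 else 0 := rfl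

theorem tgm_d (a : V) (i : Fin D.NS) (c : Fin D.k) :
    D.tgm (.inr (.inr (.inr (.inl (a, i, c))))) = D.T ^ 152 := rfl

theorem tgm_a (v : V) : D.tgm (.inl v) = 1 := rfl

theorem tgm_b (p : V × V) : D.tgm (.inr (.inl p)) = 1 := rfl

theorem tgm_c (v : V) : D.tgm (.inr (.inr (.inl v))) = 1 := rfl

theorem tgm_e (v : V) : D.tgm (.inr (.inr (.inr (.inr v)))) = 1 := rfl

theorem tgs_a (v : V) : D.tgs (.inl v) = D.T ^ 3600 := rfl

theorem tgs_b (u x : V) : D.tgs (.inr (.inl (u, x))) =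
    if D.cod u x < D.T ^ 2385 then D.T ^ 2385 else D.T ^ 2401 := rfl

theorem tgs_c (v : V) : D.tgs (.inr (.inr (.inl v))) = D.T ^ 4815 := rfl

theorem tgs_d (a : V) (i : Fin D.NS) (c : Fin D.k) :
    D.tgs (.inr (.inr (.inr (.inl (a, i, c))))) = D.T ^ 2555 := rfl

theorem tgs_e (v : V) : D.tgs (.inr (.inr (.inr (.inr v)))) =
    500 * D.T ^ 9589 / (D.k * D.R) := rfl

theorem tg_nonneg (i : D.TI) (z : V) : 0 ≤ D.tg C j i z := by
  rcases i with v | ⟨u, x⟩ | x | ⟨a, i, c⟩ | v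
  · rw [tg_a]; exact ds_ind _
  · rw [tg_b]; exact ds_ind _
  · rw [tg_c]; exact ds_ind _
  · rw [tg_d]
    split_ifs
    · exact Nat.cast_nonneg _
    · exact le_rfl
  · rw [tg_e]; exact ds_ind _

theorem ind_le_one (p : Prop) [Decidable p] : (if p then (1 : ℝ) else 0) ≤ 1 := by
  split_ifs <;> norm_num

end unf

/-! ## Maximum -/

section mx

variable (hD : D.Ok) {j : ℕ} {C : V → Option (Fin D.k × ℕ)} (h : D.Old C j)
include hD h

/-- The number of vertices of stage `i` and colour `c` in a neighbourhood. -/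
theorem nbc_le {i : ℕ} (hi : i < j) (a : V) (c : Fin D.k) :
    ((univ.filter fun y => D.lv y = i ∧ hasCol C y c ∧ y ∈ D.N a).card : ℝ) ≤ D.T ^ 152 := by
  refine le_trans (le_of_eq ?_) ((h.stat i hi).sB a c)
  unfold L1 wB
  rw [natCast_card_filter]
  refine sum_congr rfl fun y _ => ?_
  by_cases h1 : D.lv y = i ∧ hasCol C y c
  · rw [if_pos h1]
    by_cases h2 : y ∈ D.N a
    · rw [if_pos h2, if_pos ⟨h1.1, h1.2, h2⟩]
    · rw [if_neg h2, if_neg fun h3 => h2 h3.2.2]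
  · rw [if_neg h1, if_neg fun h3 => h1 ⟨h3.1, h3.2.1⟩]

theorem tg_le_tgm (i : D.TI) (z : V) : D.tg C j i z ≤ D.tgm i := by
  rcases i with v | ⟨u, x⟩ | x | ⟨a, i, c⟩ | v
  · rw [tg_a, tgm_a]; exact ind_le_one _
  · rw [tg_b, tgm_b]; exact ind_le_one _
  · rw [tg_c, tgm_c]; exact ind_le_one _
  · rw [tg_d, tgm_d]
    split_ifs with h1
    · refine le_trans ?_ (nbc_le hD h h1.1 z c)
      refine Nat.cast_le.2 (card_le_card fun y hy => ?_)
      rw [mem_filter] at hy ⊢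
      exact ⟨mem_univ _, hy.2.2.1, hy.2.2.2.1, hy.2.1⟩
    · exact (Tp hD _).le
  · rw [tg_e, tgm_e]; exact ind_le_one _

end mx

/-! ## Total weight -/

section tot

variable (hD : D.Ok)
include hD

theorem sum_cod_le (x : V) : ∑ z, D.cod z x ≤ D.T ^ 7200 := by
  have h1 : ∀ z, D.cod z x = ∑ y ∈ D.N x, if z ∈ D.N y then (1 : ℝ) else 0 := by
    intro z
    unfold cod
    rw [sum_boole]
    congr 2
    ext y
    rw [mem_cN, mem_filter, N_comm hD (u := y) (v := z)]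
    exact and_comm
  calc ∑ z, D.cod z x = ∑ z, ∑ y ∈ D.N x, if z ∈ D.N y then (1 : ℝ) else 0 :=
        sum_congr rfl fun z _ => h1 z
    _ = ∑ y ∈ D.N x, ∑ z, if z ∈ D.N y then (1 : ℝ) else 0 := sum_comm
    _ ≤ ∑ y ∈ D.N x, D.T ^ 3600 := by
        refine sum_le_sum fun y _ => ?_
        rw [sum_boole, filter_mem_eq_inter, univ_inter]
        exact Nc hD y
    _ = (D.N x).card * D.T ^ 3600 := by rw [sum_const, nsmul_eq_mul]
    _ ≤ D.T ^ 3600 * D.T ^ 3600 := mul_le_mul_of_nonneg_right (Nc hD x) (Tp hD _).le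
    _ = D.T ^ 7200 := by rw [← pow_add]

theorem far_le (x : V) :
    ((univ.filter fun z => z ≠ x ∧ D.T ^ 2385 ≤ D.cod z x).card : ℝ) ≤ D.T ^ 4815 := by
  have h1 : ((univ.filter fun z => z ≠ x ∧ D.T ^ 2385 ≤ D.cod z x).card : ℝ) * D.T ^ 2385 ≤
      D.T ^ 4815 * D.T ^ 2385 := by
    calc ((univ.filter fun z => z ≠ x ∧ D.T ^ 2385 ≤ D.cod z x).card : ℝ) * D.T ^ 2385 =
          ∑ z ∈ univ.filter fun z => z ≠ x ∧ D.T ^ 2385 ≤ D.cod z x, D.T ^ 2385 := by
            rw [sum_const, nsmul_eq_mul]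
      _ ≤ ∑ z ∈ univ.filter fun z => z ≠ x ∧ D.T ^ 2385 ≤ D.cod z x, D.cod z x :=
            sum_le_sum fun z hz => (mem_filter.1 hz).2.2
      _ ≤ ∑ z, D.cod z x :=
            sum_le_sum_of_subset_of_nonneg (filter_subset _ _) fun z _ _ => cod_nonneg _ _
      _ ≤ D.T ^ 7200 := sum_cod_le hD x
      _ = D.T ^ 4815 * D.T ^ 2385 := by rw [← pow_add]
  exact le_of_mul_le_mul_right h1 (Tp hD _)

/-- Double counting for the fourth test, over any set of middle vertices. -/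
theorem tgd_sum (C : V → Option (Fin D.k × ℕ)) (i : ℕ) (a : V) (c : Fin D.k) (P : V → Prop)
    [DecidablePred P] :
    ∑ x, (if P x ∧ x ∈ D.N a then
      ((univ.filter fun y => y ∈ D.N x ∧ D.lv y = i ∧ hasCol C y c ∧ a ≠ y ∧
        ¬ D.Spc a y).card : ℝ) else 0) =
    D.L1 C i c fun y => if a ≠ y ∧ ¬ D.Spc a y then
      (((cN D.N a y).filter P).card : ℝ) else 0 := by
  unfold L1
  have h1 : ∀ x, (if P x ∧ x ∈ D.N a then
      ((univ.filter fun y => y ∈ D.N x ∧ D.lv y = i ∧ hasCol C y c ∧ a ≠ y ∧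
        ¬ D.Spc a y).card : ℝ) else 0) =
      ∑ y, if (P x ∧ x ∈ D.N a) ∧ y ∈ D.N x ∧ D.lv y = i ∧ hasCol C y c ∧ a ≠ y ∧
        ¬ D.Spc a y then (1 : ℝ) else 0 := by
    intro x
    by_cases h2 : P x ∧ x ∈ D.N a
    · rw [if_pos h2, natCast_card_filter]
      refine sum_congr rfl fun y _ => if_congr ?_ rfl rfl
      exact ⟨fun h3 => ⟨h2, h3⟩, fun h3 => h3.2⟩
    · rw [if_neg h2]
      exact (sum_eq_zero fun y _ => if_neg fun h3 => h2 h3.1).symm
  rw [sum_congr rfl fun x _ => h1 x, sum_comm]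
  refine sum_congr rfl fun y _ => ?_
  beta_reduce
  by_cases h3 : D.lv y = i ∧ hasCol C y c
  · rw [if_pos h3]
    by_cases h4 : a ≠ y ∧ ¬ D.Spc a y
    · rw [if_pos h4, card_filter, Nat.cast_sum]
      have h5 : ∑ x ∈ cN D.N a y, ((if P x then 1 else 0 : ℕ) : ℝ) =
          ∑ x, if x ∈ cN D.N a y ∧ P x then (1 : ℝ) else 0 := by
        rw [← sum_filter_add_sum_filter_not univ (fun x => x ∈ cN D.N a y)]
        rw [filter_mem_eq_inter, univ_inter]
        rw [sum_eq_zero (s := univ.filter fun x => ¬ x ∈ cN D.N a y), add_zero]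
        · refine sum_congr rfl fun x hx => ?_
          by_cases h6 : P x
          · rw [if_pos h6, if_pos ⟨hx, h6⟩, Nat.cast_one]
          · rw [if_neg h6, if_neg fun h7 => h6 h7.2, Nat.cast_zero]
        · intro x hx
          rw [mem_filter] at hx
          exact if_neg fun h7 => hx.2 h7.1
      rw [h5]
      refine sum_congr rfl fun x _ => if_congr ?_ rfl rfl
      rw [mem_cN, N_comm hD (u := y) (v := x)]
      constructor
      · rintro ⟨⟨g1, g2⟩, g3, -⟩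
        exact ⟨⟨g2, g3⟩, g1⟩
      · rintro ⟨⟨g2, g3⟩, g1⟩
        exact ⟨⟨g1, g2⟩, g3, h3.1, h3.2, h4.1, h4.2⟩
    · rw [if_neg h4]
      exact sum_eq_zero fun x _ => if_neg fun h5 => h4 h5.2.2.2.2
  · rw [if_neg h3]
    exact sum_eq_zero fun x _ => if_neg fun h5 => h3 ⟨h5.2.2.1, h5.2.2.2.1⟩

theorem tge_sum {j : ℕ} (hj : j ≤ D.NS) {C : V → Option (Fin D.k × ℕ)} (h : D.Old C j) (v : V) :
    ∑ x, D.tg C j (.inr (.inr (.inr (.inr v)))) x ≤ 500 * D.T ^ 9589 / (D.k * D.R) := by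
  set g : ℕ → V → V → V → ℝ := fun i y y' x =>
    if (D.lv y = i ∧ D.Same C y y') ∧ ((y ∈ D.N v ∧ y' ∈ D.N v) ∧ ¬ D.Spc y y') ∧
      x ∈ cN D.N y y' ∧ x ≠ v ∧ D.cod x v < D.T ^ 2385 then 1 else 0 with hg
  have g0 : ∀ i y y' x, 0 ≤ g i y y' x := fun i y y' x => ds_ind _
  have h1 : ∀ x, D.tg C j (.inr (.inr (.inr (.inr v)))) x ≤
      ∑ i ∈ range j, ∑ y, ∑ y', g i y y' x := by
    intro x
    rw [tg_e]
    split_ifs with hx
    · obtain ⟨hxv, hR, z, z', hs, hn, hl, hz, hz'⟩ := hx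
      have e1 : g (D.lv z) z z' x = 1 := by
        refine if_pos ⟨⟨rfl, hs⟩, ⟨⟨(mem_cN.1 hz).1, (mem_cN.1 hz').1⟩, hn⟩,
          mem_cN.2 ⟨hD.N_symm _ _ (mem_cN.1 hz).2, hD.N_symm _ _ (mem_cN.1 hz').2⟩, hxv, ?_⟩
        rw [cod_symm]
        exact cod_lt_of_not_Rp hD hxv.symm hR
      calc (1 : ℝ) = g (D.lv z) z z' x := e1.symm
        _ ≤ ∑ y', g (D.lv z) z y' x :=
          single_le_sum (f := fun y' => g (D.lv z) z y' x) (fun y' _ => g0 _ _ _ _) (mem_univ z')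
        _ ≤ ∑ y, ∑ y', g (D.lv z) y y' x :=
          single_le_sum (f := fun y => ∑ y', g (D.lv z) y y' x)
            (fun y _ => sum_nonneg fun _ _ => g0 _ _ _ _) (mem_univ z)
        _ ≤ ∑ i ∈ range j, ∑ y, ∑ y', g i y y' x :=
          single_le_sum (f := fun i => ∑ y, ∑ y', g i y y' x)
            (fun i _ => sum_nonneg fun _ _ => sum_nonneg fun _ _ => g0 _ _ _ _)
            (mem_range.2 hl)
    · exact sum_nonneg fun _ _ => sum_nonneg fun _ _ => sum_nonneg fun _ _ => g0 _ _ _ _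
  have h2 : ∀ i y y', ∑ x, g i y y' x =
      if D.lv y = i ∧ D.Same C y y' then D.wQ v y y' else 0 := by
    intro i y y'
    by_cases h3 : D.lv y = i ∧ D.Same C y y'
    · rw [if_pos h3]
      unfold wQ
      by_cases h4 : (y ∈ D.N v ∧ y' ∈ D.N v) ∧ ¬ D.Spc y y'
      · rw [if_pos h4]
        have h5 : (univ.filter fun x => x ∈ cN D.N y y' ∧ x ≠ v ∧ D.cod x v < D.T ^ 2385) =
            (cN D.N y y').filter fun x => x ≠ v ∧ D.cod x v < D.T ^ 2385 := by
          ext x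
          simp only [mem_filter, mem_univ, true_and]
        rw [← h5, natCast_card_filter]
        refine sum_congr rfl fun x _ => if_congr ?_ rfl rfl
        exact ⟨fun h6 => h6.2.2, fun h6 => ⟨h3, h4, h6⟩⟩
      · rw [if_neg h4]
        exact sum_eq_zero fun x _ => if_neg fun h5 => h4 h5.2.1
    · rw [if_neg h3]
      exact sum_eq_zero fun x _ => if_neg fun h5 => h3 h5.1
  have hT := T0 hD
  have hk := k0 hD
  have hR := R0 hD
  calc ∑ x, D.tg C j (.inr (.inr (.inr (.inr v)))) x ≤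
        ∑ x, ∑ i ∈ range j, ∑ y, ∑ y', g i y y' x := sum_le_sum fun x _ => h1 x
    _ = ∑ i ∈ range j, ∑ x, ∑ y, ∑ y', g i y y' x := sum_comm
    _ = ∑ i ∈ range j, D.S2 C i (D.wQ v) := by
        refine sum_congr rfl fun i _ => ?_
        unfold S2
        rw [sum_comm]
        refine sum_congr rfl fun y _ => ?_
        rw [sum_comm]
        exact sum_congr rfl fun y' _ => h2 i y y'
    _ ≤ ∑ i ∈ range j, 500 * (D.T ^ 9588 / (D.k * D.R ^ 2)) :=
        sum_le_sum fun i hi => (h.stat i (mem_range.1 hi)).sQ v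
    _ = j * (500 * (D.T ^ 9588 / (D.k * D.R ^ 2))) := by
        rw [sum_const, card_range, nsmul_eq_mul]
    _ ≤ (D.T * D.R) * (500 * (D.T ^ 9588 / (D.k * D.R ^ 2))) := by
        refine mul_le_mul_of_nonneg_right ?_ (by positivity)
        exact le_trans (by exact_mod_cast hj) hD.NS_hi
    _ = 500 * D.T ^ 9589 / (D.k * D.R) := by
        rw [pow_succ' D.T 9588]
        field_simp

theorem tg_sum_le {j : ℕ} (hj : j ≤ D.NS) {C : V → Option (Fin D.k × ℕ)} (h : D.Old C j)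
    (i : D.TI) : ∑ z, D.tg C j i z ≤ D.tgs i := by
  rcases i with v | ⟨u, x⟩ | x | ⟨a, i, c⟩ | v
  · rw [tgs_a, sum_congr rfl fun z _ => tg_a C j v z, sum_boole, filter_mem_eq_inter, univ_inter]
    exact Nc hD v
  · rw [tgs_b, sum_congr rfl fun z _ => tg_b C j u x z, sum_boole]
    by_cases h1 : D.cod u x ≤ D.T ^ 2401
    · have h2 : (univ.filter fun z => D.cod u x ≤ D.T ^ 2401 ∧ z ∈ cN D.N u x) =
          cN D.N u x := by
        ext z
        simp only [mem_filter, mem_univ, true_and]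
        exact ⟨fun h3 => h3.2, fun h3 => ⟨h1, h3⟩⟩
      rw [h2]
      split_ifs with h3
      · exact h3.le
      · exact h1
    · rw [filter_false_of_mem fun z _ h2 => h1 h2.1, card_empty, Nat.cast_zero]
      split_ifs <;> exact (Tp hD _).le
  · rw [tgs_c, sum_congr rfl fun z _ => tg_c C j x z, sum_boole]
    exact far_le hD x
  · rw [tgs_d, sum_congr rfl fun z _ => tg_d C j a i c z]
    by_cases hi : (i : ℕ) < j
    · rw [tgd_sum hD C i a c fun _ => (i : ℕ) < j]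
      refine le_trans (le_of_eq ?_) ((h.stat i hi).sL a c)
      unfold L1 wL cod
      refine sum_congr rfl fun y _ => if_congr Iff.rfl (if_congr Iff.rfl ?_ rfl) rfl
      rw [filter_true_of_mem fun _ _ => hi]
    · rw [sum_eq_zero fun z _ => if_neg fun h1 => hi h1.1]
      exact (Tp hD _).le
  · rw [tgs_e]
    exact tge_sum hD hj h v

end tot

/-! ## Supports -/

/-- Root of a test. -/
def trt : D.TI → V
  | .inl v => v
  | .inr (.inl (u, _)) => u
  | .inr (.inr (.inl x)) => x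
  | .inr (.inr (.inr (.inl (a, _, _)))) => a
  | .inr (.inr (.inr (.inr v))) => v

section supp

variable (hD : D.Ok)
include hD

theorem tg_ball {C : V → Option (Fin D.k × ℕ)} {j : ℕ} {i : D.TI} {z : V}
    (h : D.tg C j i z ≠ 0) : z ∈ D.ball 2 (trt i) := by
  rcases i with v | ⟨u, x⟩ | x | ⟨a, i, c⟩ | v
  · rw [tg_a] at h
    have h1 : z ∈ D.N v := by
      by_contra h1
      exact h (if_neg h1)
    exact ball_succ_of_mem (mem_ball_one h1)
  · rw [tg_b] at h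
    have h1 : D.cod u x ≤ D.T ^ 2401 ∧ z ∈ cN D.N u x := by
      by_contra h1
      exact h (if_neg h1)
    exact ball_succ_of_mem (mem_ball_one (mem_cN.1 h1.2).1)
  · rw [tg_c] at h
    have h1 : z ≠ x ∧ D.T ^ 2385 ≤ D.cod z x := by
      by_contra h1
      exact h (if_neg h1)
    have h2 : 0 < D.cod z x := lt_of_lt_of_le (Tp hD _) h1.2
    have h3 : (cN D.N z x).Nonempty := by
      rw [← card_pos]
      unfold cod at h2
      exact_mod_cast h2
    obtain ⟨y, hy⟩ := h3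
    exact ball_step (mem_ball_one (mem_cN.1 hy).2) (hD.N_symm _ _ (mem_cN.1 hy).1)
  · rw [tg_d] at h
    have h1 : (i : ℕ) < j ∧ z ∈ D.N a := by
      by_contra h1
      exact h (if_neg h1)
    exact ball_succ_of_mem (mem_ball_one h1.2)
  · rw [tg_e] at h
    have h1 := of_not_not fun h1 => h (if_neg h1)
    obtain ⟨-, -, y, -, -, -, -, hy, -⟩ := h1
    exact ball_step (mem_ball_one (mem_cN.1 hy).1) (hD.N_symm _ _ (mem_cN.1 hy).2)

theorem tg_supp (C : V → Option (Fin D.k × ℕ)) (j : ℕ) (i : D.TI) :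
    ((univ.filter fun z => D.tg C j i z ≠ 0).card : ℝ) ≤ D.T ^ 10000 := by
  refine le_trans (Nat.cast_le.2 (card_le_card fun z hz => ?_)) ((ball_card hD 2 (trt i)).trans
    (hD.big.pw (by norm_num)))
  exact tg_ball hD (mem_filter.1 hz).2

theorem NS_le : (D.NS : ℝ) ≤ D.T ^ 801 := by
  refine hD.NS_hi.trans ?_
  rw [pow_succ' D.T 800]
  exact mul_le_mul_of_nonneg_left hD.R_hi (T0 hD).le

theorem cnt_ball (P : V → Prop) [DecidablePred P] (z : V) (h : ∀ v, P v → z ∈ D.ball 2 v) :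
    ((univ.filter P).card : ℝ) ≤ D.T ^ 8401 := by
  have h1 : univ.filter P ⊆ D.ball 2 z := fun v hv => ball_symm hD (h v (mem_filter.1 hv).2)
  have h2 : ((univ.filter P).card : ℝ) ≤ (D.ball 2 z).card := Nat.cast_le.2 (card_le_card h1)
  exact h2.trans ((ball_card hD 2 z).trans (hD.big.pw (by norm_num)))

theorem tg_cnt (C : V → Option (Fin D.k × ℕ)) (j : ℕ) (z : V) :
    ((univ.filter fun i => D.tg C j i z ≠ 0).card : ℝ) ≤ D.T ^ 20000 := by
  rw [natCast_card_filter, Fintype.sum_sum_type, Fintype.sum_sum_type, Fintype.sum_sum_type,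
    Fintype.sum_sum_type, ← natCast_card_filter, ← natCast_card_filter, ← natCast_card_filter,
    ← natCast_card_filter, ← natCast_card_filter]
  have h1 : ((univ.filter fun v : V => D.tg C j (.inl v) z ≠ 0).card : ℝ) ≤ D.T ^ 8401 :=
    cnt_ball hD _ z fun v hv => tg_ball (i := .inl v) hD hv
  have h3 : ((univ.filter fun v : V => D.tg C j (.inr (.inr (.inl v))) z ≠ 0).card : ℝ) ≤
      D.T ^ 8401 := cnt_ball hD _ z fun v hv => tg_ball (i := .inr (.inr (.inl v))) hD hv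
  have h5 : ((univ.filter fun v : V =>
      D.tg C j (.inr (.inr (.inr (.inr v)))) z ≠ 0).card : ℝ) ≤ D.T ^ 8401 :=
    cnt_ball hD _ z fun v hv => tg_ball (i := .inr (.inr (.inr (.inr v)))) hD hv
  have h2 : ((univ.filter fun p : V × V => D.tg C j (.inr (.inl p)) z ≠ 0).card : ℝ) ≤
      D.T ^ 8401 := by
    have h6 : (univ.filter fun p : V × V => D.tg C j (.inr (.inl p)) z ≠ 0) ⊆
        D.N z ×ˢ D.N z := by
      rintro ⟨u, x⟩ hp
      have h7 := (mem_filter.1 hp).2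
      rw [tg_b] at h7
      have h8 : D.cod u x ≤ D.T ^ 2401 ∧ z ∈ cN D.N u x := by
        by_contra h8
        exact h7 (if_neg h8)
      exact mem_product.2 ⟨hD.N_symm _ _ (mem_cN.1 h8.2).1, hD.N_symm _ _ (mem_cN.1 h8.2).2⟩
    calc ((univ.filter fun p : V × V => D.tg C j (.inr (.inl p)) z ≠ 0).card : ℝ) ≤
          ((D.N z ×ˢ D.N z).card : ℝ) := Nat.cast_le.2 (card_le_card h6)
      _ = (D.N z).card * (D.N z).card := by rw [card_product, Nat.cast_mul]
      _ ≤ D.T ^ 3600 * D.T ^ 3600 :=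
          mul_le_mul (Nc hD z) (Nc hD z) (Nat.cast_nonneg _) (Tp hD _).le
      _ = D.T ^ 7200 := by rw [← pow_add]
      _ ≤ D.T ^ 8401 := hD.big.pw (by norm_num)
  have h4 : ((univ.filter fun p : V × Fin D.NS × Fin D.k =>
      D.tg C j (.inr (.inr (.inr (.inl p)))) z ≠ 0).card : ℝ) ≤ D.T ^ 8401 := by
    have h6 : (univ.filter fun p : V × Fin D.NS × Fin D.k =>
        D.tg C j (.inr (.inr (.inr (.inl p)))) z ≠ 0) ⊆
        D.N z ×ˢ (univ : Finset (Fin D.NS × Fin D.k)) := by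
      rintro ⟨a, i, c⟩ hp
      have h7 := (mem_filter.1 hp).2
      rw [tg_d] at h7
      have h8 : (i : ℕ) < j ∧ z ∈ D.N a := by
        by_contra h8
        exact h7 (if_neg h8)
      exact mem_product.2 ⟨hD.N_symm _ _ h8.2, mem_univ _⟩
    calc ((univ.filter fun p : V × Fin D.NS × Fin D.k =>
          D.tg C j (.inr (.inr (.inr (.inl p)))) z ≠ 0).card : ℝ) ≤
          ((D.N z ×ˢ (univ : Finset (Fin D.NS × Fin D.k))).card : ℝ) :=
            Nat.cast_le.2 (card_le_card h6)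
      _ = (D.N z).card * (D.NS * D.k) := by
          rw [card_product, card_univ, Fintype.card_prod, Fintype.card_fin, Fintype.card_fin]
          push_cast
          rfl
      _ ≤ D.T ^ 3600 * (D.T ^ 801 * D.T ^ 4000) :=
          mul_le_mul (Nc hD z) (mul_le_mul (NS_le hD) hD.k_hi (Nat.cast_nonneg _) (Tp hD _).le)
            (by positivity) (Tp hD _).le
      _ = D.T ^ 8401 := by rw [← pow_add, ← pow_add]
  have h6 : 5 * D.T ^ 8401 ≤ D.T ^ 20000 := num_pow hD (by norm_num) (by norm_num)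
  linarith

end supp

theorem tg_ok (hD : D.Ok) {j : ℕ} (hj : j ≤ D.NS) {C : V → Option (Fin D.k × ℕ)}
    (h : D.Old C j) :
    (∀ i z, 0 ≤ D.tg C j i z) ∧ (∀ i z, D.tg C j i z ≤ D.tgm i) ∧
    (∀ i, ∑ z, D.tg C j i z ≤ D.tgs i) ∧
    (∀ i, ((univ.filter fun z => D.tg C j i z ≠ 0).card : ℝ) ≤ D.T ^ 10000) ∧
    ∀ z, ((univ.filter fun i => D.tg C j i z ≠ 0).card : ℝ) ≤ D.T ^ 20000 :=
  ⟨tg_nonneg C j, tg_le_tgm hD h, tg_sum_le hD hj h, tg_supp hD C j, tg_cnt hD C j⟩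

/-! ## The chosen stage is typical -/

section past

variable (hD : D.Ok)
include hD

theorem sqrt_pw {a : ℕ} {x : ℝ} (h : x ≤ D.T ^ (2 * a)) : Real.sqrt x ≤ D.T ^ a := by
  rw [Real.sqrt_le_left (Tp hD a).le, ← pow_mul, mul_comm a 2]
  exact h

/-- The deviation is smaller than the mean. -/
theorem lin_le (a b : ℕ) (h1 : a ≤ 799 + 2 * b) (h2 : b + 802 ≤ a) :
    D.T ^ a / D.R + D.T ^ 2 * 1 + D.T ^ 2 * Real.sqrt (1 * D.T ^ a / D.R) ≤
      3 * (D.T ^ a / D.R) := by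
  have h3 : Real.sqrt (1 * D.T ^ a / D.R) ≤ D.T ^ b := by
    rw [one_mul]
    exact sqrt_pw hD (div_R hD h1)
  have h4 : D.T ^ (b + 2) ≤ D.T ^ a / D.R := le_div_R hD (by omega)
  have h5 : D.T ^ 2 ≤ D.T ^ (b + 2) := hD.big.pw (by omega)
  have h6 : D.T ^ 2 * Real.sqrt (1 * D.T ^ a / D.R) ≤ D.T ^ (b + 2) := by
    rw [pow_add, mul_comm (D.T ^ b)]
    exact mul_le_mul_of_nonneg_left h3 (Tp hD _).le
  linarith

variable {j : ℕ} (hj : j ≤ D.NS) {C : V → Option (Fin D.k × ℕ)} (h : D.Old C j)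
  {U : Finset V} {i : D.TI}
  (ht : |∑ z ∈ U, D.tg C j i z - 1 / D.R * ∑ z, D.tg C j i z| ≤
      D.T ^ 2 * D.tgm i + D.T ^ 2 * Real.sqrt (D.tgm i * D.tgs i / D.R))
include hj h ht

theorem test_U : ∑ z ∈ U, D.tg C j i z ≤
    D.tgs i / D.R + D.T ^ 2 * D.tgm i + D.T ^ 2 * Real.sqrt (D.tgm i * D.tgs i / D.R) := by
  have h1 := (abs_le.1 ht).2
  have h2 : 1 / D.R * ∑ z, D.tg C j i z ≤ 1 / D.R * D.tgs i :=
    mul_le_mul_of_nonneg_left (tg_sum_le hD hj h i) (by positivity)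
  have h3 : 1 / (D.R : ℝ) * D.tgs i = D.tgs i / D.R := by ring
  linarith

theorem cnt_U {s : Finset V} (hs : ∀ z ∈ s, z ∈ U ∧ 1 ≤ D.tg C j i z) : (s.card : ℝ) ≤
    D.tgs i / D.R + D.T ^ 2 * D.tgm i + D.T ^ 2 * Real.sqrt (D.tgm i * D.tgs i / D.R) := by
  refine le_trans ?_ (test_U hD hj h ht)
  calc (s.card : ℝ) = ∑ z ∈ s, (1 : ℝ) := by rw [sum_const, nsmul_eq_mul, mul_one]
    _ ≤ ∑ z ∈ s, D.tg C j i z := sum_le_sum fun z hz => (hs z hz).2
    _ ≤ ∑ z ∈ U, D.tg C j i z :=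
        sum_le_sum_of_subset_of_nonneg (fun z hz => (hs z hz).1) fun z _ _ => tg_nonneg C j i z

end past

theorem past_of (hD : D.Ok) {j : ℕ} (hj : j < D.NS) {C : V → Option (Fin D.k × ℕ)}
    (h : D.Old C j) (hC : ∀ v, j ≤ D.lv v → C v = none) {U : Finset V}
    (hU : ∀ v, D.lv v = j → v ∈ U)
    (ht : ∀ i, |∑ z ∈ U, D.tg C j i z - 1 / D.R * ∑ z, D.tg C j i z| ≤
      D.T ^ 2 * D.tgm i + D.T ^ 2 * Real.sqrt (D.tgm i * D.tgs i / D.R)) : D.Past C j := by
  have hb1 : ∀ v, (((D.N v).filter fun z => D.lv z = j).card : ℝ) ≤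
      3 * (D.T ^ 3600 / D.R) := by
    intro v
    refine (cnt_U hD hj.le h (ht (.inl v)) fun z hz => ?_).trans
      (lin_le hD 3600 1401 (by norm_num) (by norm_num))
    rw [mem_filter] at hz
    refine ⟨hU z hz.2, ?_⟩
    rw [tg_a, if_pos hz.1]
  have hb2 : ∀ u x, D.cod u x ≤ D.T ^ 2401 →
      (((cN D.N u x).filter fun z => D.lv z = j).card : ℝ) ≤
        D.tgs (.inr (.inl (u, x))) / D.R + D.T ^ 2 * D.tgm (.inr (.inl (u, x))) +
          D.T ^ 2 * Real.sqrt (D.tgm (.inr (.inl (u, x))) * D.tgs (.inr (.inl (u, x))) /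
            D.R) := by
    intro u x hx
    refine cnt_U hD hj.le h (ht (.inr (.inl (u, x)))) fun z hz => ?_
    rw [mem_filter] at hz
    refine ⟨hU z hz.2, ?_⟩
    rw [tg_b, if_pos ⟨hx, hz.1⟩]
  have hb2l : ∀ u x, D.cod u x < D.T ^ 2385 →
      (((cN D.N u x).filter fun z => D.lv z = j).card : ℝ) ≤ 3 * (D.T ^ 2385 / D.R) := by
    intro u x hx
    refine (hb2 u x (hx.le.trans (hD.big.pw (by norm_num)))).trans ?_
    rw [tgs_b, tgm_b, if_pos hx]
    exact lin_le hD 2385 793 (by norm_num) (by norm_num)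
  have hpart : D.PartAt j := by
    refine ⟨hb1, fun u x hx => ?_, hb2l, fun x => ?_⟩
    · by_cases h1 : D.cod u x < D.T ^ 2385
      · refine (hb2l u x h1).trans ?_
        have h2 := div_R hD (show 2385 ≤ 799 + 1586 by norm_num)
        have h3 : 3 * D.T ^ 1586 ≤ D.T ^ 1604 := num_pow hD (by norm_num) (by norm_num)
        linarith
      · refine (hb2 u x hx).trans ?_
        rw [tgs_b, tgm_b, if_neg h1]
        refine (lin_le hD 2401 801 (by norm_num) (by norm_num)).trans ?_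
        have h2 := div_R hD (show 2401 ≤ 799 + 1602 by norm_num)
        have h3 : 3 * D.T ^ 1602 ≤ D.T ^ 1604 := num_pow hD (by norm_num) (by norm_num)
        linarith
    · refine (cnt_U hD hj.le h (ht (.inr (.inr (.inl x)))) fun z hz => ?_).trans ?_
      · obtain ⟨-, hz1, hz2, hz3⟩ := mem_filter.1 hz
        refine ⟨hU z hz3, ?_⟩
        rw [tg_c, if_pos ⟨hz1, hz2⟩]
      · rw [tgs_c, tgm_c]
        refine (lin_le hD 4815 2008 (by norm_num) (by norm_num)).trans ?_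
        have h2 := div_R hD (show 4815 ≤ 799 + 4016 by norm_num)
        have h3 : 3 * D.T ^ 4016 ≤ D.T ^ 4018 := num_pow hD (by norm_num) (by norm_num)
        linarith
  refine ⟨⟨hj, fun i hi => ?_⟩, hC, h, fun i hi a c => ?_, fun v hv => ?_⟩
  · rcases hi.lt_or_eq with h1 | h1
    · exact h.part i h1
    · rw [h1]
      exact hpart
  · have h1 := test_U hD hj.le h (ht (.inr (.inr (.inr (.inl (a, ⟨i, hi.trans hj⟩, c))))))
    rw [tgs_d, tgm_d] at h1
    have h2 : D.L1 C i c (D.wLj a j) ≤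
        ∑ z ∈ U, D.tg C j (.inr (.inr (.inr (.inl (a, ⟨i, hi.trans hj⟩, c))))) z := by
      have h3 := tgd_sum hD C i a c fun x => D.lv x = j
      have h4 : D.L1 C i c (D.wLj a j) = D.L1 C i c fun y => if a ≠ y ∧ ¬ D.Spc a y then
          (((cN D.N a y).filter fun x => D.lv x = j).card : ℝ) else 0 := rfl
      rw [h4, ← h3, ← sum_filter_add_sum_filter_not univ (fun x => x ∈ U), filter_mem_eq_inter,
        univ_inter]
      rw [sum_eq_zero (s := univ.filter fun x => ¬ x ∈ U), add_zero]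
      · refine sum_le_sum fun x _ => ?_
        rw [tg_d]
        by_cases h5 : D.lv x = j ∧ x ∈ D.N a
        · rw [if_pos h5, if_pos ⟨hi, h5.2⟩]
        · rw [if_neg h5]
          split_ifs
          · exact Nat.cast_nonneg _
          · exact le_rfl
      · intro x hx
        rw [mem_filter] at hx
        exact if_neg fun h5 => hx.2 (hU x h5.1)
    have h5 := div_R hD (show 2555 ≤ 799 + 1756 by norm_num)
    have h6 : Real.sqrt (D.T ^ 152 * D.T ^ 2555 / D.R) ≤ D.T ^ 954 := by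
      rw [← pow_add]
      exact sqrt_pw hD (div_R hD (by norm_num))
    have h7 : D.T ^ 2 * Real.sqrt (D.T ^ 152 * D.T ^ 2555 / D.R) ≤ D.T ^ 1756 := by
      calc D.T ^ 2 * Real.sqrt (D.T ^ 152 * D.T ^ 2555 / D.R) ≤ D.T ^ 2 * D.T ^ 954 :=
            mul_le_mul_of_nonneg_left h6 (Tp hD _).le
        _ = D.T ^ 956 := by rw [← pow_add]
        _ ≤ D.T ^ 1756 := hD.big.pw (by norm_num)
    have h8 : D.T ^ 2 * D.T ^ 152 ≤ D.T ^ 1756 := by
      rw [← pow_add]
      exact hD.big.pw (by norm_num)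
    have h9 : 3 * D.T ^ 1756 ≤ D.T ^ 1757 := num_pow hD (by norm_num) (by norm_num)
    linarith
  · have h0 : ∀ z ∈ univ.filter fun x => D.Cf C v x,
        z ∈ U ∧ 1 ≤ D.tg C j (.inr (.inr (.inr (.inr v)))) z := by
      intro z hz
      obtain ⟨-, g1, g2, g3, y, y', g4, g5, g6, g7, g8⟩ := mem_filter.1 hz
      refine ⟨hU z (g2.trans hv), ?_⟩
      rw [tg_e, if_pos ⟨g1, g3, y, y', g4, g5, hv ▸ g6, g7, g8⟩]
    have h1 := cnt_U hD hj.le h (ht (.inr (.inr (.inr (.inr v))))) h0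
    rw [tgs_e, tgm_e] at h1
    have hR := R0 hD
    have h2 : 500 * D.T ^ 9589 / (D.k * D.R) ≤ D.T ^ 4791 := by
      rw [div_le_iff₀ (mul_pos (k0 hD) hR)]
      calc 500 * D.T ^ 9589 ≤ D.T ^ 9590 := num_pow hD (by norm_num) (by norm_num)
        _ = D.T ^ 4791 * D.T ^ 4799 := by rw [← pow_add]
        _ ≤ D.T ^ 4791 * (D.k * D.R) := mul_le_mul_of_nonneg_left hD.kR (Tp hD _).le
    have h3 : 500 * D.T ^ 9589 / (D.k * D.R) / D.R ≤ D.T ^ 4791 / D.R :=
      div_le_div_of_nonneg_right h2 hR.le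
    have h4 : Real.sqrt (1 * (500 * D.T ^ 9589 / (D.k * D.R)) / D.R) ≤
        Real.sqrt (1 * D.T ^ 4791 / D.R) := by
      refine Real.sqrt_le_sqrt ?_
      rw [one_mul, one_mul]
      exact h3
    have h5 := mul_le_mul_of_nonneg_left h4 (Tp hD 2).le
    have h6 := lin_le hD 4791 1996 (by norm_num) (by norm_num)
    have h7 : 3 * (D.T ^ 4791 / D.R) ≤ D.cfB := by
      unfold cfB
      rw [← mul_div_assoc]
      exact div_le_div_of_nonneg_right (num_pow hD (by norm_num) (by norm_num)) hR.le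
    linarith

end DD

end

end Pool.Agent.AcyGD
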