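import Pool.Agent.AcyGD.Defs
import Pool.Agent.AcyK.DBase

/-! # Basic lemmas of the D-part for general graphs (helper44), ported from `AcyK/DBase` -/

set_option autoImplicit false
set_option linter.unusedSectionVars false

namespace Pool.Agent.AcyGD

open Finset
open Pool.Agent.Acy (IsPM wt Ex Pr mean cnt ext Holds)
open Pool.Agent.AcyK
open scoped Classical

universe u v

section

variable {V : Type u} [Fintype V] [DecidableEq V]

namespace DD

variable {D : DD V}

theorem cN_comm (N : V → Finset V) (u x : V) : cN N u x = cN N x u := by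
  unfold cN
  exact inter_comm _ _

theorem cod_symm (u x : V) : D.cod u x = D.cod x u := by
  unfold cod
  rw [cN_comm]

theorem mem_cN {u x z : V} : z ∈ cN D.N u x ↔ z ∈ D.N u ∧ z ∈ D.N x := by
  unfold cN
  rw [mem_inter]

theorem cod_nonneg (u x : V) : 0 ≤ D.cod u x := Nat.cast_nonneg _

/-! ## Numbers -/

section num

variable (hD : D.Ok)
include hD

theorem Tb : (1000000 : ℝ) ≤ D.T := by
  have := hD.big.big
  norm_num at this
  exact this

theorem T1' : 1 ≤ D.T := hD.big.one_le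

theorem T1 : 1 ≤ D.T := hD.big.one_le

theorem T0 : 0 < D.T := hD.big.pos

theorem Tp (a : ℕ) : 0 < D.T ^ a := pow_pos (T0 hD) a

theorem k0 : (0 : ℝ) < D.k := lt_of_lt_of_le (Tp hD 3999) hD.k_lo

theorem k_pos : (0 : ℝ) < D.k := k0 hD

theorem R0 : (0 : ℝ) < D.R := lt_of_lt_of_le (Tp hD 799) hD.R_lo

/-- A power divided by `k`. -/
theorem div_k' {a b : ℕ} (h : a ≤ 3999 + b) : D.T ^ a / D.k ≤ D.T ^ b := by
  rw [div_le_iff₀ (k_pos hD)]
  calc D.T ^ a ≤ D.T ^ (b + 3999) := hD.big.pw (by omega)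
    _ = D.T ^ b * D.T ^ 3999 := pow_add _ _ _
    _ ≤ D.T ^ b * D.k := mul_le_mul_of_nonneg_left hD.k_lo (pow_nonneg (T0 hD).le _)

/-- A power divided by `R`. -/
theorem div_R {a b : ℕ} (h : a ≤ 799 + b) : D.T ^ a / D.R ≤ D.T ^ b := by
  rw [div_le_iff₀ (R0 hD)]
  calc D.T ^ a ≤ D.T ^ (b + 799) := hD.big.pw (by omega)
    _ = D.T ^ b * D.T ^ 799 := pow_add _ _ _
    _ ≤ D.T ^ b * D.R := mul_le_mul_of_nonneg_left hD.R_lo (pow_nonneg (T0 hD).le _)

/-- A power divided by `R`, from below. -/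
theorem le_div_R {a b : ℕ} (h : b + 800 ≤ a) : D.T ^ b ≤ D.T ^ a / D.R := by
  rw [le_div_iff₀ (R0 hD)]
  calc D.T ^ b * D.R ≤ D.T ^ b * D.T ^ 800 :=
        mul_le_mul_of_nonneg_left hD.R_hi (pow_nonneg (T0 hD).le _)
    _ = D.T ^ (b + 800) := (pow_add _ _ _).symm
    _ ≤ D.T ^ a := hD.big.pw h

theorem mM {m : ℕ} (h : m ≤ D.M) : (m : ℝ) ≤ D.T ^ 150 :=
  le_trans (by exact_mod_cast h) hD.M_hi

theorem m_le {m : ℕ} (h : m ≤ D.M) : (m : ℝ) ≤ D.T ^ 150 := mM hD h

/-- A power of `T` absorbs a constant. -/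
theorem num_pow {c : ℝ} (hc : c ≤ 1000000) {a b : ℕ} (h : a < b) :
    c * D.T ^ a ≤ D.T ^ b := by
  have h1 : D.T ^ (a + 1) ≤ D.T ^ b := hD.big.pw h
  have h2 := Tb hD
  have h3 := Tp hD a
  refine le_trans ?_ h1
  rw [pow_succ, mul_comm]
  exact mul_le_mul_of_nonneg_left (by linarith) h3.le

theorem cod_comm (u x : V) : D.cod u x = D.cod x u := cod_symm u x

theorem rho_pos : 0 < D.rho := by
  have := T0 hD
  have := k0 hD
  unfold rho
  positivity

theorem rho_le : D.rho ≤ 2 / D.T ^ 3998 := by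
  have h0 := T0 hD
  unfold rho
  rw [div_le_div_iff₀ (k0 hD) (Tp hD _)]
  have h1 := hD.k_lo
  have h2 : D.T ^ 3999 = D.T ^ 3998 * D.T := pow_succ D.T 3998
  rw [h2] at h1
  linarith

theorem rho_mul_le2 {a b : ℕ} (h : a ≤ b + 3998) : D.rho * D.T ^ a ≤ 2 * D.T ^ b := by
  have h1 := mul_le_mul_of_nonneg_right (rho_le hD) (Tp hD a).le
  refine h1.trans ?_
  rw [div_mul_eq_mul_div, div_le_iff₀ (Tp hD _), mul_assoc, ← pow_add]
  exact mul_le_mul_of_nonneg_left (hD.big.pw h) (by norm_num)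

theorem rho_mul_le {a b : ℕ} (h : a + 1 ≤ b + 3998) : D.rho * D.T ^ a ≤ D.T ^ b := by
  rcases Nat.eq_zero_or_pos b with hb | hb
  · subst hb
    have h1 := mul_le_mul_of_nonneg_right (rho_le hD) (Tp hD a).le
    refine h1.trans ?_
    rw [div_mul_eq_mul_div, div_le_iff₀ (Tp hD _), pow_zero, one_mul]
    calc 2 * D.T ^ a ≤ D.T * D.T ^ a :=
          mul_le_mul_of_nonneg_right (by linarith [Tb hD]) (Tp hD a).le
      _ = D.T ^ (a + 1) := (pow_succ' D.T a).symm
      _ ≤ D.T ^ 3998 := hD.big.pw (by omega)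
  · obtain ⟨c, rfl⟩ : ∃ c, b = c + 1 := ⟨b - 1, by omega⟩
    refine (rho_mul_le2 hD (b := c) (by omega)).trans ?_
    rw [pow_succ' D.T c]
    exact mul_le_mul_of_nonneg_right (by linarith [Tb hD]) (Tp hD c).le

theorem rho_nonneg : 0 ≤ D.rho := (rho_pos hD).le

theorem am_lo : D.T ^ 2385 ≤ D.am := hD.am_lo

theorem am_pos : 0 < D.am := lt_of_lt_of_le (Tp hD _) hD.am_lo

/-! ## Graph -/

theorem N_comm {u v : V} : u ∈ D.N v ↔ v ∈ D.N u := ⟨hD.N_symm u v, hD.N_symm v u⟩

theorem Spc_symm {u v : V} (h : D.Spc u v) : D.Spc v u := by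
  unfold Spc at h ⊢
  rw [cod_symm, N_comm hD]
  exact h

theorem Rp_symm {u v : V} (h : D.Rp u v) : D.Rp v u := by
  unfold Rp at h ⊢
  rw [cod_symm, N_comm hD]
  exact ⟨h.1.symm, h.2⟩

/-- A pair that is not special has small codegree. -/
theorem cod_le_of_not_Spc {u v : V} (h : ¬ D.Spc u v) : D.cod u v ≤ D.am := by
  unfold Spc at h
  push Not at h
  exact h.2

theorem cod_le' {u v : V} (h : ¬ D.Spc u v) : D.cod u v ≤ D.T ^ 2401 :=
  (cod_le_of_not_Spc hD h).trans hD.am_hi

theorem not_mem_of_not_Spc {u v : V} (h : ¬ D.Spc u v) : u ∉ D.N v := fun h1 => h (.inl h1)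

theorem cod_lt_of_not_Rp {u v : V} (hne : u ≠ v) (h : ¬ D.Rp u v) : D.cod u v < D.T ^ 2385 := by
  unfold Rp at h
  push Not at h
  exact (h hne).2

theorem not_Spc_of_not_Rp {u v : V} (hne : u ≠ v) (h : ¬ D.Rp u v) : ¬ D.Spc u v := by
  unfold Rp at h
  unfold Spc
  push Not at h ⊢
  have h1 := h hne
  exact ⟨h1.1, h1.2.le.trans (am_lo hD)⟩

theorem Nc (v : V) : ((D.N v).card : ℝ) ≤ D.T ^ 3600 := hD.deg v

/-! ## Sizes of the stages -/

variable {j : ℕ} (hP : D.Parts j)
include hP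

theorem nbi_le : 3 * (D.T ^ 3600 / D.R) ≤ 3 * D.T ^ 2801 := by
  have := div_R hD (show 3600 ≤ 799 + 2801 by norm_num)
  linarith

theorem pb1 (v : V) {i : ℕ} (hi : i ≤ j) :
    (((D.N v).filter fun z => D.lv z = i).card : ℝ) ≤ 3 * D.T ^ 2801 :=
  ((hP.part i hi).b1 v).trans (nbi_le hD hP)

theorem pb1' (v : V) {i : ℕ} (hi : i ≤ j) :
    (((D.N v).filter fun z => D.lv z = i).card : ℝ) ≤ 3 * (D.T ^ 3600 / D.R) :=
  (hP.part i hi).b1 v

theorem pb2 {u x : V} (h : D.cod u x ≤ D.T ^ 2401) {i : ℕ} (hi : i ≤ j) :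
    (((cN D.N u x).filter fun z => D.lv z = i).card : ℝ) ≤ D.T ^ 1604 :=
  (hP.part i hi).b2 u x h

theorem pb2l {u x : V} (h : D.cod u x < D.T ^ 2385) {i : ℕ} (hi : i ≤ j) :
    (((cN D.N u x).filter fun z => D.lv z = i).card : ℝ) ≤ 3 * (D.T ^ 2385 / D.R) :=
  (hP.part i hi).b2l u x h

theorem j_le : (j : ℝ) ≤ D.T * D.R := by
  have h1 : (j : ℝ) ≤ D.NS := by exact_mod_cast hP.j_lt.le
  exact h1.trans hD.NS_hi

theorem j_le' : (j : ℝ) ≤ D.T ^ 801 := by
  refine (j_le hD hP).trans ?_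
  rw [pow_succ' D.T 800]
  exact mul_le_mul_of_nonneg_left hD.R_hi (T0 hD).le

/-- Number of the special and relevant partners in the stage. -/
theorem rp_card (v : V) {i : ℕ} (hi : i ≤ j) :
    ((univ.filter fun y => D.Rp v y ∧ D.lv y = i).card : ℝ) ≤ D.T ^ 4019 := by
  have h1 : (univ.filter fun y => D.Rp v y ∧ D.lv y = i) ⊆
      ((D.N v).filter fun z => D.lv z = i) ∪
        univ.filter fun u => u ≠ v ∧ D.T ^ 2385 ≤ D.cod u v ∧ D.lv u = i := by
    intro y hy
    rw [mem_filter] at hy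
    rw [mem_union, mem_filter, mem_filter]
    obtain ⟨-, ⟨h2, h3⟩, h4⟩ := hy
    rcases h3 with h3 | h3
    · exact .inl ⟨hD.N_symm _ _ h3, h4⟩
    · exact .inr ⟨mem_univ _, h2.symm, by rw [cod_symm]; exact h3, h4⟩
  have h2 := (card_le_card h1).trans (card_union_le _ _)
  have h3 : ((univ.filter fun y => D.Rp v y ∧ D.lv y = i).card : ℝ) ≤
      (((D.N v).filter fun z => D.lv z = i).card : ℝ) +
      ((univ.filter fun u => u ≠ v ∧ D.T ^ 2385 ≤ D.cod u v ∧ D.lv u = i).card : ℝ) := by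
    exact_mod_cast h2
  have h4 := pb1 hD hP v hi
  have h5 := (hP.part i hi).b3c v
  have h6 : 3 * D.T ^ 2801 ≤ D.T ^ 4018 := num_pow hD (by norm_num) (by norm_num)
  have h7 : 2 * D.T ^ 4018 ≤ D.T ^ 4019 := num_pow hD (by norm_num) (by norm_num)
  linarith

end num

/-! ## Colourings -/

section col

variable {f f' : V → Option (Fin D.k × ℕ)}

theorem hasCol_iff {z : V} {c : Fin D.k} : hasCol f z c ↔ ∃ r, f z = some (c, r) := Iff.rfl

theorem hasCol_ne_none {z : V} {c : Fin D.k} (h : hasCol f z c) : f z ≠ none := by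
  obtain ⟨r, hr⟩ := h
  rw [hr]
  exact Option.some_ne_none _

theorem hasCol_unique {z : V} {c c' : Fin D.k} (h : hasCol f z c) (h' : hasCol f z c') :
    c = c' := by
  obtain ⟨r, hr⟩ := h
  obtain ⟨r', hr'⟩ := h'
  rw [hr] at hr'
  simp only [Option.some.injEq, Prod.mk.injEq] at hr'
  exact hr'.1

theorem exists_hasCol {z : V} (h : f z ≠ none) : ∃ c, hasCol f z c := by
  obtain ⟨e, he⟩ := Option.ne_none_iff_exists'.1 h
  exact ⟨e.1, e.2, he⟩

theorem hasCol_congr {z : V} (h : f z = f' z) (c : Fin D.k) : hasCol f z c ↔ hasCol f' z c := by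
  unfold hasCol
  rw [h]

theorem rd_some {z : V} {c : Fin D.k} {r : ℕ} (h : f z = some (c, r)) : D.rd f z = r := by
  unfold rd
  rw [h]
  rfl

theorem rd_congr {z : V} (h : f z = f' z) : D.rd f z = D.rd f' z := by
  unfold rd
  rw [h]

theorem Same.symm {u v : V} (h : D.Same f u v) : D.Same f v u := by
  obtain ⟨h1, h2, c, h3, h4⟩ := h
  exact ⟨h1.symm, h2.symm, c, h4, h3⟩

theorem Same_comm {u v : V} : D.Same f u v ↔ D.Same f v u := ⟨Same.symm, Same.symm⟩

theorem Same.trans {u v w : V} (h : D.Same f u v) (h' : D.Same f v w) (hne : u ≠ w) :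
    D.Same f u w := by
  obtain ⟨_, h2, c, h3, h4⟩ := h
  obtain ⟨_, h6, c', h7, h8⟩ := h'
  have := hasCol_unique h4 h7
  subst this
  exact ⟨hne, h2.trans h6, c, h3, h8⟩

theorem Same.left_ne_none {u v : V} (h : D.Same f u v) : f u ≠ none := by
  obtain ⟨_, _, c, h3, _⟩ := h
  exact hasCol_ne_none h3

theorem Same.right_ne_none {u v : V} (h : D.Same f u v) : f v ≠ none := h.symm.left_ne_none

theorem Same.hasCol {u v : V} (h : D.Same f u v) {c : Fin D.k} (hc : hasCol f u c) :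
    Pool.Agent.AcyK.hasCol f v c := by
  obtain ⟨_, _, c', h3, h4⟩ := h
  have := hasCol_unique hc h3
  subst this
  exact h4

theorem Same_congr {u v : V} (hu : f u = f' u) (hv : f v = f' v) :
    D.Same f u v ↔ D.Same f' u v := by
  unfold Same sameCol hasCol
  rw [hu, hv]

/-- `E3` only looks at smaller parts. -/
theorem E3_congr {v u u' : V} (h : ∀ z, D.lv z < D.lv v → f z = f' z) :
    D.E3 f v u u' ↔ D.E3 f' v u u' := by
  have key : ∀ g g' : V → Option (Fin D.k × ℕ), (∀ z, D.lv z < D.lv v → g z = g' z) →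
      D.E3 g v u u' → D.E3 g' v u u' := by
    rintro g g' hg ⟨z, z', z'', h1, h2, h3, h4, h5, h6, h7, h8, h9⟩
    have e1 := hg z h6
    have e2 := hg z' (h2.2.1 ▸ h6)
    have e3 := hg z'' (h3.2.1 ▸ h6)
    exact ⟨z, z', z'', h1, (Same_congr e1 e2).1 h2, (Same_congr e1 e3).1 h3, h4, h5, h6, h7, h8,
      h9⟩
  exact ⟨key f f' h, key f' f fun z hz => (h z hz).symm⟩

/-- `Cf` only looks at smaller parts. -/
theorem Cf_congr {v x : V} (h : ∀ z, D.lv z < D.lv v → f z = f' z) :
    D.Cf f v x ↔ D.Cf f' v x := by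
  have key : ∀ g g' : V → Option (Fin D.k × ℕ), (∀ z, D.lv z < D.lv v → g z = g' z) →
      D.Cf g v x → D.Cf g' v x := by
    rintro g g' hg ⟨h1, h2, h3, z, z', h4, h5, h6, h7, h8⟩
    exact ⟨h1, h2, h3, z, z', (Same_congr (hg z h6) (hg z' (h4.2.1 ▸ h6))).1 h4, h5, h6, h7, h8⟩
  exact ⟨key f f' h, key f' f fun z hz => (h z hz).symm⟩

theorem Drop_mono {v : V} (hv : f v = f' v) (h1 : ∀ z, D.lv z < D.lv v → f z = f' z)
    (h2 : ∀ z, D.lv z = D.lv v → f z ≠ none → D.rd f z ≤ D.rd f v → f z = f' z)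
    (h : D.Drop f v) : D.Drop f' v := by
  obtain ⟨h0, h⟩ := h
  refine ⟨hv ▸ h0, ?_⟩
  have hr := rd_congr hv
  rcases h with ⟨x, g1, g2, g3⟩ | ⟨x, g1, g2, g3⟩ |
    ⟨z, z', u, u', g1, g2, g3, g4, g5, g6, g7, g8, g9, g10, g11, g12, g13, g14⟩ |
    ⟨u, u', g0, g1, g2, g3, g4, g5⟩
  · have e := h2 x g1.2.1.symm g1.right_ne_none g2.le
    refine .inl ⟨x, (Same_congr hv e).1 g1, ?_, g3⟩
    rw [← rd_congr e, ← hr]
    exact g2
  · have e := h2 x g1.2.1.symm g1.right_ne_none g2
    refine .inr (.inl ⟨x, (Same_congr hv e).1 g1, ?_, (Cf_congr h1).1 g3⟩)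
    rw [← rd_congr e, ← hr]
    exact g2
  · have e1 := h2 z g3 g1.left_ne_none g11
    have e2 := h2 z' (g1.2.1.symm.trans g3) g1.right_ne_none g12
    have e3 := h2 u g8.2.1.symm g8.right_ne_none g13
    have e4 := h2 u' g9.2.1.symm g9.right_ne_none g14
    refine .inr (.inr (.inl ⟨z, z', u, u', (Same_congr e1 e2).1 g1, g2, g3, g4, g5, g6, g7,
      (Same_congr hv e3).1 g8, (Same_congr hv e4).1 g9, fun h => g10 ((Same_congr hv e1).2 h),
      ?_, ?_, ?_, ?_⟩))
    · rw [← rd_congr e1, ← hr]; exact g11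
    · rw [← rd_congr e2, ← hr]; exact g12
    · rw [← rd_congr e3, ← hr]; exact g13
    · rw [← rd_congr e4, ← hr]; exact g14
  · have e3 := h2 u g1.2.1.symm g1.right_ne_none g3
    have e4 := h2 u' g2.2.1.symm g2.right_ne_none g4
    refine .inr (.inr (.inr ⟨u, u', g0, (Same_congr hv e3).1 g1, (Same_congr hv e4).1 g2, ?_, ?_,
      (E3_congr h1).1 g5⟩))
    · rw [← rd_congr e3, ← hr]; exact g3
    · rw [← rd_congr e4, ← hr]; exact g4

/-- The rules only look at smaller parts and earlier rounds. -/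
theorem Drop_congr {v : V} (hv : f v = f' v) (h1 : ∀ z, D.lv z < D.lv v → f z = f' z)
    (h2 : ∀ z, D.lv z = D.lv v → f z ≠ none → D.rd f z ≤ D.rd f v → f z = f' z)
    (h3 : ∀ z, D.lv z = D.lv v → f' z ≠ none → D.rd f' z ≤ D.rd f' v → f z = f' z) :
    D.Drop f v ↔ D.Drop f' v :=
  ⟨Drop_mono hv h1 h2, Drop_mono hv.symm (fun z hz => (h1 z hz).symm)
    fun z a b c => (h3 z a b c).symm⟩

end col

/-! ## One round -/

section round

variable {j m : ℕ} {C col : V → Option (Fin D.k × ℕ)} {lam : V → Option Bool}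
  {ω : V → Fin D.k}

theorem addCol_of {v : V} (h : D.lv v = j) : D.addCol C j col v = col v := by
  unfold addCol
  rw [if_pos h]

theorem addCol_ne {v : V} (h : D.lv v ≠ j) : D.addCol C j col v = C v := by
  unfold addCol
  rw [if_neg h]

/-- The colouring after the picks. -/
theorem upd_now {y : V} (h : D.Now j col lam y) :
    D.addCol C j (updCol m col lam ω) y = some (ω y, m) := by
  obtain ⟨h1, h2, h3⟩ := h
  rw [addCol_of h1]
  unfold updCol
  rw [if_pos ⟨h2, h3⟩]

theorem upd_not_now {y : V} (h : ¬ D.Now j col lam y) :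
    D.addCol C j (updCol m col lam ω) y = D.addCol C j col y := by
  by_cases h1 : D.lv y = j
  · rw [addCol_of h1, addCol_of h1]
    unfold updCol
    rw [if_neg fun h2 => h ⟨h1, h2.1, h2.2⟩]
  · rw [addCol_ne h1, addCol_ne h1]

theorem now_none {y : V} (h : D.Now j col lam y) : D.addCol C j col y = none := by
  rw [addCol_of h.1]
  exact h.2.1

theorem upd_lt {z : V} (h : D.lv z < j) :
    D.addCol C j (updCol m col lam ω) z = D.addCol C j col z := by
  rw [addCol_ne h.ne, addCol_ne h.ne]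

theorem rd_now {y : V} (h : D.Now j col lam y) :
    D.rd (D.addCol C j (updCol m col lam ω)) y = m := rd_some (upd_now h)

theorem hasCol_now {y : V} (h : D.Now j col lam y) {c : Fin D.k} :
    hasCol (D.addCol C j (updCol m col lam ω)) y c ↔ ω y = c := by
  unfold hasCol
  rw [upd_now h]
  constructor
  · rintro ⟨r, hr⟩
    simp only [Option.some.injEq, Prod.mk.injEq] at hr
    exact hr.1
  · rintro rfl
    exact ⟨m, rfl⟩

theorem hasCol_not_now {y : V} (h : ¬ D.Now j col lam y) {c : Fin D.k} :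
    hasCol (D.addCol C j (updCol m col lam ω)) y c ↔ hasCol (D.addCol C j col) y c :=
  hasCol_congr (upd_not_now h) c

/-- Old vertices of part `j` have an earlier round. -/
theorem rd_lt {y : V} (hlt : ∀ v c r, D.lv v = j → D.addCol C j col v = some (c, r) → r < m)
    (hj : D.lv y = j) (h : D.addCol C j col y ≠ none) : D.rd (D.addCol C j col) y < m := by
  obtain ⟨e, he⟩ := Option.ne_none_iff_exists'.1 h
  obtain ⟨c, r⟩ := e
  rw [rd_some he]
  exact hlt y c r hj he

/-- A vertex of part `j` with round `m` is new. -/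
theorem now_of_rd {y : V} (hlt : ∀ v c r, D.lv v = j → D.addCol C j col v = some (c, r) → r < m)
    (hj : D.lv y = j) (hn : D.addCol C j (updCol m col lam ω) y ≠ none)
    (h : D.rd (D.addCol C j (updCol m col lam ω)) y = m) : D.Now j col lam y := by
  by_contra hc
  rw [upd_not_now hc] at hn
  rw [rd_congr (upd_not_now hc)] at h
  have := rd_lt hlt hj hn
  omega

/-- A coloured vertex of part `j` is new or was coloured before. -/
theorem now_or {y : V} (hn : D.addCol C j (updCol m col lam ω) y ≠ none) :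
    D.Now j col lam y ∨ (¬ D.Now j col lam y ∧ D.addCol C j col y ≠ none) := by
  by_cases h : D.Now j col lam y
  · exact .inl h
  · rw [upd_not_now h] at hn
    exact .inr ⟨h, hn⟩

end round

/-! ## Balls and local families -/

/-- Ball of radius `r`. -/
noncomputable def ball (D : DD V) : ℕ → V → Finset V
  | 0, v => {v}
  | r + 1, v => (ball D r v).biUnion fun u => insert u (D.N u)

theorem self_mem_ball (r : ℕ) (v : V) : v ∈ D.ball r v := by
  induction r with
  | zero => simp [ball]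
  | succ r ih =>
    rw [ball, mem_biUnion]
    exact ⟨v, ih, mem_insert_self _ _⟩

theorem ball_succ_of_mem {r : ℕ} {v u : V} (h : u ∈ D.ball r v) : u ∈ D.ball (r + 1) v := by
  rw [ball, mem_biUnion]
  exact ⟨u, h, mem_insert_self _ _⟩

theorem ball_mono {r r' : ℕ} (h : r ≤ r') (v : V) : D.ball r v ⊆ D.ball r' v := by
  induction h with
  | refl => exact fun _ h => h
  | step _ ih => exact fun u hu => ball_succ_of_mem (ih hu)

/-- A neighbour of a vertex of the ball. -/
theorem ball_step {r : ℕ} {v u z : V} (h : u ∈ D.ball r v) (hz : z ∈ D.N u) :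
    z ∈ D.ball (r + 1) v := by
  rw [ball, mem_biUnion]
  exact ⟨u, h, mem_insert_of_mem hz⟩

theorem mem_ball_one {v z : V} (hz : z ∈ D.N v) : z ∈ D.ball 1 v :=
  ball_step (self_mem_ball 0 v) hz

section ballsec

variable (hD : D.Ok)
include hD

theorem ball_card (r : ℕ) (v : V) : ((D.ball r v).card : ℝ) ≤ D.T ^ (3601 * r) := by
  induction r with
  | zero => simp [ball]
  | succ r ih =>
    have h1 : ((D.ball (r + 1) v).card : ℝ) ≤ ∑ u ∈ D.ball r v, D.T ^ 3601 := by
      rw [ball]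
      have h2 : (((D.ball r v).biUnion fun u => insert u (D.N u)).card : ℝ) ≤
          ∑ u ∈ D.ball r v, ((insert u (D.N u)).card : ℝ) := by
        exact_mod_cast card_biUnion_le
      refine h2.trans (sum_le_sum fun u _ => ?_)
      have h3 : ((insert u (D.N u)).card : ℝ) ≤ (D.N u).card + 1 := by
        exact_mod_cast card_insert_le _ _
      have h4 := Nc hD u
      have h5 : D.T ^ 3600 + 1 ≤ D.T ^ 3601 := by
        rw [pow_succ D.T 3600]
        have := hD.big.pw (Nat.zero_le 3600)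
        rw [pow_zero] at this
        nlinarith [Tb hD]
      linarith
    rw [sum_const, nsmul_eq_mul] at h1
    refine h1.trans ?_
    calc ((D.ball r v).card : ℝ) * D.T ^ 3601 ≤ D.T ^ (3601 * r) * D.T ^ 3601 :=
          mul_le_mul_of_nonneg_right ih (Tp hD _).le
      _ = D.T ^ (3601 * (r + 1)) := by rw [← pow_add]; ring_nf

theorem ball_one_symm {u v : V} (h : u ∈ insert v (D.N v)) : v ∈ insert u (D.N u) := by
  rw [mem_insert] at h ⊢
  rcases h with h | h
  · exact .inl h.symm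
  · exact .inr ((N_comm hD).1 h)

/-- The ball, from the other side. -/
theorem ball_succ' {r : ℕ} {v u z : V} (hz : u ∈ insert v (D.N v)) (h : z ∈ D.ball r u) :
    z ∈ D.ball (r + 1) v := by
  induction r generalizing z with
  | zero =>
    rw [ball, mem_singleton] at h
    subst h
    rw [ball, mem_biUnion]
    exact ⟨v, self_mem_ball 0 v, hz⟩
  | succ r ih =>
    rw [ball, mem_biUnion] at h
    obtain ⟨y, hy, hy'⟩ := h
    rw [ball, mem_biUnion]
    exact ⟨y, ih hy, hy'⟩

theorem ball_symm {r : ℕ} {u v : V} (h : u ∈ D.ball r v) : v ∈ D.ball r u := by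
  induction r generalizing u with
  | zero =>
    rw [ball, mem_singleton] at h ⊢
    exact h.symm
  | succ r ih =>
    rw [ball, mem_biUnion] at h
    obtain ⟨y, hy, hy'⟩ := h
    exact ball_succ' hD (ball_one_symm hD hy') (ih hy)

/-- A local family of events: the event `b` depends on the ball of radius `r` around `root b`, and
at most `T ^ n` events have the same root. -/
theorem locOK_of_root {α : Type*} [Fintype α] {μ : V → α → ℝ} {κ : Type u} [Fintype κ]
    (root : κ → V) (r n e : ℕ)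
    (hn : ∀ v, ((univ.filter fun b => root b = v).card : ℝ) ≤ D.T ^ n) (he : 3601 * r + n ≤ e)
    (E : κ → (V → α) → Prop) (hdep : ∀ b, DependsOn (E b) (D.ball r (root b) : Set V))
    (hp : ∀ b, Pr μ (E b) ≤ Real.exp (-D.T)) : LocOK e D.T μ (fun ω => ∀ b, ¬ E b ω) := by
  refine ⟨κ, inferInstance, E, fun b => D.ball r (root b), hdep, hp, fun b => ?_, fun i => ?_,
    fun ω h => h⟩
  · exact (ball_card hD r (root b)).trans (hD.big.pw (by omega))
  · have h1 : (univ.filter fun b => i ∈ D.ball r (root b)) ⊆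
        (D.ball r i).biUnion fun v => univ.filter fun b => root b = v := by
      intro b hb
      rw [mem_filter] at hb
      rw [mem_biUnion]
      exact ⟨root b, ball_symm hD hb.2, by simp⟩
    have h2 : ((univ.filter fun b => i ∈ D.ball r (root b)).card : ℝ) ≤
        ∑ v ∈ D.ball r i, ((univ.filter fun b => root b = v).card : ℝ) := by
      have h3 := (card_le_card h1).trans card_biUnion_le
      exact_mod_cast h3
    refine h2.trans ((sum_le_sum fun v _ => hn v).trans ?_)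
    rw [sum_const, nsmul_eq_mul]
    calc ((D.ball r i).card : ℝ) * D.T ^ n ≤ D.T ^ (3601 * r) * D.T ^ n :=
          mul_le_mul_of_nonneg_right (ball_card hD r i) (Tp hD _).le
      _ = D.T ^ (3601 * r + n) := (pow_add _ _ _).symm
      _ ≤ D.T ^ e := hD.big.pw he

/-- The index set of one colour for every vertex. -/
theorem card_root_col (v : V) :
    ((univ.filter fun b : V × Fin D.k => b.1 = v).card : ℝ) ≤ D.T ^ 4000 := by
  have h1 : (univ.filter fun b : V × Fin D.k => b.1 = v) =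
      (univ : Finset (Fin D.k)).map ⟨fun c => (v, c), fun a b h => by simpa using h⟩ := by
    ext ⟨a, c⟩
    rw [mem_filter, mem_map]
    constructor
    · rintro ⟨_, h⟩
      exact ⟨c, mem_univ _, Prod.ext h.symm rfl⟩
    · rintro ⟨c', _, h⟩
      exact ⟨mem_univ _, (congrArg Prod.fst h).symm⟩
  rw [h1, card_map, card_univ, Fintype.card_fin]
  exact hD.k_hi

theorem card_root_id (v : V) : ((univ.filter fun b : V => b = v).card : ℝ) ≤ D.T ^ 0 := by
  have h1 : (univ.filter fun b : V => b = v) = {v} := by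
    ext b
    simp
  rw [h1, card_singleton, pow_zero, Nat.cast_one]

end ballsec

/-! ## Nonnegativity of the weights -/

theorem ds_ind (p : Prop) [Decidable p] : (0 : ℝ) ≤ if p then (1 : ℝ) else 0 := by
  split_ifs <;> norm_num

theorem wB_nonneg (a y : V) : 0 ≤ D.wB a y := ds_ind _

theorem wL_nonneg (a y : V) : 0 ≤ D.wL a y := by
  unfold wL
  split_ifs
  · exact cod_nonneg _ _
  · exact le_rfl

theorem wLj_nonneg (a : V) (j : ℕ) (y : V) : 0 ≤ D.wLj a j y := by
  unfold wLj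
  split_ifs
  · exact Nat.cast_nonneg _
  · exact le_rfl

theorem wN_nonneg (v y : V) : 0 ≤ D.wN v y := ds_ind _

theorem wM_nonneg (a b y y' : V) : 0 ≤ D.wM a b y y' := ds_ind _

theorem wP_nonneg (v y y' : V) : 0 ≤ D.wP v y y' := by
  unfold wP
  split_ifs
  · exact cod_nonneg _ _
  · exact le_rfl

theorem wQ_nonneg (v y y' : V) : 0 ≤ D.wQ v y y' := by
  unfold wQ
  split_ifs
  · exact Nat.cast_nonneg _
  · exact le_rfl

theorem wF_nonneg (a : ℝ) (v y y' : V) : 0 ≤ D.wF a v y y' := by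
  unfold wF
  split_ifs
  · exact Nat.cast_nonneg _
  · exact le_rfl

theorem wC_nonneg (f : V → Option (Fin D.k × ℕ)) (v u u' : V) : 0 ≤ D.wC f v u u' := ds_ind _

end DD

end

end Pool.Agent.AcyGD
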