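import Pool.Agent.AcyGD.Base

/-! # The selection of a round is typical (row D8) -/

set_option autoImplicit false
set_option linter.unusedSectionVars false

namespace Pool.Agent.AcyGD

open Finset
open Pool.Agent.Acy (IsPM wt Ex Pr mean cnt ext Holds)
open Pool.Agent.AcyK
open scoped Classical

universe u v

section

variable {V : Type u} [Fintype V] [DecidableEq V]

/-- Upper tail of the number of selected elements of a set. -/
theorem cnt_tail8 {T : ℝ} (hT : Big T) {μ : V → Option Bool → ℝ} (hμ : IsPM μ)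
    (h1 : ∀ y, μ y (some true) ≤ 1 / T ^ 133) (A : Finset V) {r : ℝ} (hr : (A.card : ℝ) ≤ r) :
    Pr μ (fun lam => ¬ ((A.filter fun y => lam y = some true).card : ℝ) ≤
      2 * (r / T ^ 133) + T ^ 2) ≤ Real.exp (-T) := by
  have hT6 : (1000000 : ℝ) ≤ T := by
    have := hT.big
    norm_num at this
    exact this
  have hT0 : 0 < T := by linarith
  have hr0 : 0 ≤ r := (Nat.cast_nonneg _).trans hr
  have hrT : 0 ≤ r / T ^ 133 := div_nonneg hr0 (pow_nonneg hT0.le _)
  set Y : V → Option Bool → ℝ := fun y e => if y ∈ A ∧ e = some true then 1 else 0 with hYdef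
  have hsum : ∀ lam : V → Option Bool,
      ((A.filter fun y => lam y = some true).card : ℝ) = ∑ y, Y y (lam y) := by
    intro lam
    have e1 : (A.filter fun y => lam y = some true) =
        univ.filter fun y => y ∈ A ∧ lam y = some true := by
      ext y
      simp
    rw [e1, ← sum_boole]
  have hmean : ∀ y, mean μ Y y = if y ∈ A then μ y (some true) else 0 := by
    intro y
    unfold mean
    rw [Fintype.sum_eq_single (some true)]
    · by_cases hy : y ∈ A
      · simp [hYdef, hy]
      · simp [hYdef, hy]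
    · intro e he
      simp [hYdef, he]
  have hY : ∀ y e, |Y y e| ≤ 1 := by
    intro y e
    simp only [hYdef]
    split_ifs
    · rw [abs_one]
    · rw [abs_zero]
      exact zero_le_one
  have hmu : ∑ y, (if y ∈ A then μ y (some true) else 0) ≤ r / T ^ 133 := by
    calc ∑ y, (if y ∈ A then μ y (some true) else 0)
        = ∑ y ∈ A, μ y (some true) := by
          rw [← sum_filter]
          refine sum_congr ?_ fun _ _ => rfl
          ext y
          simp
      _ ≤ ∑ _y ∈ A, 1 / T ^ 133 := sum_le_sum fun y _ => h1 y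
      _ = A.card * (1 / T ^ 133) := by rw [sum_const, nsmul_eq_mul]
      _ ≤ r * (1 / T ^ 133) :=
          mul_le_mul_of_nonneg_right hr (div_nonneg zero_le_one (pow_nonneg hT0.le _))
      _ = _ := by ring
  have hV : ∑ y, ∑ e, μ y e * Y y e ^ 2 ≤ r / T ^ 133 := by
    refine le_trans (le_of_eq (sum_congr rfl fun y _ => ?_)) hmu
    rw [← hmean y]
    unfold mean
    refine sum_congr rfl fun e _ => ?_
    have h2 : Y y e ^ 2 = Y y e := by
      simp only [hYdef]
      split_ifs <;> norm_num
    rw [h2]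
  have ht := Pool.Agent.Acy.indep_tail hμ Y 1 hY (r / T ^ 133) hV
    (1 / 2) (by norm_num) (by norm_num) (r / T ^ 133 + T ^ 2)
  refine (Pool.Agent.Acy.Pr_mono hμ fun lam hlam => ?_).trans (ht.trans ?_)
  · have hlam' := not_le.1 hlam
    rw [hsum] at hlam'
    have h2 : ∑ y, mean μ Y y ≤ r / T ^ 133 :=
      le_trans (le_of_eq (sum_congr rfl fun y _ => hmean y)) hmu
    have h3 : r / T ^ 133 + T ^ 2 ≤ ∑ y, (Y y (lam y) - mean μ Y y) := by
      rw [sum_sub_distrib]
      linarith
    exact h3.trans (le_abs_self _)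
  · have e3 : (1 / 2 : ℝ) ^ 2 * (r / T ^ 133) - 1 / 2 * (r / T ^ 133 + T ^ 2) ≤ -(2 * T) := by
      nlinarith
    have e4 : (2 : ℝ) ≤ Real.exp T := by
      have := Real.add_one_le_exp T
      linarith
    calc 2 * Real.exp ((1 / 2 : ℝ) ^ 2 * (r / T ^ 133) - 1 / 2 * (r / T ^ 133 + T ^ 2)) ≤
          Real.exp T * Real.exp (-(2 * T)) :=
          mul_le_mul e4 (Real.exp_le_exp.mpr e3) (Real.exp_pos _).le (Real.exp_pos _).le
      _ = Real.exp (-T) := by
          rw [← Real.exp_add]
          congr 1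
          ring

/-- Local family of numbers of selected elements. -/
theorem cnt_loc8 {T : ℝ} (hT : Big T) {μ : V → Option Bool → ℝ} (hμ : IsPM μ)
    (h1 : ∀ y, μ y (some true) ≤ 1 / T ^ 133) {κ : Type u} [Fintype κ] (A : κ → Finset V)
    {n : ℕ} {c : ℝ} (hA : ∀ a, ((A a).card : ℝ) ≤ c * T ^ n) (hc : c ≤ 10) (hn : n < 30000)
    (hdeg : ∀ y, ((univ.filter fun a => y ∈ A a).card : ℝ) ≤ T ^ 30000) :
    LocOK 30000 T μ (fun lam => ∀ a, (((A a).filter fun y => lam y = some true).card : ℝ) ≤
      2 * (c * T ^ n / T ^ 133) + T ^ 2) := by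
  have hT6 : (1000000 : ℝ) ≤ T := by
    have := hT.big
    norm_num at this
    exact this
  have hT0 : 0 < T := by linarith
  refine ⟨κ, inferInstance, fun a lam => ¬ (((A a).filter fun y => lam y = some true).card : ℝ) ≤
      2 * (c * T ^ n / T ^ 133) + T ^ 2, A, ?_, ?_, ?_, hdeg, ?_⟩
  · intro a lam lam' h
    have h2 : ((A a).filter fun y => lam y = some true) =
        (A a).filter fun y => lam' y = some true := by
      refine filter_congr fun y hy => ?_
      rw [h y (by exact_mod_cast hy)]
    simp only [h2]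
  · intro a
    exact cnt_tail8 hT hμ h1 (A a) (hA a)
  · intro a
    refine (hA a).trans ?_
    have h2 : T ^ (n + 1) ≤ T ^ 30000 := hT.pw hn
    have h3 : c * T ^ n ≤ T * T ^ n :=
      mul_le_mul_of_nonneg_right (by linarith) (pow_nonneg hT0.le _)
    rw [← pow_succ'] at h3
    exact h3.trans h2
  · intro lam h a
    exact not_not.1 (h a)

namespace DD

variable {D : DD V}

theorem Cf_symm8 (hD : D.Ok) {C : V → Option (Fin D.k × ℕ)} {v x : V} (h : D.Cf C v x) :
    D.Cf C x v := by
  obtain ⟨h1, h2, h3, z, z', h4, h5, h6, h7, h8⟩ := h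
  refine ⟨h1.symm, h2.symm, fun h => h3 (Rp_symm hD h), z, z', h4, h5, by rw [h2]; exact h6, ?_, ?_⟩
  · rw [cN_comm]; exact h7
  · rw [cN_comm]; exact h8

/-- Numbers. -/
theorem num8 (hD : D.Ok) {c : ℝ} {n N : ℕ} (_hc : 0 ≤ c) (hc' : c ≤ 10) (hn : 135 ≤ n)
    (hN : n + 1 ≤ N + 133) : 2 * (c * D.T ^ n / D.T ^ 133) + D.T ^ 2 ≤ D.T ^ N := by
  have hT6 := Tb hD
  obtain ⟨l, rfl⟩ : ∃ l, n = l + 133 := ⟨n - 133, by omega⟩
  have e1 : c * D.T ^ (l + 133) / D.T ^ 133 = c * D.T ^ l := by
    rw [pow_add, ← mul_assoc, mul_div_assoc, div_self (Tp hD 133).ne', mul_one]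
  have e2 : D.T ^ 2 ≤ D.T ^ l := hD.big.pw (by omega)
  have e3 : D.T ^ (l + 1) ≤ D.T ^ N := hD.big.pw (by omega)
  rw [pow_succ] at e3
  have e4 := Tp hD l
  rw [e1]
  clear e1 hn hN
  have e5 : 21 * D.T ^ l ≤ D.T ^ l * D.T := by
    rw [mul_comm]
    exact mul_le_mul_of_nonneg_left (by linarith) e4.le
  have e6 : c * D.T ^ l ≤ 10 * D.T ^ l := mul_le_mul_of_nonneg_right hc' e4.le
  linarith

/-- The selection is typical. -/
theorem lam_step (hD : D.Ok) {j : ℕ} {C : V → Option (Fin D.k × ℕ)} (hp : D.Past C j)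
    {μ : V → Option Bool → ℝ} (hμ : IsPM μ) (h1 : ∀ y, μ y (some true) ≤ 1 / D.T ^ 133)
    (col : V → Option (Fin D.k × ℕ)) :
    LocOK 40000 D.T μ (fun lam => D.LamOK j C col lam) := by
  have hT := hD.big
  have hT6 := Tb hD
  have hT0 := T0 hD
  have hP := hp.parts
  -- neighbours
  have f1 := cnt_loc8 hT hμ h1 (κ := V)
    (fun w => univ.filter fun y => y ∈ D.N w ∧ D.lv y = j ∧ col y = none) (n := 2801) (c := 3)
    (fun w => by
      refine le_trans ?_ (pb1 hD hP w le_rfl)
      refine Nat.cast_le.2 (card_le_card fun y hy => ?_)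
      rw [mem_filter] at hy
      rw [mem_filter]
      exact ⟨hy.2.1, hy.2.2.1⟩) (by norm_num) (by norm_num)
    (fun y => by
      refine le_trans ?_ ((Nc hD y).trans (hT.pw (by norm_num)))
      refine Nat.cast_le.2 (card_le_card fun w hw => ?_)
      rw [mem_filter, mem_filter] at hw
      exact hD.N_symm _ _ hw.2.2.1)
  -- common neighbours
  have f2 := cnt_loc8 hT hμ h1 (κ := V × V)
    (fun a => if D.cod a.1 a.2 ≤ D.am then
      univ.filter fun y => y ∈ cN D.N a.1 a.2 ∧ D.lv y = j ∧ col y = none else ∅)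
    (n := 1604) (c := 1)
    (fun a => by
      rw [one_mul]
      split_ifs with h
      · refine le_trans ?_ (pb2 hD hP (h.trans hD.am_hi) le_rfl)
        refine Nat.cast_le.2 (card_le_card fun y hy => ?_)
        rw [mem_filter] at hy
        rw [mem_filter]
        exact ⟨hy.2.1, hy.2.2.1⟩
      · rw [card_empty, Nat.cast_zero]
        exact (Tp hD _).le) (by norm_num) (by norm_num)
    (fun y => by
      have h2 : (univ.filter fun a : V × V => y ∈ if D.cod a.1 a.2 ≤ D.am then
          univ.filter fun y => y ∈ cN D.N a.1 a.2 ∧ D.lv y = j ∧ col y = none else ∅) ⊆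
          D.N y ×ˢ D.N y := by
        intro a ha
        rw [mem_filter] at ha
        have ha2 := ha.2
        split_ifs at ha2 with h
        · rw [mem_filter, mem_cN] at ha2
          rw [mem_product]
          exact ⟨hD.N_symm _ _ ha2.2.1.1, hD.N_symm _ _ ha2.2.1.2⟩
        · exact absurd ha2 (notMem_empty _)
      have h3 : ((univ.filter fun a : V × V => y ∈ if D.cod a.1 a.2 ≤ D.am then
          univ.filter fun y => y ∈ cN D.N a.1 a.2 ∧ D.lv y = j ∧ col y = none else ∅).card : ℝ) ≤
          ((D.N y).card : ℝ) * (D.N y).card := by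
        have := card_le_card h2
        rw [card_product] at this
        exact_mod_cast this
      refine h3.trans ((mul_le_mul (Nc hD y) (Nc hD y) (Nat.cast_nonneg _) (Tp hD _).le).trans ?_)
      rw [← pow_add]
      exact hT.pw (by norm_num))
  -- relevant pairs
  have f3 := cnt_loc8 hT hμ h1 (κ := V)
    (fun v => if D.lv v = j then
      univ.filter fun y => D.Rp v y ∧ D.lv y = j ∧ col y = none else ∅)
    (n := 4019) (c := 1)
    (fun v => by
      rw [one_mul]
      split_ifs with h
      · refine le_trans ?_ (rp_card hD hP v le_rfl)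
        refine Nat.cast_le.2 (card_le_card fun y hy => ?_)
        rw [mem_filter] at hy
        rw [mem_filter]
        exact ⟨mem_univ _, hy.2.1, hy.2.2.1⟩
      · rw [card_empty, Nat.cast_zero]
        exact (Tp hD _).le) (by norm_num) (by norm_num)
    (fun y => by
      refine le_trans ?_ ((rp_card hD hP y le_rfl).trans (hT.pw (by norm_num)))
      refine Nat.cast_le.2 (card_le_card fun v hv => ?_)
      rw [mem_filter] at hv
      have hv2 := hv.2
      split_ifs at hv2 with h
      · rw [mem_filter] at hv2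
        rw [mem_filter]
        exact ⟨mem_univ _, Rp_symm hD hv2.2.1, h⟩
      · exact absurd hv2 (notMem_empty _))
  -- conflicts
  have hcf : D.cfB ≤ D.T ^ 3993 := div_R hD (by norm_num)
  have f4 := cnt_loc8 hT hμ h1 (κ := V)
    (fun v => if D.lv v = j then
      univ.filter fun y => D.Cf C v y ∧ D.lv y = j ∧ col y = none else ∅)
    (n := 3993) (c := 1)
    (fun v => by
      rw [one_mul]
      split_ifs with h
      · refine le_trans ?_ ((hp.curQ v h).trans hcf)
        refine Nat.cast_le.2 (card_le_card fun y hy => ?_)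
        rw [mem_filter] at hy
        rw [mem_filter]
        exact ⟨mem_univ _, hy.2.1⟩
      · rw [card_empty, Nat.cast_zero]
        exact (Tp hD _).le) (by norm_num) (by norm_num)
    (fun y => by
      by_cases hy : D.lv y = j
      · refine le_trans ?_ ((hp.curQ y hy).trans (hcf.trans (hT.pw (by norm_num))))
        refine Nat.cast_le.2 (card_le_card fun v hv => ?_)
        rw [mem_filter] at hv
        have hv2 := hv.2
        split_ifs at hv2 with h
        · rw [mem_filter] at hv2
          rw [mem_filter]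
          exact ⟨mem_univ _, Cf_symm8 hD hv2.2.1⟩
        · exact absurd hv2 (notMem_empty _)
      · have h2 : (univ.filter fun v => y ∈ if D.lv v = j then
            univ.filter fun y => D.Cf C v y ∧ D.lv y = j ∧ col y = none else ∅) = ∅ := by
          rw [filter_eq_empty_iff]
          intro v _ hv
          split_ifs at hv with h
          · rw [mem_filter] at hv
            exact hy hv.2.2.1
          · exact absurd hv (notMem_empty _)
        rw [h2, card_empty, Nat.cast_zero]
        exact (Tp hD _).le)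
  have g1 := LocOK.and hT (LocOK.and hT f1 f2) (LocOK.and hT f3 f4)
  clear f1 f2 f3 f4
  have g2 := LocOK.mono hT g1 (show 30000 + 1 + 1 ≤ 40000 by norm_num)
  clear g1
  obtain ⟨κ, hκ, E, S', hd, hp', hs, hi, hg⟩ := g2
  refine ⟨κ, hκ, E, S', hd, hp', hs, hi, fun lam hE => ?_⟩
  obtain ⟨⟨h2, h3⟩, h4, h5⟩ := hg lam hE
  have num := fun (c : ℝ) (n N : ℕ) => num8 hD (c := c) (n := n) (N := N)
  refine ⟨fun w => ?_, fun u x hux => ?_, fun v hv => ?_, fun v hv => ?_⟩
  · refine le_trans ?_ ((h2 w).trans (num 3 2801 2671 (by norm_num) (by norm_num) (by norm_num)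
      (by norm_num)))
    refine Nat.cast_le.2 (card_le_card fun y hy => ?_)
    rw [mem_filter] at hy
    obtain ⟨-, hy1, hy2, hy3, hy4⟩ := hy
    rw [mem_filter, mem_filter]
    exact ⟨⟨mem_univ _, hy1, hy2, hy3⟩, hy4⟩
  · have h6 := h3 (u, x)
    rw [if_pos hux] at h6
    refine le_trans ?_ (h6.trans (num 1 1604 1474 (by norm_num) (by norm_num) (by norm_num)
      (by norm_num)))
    refine Nat.cast_le.2 (card_le_card fun y hy => ?_)
    rw [mem_filter] at hy
    obtain ⟨-, hy1, hy2, hy3, hy4⟩ := hy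
    rw [mem_filter, mem_filter]
    exact ⟨⟨mem_univ _, hy1, hy2, hy3⟩, hy4⟩
  · have h6 := h4 v
    rw [if_pos hv] at h6
    refine le_trans ?_ (h6.trans (num 1 4019 3889 (by norm_num) (by norm_num) (by norm_num)
      (by norm_num)))
    refine Nat.cast_le.2 (card_le_card fun y hy => ?_)
    rw [mem_filter] at hy
    obtain ⟨-, hy1, hy2, hy3, hy4⟩ := hy
    rw [mem_filter, mem_filter]
    exact ⟨⟨mem_univ _, hy1, hy2, hy3⟩, hy4⟩
  · have h6 := h5 v
    rw [if_pos hv] at h6
    refine le_trans ?_ (h6.trans (num 1 3993 3889 (by norm_num) (by norm_num) (by norm_num)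
      (by norm_num)))
    refine Nat.cast_le.2 (card_le_card fun y hy => ?_)
    rw [mem_filter] at hy
    obtain ⟨-, hy1, hy2, hy3, hy4⟩ := hy
    rw [mem_filter, mem_filter]
    exact ⟨⟨mem_univ _, hy1, hy2, hy3⟩, hy4⟩

end DD

end

end Pool.Agent.AcyGD
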