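import Pool.Agent.AcyGD.Step
import Pool.Agent.AcyGD.Lam
import Pool.Agent.AcyG.BasicA
import Pool.Agent.AcyG.AuxG

/-! # The D-process is an auxiliary process of the nibble (row D12) -/

set_option autoImplicit false
set_option linter.unusedSectionVars false

namespace Pool.Agent.AcyGD

open Finset
open Pool.Agent.Acy (IsPM wt Ex Pr mean)
open Pool.Agent.AcyK
open scoped Classical

universe u v

section

variable {V : Type u} [Fintype V] [DecidableEq V]

namespace DD

variable {D : DD V}

/-- The data of the D-part for a nibble. -/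
def ofNib {ι : Type u} [Fintype ι] [DecidableEq ι] (nib : AcyG.NibData V ι) (R NS : ℕ) (am : ℝ)
    (N : V → Finset V) (lv : V → ℕ) : DD V :=
  { T := nib.T, k := nib.k, M := nib.M, R := R, NS := NS, am := am, N := N, lv := lv }

theorem aux_drop {ι : Type u} [Fintype ι] [DecidableEq ι] {nib : AcyG.NibData V ι}
    (hnib : nib.Ok) {R NS : ℕ} {am : ℝ} {N : V → Finset V} {lv : V → ℕ}
    (hD : (ofNib nib R NS am N lv).Ok) {j : ℕ} {C : V → Option (Fin nib.k × ℕ)}
    (hp : (ofNib nib R NS am N lv).Past C j) :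
    AcyG.NibData.AuxLoc 40010 nib (fun m col _ _ (_ : PUnit.{v + 1}) =>
      (ofNib nib R NS am N lv).Prog ((ofNib nib R NS am N lv).addCol C j col) j m) := by
  intro m hm col _ Y s hX _
  have hT := hnib.big
  refine ⟨fun lam => (ofNib nib R NS am N lv).LamOK j C col lam,
    LocOK.mono hT (lam_step hD hp (AcyG.NibData.lawA_isPM hnib hm.le)
    (fun y => ?_) col) (by norm_num), ?_⟩
  · have ht1 : nib.t m ≤ 1 / nib.T ^ 133 := AcyG.NibData.t_le hnib hm.le
    unfold AcyG.NibData.lawA
    rw [if_neg (by simp)]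
    exact ht1
  · intro lam hlam _ p bad hpm hpl _ _
    have hR : (ofNib nib R NS am N lv).DRnd j C m col lam p :=
      ⟨hD, hp, hm, hX, hlam, hpm, hpl⟩
    refine ⟨PUnit.{u + 1}, inferInstance, fun _ _ => 1, fun _ => PUnit.unit, ⟨?_, ?_⟩, ?_⟩
    · intro _ _
      exact zero_le_one
    · intro _
      simp
    · have h1 : IsPM (fun (_ : V) (_ : PUnit.{u + 1}) => (1 : ℝ)) :=
        ⟨fun _ _ => zero_le_one, fun _ => by simp⟩
      exact LocOK.imp (LocOK.fst hpm h1 (prog_step hR)) fun ω hω Y' _ => hω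

end DD

end

end Pool.Agent.AcyGD
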