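import Pool.Agent.AcyGD.Base
import Pool.Agent.AcyK.Cyc

/-! # The colouring outside the dropped set is acyclic (row D7 of MP_af9dfb_G, helper14) -/

set_option autoImplicit false
set_option linter.unusedSectionVars false

namespace Pool.Agent.AcyGD

open Finset
open Pool.Agent.Acy (IsPM wt Ex Pr mean)
open Pool.Agent.AcyK
open scoped Classical

universe u v

section

variable {V : Type u} [Fintype V] [DecidableEq V]

namespace DD

variable {D : DD V}

section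
variable {f : V → Option (Fin D.k × ℕ)}

theorem not_mem_RS {v : V} (h : v ∉ D.RS f) :
    f v ≠ none ∧ ¬ D.RA f v ∧ ¬ D.RB f v ∧ ¬ D.RC f v ∧ ¬ D.RD f v := by
  have h1 : ¬ (f v = none ∨ D.Drop f v) := fun h' => h (mem_filter.mpr ⟨mem_univ _, h'⟩)
  have h2 : f v ≠ none := fun h' => h1 (.inl h')
  have h3 : ¬ (D.RA f v ∨ D.RB f v ∨ D.RC f v ∨ D.RD f v) := fun h' => h1 (.inr ⟨h2, h'⟩)
  exact ⟨h2, fun h' => h3 (.inl h'), fun h' => h3 (.inr (.inl h')),
    fun h' => h3 (.inr (.inr (.inl h'))), fun h' => h3 (.inr (.inr (.inr h')))⟩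

theorem lv_eq_of_phi (hl : ∀ v, f v ≠ none → D.lv v < D.NS) {u v : V} (hu : f u ≠ none)
    (hv : f v ≠ none) (h : D.phi f u = D.phi f v) : D.lv u = D.lv v := by
  have h1 : min (D.lv u) D.NS = min (D.lv v) D.NS := congrArg Fin.val (congrArg Prod.fst h)
  have h2 := hl u hu
  have h3 := hl v hv
  omega

theorem ne_none_of_phi {u v : V} (hu : f u ≠ none) (h : D.phi f u = D.phi f v) :
    f v ≠ none := by
  obtain ⟨⟨c, r⟩, hc⟩ := Option.ne_none_iff_exists'.1 hu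
  have h1 : (f u).map Prod.fst = (f v).map Prod.fst := congrArg Prod.snd h
  rw [hc] at h1
  intro h'
  rw [h'] at h1
  simp at h1

theorem same_of_phi (hl : ∀ v, f v ≠ none → D.lv v < D.NS) {u v : V} (hne : u ≠ v)
    (hu : f u ≠ none) (h : D.phi f u = D.phi f v) : D.Same f u v := by
  have h2 := ne_none_of_phi hu h
  have h3 := lv_eq_of_phi hl hu h2 h
  obtain ⟨⟨c, r⟩, hc⟩ := Option.ne_none_iff_exists'.1 hu
  have h1 : (f u).map Prod.fst = (f v).map Prod.fst := congrArg Prod.snd h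
  rw [hc] at h1
  obtain ⟨⟨c', r'⟩, hc'⟩ := Option.ne_none_iff_exists'.1 h2
  rw [hc'] at h1
  simp only [Option.map_some, Option.some.injEq] at h1
  subst h1
  exact ⟨hne, h3, c, ⟨r, hc⟩, ⟨r', hc'⟩⟩

theorem Same.phi {u v : V} (h : D.Same f u v) : D.phi f u = D.phi f v := by
  obtain ⟨-, h1, c, ⟨r, hr⟩, ⟨r', hr'⟩⟩ := h
  unfold DD.phi
  rw [hr, hr']
  refine Prod.ext (Fin.ext ?_) rfl
  show min (D.lv u) D.NS = min (D.lv v) D.NS
  rw [h1]

/-- Vertices of the same colour outside the dropped set are not special. -/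
theorem not_Spc_of_same (hD : D.Ok) (H : D.Sep f) {u x : V} (hu : u ∉ D.RS f)
    (h : D.Same f u x) : ¬ D.Spc u x := by
  by_cases hr : D.rd f u = D.rd f x
  · apply not_Spc_of_not_Rp hD h.1
    intro h'
    exact (not_mem_RS hu).2.1 ⟨x, h, hr.symm, h'⟩
  · exact (H u x h hr).1

theorem claim (hD : D.Ok) {G : SimpleGraph V} (hG : ∀ v, D.N v = nb G v)
    {f : V → Option (Fin D.k × ℕ)} (hl : ∀ v, f v ≠ none → D.lv v < D.NS) (H : D.Sep f) :
    (∀ u v, u ∉ D.RS f → v ∉ D.RS f → G.Adj u v → D.phi f u ≠ D.phi f v) ∧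
    ∀ α β, (G.induce {v | v ∉ D.RS f ∧ (D.phi f v = α ∨ D.phi f v = β)}).IsAcyclic := by
  have hN : ∀ {u v : V}, G.Adj u v → v ∈ D.N u := fun {u v} h => by
    rw [hG u, mem_nb]
    exact h
  have hprop : ∀ u v, u ∉ D.RS f → v ∉ D.RS f → G.Adj u v → D.phi f u ≠ D.phi f v := by
    intro u v hu hv h h'
    have h1 := same_of_phi hl h.ne (not_mem_RS hu).1 h'
    exact not_Spc_of_same hD H hu h1 (.inl (hN h.symm))
  refine ⟨hprop, fun α β => ?_⟩
  by_contra hcon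
  obtain ⟨C, hne, hCS, hC⟩ := D1.exists_core G _ hcon
  have hCD : ∀ v ∈ C, v ∉ D.RS f := fun v hv => (hCS v hv).1
  have hCp : ∀ v ∈ C, D.phi f v = α ∨ D.phi f v = β := fun v hv => (hCS v hv).2
  -- the last vertex
  obtain ⟨v, hv, hlast⟩ : ∃ v ∈ C, ∀ w ∈ C, D.lv w < D.lv v ∨
      (D.lv w = D.lv v ∧ D.rd f w ≤ D.rd f v) := by
    obtain ⟨v, hv, hm⟩ := exists_max_image C (fun w => toLex (D.lv w, D.rd f w)) hne
    refine ⟨v, hv, fun w hw => ?_⟩
    have h1 := hm w hw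
    rw [Prod.Lex.toLex_le_toLex] at h1
    exact h1
  obtain ⟨-, hA, hB, hRC, hRD⟩ := not_mem_RS (hCD v hv)
  obtain ⟨a, b, ha, hab⟩ : ∃ a b, D.phi f v = a ∧ ∀ w ∈ C, D.phi f w = a ∨ D.phi f w = b := by
    rcases hCp v hv with h | h
    · exact ⟨α, β, h, hCp⟩
    · exact ⟨β, α, h, fun w hw => (hCp w hw).symm⟩
  have hp : ∀ u ∈ C, ∀ w ∈ C, G.Adj u w → D.phi f u ≠ D.phi f w :=
    fun u hu w hw => hprop u w (hCD u hu) (hCD w hw)
  -- facts about vertices of colour a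
  have fa : ∀ u ∈ C, u ≠ v → D.phi f u = a → D.Same f v u ∧ D.rd f u ≤ D.rd f v := by
    intro u hu huv hfu
    have h1 := same_of_phi hl huv.symm (not_mem_RS (hCD v hv)).1 (ha.trans hfu.symm)
    refine ⟨h1, ?_⟩
    rcases hlast u hu with h2 | h2
    · exact absurd h1.2.1 (ne_of_gt h2)
    · exact h2.2
  have fb : ∀ z ∈ C, ∀ z' ∈ C, z ≠ z' → D.phi f z = b → D.phi f z' = b →
      D.Same f z z' ∧ ¬ D.Spc z z' := by
    intro z hz z' hz' hzz h1 h2
    have h3 := same_of_phi hl hzz (not_mem_RS (hCD z hz)).1 (h1.trans h2.symm)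
    exact ⟨h3, not_Spc_of_same hD H (hCD z hz) h3⟩
  obtain ⟨z0, z0', u0, u0', hz, hz', hu, hu', hzz, huv, huv', fz, fz', fu, fu', h1, h2, h3, h4⟩ :=
    core_at_two hC hp hab hv ha
  rcases hlast z0 hz with hlt | ⟨heq, hrd⟩
  · -- the other colour is in an earlier part
    have hlb : ∀ z ∈ C, D.phi f z = b → D.lv z < D.lv v := by
      intro z hz1 h
      rw [lv_eq_of_phi hl (not_mem_RS (hCD z hz1)).1 (not_mem_RS (hCD z0 hz)).1 (h.trans fz.symm)]
      exact hlt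
    rcases core_at hC hp hab hv ha with ⟨z, u, z', gz, gu, gz', g1, g2, g3, g4, g5, g6, g7, g8,
      g9⟩ | ⟨z'', u, z, z', u', gz'', gu, gz, gz', gu', g1, g2, g3, g4, g5, g6, g7, g8, g9, g10,
      g11, g12, g13, g14, g15, g16⟩
    · obtain ⟨s1, s2⟩ := fa u gu g2 g5
      obtain ⟨s3, s4⟩ := fb z gz z' gz' g1 g3 g4
      have s5 := hlb z gz g3
      have m1 : z ∈ cN D.N v u := mem_cN.2 ⟨hN g6, hN g7.symm⟩
      have m2 : z' ∈ cN D.N v u := mem_cN.2 ⟨hN g9.symm, hN g8⟩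
      by_cases hR : D.Rp v u
      · have hr : D.rd f v ≠ D.rd f u := fun h => hA ⟨u, s1, h.symm, hR⟩
        exact (H v u s1 hr).2 hR z m1 z' m2 s5 s3
      · exact hB ⟨u, s1, s2, g2, s1.2.1.symm, hR, z, z', s3, s4, s5, m1, m2⟩
    · obtain ⟨s1, s2⟩ := fa u gu g4 g7
      obtain ⟨s3, s4⟩ := fa u' gu' g5 g8
      obtain ⟨s5, s6⟩ := fb z gz z' gz' g1 g9 g10
      obtain ⟨s7, s8⟩ := fb z gz z'' gz'' g2 g9 g11
      have s9 := hlb z gz g9
      exact hRD ⟨u, u', g6, s1, s3, s2, s4, z, z', z'', g3, s5, s7, s6, s8, s9,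
        mem_cN.2 ⟨hN g14, hN g13.symm⟩, mem_cN.2 ⟨hN g15, hN g16.symm⟩, hN g12⟩
  · -- both colours in one part
    obtain ⟨s1, s2⟩ := fa u0 hu huv fu
    obtain ⟨s3, s4⟩ := fa u0' hu' huv' fu'
    obtain ⟨s5, s6⟩ := fb z0 hz z0' hz' hzz fz fz'
    have hrd' : D.rd f z0' ≤ D.rd f v := by
      rcases hlast z0' hz' with h | h
      · rw [← s5.2.1, heq] at h
        exact absurd h (lt_irrefl _)
      · exact h.2
    exact hRC ⟨z0, z0', u0, u0', s5, s6, heq, hN h1, hN h2, hN h3, hN h4, s1, s3,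
      fun h => hp v hv z0 hz h1 h.phi, hrd, hrd', s2, s4⟩

end

end DD

end

end Pool.Agent.AcyGD
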