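import Pool.Agent.AcyGD.Base
import Pool.Agent.AcyGD.Claim
import Pool.Agent.AcyK.DRecol

/-! # The recolouring lemma applies, general graphs (row D10) -/

set_option autoImplicit false
set_option linter.unusedSectionVars false

namespace Pool.Agent.AcyGD

open Finset
open Pool.Agent.Acy (IsPM wt Ex Pr mean)
open Pool.Agent.AcyK
open scoped Classical

universe u v

section

variable {V : Type u} [Fintype V] [DecidableEq V]

namespace DD

variable {D : DD V} {f : V → Option (Fin D.k × ℕ)}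

/-- `mem_filter` for any decidability instance. -/
theorem fin_mf {α : Type*} {p : α → Prop} {i : DecidablePred p} {s : Finset α} {a : α} :
    a ∈ @Finset.filter α p i s ↔ a ∈ s ∧ p a := @Finset.mem_filter α p i s a

/-- `mem_inter` for any decidability instance. -/
theorem fin_mi {α : Type*} {i : DecidableEq α} {s t : Finset α} {a : α} :
    a ∈ @Inter.inter (Finset α) (@Finset.instInter α i) s t ↔ a ∈ s ∧ a ∈ t :=
  Finset.mem_inter

theorem fin_sum_lv {n : ℕ} (y : V) (P : Prop) [Decidable P] (hP : P → D.lv y < n) (a : ℝ) :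
    (∑ i ∈ range n, if D.lv y = i ∧ P then a else 0) = if P then a else 0 := by
  by_cases h : P
  · simp only [h, and_true, if_true]
    rw [Finset.sum_ite_eq]
    rw [if_pos (mem_range.2 (hP h))]
  · simp [h]

theorem fin_sum_S2 (hl : ∀ v, f v ≠ none → D.lv v < D.NS) (w : V → V → ℝ) :
    (∑ i ∈ range D.NS, D.S2 f i w) = ∑ y, ∑ y', if D.Same f y y' then w y y' else 0 := by
  unfold S2
  rw [sum_comm]
  refine sum_congr rfl fun y _ => ?_
  rw [sum_comm]
  refine sum_congr rfl fun y' _ => ?_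
  exact fin_sum_lv y _ (fun h => hl y h.left_ne_none) _

theorem fin_sum_S2r (hl : ∀ v, f v ≠ none → D.lv v < D.NS) (w : V → V → ℝ) :
    (∑ i ∈ range D.NS, D.S2r f i w) =
      ∑ y, ∑ y', if D.Same f y y' ∧ D.rd f y = D.rd f y' then w y y' else 0 := by
  unfold S2r
  rw [sum_comm]
  refine sum_congr rfl fun y _ => ?_
  rw [sum_comm]
  refine sum_congr rfl fun y' _ => ?_
  exact fin_sum_lv y (D.Same f y y' ∧ D.rd f y = D.rd f y')
    (fun h => hl y h.1.left_ne_none) (w y y')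

/-- Monochromatic pairs: same round or different rounds. -/
theorem fin_split (hl : ∀ v, f v ≠ none → D.lv v < D.NS) (w : V → V → ℝ) :
    (∑ y, ∑ y', if D.Same f y y' then w y y' else 0) =
      (∑ i ∈ range D.NS, D.S2r f i w) + D.S2d f w := by
  rw [fin_sum_S2r hl]
  unfold S2d
  rw [← sum_add_distrib]
  refine sum_congr rfl fun y _ => ?_
  rw [← sum_add_distrib]
  refine sum_congr rfl fun y' _ => ?_
  by_cases h1 : D.Same f y y' <;> by_cases h2 : D.rd f y = D.rd f y' <;> simp [h1, h2]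

theorem NS_mul (hD : D.Ok) {a b : ℕ} (h : a + 801 ≤ b) : D.NS * D.T ^ a ≤ D.T ^ b := by
  have h0 := T0 hD
  calc (D.NS : ℝ) * D.T ^ a ≤ (D.T * D.T ^ 800) * D.T ^ a := by
        refine mul_le_mul_of_nonneg_right (hD.NS_hi.trans ?_) (Tp hD a).le
        exact mul_le_mul_of_nonneg_left hD.R_hi h0.le
    _ = D.T ^ (a + 801) := by rw [pow_add, pow_succ]; ring
    _ ≤ D.T ^ b := hD.big.pw h

/-- The dropped and the uncoloured vertices in a neighbourhood. -/
theorem fin_deg {δ a m2 m3 m4 : ℝ} (h : D.Fin' f δ a m2 m3 m4) (w : V) :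
    (((D.N w).filter fun v => v ∈ D.RS f).card : ℝ) ≤ 2 * δ * D.T ^ 3600 := by
  have hD := h.ok
  have hT := Tb hD
  have h0 := T0 hD
  have h1 : ((D.N w).filter fun v => v ∈ D.RS f) ⊆
      ((D.N w).filter fun v => f v = none) ∪ ((D.N w).filter fun v => D.Drop f v) := by
    intro v hv
    rw [mem_filter] at hv
    obtain ⟨h2, h3⟩ := hv
    unfold RS at h3
    rw [mem_filter] at h3
    rw [mem_union, mem_filter, mem_filter]
    rcases h3.2 with h4 | h4
    · exact .inl ⟨h2, h4⟩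
    · exact .inr ⟨h2, h4⟩
  have h2 : (((D.N w).filter fun v => v ∈ D.RS f).card : ℝ) ≤
      (((D.N w).filter fun v => f v = none).card : ℝ) +
        (((D.N w).filter fun v => D.Drop f v).card : ℝ) := by
    have := (card_le_card h1).trans (card_union_le _ _)
    exact_mod_cast this
  have h3 : (((D.N w).filter fun v => D.Drop f v).card : ℝ) ≤ D.NS * D.drB := by
    rw [card_eq_sum_card_fiberwise (f := D.lv) (t := range D.NS)
      (fun x hx => mem_coe.2 (mem_range.2 (h.lv_lt x (mem_filter.1 (mem_coe.1 hx)).2.1)))]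
    push_cast
    have h4 : (D.NS : ℝ) * D.drB = ∑ i ∈ range D.NS, D.drB := by
      rw [sum_const, card_range, nsmul_eq_mul]
    rw [h4]
    refine sum_le_sum fun i hi => ?_
    refine le_trans ?_ (h.old.dr i (mem_range.1 hi) w)
    apply Nat.cast_le.2
    apply card_le_card
    intro v hv
    rw [mem_filter, mem_filter] at hv
    rw [mem_filter]
    exact ⟨mem_univ _, hv.2, hv.1.1, hv.1.2⟩
  have h4 : (D.NS : ℝ) * D.drB ≤ δ * D.T ^ 3600 := by
    have hR := R0 hD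
    unfold drB
    calc (D.NS : ℝ) * (D.T ^ 3597 / D.R) ≤ (D.T * D.R) * (D.T ^ 3597 / D.R) :=
          mul_le_mul_of_nonneg_right hD.NS_hi (by positivity)
      _ = D.T ^ 3598 := by
          rw [show D.T ^ 3598 = D.T ^ 3597 * D.T from pow_succ D.T 3597]
          field_simp
      _ ≤ D.T ^ 3599 := hD.big.pw (by norm_num)
      _ = 1 / D.T * D.T ^ 3600 := by
          rw [show D.T ^ 3600 = D.T ^ 3599 * D.T from pow_succ D.T 3599]
          field_simp
      _ ≤ δ * D.T ^ 3600 := mul_le_mul_of_nonneg_right h.δ_lo (Tp hD _).le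
  have h5 := h.un w
  linarith

/-- Pairs of large codegree with `y` inside a set that is sparse in all neighbourhoods. -/
theorem fin_heavy (hD : D.Ok) (A : Finset V) {b a : ℝ} (hb0 : 0 ≤ b)
    (hb : ∀ w, (((D.N w).filter fun v => v ∈ A).card : ℝ) ≤ b) (y : V)
    (hA : ∀ y' ∈ A, a ≤ D.cod y y') : (A.card : ℝ) * a ≤ D.T ^ 3600 * b := by
  calc (A.card : ℝ) * a = ∑ y' ∈ A, a := by
        rw [sum_const, nsmul_eq_mul]
    _ ≤ ∑ y' ∈ A, D.cod y y' := sum_le_sum hA
    _ = ∑ y' ∈ A, ∑ z ∈ D.N y, if z ∈ D.N y' then (1 : ℝ) else 0 := by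
        refine sum_congr rfl fun y' _ => ?_
        unfold cod cN
        rw [← sum_filter, sum_const, nsmul_eq_mul, mul_one]
        congr 2
    _ = ∑ z ∈ D.N y, ∑ y' ∈ A, if z ∈ D.N y' then (1 : ℝ) else 0 := sum_comm
    _ ≤ ∑ z ∈ D.N y, b := by
        refine sum_le_sum fun z _ => ?_
        refine le_trans (le_of_eq ?_) (hb z)
        rw [← sum_filter, sum_const, nsmul_eq_mul, mul_one]
        congr 2
        ext y'
        rw [mem_filter, mem_filter, N_comm hD (u := z)]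
        tauto
    _ = (D.N y).card * b := by rw [sum_const, nsmul_eq_mul]
    _ ≤ D.T ^ 3600 * b := mul_le_mul_of_nonneg_right (Nc hD y) hb0

/-- Vertices with a monochromatic pair of common neighbours. -/
theorem fin_cnt (hD : D.Ok) (y : V) (P : V → Prop) (B : Finset V)
    (hB : ∀ x ∈ B, x ≠ y ∧ P x ∧ ∃ z z', D.Same f z z' ∧ ¬ D.Spc z z' ∧
      z ∈ cN D.N y x ∧ z' ∈ cN D.N y x) : (B.card : ℝ) ≤
      ∑ z, ∑ z', if D.Same f z z' then
        (if (z ∈ D.N y ∧ z' ∈ D.N y) ∧ ¬ D.Spc z z' then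
          (((cN D.N z z').filter fun x => x ≠ y ∧ P x).card : ℝ) else 0) else 0 := by
  set S : V × V → Finset V := fun e => if D.Same f e.1 e.2 ∧ (e.1 ∈ D.N y ∧ e.2 ∈ D.N y) ∧
    ¬ D.Spc e.1 e.2 then (cN D.N e.1 e.2).filter fun x => x ≠ y ∧ P x else ∅ with hS
  have h1 : B ⊆ (univ : Finset (V × V)).biUnion S := by
    intro x hx
    obtain ⟨h2, h3, z, z', h4, h5, h6, h7⟩ := hB x hx
    rw [mem_biUnion]
    refine ⟨(z, z'), mem_univ _, ?_⟩
    rw [mem_cN] at h6 h7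
    simp only [hS]
    rw [if_pos ⟨h4, ⟨h6.1, h7.1⟩, h5⟩, mem_filter, mem_cN]
    exact ⟨⟨(N_comm hD).1 h6.2, (N_comm hD).1 h7.2⟩, h2, h3⟩
  have h2 : (B.card : ℝ) ≤ ∑ e : V × V, ((S e).card : ℝ) := by
    have := (card_le_card h1).trans card_biUnion_le
    exact_mod_cast this
  refine h2.trans (le_of_eq ?_)
  rw [Fintype.sum_prod_type]
  refine sum_congr rfl fun z _ => sum_congr rfl fun z' _ => ?_
  simp only [hS]
  by_cases h5 : D.Same f z z'
  · by_cases h6 : (z ∈ D.N y ∧ z' ∈ D.N y) ∧ ¬ D.Spc z z'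
    · rw [if_pos ⟨h5, h6⟩, if_pos h5, if_pos h6]
    · rw [if_neg fun h => h6 h.2, if_pos h5, if_neg h6]
      simp
  · rw [if_neg fun h => h5 h.1, if_neg h5]
    simp

/-- Vertices of small codegree with a monochromatic pair of common neighbours. -/
theorem fin_low {δ a m2 m3 m4 : ℝ} (h : D.Fin' f δ a m2 m3 m4) (y : V) (B : Finset V)
    (hB : ∀ x ∈ B, x ≠ y ∧ D.cod x y < D.T ^ 2385 ∧ ∃ z z', D.Same f z z' ∧ ¬ D.Spc z z' ∧
      z ∈ cN D.N y x ∧ z' ∈ cN D.N y x) : (B.card : ℝ) ≤ 500 * D.T ^ 4790 := by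
  have hD := h.ok
  have h0 := T0 hD
  have hk := k0 hD
  have hR := R0 hD
  have h1 := fin_cnt hD y (fun x => D.cod x y < D.T ^ 2385) B hB
  have h2 : (∑ z, ∑ z', if D.Same f z z' then
        (if (z ∈ D.N y ∧ z' ∈ D.N y) ∧ ¬ D.Spc z z' then
          (((cN D.N z z').filter fun x => x ≠ y ∧ D.cod x y < D.T ^ 2385).card : ℝ) else 0)
          else 0) = ∑ i ∈ range D.NS, D.S2 f i (D.wQ y) := by
    rw [fin_sum_S2 h.lv_lt]
    rfl
  rw [h2] at h1
  refine h1.trans ?_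
  calc (∑ i ∈ range D.NS, D.S2 f i (D.wQ y)) ≤
        ∑ i ∈ range D.NS, 500 * (D.T ^ 9588 / (D.k * D.R ^ 2)) :=
        sum_le_sum fun i hi => (h.old.stat i (mem_range.1 hi)).sQ y
    _ = D.NS * (500 * (D.T ^ 9588 / (D.k * D.R ^ 2))) := by
        rw [sum_const, card_range, nsmul_eq_mul]
    _ ≤ (D.T * D.R) * (500 * (D.T ^ 9588 / (D.k * D.R ^ 2))) :=
        mul_le_mul_of_nonneg_right hD.NS_hi (by positivity)
    _ = 500 * (D.T ^ 9589 / (D.k * D.R)) := by
        rw [show D.T ^ 9589 = D.T ^ 9588 * D.T from pow_succ D.T 9588]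
        field_simp
    _ ≤ 500 * D.T ^ 4790 := by
        refine mul_le_mul_of_nonneg_left ?_ (by norm_num)
        rw [div_le_iff₀ (by positivity)]
        calc D.T ^ 9589 = D.T ^ 4790 * D.T ^ 4799 := by rw [← pow_add]
          _ ≤ D.T ^ 4790 * (D.k * D.R) := mul_le_mul_of_nonneg_left hD.kR (Tp hD _).le

/-- Vertices of medium codegree with a monochromatic pair of common neighbours. -/
theorem fin_mid {δ a m2 m3 m4 : ℝ} (h : D.Fin' f δ a m2 m3 m4) (y : V) (B : Finset V)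
    (hB : ∀ x ∈ B, x ≠ y ∧ (D.T ^ 2385 ≤ D.cod x y ∧ D.cod x y < a) ∧
      ∃ z z', D.Same f z z' ∧ ¬ D.Spc z z' ∧ z ∈ cN D.N y x ∧ z' ∈ cN D.N y x) :
    (B.card : ℝ) ≤ D.T ^ 4721 + m4 * D.T ^ 4800 := by
  have hD := h.ok
  have h0 := T0 hD
  have h1 := fin_cnt hD y (fun x => D.T ^ 2385 ≤ D.cod x y ∧ D.cod x y < a) B hB
  have h2 : (B.card : ℝ) ≤ (∑ i ∈ range D.NS, D.S2r f i (D.wF a y)) + D.S2d f (D.wF a y) := by
    rw [← fin_split h.lv_lt]
    refine h1.trans (le_of_eq (sum_congr rfl fun z _ => sum_congr rfl fun z' _ => ?_))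
    unfold wF
    by_cases h5 : D.Same f z z'
    · rw [if_pos h5, if_pos h5]
      by_cases h6 : (z ∈ D.N y ∧ z' ∈ D.N y) ∧ ¬ D.Spc z z'
      · rw [if_pos h6, if_pos h6]
        exact congrArg _ (congrArg Finset.card (by ext x; rw [fin_mf, fin_mf]))
      · rw [if_neg h6, if_neg h6]
    · rw [if_neg h5, if_neg h5]
  refine h2.trans (add_le_add ?_ (h.dF y))
  calc (∑ i ∈ range D.NS, D.S2r f i (D.wF a y)) ≤ ∑ i ∈ range D.NS, D.T ^ 3920 := by
        refine sum_le_sum fun i hi => le_trans ?_ ((h.old.stat i (mem_range.1 hi)).rF y)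
        unfold S2r
        refine sum_le_sum fun z _ => sum_le_sum fun z' _ => ?_
        split_ifs
        · unfold wF
          split_ifs
          · apply Nat.cast_le.2
            apply card_le_card
            intro x hx
            rw [mem_filter] at hx ⊢
            exact ⟨hx.1, hx.2.1, hx.2.2.1, hx.2.2.2.trans_le h.a_hi⟩
          · exact le_rfl
        · exact le_rfl
    _ = D.NS * D.T ^ 3920 := by rw [sum_const, card_range, nsmul_eq_mul]
    _ ≤ D.T ^ 4721 := NS_mul hD (by norm_num)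

theorem recol_ok {δ a m2 m3 m4 : ℝ}
    (h : D.Fin' f δ a m2 m3 m4) {G : SimpleGraph V} (hG : ∀ v, D.N v = nb G v)
    {ε b : ℝ} (hε : 0 < ε) (hb : 0 < b) (hm2 : 0 ≤ m2) (hm3 : 0 ≤ m3) (_hm4 : 0 ≤ m4)
    {n : ℕ} (hn : ε * D.T ^ 4800 ≤ n)
    (num : 2 * (2 * δ / D.T ^ 1200 + (2 * δ / (a / D.T ^ 2400) + m4 + 1 / D.T) +
        (2 * δ) ^ 2 / b) +
      2 * (4 * b * (2 * δ) ^ 2 + (m2 + 1 / D.T) * (2 * δ) ^ 2 + 2 * (m3 + 1 / D.T) * (2 * δ)) /
        ε + 20 * (2 * δ) ^ 4 / ε ^ 2 ≤ ε / 2) :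
    RecolOk G (D.RS f) (D.phi f) n (2 * δ * D.T ^ 3600) (b * D.T ^ 2400)
      ((2 * δ / (a / D.T ^ 2400) + m4 + 1 / D.T) * D.T ^ 4800)
      ((m2 + 1 / D.T) * D.T ^ 2400) ((m3 + 1 / D.T) * D.T ^ 6000) := by
  have hD := h.ok
  have hT := Tb hD
  have h0 := T0 hD
  have hδ : 0 < δ := lt_of_lt_of_le (by positivity) h.δ_lo
  have ha : 0 < a := lt_of_lt_of_le (Tp hD _) h.a_lo
  have hcn : ∀ u v z, z ∈ cn G u v ↔ z ∈ cN D.N u v := by
    intro u v z
    rw [mem_cn, mem_cN, hG, hG, mem_nb, mem_nb]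
  have hone : ∀ c : ℕ, 1 / D.T * D.T ^ (c + 1) = D.T ^ c := fun c => by
    rw [pow_succ]; field_simp
  have hdeg := fin_deg h
  obtain ⟨hc1, hc2⟩ := claim hD hG h.lv_lt h.sep
  have hn0 : 0 < (n : ℝ) := lt_of_lt_of_le (by positivity) hn
  refine ⟨hc1, hc2, by positivity, ?_, ?_, ?_, ?_, ?_, ?_⟩
  · intro v
    refine le_trans ?_ (hdeg v)
    apply Nat.cast_le.2
    apply card_le_card
    intro x hx
    rw [fin_mi, ← hG] at hx
    rw [mem_filter]
    exact hx
  · intro y hy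
    set A : Finset V := (D.RS f).filter fun y' => a ≤ D.cod y y' with hA
    set B : Finset V := univ.filter fun x => x ≠ y ∧ (D.T ^ 2385 ≤ D.cod x y ∧ D.cod x y < a) ∧
      ∃ z z', D.Same f z z' ∧ ¬ D.Spc z z' ∧ z ∈ cN D.N y x ∧ z' ∈ cN D.N y x with hB
    set B' : Finset V := univ.filter fun x => x ≠ y ∧ D.cod x y < D.T ^ 2385 ∧
      ∃ z z', D.Same f z z' ∧ ¬ D.Spc z z' ∧ z ∈ cN D.N y x ∧ z' ∈ cN D.N y x with hB'
    have h1 := fin_mid h y B fun x hx => (mem_filter.1 hx).2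
    have h1' := fin_low h y B' fun x hx => (mem_filter.1 hx).2
    have h2 : (A.card : ℝ) ≤ 2 * δ / (a / D.T ^ 2400) * D.T ^ 4800 := by
      have h3 := fin_heavy hD A (b := 2 * δ * D.T ^ 3600) (a := a) (by positivity) (fun w => by
        refine le_trans ?_ (hdeg w)
        apply Nat.cast_le.2
        apply card_le_card
        intro x hx
        rw [mem_filter] at hx ⊢
        exact ⟨hx.1, (mem_filter.1 hx.2).1⟩) y (fun y' h => (mem_filter.1 h).2)
      have h4 : 2 * δ / (a / D.T ^ 2400) * D.T ^ 4800 = D.T ^ 3600 * (2 * δ * D.T ^ 3600) / a := by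
        rw [show D.T ^ 3600 * (2 * δ * D.T ^ 3600) = 2 * δ * D.T ^ 2400 * D.T ^ 4800 by ring]
        field_simp
      rw [h4, le_div_iff₀ ha]
      exact h3
    have h3 : ((2 * δ / (a / D.T ^ 2400) + m4 + 1 / D.T) * D.T ^ 4800) =
        2 * δ / (a / D.T ^ 2400) * D.T ^ 4800 + m4 * D.T ^ 4800 + D.T ^ 4799 := by
      rw [add_mul, add_mul, hone 4799]
    have h5 : 2 * D.T ^ 4721 ≤ D.T ^ 4799 := num_pow hD (by norm_num) (by norm_num)
    have h6 : 1000 * D.T ^ 4790 ≤ D.T ^ 4799 := num_pow hD (by norm_num) (by norm_num)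
    rw [h3]
    refine le_trans ?_ (le_trans (add_le_add h2 (add_le_add h1 h1')) (by linarith))
    have h4 : ∀ S : Finset V, S ⊆ A ∪ (B ∪ B') →
        (S.card : ℝ) ≤ (A.card : ℝ) + (B.card + B'.card) := by
      intro S hS
      have := (card_le_card hS).trans ((card_union_le _ _).trans
        (Nat.add_le_add_left (card_union_le _ _) _))
      exact_mod_cast this
    apply h4
    intro y' hy'
    rw [fin_mf] at hy'
    obtain ⟨h5, h6, z, z', h7, h8, h9, h10, h11, h12⟩ := hy'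
    have h14 := same_of_phi h.lv_lt h9 (not_mem_RS h7).1 h12
    have h15 := not_Spc_of_same hD h.sep h7 h14
    rw [mem_union, mem_union]
    by_cases h13 : a ≤ D.cod y y'
    · exact .inl (mem_filter.2 ⟨h5, h13⟩)
    · right
      by_cases h16 : D.T ^ 2385 ≤ D.cod y' y
      · left
        rw [hB, mem_filter]
        refine ⟨mem_univ _, h6, ⟨h16, ?_⟩, z, z', h14, h15, (hcn _ _ _).1 h10,
          (hcn _ _ _).1 h11⟩
        rw [cod_symm]
        exact not_le.1 h13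
      · right
        rw [hB', mem_filter]
        exact ⟨mem_univ _, h6, not_le.1 h16, z, z', h14, h15, (hcn _ _ _).1 h10,
          (hcn _ _ _).1 h11⟩
  · intro y hy
    have h1 : ∀ S : Finset (V × V), (∀ w ∈ S, D.Same f w.1 w.2 ∧ w.1 ∈ D.N y ∧ w.2 ∈ D.N y) →
        (S.card : ℝ) ≤ ∑ z, ∑ z', if D.Same f z z' then D.wM y y z z' else 0 := by
      intro S hS
      rw [← Fintype.sum_prod_type' (f := fun z z' => if D.Same f z z' then D.wM y y z z' else 0)]
      calc (S.card : ℝ) = ∑ w ∈ S, (1 : ℝ) := by rw [sum_const, nsmul_eq_mul, mul_one]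
        _ = ∑ w ∈ S, if D.Same f w.1 w.2 then D.wM y y w.1 w.2 else 0 := by
            refine sum_congr rfl fun w hw => ?_
            obtain ⟨h2, h3, h4⟩ := hS w hw
            unfold wM
            rw [if_pos h2, if_pos ⟨h3, h4⟩]
        _ ≤ _ := by
            apply sum_le_sum_of_subset_of_nonneg (subset_univ S)
            intro w _ _
            unfold wM
            split_ifs <;> norm_num
    refine (h1 _ ?_).trans ?_
    · intro w hw
      rw [fin_mf] at hw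
      obtain ⟨_, h2, h3, h4, h5, h6, h7⟩ := hw
      rw [← hG] at h5 h6
      exact ⟨same_of_phi h.lv_lt h4 (not_mem_RS h2).1 h7, h5, h6⟩
    · rw [fin_split h.lv_lt]
      calc (∑ i ∈ range D.NS, D.S2r f i (D.wM y y)) + D.S2d f (D.wM y y)
          ≤ (∑ i ∈ range D.NS, D.T ^ 1520) + m2 * D.T ^ 2400 :=
            add_le_add (sum_le_sum fun i hi => (h.old.stat i (mem_range.1 hi)).rM y) (h.dM y)
        _ = D.NS * D.T ^ 1520 + m2 * D.T ^ 2400 := by rw [sum_const, card_range, nsmul_eq_mul]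
        _ ≤ D.T ^ 2399 + m2 * D.T ^ 2400 := by
            have := NS_mul hD (show 1520 + 801 ≤ 2399 by norm_num)
            linarith
        _ = (m2 + 1 / D.T) * D.T ^ 2400 := by
            rw [add_mul, hone 2399]
            ring
  · intro y hy
    have h1 : (∑ w : V × V, (if w.1 ∉ D.RS f ∧ w.2 ∉ D.RS f ∧ w.1 ≠ w.2 ∧ w.1 ∈ nb G y ∧
        D.phi f w.1 = D.phi f w.2 then ((cn G w.1 w.2 ∩ D.RS f).card : ℝ) else 0)) ≤
        ∑ z, ∑ z', if D.Same f z z' then D.wP y z z' else 0 := by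
      rw [← Fintype.sum_prod_type' (f := fun z z' => if D.Same f z z' then D.wP y z z' else 0)]
      refine sum_le_sum fun w _ => ?_
      have h5 : 0 ≤ D.wP y w.1 w.2 := wP_nonneg _ _ _
      split_ifs with h2 h3 h3
      · obtain ⟨h6, h7, h8, h9, h10⟩ := h2
        unfold wP
        rw [← hG] at h9
        rw [if_pos ⟨h9, not_Spc_of_same hD h.sep h6 h3⟩]
        unfold cod
        apply Nat.cast_le.2
        apply card_le_card
        intro x hx
        rw [mem_inter] at hx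
        exact (hcn _ _ _).1 hx.1
      · exact absurd (same_of_phi h.lv_lt h2.2.2.1 (not_mem_RS h2.1).1 h2.2.2.2.2) h3
      · exact h5
      · exact le_rfl
    rw [fin_split h.lv_lt] at h1
    refine le_trans ?_ (h1.trans ?_)
    · apply le_of_eq
      refine sum_congr rfl fun w _ => ?_
      split_ifs
      · rw [Nat.cast_inj]
        congr 1
        ext x
        simp only [mem_inter]
      · rfl
    · calc (∑ i ∈ range D.NS, D.S2r f i (D.wP y)) + D.S2d f (D.wP y)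
          ≤ (∑ i ∈ range D.NS, D.T ^ 5120) + m3 * D.T ^ 6000 :=
            add_le_add (sum_le_sum fun i hi => (h.old.stat i (mem_range.1 hi)).rP y) (h.dP y)
        _ = D.NS * D.T ^ 5120 + m3 * D.T ^ 6000 := by rw [sum_const, card_range, nsmul_eq_mul]
        _ ≤ D.T ^ 5999 + m3 * D.T ^ 6000 := by
            have := NS_mul hD (show 5120 + 801 ≤ 5999 by norm_num)
            linarith
        _ = (m3 + 1 / D.T) * D.T ^ 6000 := by
            rw [add_mul, hone 5999]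
            ring
  · exact_mod_cast hn0
  · set X : ℝ := D.T ^ 4800 with hX
    have hX0 : 0 < X := Tp hD _
    set δ' : ℝ := 2 * δ with hδ'
    have hδ0 : 0 < δ' := by positivity
    set p : ℝ := 2 * δ / (a / D.T ^ 2400) + m4 + 1 / D.T with hp
    set q : ℝ := m2 + 1 / D.T with hq
    set r : ℝ := m3 + 1 / D.T with hr
    have hq0 : 0 ≤ q := by positivity
    have hr0 : 0 ≤ r := by positivity
    have e1 : δ' * D.T ^ 3600 = δ' / D.T ^ 1200 * X := by
      rw [hX, show D.T ^ 4800 = D.T ^ 3600 * D.T ^ 1200 by rw [← pow_add]]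
      field_simp
    have e2 : (δ' * D.T ^ 3600) ^ 2 / (b * D.T ^ 2400) = δ' ^ 2 / b * X := by
      rw [mul_pow, ← pow_mul, hX,
        show D.T ^ (3600 * 2) = D.T ^ 4800 * D.T ^ 2400 by rw [← pow_add]]
      field_simp
    have e3 : 4 * (b * D.T ^ 2400) * (δ' * D.T ^ 3600) ^ 2 +
        q * D.T ^ 2400 * (δ' * D.T ^ 3600) ^ 2 + 2 * (r * D.T ^ 6000) * (δ' * D.T ^ 3600) =
        (4 * b * δ' ^ 2 + q * δ' ^ 2 + 2 * r * δ') * X ^ 2 := by
      have e31 : D.T ^ 2400 * (D.T ^ 3600) ^ 2 = X ^ 2 := by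
        rw [hX]; ring
      have e32 : D.T ^ 6000 * D.T ^ 3600 = X ^ 2 := by
        rw [hX]; ring
      calc _ = (4 * b * δ' ^ 2 + q * δ' ^ 2) * (D.T ^ 2400 * (D.T ^ 3600) ^ 2) +
            2 * r * δ' * (D.T ^ 6000 * D.T ^ 3600) := by ring
        _ = _ := by rw [e31, e32]; ring
    have e4 : (δ' * D.T ^ 3600) ^ 4 = δ' ^ 4 * X ^ 3 := by
      rw [hX]; ring
    have hn2 : ε * X / 2 ≤ (n : ℝ) / 2 := by linarith
    have hn3 : 0 < ε * X / 2 := by positivity
    have hn4 : 0 < (n : ℝ) / 2 := lt_of_lt_of_le hn3 hn2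
    have f1 : (4 * b * δ' ^ 2 + q * δ' ^ 2 + 2 * r * δ') * X ^ 2 / ((n : ℝ) / 2) ≤
        2 * (4 * b * δ' ^ 2 + q * δ' ^ 2 + 2 * r * δ') / ε * X := by
      calc (4 * b * δ' ^ 2 + q * δ' ^ 2 + 2 * r * δ') * X ^ 2 / ((n : ℝ) / 2)
          ≤ (4 * b * δ' ^ 2 + q * δ' ^ 2 + 2 * r * δ') * X ^ 2 / (ε * X / 2) :=
            div_le_div_of_nonneg_left (by positivity) hn3 hn2
        _ = _ := by field_simp
    have f2 : 5 * (δ' ^ 4 * X ^ 3) / ((n : ℝ) / 2) ^ 2 ≤ 20 * δ' ^ 4 / ε ^ 2 * X := by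
      calc 5 * (δ' ^ 4 * X ^ 3) / ((n : ℝ) / 2) ^ 2
          ≤ 5 * (δ' ^ 4 * X ^ 3) / (ε * X / 2) ^ 2 :=
            div_le_div_of_nonneg_left (by positivity) (by positivity)
              (pow_le_pow_left₀ hn3.le hn2 2)
        _ = _ := by field_simp; ring
    rw [e2, e3, e4, e1]
    have key := mul_le_mul_of_nonneg_right num hX0.le
    have hfin : ε / 2 * X ≤ (n : ℝ) / 2 := by linarith
    refine le_trans ?_ hfin
    refine le_trans ?_ key
    have := add_le_add f1 f2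
    linarith

theorem final_colouring {f : V → Option (Fin D.k × ℕ)} {δ a m2 m3 m4 : ℝ}
    (h : D.Fin' f δ a m2 m3 m4) {G : SimpleGraph V} (hG : ∀ v, D.N v = nb G v)
    {ε b : ℝ} (hε : 0 < ε) (hb : 0 < b) (hm2 : 0 ≤ m2) (hm3 : 0 ≤ m3) (hm4 : 0 ≤ m4)
    {n : ℕ} (hn : ε * D.T ^ 4800 ≤ n)
    (num : 2 * (2 * δ / D.T ^ 1200 + (2 * δ / (a / D.T ^ 2400) + m4 + 1 / D.T) +
        (2 * δ) ^ 2 / b) +
      2 * (4 * b * (2 * δ) ^ 2 + (m2 + 1 / D.T) * (2 * δ) ^ 2 + 2 * (m3 + 1 / D.T) * (2 * δ)) /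
        ε + 20 * (2 * δ) ^ 4 / ε ^ 2 ≤ ε / 2) :
    ∃ F : V → (Fin (D.NS + 1) × Option (Fin D.k)) ⊕ Fin n, IsAcyclicColouring G F :=
  D1.recolour_ok (recol_ok h hG hε hb hm2 hm3 hm4 hn num)

end DD

end

end Pool.Agent.AcyGD
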