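import Pool.Agent.AcyK.ODefs
import Pool.Agent.AcyK.GraphDefs

/-! # Definitions for the dropped set, general graphs (project MP_af9dfb_GE, D-part, helper44)

A colouring is `f : V → Option (Fin k × ℕ)` (colour and round); the stage in which `v` is coloured
is `lv v`; vertices of different stages have disjoint palettes. In stage `j` the vertices that can
get a real colour are the `v` with `lv v = j`; the other vertices that are not coloured have
`lv v > j`. The current colouring is `D.addCol C j col` (`C`: the earlier stages, `col`: the formal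
colouring of the stage). -/

set_option autoImplicit false
set_option linter.unusedSectionVars false

namespace Pool.Agent.AcyGD

open Finset
open Pool.Agent.Acy (IsPM wt Ex Pr mean)
open Pool.Agent.AcyK
open scoped Classical

universe u v

section

variable {V : Type u} [Fintype V] [DecidableEq V]

/-- Data of the D-part at one stage. -/
structure DD (V : Type u) where
  /-- large parameter -/
  T : ℝ
  /-- colours per stage -/
  k : ℕ
  /-- rounds per stage -/
  M : ℕ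
  /-- inverse density of a stage -/
  R : ℕ
  /-- number of stages -/
  NS : ℕ
  /-- largest codegree of a related pair -/
  am : ℝ
  /-- neighbourhoods -/
  N : V → Finset V
  /-- stage of a vertex -/
  lv : V → ℕ

namespace DD

variable (D : DD V)

/-- The same data with other stages. -/
def withLv (l : V → ℕ) : DD V := { D with lv := l }

/-- Codegree. -/
noncomputable def cod (u x : V) : ℝ := ((cN D.N u x).card : ℝ)

/-- The hypotheses on the static data. -/
structure Ok : Prop where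
  big : Big D.T
  k_lo : D.T ^ 3999 ≤ D.k
  k_hi : (D.k : ℝ) ≤ D.T ^ 4000
  M_hi : (D.M : ℝ) ≤ D.T ^ 150
  R_lo : D.T ^ 799 ≤ D.R
  R_hi : (D.R : ℝ) ≤ D.T ^ 800
  kR : D.T ^ 4799 ≤ D.k * D.R
  NS_hi : (D.NS : ℝ) ≤ D.T * D.R
  am_lo : D.T ^ 2385 ≤ D.am
  am_hi : D.am ≤ D.T ^ 2401
  N_symm : ∀ u v, u ∈ D.N v → v ∈ D.N u
  N_irrefl : ∀ v, v ∉ D.N v
  deg : ∀ v, ((D.N v).card : ℝ) ≤ D.T ^ 3600

/-- Stage `i` is small. -/
structure PartAt (i : ℕ) : Prop where
  b1 : ∀ v, (((D.N v).filter fun z => D.lv z = i).card : ℝ) ≤ 3 * (D.T ^ 3600 / D.R)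
  b2 : ∀ u x, D.cod u x ≤ D.T ^ 2401 →
    (((cN D.N u x).filter fun z => D.lv z = i).card : ℝ) ≤ D.T ^ 1604
  b2l : ∀ u x, D.cod u x < D.T ^ 2385 →
    (((cN D.N u x).filter fun z => D.lv z = i).card : ℝ) ≤ 3 * (D.T ^ 2385 / D.R)
  b3c : ∀ x, ((univ.filter fun u => u ≠ x ∧ D.T ^ 2385 ≤ D.cod u x ∧
    D.lv u = i).card : ℝ) ≤ D.T ^ 4018

/-- The stages `≤ j` are small. -/
structure Parts (j : ℕ) : Prop where
  j_lt : j < D.NS
  part : ∀ i, i ≤ j → D.PartAt i

/-- Special pairs. -/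
def Spc (u v : V) : Prop := u ∈ D.N v ∨ D.am < D.cod u v

/-- Relevant or special pairs. -/
def Rp (u v : V) : Prop := u ≠ v ∧ (u ∈ D.N v ∨ D.T ^ 2385 ≤ D.cod u v)

/-- Bound for the probability of a colour. -/
noncomputable def rho : ℝ := 2 * D.T / D.k

/-- Bound for the number of conflicts of a vertex in the current stage. -/
noncomputable def cfB : ℝ := D.T ^ 4792 / D.R

/-- Bound for the number of dropped vertices of one stage in a neighbourhood. -/
noncomputable def drB : ℝ := D.T ^ 3597 / D.R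

/-- Round of a vertex. -/
def rd (f : V → Option (Fin D.k × ℕ)) (v : V) : ℕ := ((f v).map Prod.snd).getD 0

/-- Combined colouring in stage `j`. -/
noncomputable def addCol (C : V → Option (Fin D.k × ℕ)) (j : ℕ) (col : V → Option (Fin D.k × ℕ))
    (v : V) : Option (Fin D.k × ℕ) := if D.lv v = j then col v else C v

/-- Different vertices of the same stage with the same colour. -/
def Same (f : V → Option (Fin D.k × ℕ)) (u v : V) : Prop :=
  u ≠ v ∧ D.lv u = D.lv v ∧ sameCol f u v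

/-- What the engine gives: vertices with the same colour and different rounds. -/
def Sep (f : V → Option (Fin D.k × ℕ)) : Prop :=
  ∀ u x, D.Same f u x → D.rd f u ≠ D.rd f x → ¬ D.Spc u x ∧
    (D.Rp u x → ∀ z ∈ cN D.N u x, ∀ z' ∈ cN D.N u x, D.lv z < D.lv u → ¬ D.Same f z z')

/-- Two paths from `v` with monochromatic inner vertices in an earlier stage (cycles of length at
least six). -/
def E3 (f : V → Option (Fin D.k × ℕ)) (v u u' : V) : Prop :=
  ∃ z z' z'', z' ≠ z'' ∧ D.Same f z z' ∧ D.Same f z z'' ∧ ¬ D.Spc z z' ∧ ¬ D.Spc z z'' ∧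
    D.lv z < D.lv v ∧ z ∈ cN D.N v u ∧ z' ∈ cN D.N v u' ∧ z'' ∈ D.N u

/-- `x` is in conflict with `v` (a light pair with two monochromatic common neighbours in an
earlier stage). -/
def Cf (f : V → Option (Fin D.k × ℕ)) (v x : V) : Prop :=
  x ≠ v ∧ D.lv x = D.lv v ∧ ¬ D.Rp v x ∧ ∃ z z', D.Same f z z' ∧ ¬ D.Spc z z' ∧
    D.lv z < D.lv v ∧ z ∈ cN D.N v x ∧ z' ∈ cN D.N v x

/-- Rule (a). -/
def RA (f : V → Option (Fin D.k × ℕ)) (v : V) : Prop :=
  ∃ x, D.Same f v x ∧ D.rd f x = D.rd f v ∧ D.Rp v x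

/-- Rule (b). -/
def RB (f : V → Option (Fin D.k × ℕ)) (v : V) : Prop :=
  ∃ x, D.Same f v x ∧ D.rd f x ≤ D.rd f v ∧ D.Cf f v x

/-- Rule (c). -/
def RC (f : V → Option (Fin D.k × ℕ)) (v : V) : Prop :=
  ∃ z z' u u', D.Same f z z' ∧ ¬ D.Spc z z' ∧ D.lv z = D.lv v ∧ z ∈ D.N v ∧
    z' ∈ D.N v ∧ u ∈ D.N z ∧ u' ∈ D.N z' ∧ D.Same f v u ∧ D.Same f v u' ∧
    ¬ D.Same f v z ∧ D.rd f z ≤ D.rd f v ∧ D.rd f z' ≤ D.rd f v ∧ D.rd f u ≤ D.rd f v ∧
    D.rd f u' ≤ D.rd f v

/-- Rule (d). -/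
def RD (f : V → Option (Fin D.k × ℕ)) (v : V) : Prop :=
  ∃ u u', u ≠ u' ∧ D.Same f v u ∧ D.Same f v u' ∧ D.rd f u ≤ D.rd f v ∧ D.rd f u' ≤ D.rd f v ∧
    D.E3 f v u u'

/-- Dropped vertices. -/
def Drop (f : V → Option (Fin D.k × ℕ)) (v : V) : Prop :=
  f v ≠ none ∧ (D.RA f v ∨ D.RB f v ∨ D.RC f v ∨ D.RD f v)

/-- Vertices that are recoloured. -/
noncomputable def RS (f : V → Option (Fin D.k × ℕ)) : Finset V :=
  univ.filter fun v => f v = none ∨ D.Drop f v

/-- The colour with its palette. -/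
def phi (f : V → Option (Fin D.k × ℕ)) (v : V) : Fin (D.NS + 1) × Option (Fin D.k) :=
  (⟨min (D.lv v) D.NS, by omega⟩, (f v).map Prod.fst)

/-! ## Statistics -/

/-- Weight of the vertices of stage `i` and colour `c`. -/
noncomputable def L1 (f : V → Option (Fin D.k × ℕ)) (i : ℕ) (c : Fin D.k) (w : V → ℝ) : ℝ :=
  ∑ y, if D.lv y = i ∧ hasCol f y c then w y else 0

/-- Weight of the coloured vertices of stage `i`. -/
noncomputable def C1 (f : V → Option (Fin D.k × ℕ)) (i : ℕ) (w : V → ℝ) : ℝ :=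
  ∑ y, if D.lv y = i ∧ f y ≠ none then w y else 0

/-- Weight of the monochromatic pairs of stage `i`. -/
noncomputable def S2 (f : V → Option (Fin D.k × ℕ)) (i : ℕ) (w : V → V → ℝ) : ℝ :=
  ∑ y, ∑ y', if D.lv y = i ∧ D.Same f y y' then w y y' else 0

/-- Weight of the pairs of coloured vertices of stage `i`. -/
noncomputable def C2 (f : V → Option (Fin D.k × ℕ)) (i : ℕ) (w : V → V → ℝ) : ℝ :=
  ∑ y, ∑ y', if (D.lv y = i ∧ f y ≠ none) ∧ (D.lv y' = i ∧ f y' ≠ none) ∧ y ≠ y' then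
    w y y' else 0

/-- Weight of the monochromatic pairs of stage `i` with equal rounds. -/
noncomputable def S2r (f : V → Option (Fin D.k × ℕ)) (i : ℕ) (w : V → V → ℝ) : ℝ :=
  ∑ y, ∑ y', if D.lv y = i ∧ D.Same f y y' ∧ D.rd f y = D.rd f y' then w y y' else 0

/-- Weight of the monochromatic pairs (of any stage) with different rounds. -/
noncomputable def S2d (f : V → Option (Fin D.k × ℕ)) (w : V → V → ℝ) : ℝ :=
  ∑ y, ∑ y', if D.Same f y y' ∧ D.rd f y ≠ D.rd f y' then w y y' else 0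

/-- Weight `B`: neighbours. -/
noncomputable def wB (a y : V) : ℝ := if y ∈ D.N a then 1 else 0

/-- Weight `L`: paths of length two. -/
noncomputable def wL (a y : V) : ℝ := if a ≠ y ∧ ¬ D.Spc a y then D.cod a y else 0

/-- Weight `L`, for paths through the vertices of stage `j`. -/
noncomputable def wLj (a : V) (j : ℕ) (y : V) : ℝ :=
  if a ≠ y ∧ ¬ D.Spc a y then (((cN D.N a y).filter fun x => D.lv x = j).card : ℝ) else 0

/-- Weight `N`: vertices at distance two. -/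
noncomputable def wN (v y : V) : ℝ := if (cN D.N v y).Nonempty then 1 else 0

/-- Weight `M`. -/
noncomputable def wM (a b y y' : V) : ℝ := if y ∈ D.N a ∧ y' ∈ D.N b then 1 else 0

/-- Weight `P`. -/
noncomputable def wP (v y y' : V) : ℝ :=
  if y ∈ D.N v ∧ ¬ D.Spc y y' then D.cod y y' else 0

/-- Weight `Q` (light pairs `v x`). -/
noncomputable def wQ (v y y' : V) : ℝ :=
  if (y ∈ D.N v ∧ y' ∈ D.N v) ∧ ¬ D.Spc y y' then
    (((cN D.N y y').filter fun x => x ≠ v ∧ D.cod x v < D.T ^ 2385).card : ℝ) else 0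

/-- Weight `F` (far pairs `v x` of codegree less than `a`). -/
noncomputable def wF (a : ℝ) (v y y' : V) : ℝ :=
  if (y ∈ D.N v ∧ y' ∈ D.N v) ∧ ¬ D.Spc y y' then
    (((cN D.N y y').filter fun x => x ≠ v ∧ D.T ^ 2385 ≤ D.cod x v ∧ D.cod x v < a).card : ℝ)
  else 0

/-- Weight `C`. -/
noncomputable def wC (f : V → Option (Fin D.k × ℕ)) (v u u' : V) : ℝ :=
  if D.E3 f v u u' then 1 else 0

/-- The final bounds for stage `i`. -/
structure DStat (f : V → Option (Fin D.k × ℕ)) (i : ℕ) : Prop where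
  sB : ∀ a c, D.L1 f i c (D.wB a) ≤ D.T ^ 152
  sL : ∀ a c, D.L1 f i c (D.wL a) ≤ D.T ^ 2555
  sN : ∀ v c, D.L1 f i c (D.wN v) ≤ D.T ^ 2406
  sM : ∀ a b, (a = b ∨ (cN D.N a b).Nonempty) → D.S2 f i (D.wM a b) ≤ D.T ^ 1608
  sQ : ∀ v, D.S2 f i (D.wQ v) ≤ 500 * (D.T ^ 9588 / (D.k * D.R ^ 2))
  rM : ∀ v, D.S2r f i (D.wM v v) ≤ D.T ^ 1520
  rP : ∀ v, D.S2r f i (D.wP v) ≤ D.T ^ 5120
  rF : ∀ v, D.S2r f i (D.wF D.am v) ≤ D.T ^ 3920

/-- Running bound of kind 1. -/
noncomputable def bd1 (f : V → Option (Fin D.k × ℕ)) (j : ℕ) (m : ℕ) (w : V → ℝ)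
    (b : ℝ) : ℝ := 4 * D.T * (D.rho * D.C1 f j w + m * b)

/-- Running bound of kind 2. -/
noncomputable def bd2 (f : V → Option (Fin D.k × ℕ)) (j : ℕ) (m : ℕ) (w : V → V → ℝ)
    (b : ℝ) : ℝ := 26 * D.T ^ 2 * (D.rho * D.C2 f j w + m * b)

/-- The running invariants in stage `j` before round `m`, without the dropped vertices. -/
structure ProgS (f : V → Option (Fin D.k × ℕ)) (j : ℕ) (m : ℕ) : Prop where
  lt : ∀ v c r, D.lv v = j → f v = some (c, r) → r < m
  sB : ∀ a c, D.L1 f j c (D.wB a) ≤ D.bd1 f j m (D.wB a) 1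
  sL : ∀ a c, D.L1 f j c (D.wL a) ≤ D.bd1 f j m (D.wL a) (D.T ^ 2401)
  sN : ∀ v c, D.L1 f j c (D.wN v) ≤ D.bd1 f j m (D.wN v) 1
  sM : ∀ a b, (a = b ∨ (cN D.N a b).Nonempty) →
    D.S2 f j (D.wM a b) ≤ D.bd2 f j m (D.wM a b) (D.T ^ 153)
  sQ : ∀ v, D.S2 f j (D.wQ v) ≤ D.bd2 f j m (D.wQ v) (D.T ^ 2557)
  sC : ∀ v, D.lv v = j → D.S2 f j (D.wC f v) ≤ D.bd2 f j m (D.wC f v) (D.T ^ 2407)
  rM : ∀ v, D.S2r f j (D.wM v v) ≤ m * D.T ^ 1360
  rP : ∀ v, D.S2r f j (D.wP v) ≤ m * D.T ^ 4960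
  rF : ∀ v, D.S2r f j (D.wF D.am v) ≤ m * D.T ^ 3760

/-- Bound for the number of dropped vertices of stage `i` in `N(w)`. -/
def DrB (f : V → Option (Fin D.k × ℕ)) (i : ℕ) (m : ℕ) : Prop :=
  ∀ w, ((univ.filter fun v => D.lv v = i ∧ v ∈ D.N w ∧ D.Drop f v).card : ℝ) ≤
    4 * D.T * (D.rho * D.cfB *
      ((univ.filter fun v => D.lv v = i ∧ v ∈ D.N w ∧ f v ≠ none).card : ℝ)) +
      m * D.T ^ 2640

/-- The running invariants in stage `j` before round `m`. -/
structure Prog (f : V → Option (Fin D.k × ℕ)) (j : ℕ) (m : ℕ) : Prop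
    extends D.ProgS f j m where
  dr : D.DrB f j m

/-! ## One stage -/

/-- What is known at the end of the stages `< j` (`D.lv` is only used for coloured vertices). -/
structure Old (C : V → Option (Fin D.k × ℕ)) (j : ℕ) : Prop where
  part : ∀ i, i < j → D.PartAt i
  stat : ∀ i, i < j → D.DStat C i
  dr : ∀ i, i < j → ∀ w,
    ((univ.filter fun v => D.lv v = i ∧ v ∈ D.N w ∧ D.Drop C v).card : ℝ) ≤ D.drB

/-- What is known at the start of stage `j`, after the choice of the vertices of the stage. -/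
structure Past (C : V → Option (Fin D.k × ℕ)) (j : ℕ) : Prop where
  parts : D.Parts j
  later : ∀ v, j ≤ D.lv v → C v = none
  old : D.Old C j
  curL : ∀ i, i < j → ∀ a c, D.L1 C i c (D.wLj a j) ≤ D.T ^ 1757
  curQ : ∀ v, D.lv v = j → ((univ.filter fun x => D.Cf C v x).card : ℝ) ≤ D.cfB

/-- Vertices of stage `j` that pick a colour in the round. -/
def Now (j : ℕ) (col : V → Option (Fin D.k × ℕ)) (lam : V → Option Bool) (y : V) : Prop :=
  D.lv y = j ∧ col y = none ∧ lam y = some true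

/-- The selection is typical. -/
structure LamOK (j : ℕ) (C col : V → Option (Fin D.k × ℕ)) (lam : V → Option Bool) :
    Prop where
  nbr : ∀ w, ((univ.filter fun y => y ∈ D.N w ∧ D.Now j col lam y).card : ℝ) ≤ D.T ^ 2671
  nba : ∀ u x, D.cod u x ≤ D.am →
    ((univ.filter fun y => y ∈ cN D.N u x ∧ D.Now j col lam y).card : ℝ) ≤ D.T ^ 1474
  rp : ∀ v, D.lv v = j →
    ((univ.filter fun y => D.Rp v y ∧ D.Now j col lam y).card : ℝ) ≤ D.T ^ 3889
  cf : ∀ v, D.lv v = j →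
    ((univ.filter fun y => D.Cf C v y ∧ D.Now j col lam y).card : ℝ) ≤ D.T ^ 3889

/-- Everything known in round `m` of stage `j` before the picks. -/
structure DRnd (j : ℕ) (C : V → Option (Fin D.k × ℕ)) (m : ℕ)
    (col : V → Option (Fin D.k × ℕ)) (lam : V → Option Bool) (p : V → Fin D.k → ℝ) :
    Prop where
  ok : D.Ok
  past : D.Past C j
  m_lt : m < D.M
  prog : D.Prog (D.addCol C j col) j m
  lam : D.LamOK j C col lam
  pm : IsPM p
  p_le : ∀ u c, p u c ≤ D.rho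

/-- Number of vertices of `N(w)` that get their colour in the round and satisfy `Rule`. -/
noncomputable def newc (j : ℕ) (col : V → Option (Fin D.k × ℕ)) (lam : V → Option Bool)
    (w : V) (Rule : V → Prop) : ℝ :=
  ((univ.filter fun y => y ∈ D.N w ∧ D.Now j col lam y ∧ Rule y).card : ℝ)

/-! ## The end -/

/-- Everything known about the final colouring: `δ T ^ 3600` bounds the number of vertices in a
neighbourhood that are not coloured, `m2`, `m3`, `m4` bound the monochromatic pairs with different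
rounds, `a` is a codegree. -/
structure Fin' (f : V → Option (Fin D.k × ℕ)) (δ a m2 m3 m4 : ℝ) : Prop where
  ok : D.Ok
  a_lo : D.T ^ 2385 ≤ a
  a_hi : a ≤ D.am
  δ_lo : 1 / D.T ≤ δ
  lv_lt : ∀ v, f v ≠ none → D.lv v < D.NS
  old : D.Old f D.NS
  sep : D.Sep f
  un : ∀ w, (((D.N w).filter fun v => f v = none).card : ℝ) ≤ δ * D.T ^ 3600
  dM : ∀ v, D.S2d f (D.wM v v) ≤ m2 * D.T ^ 2400
  dP : ∀ v, D.S2d f (D.wP v) ≤ m3 * D.T ^ 6000
  dF : ∀ v, D.S2d f (D.wF a v) ≤ m4 * D.T ^ 4800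

end DD

end

end Pool.Agent.AcyGD
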