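import Pool.Agent.AcyGD.Base
import Pool.Agent.AcyK.DKind

/-! # Dropped vertices, rules (a) and (b), general graphs (row D3), ported from `AcyK/DropAB` -/

set_option autoImplicit false
set_option linter.unusedSectionVars false

namespace Pool.Agent.AcyGD

open Finset
open Pool.Agent.Acy (IsPM wt Ex Pr mean cnt ext Holds)
open Pool.Agent.AcyK
open scoped Classical

universe u v

section

variable {V : Type u} [Fintype V] [DecidableEq V]

namespace DD

variable {D : DD V}

theorem ab_rp_ball (hD : D.Ok) {v x : V} (h : D.Rp v x) : x ∈ D.ball 2 v := by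
  obtain ⟨_, h1 | h1⟩ := h
  · exact ball_succ_of_mem (mem_ball_one ((N_comm hD).1 h1))
  · have h2 : (cN D.N v x).Nonempty := by
      rw [← card_pos]
      have h3 := Tp hD 2385
      have h4 : (0 : ℝ) < ((cN D.N v x).card : ℝ) := lt_of_lt_of_le h3 h1
      exact_mod_cast h4
    obtain ⟨z, hz⟩ := h2
    rw [mem_cN] at hz
    exact ball_step (mem_ball_one hz.1) ((N_comm hD).1 hz.2)

theorem ab_cf_ball (hD : D.Ok) {f : V → Option (Fin D.k × ℕ)} {v x : V} (h : D.Cf f v x) :
    x ∈ D.ball 2 v := by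
  obtain ⟨_, _, _, z, _, _, _, _, hz, _⟩ := h
  rw [mem_cN] at hz
  exact ball_step (mem_ball_one hz.1) ((N_comm hD).1 hz.2)

/-- The current colouring after the picks, at a vertex of the round. -/
theorem ab_now {j : ℕ} {C : V → Option (Fin D.k × ℕ)} {m : ℕ}
    {col : V → Option (Fin D.k × ℕ)} {lam : V → Option Bool} (ω : V → Fin D.k) {v : V}
    (h : D.Now j col lam v) : D.addCol C j (updCol m col lam ω) v = some (ω v, m) := by
  unfold addCol updCol
  rw [if_pos h.1, if_pos h.2]

theorem ab_old {j : ℕ} {C : V → Option (Fin D.k × ℕ)} {m : ℕ}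
    {col : V → Option (Fin D.k × ℕ)} {lam : V → Option Bool} (ω : V → Fin D.k) {v : V}
    (hv : D.lv v = j) (h : ¬ D.Now j col lam v) :
    D.addCol C j (updCol m col lam ω) v = col v := by
  unfold addCol updCol
  rw [if_pos hv, if_neg (fun h1 => h ⟨hv, h1⟩)]

theorem ab_low {j : ℕ} {C : V → Option (Fin D.k × ℕ)}
    {col : V → Option (Fin D.k × ℕ)} {v : V} (hv : D.lv v ≠ j) :
    D.addCol C j col v = C v := by
  unfold addCol
  rw [if_neg hv]

/-- A partner in the same part: either it gets its colour now or it is coloured. -/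
theorem ab_split {j : ℕ} {C : V → Option (Fin D.k × ℕ)} {m : ℕ}
    {col : V → Option (Fin D.k × ℕ)} {lam : V → Option Bool} (ω : V → Fin D.k) {v x : V}
    (hv : D.Now j col lam v) (h : D.Same (D.addCol C j (updCol m col lam ω)) v x) :
    v ≠ x ∧ D.lv x = j ∧ ((D.Now j col lam x ∧ ω v = ω x) ∨
      (¬ D.Now j col lam x ∧ hasCol col x (ω v))) := by
  obtain ⟨hne, hl, c, ⟨r, h1⟩, ⟨r', h2⟩⟩ := h
  have hx : D.lv x = j := by rw [← hl]; exact hv.1
  rw [ab_now ω hv] at h1
  have hc : ω v = c := by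
    have := Option.some.inj h1
    exact congrArg Prod.fst this
  refine ⟨hne, hx, ?_⟩
  by_cases hn : D.Now j col lam x
  · left
    rw [ab_now ω hn] at h2
    have := congrArg Prod.fst (Option.some.inj h2)
    exact ⟨hn, by rw [hc]; exact this.symm⟩
  · right
    rw [ab_old ω hx hn] at h2
    exact ⟨hn, r', by rw [hc]; exact h2⟩

theorem ab_rho_pos (hD : D.Ok) : 0 < D.rho := by
  unfold rho
  have h1 := k_pos hD
  have h2 := T0 hD
  positivity

theorem ab_rho_le (hD : D.Ok) : D.rho ≤ 2 / D.T ^ 3998 := by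
  unfold rho
  have h1 := k_pos hD
  have h2 := T0 hD
  have h3 := hD.k_lo
  rw [div_le_div_iff₀ h1 (by positivity)]
  have h4 : D.T ^ 3999 = D.T * D.T ^ 3998 := pow_succ' D.T 3998
  nlinarith

/-- The weight of a pair of vertices of the round. -/
noncomputable def abW (D : DD V) (j : ℕ) (col : V → Option (Fin D.k × ℕ))
    (lam : V → Option Bool) (R : V → V → Prop) (w v x : V) : ℝ :=
  if (v ∈ D.N w ∧ D.Now j col lam v) ∧ D.Now j col lam x ∧ R v x ∧ v ≠ x then 1 else 0

theorem abW_nonneg (j : ℕ) (col : V → Option (Fin D.k × ℕ))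
    (lam : V → Option Bool) (R : V → V → Prop) (w v x : V) : 0 ≤ abW D j col lam R w v x := by
  unfold abW
  split_ifs <;> norm_num

theorem abW_le (j : ℕ) (col : V → Option (Fin D.k × ℕ))
    (lam : V → Option Bool) (R : V → V → Prop) (w v x : V) : abW D j col lam R w v x ≤ 1 := by
  unfold abW
  split_ifs <;> norm_num

/-- Pairs of vertices that get the same colour in the round. -/
theorem ab_pairs {j : ℕ} {C : V → Option (Fin D.k × ℕ)} {m : ℕ}
    {col : V → Option (Fin D.k × ℕ)} {lam : V → Option Bool}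
    {p : V → Fin D.k → ℝ} (h : D.DRnd j C m col lam p) (R : V → V → Prop)
    (hR : ∀ v y, R v y → y ∈ D.ball 2 v)
    (hc : ∀ v, D.lv v = j →
      ((univ.filter fun y => R v y ∧ D.Now j col lam y).card : ℝ) ≤ D.T ^ 3889) :
    LocOK 39998 D.T p (fun ω => ∀ w, D.lv w = D.lv w →
      ∑ v, ∑ x, (if ω v = ω x then abW D j col lam R w v x else 0) ≤
        12 * D.T ^ 2 * D.T ^ 2563) := by
  have hD := h.ok
  have hT := hD.big
  have hT0 := hT.pos
  have hT1 := hT.one_le
  have hTb := hT.big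
  have hp := h.pm
  have hp0 : ∀ u c, 0 ≤ p u c := hp.nonneg
  have hρ := ab_rho_pos hD
  have hρ' := ab_rho_le hD
  have hrow : ∀ w v, ∑ x, abW D j col lam R w v x ≤
      (if v ∈ D.N w ∧ D.Now j col lam v then D.T ^ 3889 else 0) := by
    intro w v
    by_cases hv : v ∈ D.N w ∧ D.Now j col lam v
    · rw [if_pos hv]
      refine le_trans ?_ (hc v hv.2.1)
      rw [card_eq_sum_ones, sum_filter]
      push_cast
      refine sum_le_sum fun x _ => ?_
      unfold abW
      by_cases hx : R v x ∧ D.Now j col lam x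
      · rw [if_pos hx]
        split_ifs <;> norm_num
      · rw [if_neg hx, if_neg (fun hh => hx ⟨hh.2.2.1, hh.2.1⟩)]
    · rw [if_neg hv]
      refine le_of_eq (sum_eq_zero fun x _ => ?_)
      unfold abW
      rw [if_neg (fun hh => hv hh.1)]
  have hcol : ∀ w x, ∑ v, abW D j col lam R w v x ≤ D.T ^ 2671 := by
    intro w x
    refine le_trans ?_ (h.lam.nbr w)
    rw [card_eq_sum_ones, sum_filter]
    push_cast
    refine sum_le_sum fun v _ => ?_
    unfold abW
    by_cases hv : v ∈ D.N w ∧ D.Now j col lam v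
    · rw [if_pos hv]
      split_ifs <;> norm_num
    · rw [if_neg hv, if_neg (fun hh => hv hh.1)]
  have hball : ∀ w v x, abW D j col lam R w v x ≠ 0 →
      v ∈ D.ball 3 w ∧ x ∈ D.ball 3 w := by
    intro w v x hne
    have h1 : (v ∈ D.N w ∧ D.Now j col lam v) ∧ D.Now j col lam x ∧ R v x ∧ v ≠ x := by
      by_contra hh
      exact hne (if_neg hh)
    have h2 : v ∈ D.ball 1 w := mem_ball_one h1.1.1
    exact ⟨ball_mono (by norm_num) _ h2,
      ball_succ' hD (mem_insert_of_mem h1.1.1) (hR v x h1.2.2.1)⟩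
  have hcard : ∀ v, ((D.ball 3 v).card : ℝ) ≤ D.T ^ 39998 := fun v =>
    (ball_card hD 3 v).trans (pow_le_pow_right₀ hT1 (by norm_num))
  refine loc_pair hT hp (fun w : V => D.lv w = D.lv w)
    (fun w v x _ => abW D j col lam R w v x)
    (fun w v x _ => abW_nonneg j col lam R w v x) (fun w v _ => by
      unfold abW
      rw [if_neg (fun hh => hh.2.2.2 rfl)]) (fun _ => D.T ^ 2563)
    (fun _ _ => pow_pos hT0 _) ?_ ?_ ?_ (fun w => D.ball 3 w)
    (fun w _ v x _ hne => hball w v x hne) 39998 (fun w _ => hcard w) ?_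
  · intro w _
    have h1 : ∀ v x, ∑ c, abW D j col lam R w v x * (p v c * p x c) ≤
        abW D j col lam R w v x * D.rho := by
      intro v x
      rw [← mul_sum]
      refine mul_le_mul_of_nonneg_left ?_ (abW_nonneg _ _ _ _ _ _ _)
      calc ∑ c, p v c * p x c ≤ ∑ c, p v c * D.rho :=
            sum_le_sum fun c _ => mul_le_mul_of_nonneg_left (h.p_le x c) (hp0 v c)
        _ = D.rho := by rw [← sum_mul, hp.sum_one, one_mul]
    have h2 : ∑ v, ∑ x, abW D j col lam R w v x ≤ D.T ^ 2671 * D.T ^ 3889 := by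
      refine (sum_le_sum fun v _ => hrow w v).trans ?_
      rw [← sum_filter, sum_const, nsmul_eq_mul]
      exact mul_le_mul_of_nonneg_right (h.lam.nbr w) (by positivity)
    calc ∑ v, ∑ x, ∑ c, abW D j col lam R w v x * (p v c * p x c)
        ≤ ∑ v, ∑ x, abW D j col lam R w v x * D.rho :=
          sum_le_sum fun v _ => sum_le_sum fun x _ => h1 v x
      _ = (∑ v, ∑ x, abW D j col lam R w v x) * D.rho := by
          rw [sum_mul]
          exact sum_congr rfl fun v _ => by rw [sum_mul]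
      _ ≤ D.T ^ 2671 * D.T ^ 3889 * (2 / D.T ^ 3998) :=
          mul_le_mul h2 hρ' hρ.le (by positivity)
      _ = 2 * D.T ^ 2562 := by
          rw [← pow_add, show 2671 + 3889 = 2562 + 3998 from rfl, pow_add]
          field_simp
      _ ≤ D.T ^ 2563 := by
          rw [pow_succ D.T 2562]
          have := pow_pos hT0 2562
          nlinarith
  · intro w _ v c
    have h1 : ∀ x, (abW D j col lam R w v x + abW D j col lam R w x v) * p x c ≤
        (abW D j col lam R w v x + abW D j col lam R w x v) * D.rho := fun x =>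
      mul_le_mul_of_nonneg_left (h.p_le x c)
        (add_nonneg (abW_nonneg _ _ _ _ _ _ _) (abW_nonneg _ _ _ _ _ _ _))
    refine (sum_le_sum fun x _ => h1 x).trans ?_
    rw [← sum_mul, sum_add_distrib]
    have h2 : ∑ x, abW D j col lam R w v x ≤ D.T ^ 3889 := (hrow w v).trans (by
      split_ifs
      · exact le_rfl
      · positivity)
    have h3 := hcol w v
    have h4 : D.T ^ 2671 ≤ D.T ^ 3889 := pow_le_pow_right₀ hT1 (by norm_num)
    calc (∑ x, abW D j col lam R w v x + ∑ x, abW D j col lam R w x v) * D.rho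
        ≤ (2 * D.T ^ 3889) * (2 / D.T ^ 3998) :=
          mul_le_mul (by linarith) hρ' hρ.le (by positivity)
      _ = 4 / D.T ^ 109 := by
          rw [show (3998 : ℕ) = 3889 + 109 from rfl, pow_add]
          field_simp
          norm_num
      _ ≤ 4 / 4 := by
          refine div_le_div_of_nonneg_left (by norm_num) (by norm_num) ?_
          calc (4 : ℝ) ≤ D.T := by linarith
            _ = D.T ^ 1 := (pow_one _).symm
            _ ≤ D.T ^ 109 := pow_le_pow_right₀ hT1 (by norm_num)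
      _ = 1 := by norm_num
      _ ≤ D.T ^ 2563 := one_le_pow₀ hT1
  · intro w _ v x c
    have h1 := abW_le (D := D) j col lam R w v x
    have h2 := abW_le (D := D) j col lam R w x v
    have h3 : (2 : ℝ) ≤ D.T ^ 2563 := by
      calc (2 : ℝ) ≤ D.T := by linarith
        _ = D.T ^ 1 := (pow_one _).symm
        _ ≤ D.T ^ 2563 := pow_le_pow_right₀ hT1 (by norm_num)
    linarith
  · intro y
    exact ⟨D.ball 3 y, fun w _ hw => ball_symm hD hw, hcard y⟩

/-- Vertices with a partner in the round. -/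
theorem ab_card_pairs (j : ℕ) (col : V → Option (Fin D.k × ℕ)) (lam : V → Option Bool)
    (R : V → V → Prop) (w : V) (ω : V → Fin D.k) :
    ((univ.filter fun y => y ∈ D.N w ∧ D.Now j col lam y ∧
      ∃ x, y ≠ x ∧ D.Now j col lam x ∧ R y x ∧ ω y = ω x).card : ℝ) ≤
      ∑ v, ∑ x, (if ω v = ω x then abW D j col lam R w v x else 0) := by
  rw [card_eq_sum_ones, sum_filter]
  push_cast
  refine sum_le_sum fun v _ => ?_
  have hnn : ∀ x, 0 ≤ (if ω v = ω x then abW D j col lam R w v x else 0) := fun x => by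
    split_ifs
    · exact abW_nonneg _ _ _ _ _ _ _
    · exact le_rfl
  split_ifs with hv
  · obtain ⟨h1, h2, x, h3, h4, h5, h6⟩ := hv
    have h7 : (if ω v = ω x then abW D j col lam R w v x else 0) = 1 := by
      rw [if_pos h6]
      unfold abW
      rw [if_pos ⟨⟨h1, h2⟩, h4, h5, h3⟩]
    rw [← h7]
    exact single_le_sum (f := fun x => if ω v = ω x then abW D j col lam R w v x else 0)
      (fun x _ => hnn x) (mem_univ x)
  · exact sum_nonneg fun x _ => hnn x

theorem dropA_step {j : ℕ} {C : V → Option (Fin D.k × ℕ)} {m : ℕ}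
    {col : V → Option (Fin D.k × ℕ)} {lam : V → Option Bool}
    {p : V → Fin D.k → ℝ} (h : D.DRnd j C m col lam p) :
    LocOK 40000 D.T p (fun ω => ∀ w,
      D.newc j col lam w (D.RA (D.addCol C j (updCol m col lam ω))) ≤ D.T ^ 2630) := by
  have hD := h.ok
  have hT := hD.big
  have hT0 := hT.pos
  have hTb := hT.big
  have h1 := ab_pairs h D.Rp (fun v y hh => ab_rp_ball hD hh) h.lam.rp
  obtain ⟨κ, hκ, E, S, hd, hp, hs, hi, hg⟩ := LocOK.mono hT h1 (show 39998 ≤ 40000 by norm_num)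
  refine ⟨κ, hκ, E, S, hd, hp, hs, hi, fun ω hE w => ?_⟩
  have h2 := hg ω hE w rfl
  have h3 := ab_card_pairs (D := D) j col lam D.Rp w ω
  have h4 : D.newc j col lam w (D.RA (D.addCol C j (updCol m col lam ω))) ≤
      ((univ.filter fun y => y ∈ D.N w ∧ D.Now j col lam y ∧
      ∃ x, y ≠ x ∧ D.Now j col lam x ∧ D.Rp y x ∧ ω y = ω x).card : ℝ) := by
    unfold newc
    refine Nat.cast_le.2 (card_le_card fun y hy => ?_)
    rw [mem_filter] at hy ⊢
    obtain ⟨_, hy1, hy2, x, hx1, hx2, hx3⟩ := hy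
    refine ⟨mem_univ _, hy1, hy2, x, ?_⟩
    obtain ⟨a1, a2, a3⟩ := ab_split ω hy2 hx1
    rcases a3 with a3 | a3
    · exact ⟨a1, a3.1, hx3, a3.2⟩
    · exfalso
      obtain ⟨hnn, r, hr⟩ := a3
      have b1 : D.rd (D.addCol C j (updCol m col lam ω)) y = m := by
        unfold rd
        rw [ab_now ω hy2]
        rfl
      have b2 : D.rd (D.addCol C j (updCol m col lam ω)) x = r := by
        unfold rd
        rw [ab_old ω a2 hnn, hr]
        rfl
      have b3 : D.addCol C j col x = some (ω y, r) := by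
        unfold addCol
        rw [if_pos a2, hr]
      have b4 := h.prog.lt x _ _ a2 b3
      rw [b1, b2] at hx2
      omega
  refine h4.trans (h3.trans (h2.trans ?_))
  have h5 : D.T ^ 2630 = D.T ^ 65 * (D.T ^ 2 * D.T ^ 2563) := by
    rw [← pow_add, ← pow_add]
  rw [h5]
  have h6 : (12 : ℝ) ≤ D.T ^ 65 := by
    calc (12 : ℝ) ≤ D.T := by linarith
      _ = D.T ^ 1 := (pow_one _).symm
      _ ≤ D.T ^ 65 := pow_le_pow_right₀ hT.one_le (by norm_num)
  have h7 := mul_le_mul_of_nonneg_right h6 (show 0 ≤ D.T ^ 2 * D.T ^ 2563 by positivity)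
  linarith

/-- The conflicts only depend on the earlier parts. -/
theorem ab_cf {j : ℕ} {C : V → Option (Fin D.k × ℕ)} {col' : V → Option (Fin D.k × ℕ)}
    {v x : V} (hv : D.lv v = j) (h : D.Cf (D.addCol C j col') v x) : D.Cf C v x := by
  obtain ⟨h1, h2, h3, z, z', ⟨hne, hl, c, ⟨r, a1⟩, ⟨r', a2⟩⟩, h5, h6, h7, h8⟩ := h
  have hz : D.lv z ≠ j := by omega
  have hz' : D.lv z' ≠ j := by omega
  rw [ab_low hz] at a1
  rw [ab_low hz'] at a2
  exact ⟨h1, h2, h3, z, z', ⟨hne, hl, c, ⟨r, a1⟩, ⟨r', a2⟩⟩, h5, h6, h7, h8⟩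

/-- Colours that are bad for `v`. -/
noncomputable def abBad (D : DD V) (C col : V → Option (Fin D.k × ℕ)) (v : V) :
    Finset (Fin D.k) :=
  univ.filter fun c => ∃ x, D.Cf C v x ∧ hasCol col x c

theorem abBad_card {j : ℕ} (_hD : D.Ok) {C : V → Option (Fin D.k × ℕ)} (hp : D.Past C j)
    (col : V → Option (Fin D.k × ℕ)) {v : V} (hv : D.lv v = j) :
    ((abBad D C col v).card : ℝ) ≤ D.cfB := by
  refine le_trans ?_ (hp.curQ v hv)
  refine Nat.cast_le.2 ?_
  have h1 : abBad D C col v ⊆ (univ.filter fun x => D.Cf C v x).biUnion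
      (fun x => univ.filter fun c => hasCol col x c) := by
    intro c hc
    obtain ⟨x, h2, h3⟩ := (mem_filter.1 hc).2
    exact mem_biUnion.2 ⟨x, mem_filter.2 ⟨mem_univ _, h2⟩, mem_filter.2 ⟨mem_univ _, h3⟩⟩
  refine (card_le_card h1).trans (card_biUnion_le.trans ?_)
  have h2 : ∀ x, (univ.filter fun c : Fin D.k => hasCol col x c).card ≤ 1 := by
    intro x
    rw [card_le_one]
    intro a ha b hb
    obtain ⟨r, hr⟩ := (mem_filter.1 ha).2
    obtain ⟨r', hr'⟩ := (mem_filter.1 hb).2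
    rw [hr] at hr'
    exact congrArg Prod.fst (Option.some.inj hr')
  calc _ ≤ ∑ x ∈ (univ.filter fun x => D.Cf C v x), 1 := sum_le_sum fun x _ => h2 x
    _ = _ := by rw [sum_const, smul_eq_mul, mul_one]

/-- Picks of bad colours. -/
theorem ab_bad {j : ℕ} {C : V → Option (Fin D.k × ℕ)} {m : ℕ}
    {col : V → Option (Fin D.k × ℕ)} {lam : V → Option Bool}
    {p : V → Fin D.k → ℝ} (h : D.DRnd j C m col lam p) :
    LocOK 39999 D.T p (fun ω => ∀ w, D.lv w = D.lv w →
      ∑ v, (if (v ∈ D.N w ∧ D.Now j col lam v) ∧ ω v ∈ abBad D C col v then (1 : ℝ) else 0) ≤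
        4 * D.T * (D.rho * D.cfB * D.newc j col lam w (fun _ => True) + 1)) := by
  have hD := h.ok
  have hT := hD.big
  have hT0 := hT.pos
  have hT1 := hT.one_le
  have hp0 : ∀ u c, 0 ≤ p u c := h.pm.nonneg
  have hρ := ab_rho_pos hD
  have hM : ∀ w, 0 ≤ D.rho * D.cfB * D.newc j col lam w (fun _ => True) := by
    intro w
    have h1 : 0 ≤ D.newc j col lam w (fun _ => True) := Nat.cast_nonneg _
    have h2 : 0 ≤ D.cfB := div_nonneg (Tp hD _).le (R0 hD).le
    exact mul_nonneg (mul_nonneg hρ.le h2) h1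
  have hcard : ∀ v, ((D.ball 1 v).card : ℝ) ≤ D.T ^ 39999 := fun v =>
    (ball_card hD 1 v).trans (pow_le_pow_right₀ hT1 (by norm_num))
  refine loc_single hT h.pm (fun w : V => D.lv w = D.lv w)
    (fun w v c => if (v ∈ D.N w ∧ D.Now j col lam v) ∧ c ∈ abBad D C col v then (1 : ℝ) else 0)
    (fun w v c => by split_ifs <;> norm_num)
    (fun w => D.rho * D.cfB * D.newc j col lam w (fun _ => True) + 1)
    (fun w _ => by linarith [hM w]) ?_ ?_ (fun w => D.ball 1 w) ?_ 39999
    (fun w _ => hcard w) ?_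
  · intro w _
    have h1 : ∀ v, ∑ c, (if (v ∈ D.N w ∧ D.Now j col lam v) ∧ c ∈ abBad D C col v then (1 : ℝ)
        else 0) * p v c ≤ (if v ∈ D.N w ∧ D.Now j col lam v then
          D.rho * D.cfB else 0) := by
      intro v
      by_cases hv : v ∈ D.N w ∧ D.Now j col lam v
      · rw [if_pos hv]
        have h2 : ∀ c, (if (v ∈ D.N w ∧ D.Now j col lam v) ∧ c ∈ abBad D C col v then (1 : ℝ)
            else 0) * p v c ≤ (if c ∈ abBad D C col v then D.rho else 0) := by
          intro c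
          by_cases hc : c ∈ abBad D C col v
          · rw [if_pos ⟨hv, hc⟩, if_pos hc, one_mul]
            exact h.p_le v c
          · rw [if_neg (fun hh => hc hh.2), if_neg hc, zero_mul]
        refine (sum_le_sum fun c _ => h2 c).trans ?_
        rw [sum_ite_mem, univ_inter, sum_const, nsmul_eq_mul, mul_comm]
        exact mul_le_mul_of_nonneg_left (abBad_card hD h.past col hv.2.1) hρ.le
      · rw [if_neg hv]
        refine le_of_eq (sum_eq_zero fun c _ => ?_)
        rw [if_neg (fun hh => hv hh.1), zero_mul]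
    refine (sum_le_sum fun v _ => h1 v).trans ?_
    rw [← sum_filter, sum_const, nsmul_eq_mul]
    have h2 : ((univ.filter fun v => v ∈ D.N w ∧ D.Now j col lam v).card : ℝ) =
        D.newc j col lam w (fun _ => True) := by
      unfold newc
      simp only [and_true]
    rw [h2, mul_comm]
    linarith
  · intro w _ v c
    have := hM w
    split_ifs <;> linarith
  · intro w _ v c hne
    have h1 : (v ∈ D.N w ∧ D.Now j col lam v) ∧ c ∈ abBad D C col v := by
      by_contra hh
      exact hne (if_neg hh)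
    exact mem_ball_one h1.1.1
  · intro y
    exact ⟨D.ball 1 y, fun w _ hw => ball_symm hD hw, hcard y⟩

theorem dropB_step {j : ℕ} {C : V → Option (Fin D.k × ℕ)} {m : ℕ}
    {col : V → Option (Fin D.k × ℕ)} {lam : V → Option Bool}
    {p : V → Fin D.k → ℝ} (h : D.DRnd j C m col lam p) :
    LocOK 40000 D.T p (fun ω => ∀ w,
      D.newc j col lam w (D.RB (D.addCol C j (updCol m col lam ω))) ≤
        4 * D.T * (D.rho * D.cfB * D.newc j col lam w (fun _ => True)) +
          D.T ^ 2630) := by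
  have hD := h.ok
  have hT := hD.big
  have hT0 := hT.pos
  have hTb := hT.big
  have h1 := LocOK.mono hT (ab_pairs h (D.Cf C) (fun v y hh => ab_cf_ball hD hh) h.lam.cf)
    (show 39998 ≤ 39999 by norm_num)
  have h2 := ab_bad h
  obtain ⟨κ, hκ, E, S, hd, hp, hs, hi, hg⟩ := LocOK.and hT h1 h2
  refine ⟨κ, hκ, E, S, hd, hp, hs, hi, fun ω hE w => ?_⟩
  obtain ⟨g1, g2⟩ := hg ω hE
  have g1 := g1 w rfl
  have g2 := g2 w rfl
  have h3 := ab_card_pairs (D := D) j col lam (D.Cf C) w ω
  have h4 : D.newc j col lam w (D.RB (D.addCol C j (updCol m col lam ω))) ≤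
      ((univ.filter fun y => y ∈ D.N w ∧ D.Now j col lam y ∧
      ∃ x, y ≠ x ∧ D.Now j col lam x ∧ D.Cf C y x ∧ ω y = ω x).card : ℝ) +
      ∑ v, (if (v ∈ D.N w ∧ D.Now j col lam v) ∧ ω v ∈ abBad D C col v then (1 : ℝ)
        else 0) := by
    have h5 : ∑ v, (if (v ∈ D.N w ∧ D.Now j col lam v) ∧ ω v ∈ abBad D C col v then (1 : ℝ)
        else 0) = ((univ.filter fun v => (v ∈ D.N w ∧ D.Now j col lam v) ∧
          ω v ∈ abBad D C col v).card : ℝ) := by
      rw [sum_boole]
    rw [h5]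
    unfold newc
    have h6 : (univ.filter fun y => y ∈ D.N w ∧ D.Now j col lam y ∧
        D.RB (D.addCol C j (updCol m col lam ω)) y) ⊆
        (univ.filter fun y => y ∈ D.N w ∧ D.Now j col lam y ∧
        ∃ x, y ≠ x ∧ D.Now j col lam x ∧ D.Cf C y x ∧ ω y = ω x) ∪
        (univ.filter fun v => (v ∈ D.N w ∧ D.Now j col lam v) ∧
          ω v ∈ abBad D C col v) := by
      intro y hy
      rw [mem_filter] at hy
      obtain ⟨_, hy1, hy2, x, hx1, _, hx3⟩ := hy
      obtain ⟨a1, a2, a3⟩ := ab_split ω hy2 hx1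
      have hcf := ab_cf hy2.1 hx3
      rcases a3 with a3 | a3
      · exact mem_union_left _ (mem_filter.2 ⟨mem_univ _, hy1, hy2, x, a1, a3.1, hcf, a3.2⟩)
      · exact mem_union_right _ (mem_filter.2 ⟨mem_univ _, ⟨hy1, hy2⟩,
          mem_filter.2 ⟨mem_univ _, x, hcf, a3.2⟩⟩)
    exact_mod_cast (card_le_card h6).trans (card_union_le _ _)
  have h5 : D.T ^ 2630 = D.T ^ 65 * (D.T ^ 2 * D.T ^ 2563) := by
    rw [← pow_add, ← pow_add]
  have h6 : (13 : ℝ) ≤ D.T ^ 65 := by
    calc (13 : ℝ) ≤ D.T := by linarith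
      _ = D.T ^ 1 := (pow_one _).symm
      _ ≤ D.T ^ 65 := pow_le_pow_right₀ hT.one_le (by norm_num)
  have h7 := mul_le_mul_of_nonneg_right h6 (show 0 ≤ D.T ^ 2 * D.T ^ 2563 by positivity)
  have h8 : 4 * D.T ≤ D.T ^ 2 * D.T ^ 2563 := by
    have h9 : (1 : ℝ) ≤ D.T ^ 2563 := one_le_pow₀ hT.one_le
    have h10 : 4 * D.T ≤ D.T ^ 2 := by nlinarith
    nlinarith [sq_nonneg D.T]
  rw [h5]
  linarith

end DD

end

end Pool.Agent.AcyGD
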