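import Pool.Agent.AcyGD.Base

/-! # Static sums of the D-part for general graphs (project MP_af9dfb_G, row D6) -/

set_option autoImplicit false
set_option linter.unusedSectionVars false

namespace Pool.Agent.AcyGD

open Finset
open Pool.Agent.Acy (IsPM wt Ex Pr mean)
open Pool.Agent.AcyK
open scoped Classical

universe u v

section

variable {V : Type u} [Fintype V] [DecidableEq V]

namespace DD

variable {D : DD V}

/-! ## Counting neighbours -/

/-- Bound for the number of neighbours in one stage. -/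
noncomputable def st_b (D : DD V) : ℝ := 3 * (D.T ^ 3600 / D.R)

theorem st_b_nonneg (hD : D.Ok) : 0 ≤ D.st_b := by
  unfold st_b
  have h1 := T0 hD
  have h2 := R0 hD
  positivity

theorem st_b_le (hD : D.Ok) : D.st_b ≤ 3 * D.T ^ 2801 := by
  unfold st_b
  have := div_R hD (show 3600 ≤ 799 + 2801 by norm_num)
  linarith

theorem st_nb (hD : D.Ok) {j : ℕ} (hP : D.Parts j) (a : V) {i : ℕ} (hi : i ≤ j) :
    (∑ y, if D.lv y = i ∧ y ∈ D.N a then (1 : ℝ) else 0) ≤ D.st_b := by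
  refine le_trans (le_of_eq ?_) (pb1' hD hP a hi)
  rw [← Finset.natCast_card_filter]
  congr 1
  congr 1
  ext y
  rw [mem_filter, mem_filter]
  exact ⟨fun h => ⟨h.2.2, h.2.1⟩, fun h => ⟨mem_univ _, h.2, h.1⟩⟩

theorem st_deg (hD : D.Ok) (a : V) :
    (∑ y, if y ∈ D.N a then (1 : ℝ) else 0) ≤ D.T ^ 3600 := by
  refine le_trans (le_of_eq ?_) (hD.deg a)
  rw [← Finset.natCast_card_filter]
  congr 1
  congr 1
  ext y
  rw [mem_filter]
  exact ⟨fun h => h.2, fun h => ⟨mem_univ _, h⟩⟩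

/-- A double sum through a middle vertex. -/
theorem st_two (hD : D.Ok) {j : ℕ} (hP : D.Parts j) {i : ℕ} (hi : i ≤ j) (w : V → ℝ)
    (hw : ∀ x, 0 ≤ w x) {B : ℝ} (hB : ∑ x, w x ≤ B) :
    ∑ y, ∑ x, w x * (if D.lv y = i ∧ y ∈ D.N x then (1 : ℝ) else 0) ≤ B * D.st_b := by
  rw [Finset.sum_comm]
  calc ∑ x, ∑ y, w x * (if D.lv y = i ∧ y ∈ D.N x then (1 : ℝ) else 0)
      = ∑ x, w x * ∑ y, (if D.lv y = i ∧ y ∈ D.N x then (1 : ℝ) else 0) := by
        refine Finset.sum_congr rfl fun x _ => ?_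
        rw [Finset.mul_sum]
    _ ≤ ∑ x, w x * D.st_b :=
        Finset.sum_le_sum fun x _ => mul_le_mul_of_nonneg_left (st_nb hD hP x hi) (hw x)
    _ = (∑ x, w x) * D.st_b := by rw [Finset.sum_mul]
    _ ≤ B * D.st_b := mul_le_mul_of_nonneg_right hB (st_b_nonneg hD)

/-! ## Total weights -/

theorem sum_wB (hD : D.Ok) {j : ℕ} (hP : D.Parts j) (a : V) {i : ℕ} (hi : i ≤ j) :
    (∑ y, if D.lv y = i then D.wB a y else 0) ≤ 3 * D.T ^ 2801 := by
  refine le_trans (le_of_eq ?_) ((st_nb hD hP a hi).trans (st_b_le hD))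
  refine Finset.sum_congr rfl fun y _ => ?_
  unfold wB
  by_cases h1 : D.lv y = i <;> by_cases h2 : y ∈ D.N a <;> simp [h1, h2]

/-- Total codegree towards one stage. -/
theorem st_cod (hD : D.Ok) {j : ℕ} (hP : D.Parts j) (y : V) {i : ℕ} (hi : i ≤ j) :
    (∑ y', if D.lv y' = i then D.cod y y' else 0) ≤ 3 * D.T ^ 6401 := by
  have h1 : ∀ y', (if D.lv y' = i then D.cod y y' else 0) =
      ∑ x, (if x ∈ D.N y then (1 : ℝ) else 0) *
        (if D.lv y' = i ∧ y' ∈ D.N x then (1 : ℝ) else 0) := by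
    intro y'
    by_cases hy : D.lv y' = i
    · rw [if_pos hy]
      unfold cod
      have h2 : cN D.N y y' = univ.filter fun x => x ∈ cN D.N y y' := by
        ext x
        simp only [mem_filter, mem_univ, true_and]
      rw [h2, Finset.natCast_card_filter]
      refine Finset.sum_congr rfl fun x _ => ?_
      have h3 : x ∈ cN D.N y y' ↔ x ∈ D.N y ∧ y' ∈ D.N x := by
        rw [mem_cN]
        exact ⟨fun h => ⟨h.1, hD.N_symm _ _ h.2⟩, fun h => ⟨h.1, hD.N_symm _ _ h.2⟩⟩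
      by_cases h4 : x ∈ D.N y <;> by_cases h5 : y' ∈ D.N x <;> simp [h3, h4, h5, hy]
    · rw [if_neg hy]
      symm
      refine Finset.sum_eq_zero fun x _ => ?_
      rw [if_neg (show ¬ (D.lv y' = i ∧ y' ∈ D.N x) from fun h => hy h.1), mul_zero]
  simp_rw [h1]
  refine (st_two hD hP hi _ (fun x => ds_ind _) (st_deg hD y)).trans ?_
  refine (mul_le_mul_of_nonneg_left (st_b_le hD) (Tp hD 3600).le).trans (le_of_eq ?_)
  have h2 : D.T ^ 6401 = D.T ^ 3600 * D.T ^ 2801 := by rw [← pow_add]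
  rw [h2]
  ring

theorem sum_wL (hD : D.Ok) {j : ℕ} (hP : D.Parts j) (a : V) {i : ℕ} (hi : i ≤ j) :
    (∑ y, if D.lv y = i then D.wL a y else 0) ≤ 3 * D.T ^ 6401 := by
  refine le_trans (Finset.sum_le_sum fun y _ => ?_) (st_cod hD hP a hi)
  by_cases hy : D.lv y = i
  · rw [if_pos hy, if_pos hy]
    unfold wL
    split_ifs
    · exact le_rfl
    · exact cod_nonneg _ _
  · rw [if_neg hy, if_neg hy]

theorem sum_wN (hD : D.Ok) {j : ℕ} (hP : D.Parts j) (v : V) {i : ℕ} (hi : i ≤ j) :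
    (∑ y, if D.lv y = i then D.wN v y else 0) ≤ 3 * D.T ^ 6401 := by
  refine le_trans (Finset.sum_le_sum fun y _ => ?_) (st_cod hD hP v hi)
  by_cases hy : D.lv y = i
  · rw [if_pos hy, if_pos hy]
    unfold wN
    split_ifs with h
    · unfold cod
      exact_mod_cast h.card_pos
    · exact cod_nonneg _ _
  · rw [if_neg hy, if_neg hy]

theorem sum_wM (hD : D.Ok) {j : ℕ} (hP : D.Parts j) (a b : V) {i : ℕ} (hi : i ≤ j) :
    (∑ y, ∑ y', if D.lv y = i ∧ D.lv y' = i then D.wM a b y y' else 0) ≤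
      9 * D.T ^ 5602 := by
  have h1 : ∀ y y', (if D.lv y = i ∧ D.lv y' = i then D.wM a b y y' else 0) =
      (if D.lv y = i ∧ y ∈ D.N a then (1 : ℝ) else 0) *
        (if D.lv y' = i ∧ y' ∈ D.N b then (1 : ℝ) else 0) := by
    intro y y'
    unfold wM
    by_cases h1 : D.lv y = i <;> by_cases h2 : D.lv y' = i <;> by_cases h3 : y ∈ D.N a <;>
      by_cases h4 : y' ∈ D.N b <;> simp [h1, h2, h3, h4]
  simp_rw [h1]
  rw [← Finset.sum_mul_sum]
  have h2 : D.T ^ 5602 = D.T ^ 2801 * D.T ^ 2801 := by rw [← pow_add]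
  have h3 : (0 : ℝ) ≤ 3 * D.T ^ 2801 := by have := Tp hD 2801; linarith
  calc _ ≤ (3 * D.T ^ 2801) * (3 * D.T ^ 2801) :=
        mul_le_mul ((st_nb hD hP a hi).trans (st_b_le hD))
          ((st_nb hD hP b hi).trans (st_b_le hD))
          (Finset.sum_nonneg fun y _ => ds_ind _) h3
    _ = 9 * D.T ^ 5602 := by rw [h2]; ring

/-- Squares of common neighbourhoods. -/
theorem st_sq (hD : D.Ok) {j : ℕ} (hP : D.Parts j) (v : V) {i : ℕ} (hi : i ≤ j) :
    (∑ x, if x ≠ v ∧ D.cod x v < D.T ^ 2385 then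
      (∑ y, if D.lv y = i ∧ y ∈ cN D.N v x then (1 : ℝ) else 0) ^ 2 else 0) ≤
      9 * (D.T ^ 9585 / D.R ^ 2) := by
  have hT := T0 hD
  have hR := R0 hD
  set s : ℝ := 3 * (D.T ^ 2385 / D.R) with hs
  have hs0 : 0 ≤ s := by positivity
  have h1 : ∀ x, D.cod x v < D.T ^ 2385 →
      (∑ y, if D.lv y = i ∧ y ∈ cN D.N v x then (1 : ℝ) else 0) ≤ s := by
    intro x hx
    rw [← Finset.natCast_card_filter]
    have h2 : (univ.filter fun y => D.lv y = i ∧ y ∈ cN D.N v x) =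
        (cN D.N x v).filter fun y => D.lv y = i := by
      ext y
      rw [mem_filter, mem_filter, cN_comm]
      exact ⟨fun h => ⟨h.2.2, h.2.1⟩, fun h => ⟨mem_univ _, h.2, h.1⟩⟩
    rw [h2]
    exact pb2l hD hP hx hi
  have h2 : ∀ x, (if x ≠ v ∧ D.cod x v < D.T ^ 2385 then
      (∑ y, if D.lv y = i ∧ y ∈ cN D.N v x then (1 : ℝ) else 0) ^ 2 else 0) ≤
      s * ∑ y, (if D.lv y = i ∧ y ∈ D.N v then (1 : ℝ) else 0) *
        (if x ∈ D.N y then (1 : ℝ) else 0) := by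
    intro x
    have h3 : 0 ≤ ∑ y, (if D.lv y = i ∧ y ∈ D.N v then (1 : ℝ) else 0) *
        (if x ∈ D.N y then (1 : ℝ) else 0) :=
      Finset.sum_nonneg fun y _ => mul_nonneg (ds_ind _) (ds_ind _)
    split_ifs with hx
    · rw [pow_two]
      have h4 : (∑ y, if D.lv y = i ∧ y ∈ cN D.N v x then (1 : ℝ) else 0) =
          ∑ y, (if D.lv y = i ∧ y ∈ D.N v then (1 : ℝ) else 0) *
            (if x ∈ D.N y then (1 : ℝ) else 0) := by
        refine Finset.sum_congr rfl fun y _ => ?_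
        have h5 : y ∈ cN D.N v x ↔ y ∈ D.N v ∧ x ∈ D.N y := by
          rw [mem_cN]
          exact ⟨fun h => ⟨h.1, hD.N_symm _ _ h.2⟩, fun h => ⟨h.1, hD.N_symm _ _ h.2⟩⟩
        by_cases h6 : D.lv y = i <;> by_cases h7 : y ∈ D.N v <;> by_cases h8 : x ∈ D.N y <;>
          simp [h5, h6, h7, h8]
      rw [h4]
      refine mul_le_mul_of_nonneg_right ?_ h3
      rw [← h4]
      exact h1 x hx.2
    · positivity
  refine (Finset.sum_le_sum fun x _ => h2 x).trans ?_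
  rw [← Finset.mul_sum]
  have h3 : (∑ x, ∑ y, (if D.lv y = i ∧ y ∈ D.N v then (1 : ℝ) else 0) *
        (if x ∈ D.N y then (1 : ℝ) else 0)) ≤ D.st_b * D.T ^ 3600 := by
    rw [Finset.sum_comm]
    calc ∑ y, ∑ x, (if D.lv y = i ∧ y ∈ D.N v then (1 : ℝ) else 0) *
          (if x ∈ D.N y then (1 : ℝ) else 0)
        = ∑ y, (if D.lv y = i ∧ y ∈ D.N v then (1 : ℝ) else 0) *
          ∑ x, (if x ∈ D.N y then (1 : ℝ) else 0) := by
          refine Finset.sum_congr rfl fun y _ => ?_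
          rw [Finset.mul_sum]
      _ ≤ ∑ y, (if D.lv y = i ∧ y ∈ D.N v then (1 : ℝ) else 0) * D.T ^ 3600 :=
          Finset.sum_le_sum fun y _ => mul_le_mul_of_nonneg_left (st_deg hD y) (ds_ind _)
      _ = (∑ y, (if D.lv y = i ∧ y ∈ D.N v then (1 : ℝ) else 0)) * D.T ^ 3600 := by
          rw [Finset.sum_mul]
      _ ≤ D.st_b * D.T ^ 3600 :=
          mul_le_mul_of_nonneg_right (st_nb hD hP v hi) (Tp hD _).le
  refine (mul_le_mul_of_nonneg_left h3 hs0).trans (le_of_eq ?_)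
  have h5 : D.T ^ 9585 = D.T ^ 2385 * D.T ^ 3600 * D.T ^ 3600 := by rw [← pow_add, ← pow_add]
  rw [h5, hs]
  unfold st_b
  ring

theorem sum_wQ (hD : D.Ok) {j : ℕ} (hP : D.Parts j) (v : V) {i : ℕ} (hi : i ≤ j) :
    (∑ y, ∑ y', if D.lv y = i ∧ D.lv y' = i then D.wQ v y y' else 0) ≤
      9 * (D.T ^ 9585 / D.R ^ 2) := by
  refine le_trans ?_ (st_sq hD hP v hi)
  have h1 : ∀ y y', (if D.lv y = i ∧ D.lv y' = i then D.wQ v y y' else 0) ≤
      ∑ x, if x ≠ v ∧ D.cod x v < D.T ^ 2385 then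
        (if D.lv y = i ∧ y ∈ cN D.N v x then (1 : ℝ) else 0) *
        (if D.lv y' = i ∧ y' ∈ cN D.N v x then (1 : ℝ) else 0) else 0 := by
    intro y y'
    have hp : ∀ x, 0 ≤ (if x ≠ v ∧ D.cod x v < D.T ^ 2385 then
        (if D.lv y = i ∧ y ∈ cN D.N v x then (1 : ℝ) else 0) *
        (if D.lv y' = i ∧ y' ∈ cN D.N v x then (1 : ℝ) else 0) else 0) := by
      intro x
      split_ifs <;> norm_num
    by_cases hy : D.lv y = i ∧ D.lv y' = i
    · rw [if_pos hy]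
      unfold wQ
      split_ifs with h
      · have h2 : ((cN D.N y y').filter fun x => x ≠ v ∧ D.cod x v < D.T ^ 2385) =
            univ.filter fun x => x ∈ cN D.N y y' ∧ x ≠ v ∧ D.cod x v < D.T ^ 2385 := by
          ext x
          simp only [mem_filter, mem_univ, true_and]
        rw [h2, Finset.natCast_card_filter]
        refine Finset.sum_le_sum fun x _ => ?_
        by_cases hx : x ∈ cN D.N y y' ∧ x ≠ v ∧ D.cod x v < D.T ^ 2385
        · have h3 := mem_cN.1 hx.1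
          rw [if_pos hx, if_pos hx.2,
            if_pos ⟨hy.1, mem_cN.2 ⟨h.1.1, hD.N_symm _ _ h3.1⟩⟩,
            if_pos ⟨hy.2, mem_cN.2 ⟨h.1.2, hD.N_symm _ _ h3.2⟩⟩]
          norm_num
        · rw [if_neg hx]
          exact hp x
      · exact Finset.sum_nonneg fun x _ => hp x
    · rw [if_neg hy]
      exact Finset.sum_nonneg fun x _ => hp x
  refine (Finset.sum_le_sum fun y _ => Finset.sum_le_sum fun y' _ => h1 y y').trans ?_
  have h2 : ∀ y, (∑ y', ∑ x, if x ≠ v ∧ D.cod x v < D.T ^ 2385 then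
        (if D.lv y = i ∧ y ∈ cN D.N v x then (1 : ℝ) else 0) *
        (if D.lv y' = i ∧ y' ∈ cN D.N v x then (1 : ℝ) else 0) else 0) =
      ∑ x, ∑ y', if x ≠ v ∧ D.cod x v < D.T ^ 2385 then
        (if D.lv y = i ∧ y ∈ cN D.N v x then (1 : ℝ) else 0) *
        (if D.lv y' = i ∧ y' ∈ cN D.N v x then (1 : ℝ) else 0) else 0 :=
    fun y => Finset.sum_comm
  simp_rw [h2]
  rw [Finset.sum_comm]
  refine le_of_eq (Finset.sum_congr rfl fun x _ => ?_)
  by_cases hx : x ≠ v ∧ D.cod x v < D.T ^ 2385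
  · simp only [if_pos hx]
    rw [pow_two, Finset.sum_mul_sum]
  · simp only [if_neg hx, Finset.sum_const_zero]

/-! ## The running bounds give the final bounds -/

theorem C1_le (f : V → Option (Fin D.k × ℕ)) (i : ℕ) {w : V → ℝ} (hw : ∀ y, 0 ≤ w y) :
    D.C1 f i w ≤ ∑ y, if D.lv y = i then w y else 0 := by
  unfold C1
  refine Finset.sum_le_sum fun y _ => ?_
  by_cases h : D.lv y = i
  · rw [if_pos h]
    split_ifs
    · exact le_rfl
    · exact hw y
  · rw [if_neg (fun h' => h h'.1), if_neg h]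

theorem C2_le (f : V → Option (Fin D.k × ℕ)) (i : ℕ) {w : V → V → ℝ}
    (hw : ∀ y y', 0 ≤ w y y') :
    D.C2 f i w ≤ ∑ y, ∑ y', if D.lv y = i ∧ D.lv y' = i then w y y' else 0 := by
  unfold C2
  refine Finset.sum_le_sum fun y _ => Finset.sum_le_sum fun y' _ => ?_
  by_cases h : D.lv y = i ∧ D.lv y' = i
  · rw [if_pos h]
    split_ifs
    · exact le_rfl
    · exact hw y y'
  · rw [if_neg (fun h' => h ⟨h'.1.1, h'.2.1.1⟩), if_neg h]

theorem bd1_le (hD : D.Ok) (f : V → Option (Fin D.k × ℕ)) (j : ℕ) {m : ℕ} (hm : m ≤ D.M)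
    {w : V → ℝ} (hw : ∀ y, 0 ≤ w y) {b B : ℝ} (hb : 0 ≤ b)
    (hB : (∑ y, if D.lv y = j then w y else 0) ≤ B) :
    D.bd1 f j m w b ≤ 4 * D.T * (D.rho * B + D.T ^ 150 * b) := by
  unfold bd1
  have h1 := (C1_le f j hw).trans hB
  have h2 := mM hD hm
  have h3 := rho_nonneg hD
  have h4 := T0 hD
  gcongr

theorem bd2_le (hD : D.Ok) (f : V → Option (Fin D.k × ℕ)) (j : ℕ) {m : ℕ} (hm : m ≤ D.M)
    {w : V → V → ℝ} (hw : ∀ y y', 0 ≤ w y y') {b B : ℝ} (hb : 0 ≤ b)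
    (hB : (∑ y, ∑ y', if D.lv y = j ∧ D.lv y' = j then w y y' else 0) ≤ B) :
    D.bd2 f j m w b ≤ 26 * D.T ^ 2 * (D.rho * B + D.T ^ 150 * b) := by
  unfold bd2
  have h1 := (C2_le f j hw).trans hB
  have h2 := mM hD hm
  have h3 := rho_nonneg hD
  have h4 := T0 hD
  gcongr

/-- The running bounds give the final bounds. -/
theorem stat_of_prog (hD : D.Ok) {f : V → Option (Fin D.k × ℕ)} {j : ℕ} (hP : D.Parts j) {m : ℕ}
    (hm : m ≤ D.M) (h : D.ProgS f j m) : D.DStat f j := by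
  have hT := T0 hD
  have hR := R0 hD
  have hk := k0 hD
  have hr := rho_nonneg hD
  have hmM := mM hD hm
  refine ⟨fun a c => ?_, fun a c => ?_, fun v c => ?_, fun a b hab => ?_, fun v => ?_,
    fun v => ?_, fun v => ?_, fun v => ?_⟩
  · refine (h.sB a c).trans ((bd1_le hD f j hm (wB_nonneg a) zero_le_one
      (sum_wB hD hP a le_rfl)).trans ?_)
    have h1 : D.rho * D.T ^ 2801 ≤ 2 * D.T ^ 0 := rho_mul_le2 hD (by norm_num)
    have h2 : (1 : ℝ) * D.T ^ 0 ≤ D.T ^ 150 := num_pow hD (by norm_num) (by norm_num)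
    have h3 : 28 * D.T ^ 151 ≤ D.T ^ 152 := num_pow hD (by norm_num) (by norm_num)
    have h4 : D.T ^ 151 = D.T ^ 150 * D.T := pow_succ _ _
    calc 4 * D.T * (D.rho * (3 * D.T ^ 2801) + D.T ^ 150 * 1)
        = 4 * D.T * (3 * (D.rho * D.T ^ 2801) + D.T ^ 150) := by ring
      _ ≤ 4 * D.T * (3 * (2 * D.T ^ 150) + D.T ^ 150) := by
          refine mul_le_mul_of_nonneg_left ?_ (by positivity)
          linarith
      _ = 28 * D.T ^ 151 := by rw [h4]; ring
      _ ≤ D.T ^ 152 := h3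
  · refine (h.sL a c).trans ((bd1_le hD f j hm (wL_nonneg a) (by positivity)
      (sum_wL hD hP a le_rfl)).trans ?_)
    have h1 : D.rho * D.T ^ 6401 ≤ 2 * D.T ^ 2403 := rho_mul_le2 hD (by norm_num)
    have h2 : (1 : ℝ) * D.T ^ 2403 ≤ D.T ^ 2551 := num_pow hD (by norm_num) (by norm_num)
    have h3 : 28 * D.T ^ 2552 ≤ D.T ^ 2555 := num_pow hD (by norm_num) (by norm_num)
    have h4 : D.T ^ 2552 = D.T ^ 2551 * D.T := pow_succ _ _
    have h5 : D.T ^ 150 * D.T ^ 2401 = D.T ^ 2551 := by rw [← pow_add]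
    calc 4 * D.T * (D.rho * (3 * D.T ^ 6401) + D.T ^ 150 * D.T ^ 2401)
        = 4 * D.T * (3 * (D.rho * D.T ^ 6401) + D.T ^ 2551) := by rw [h5]; ring
      _ ≤ 4 * D.T * (3 * (2 * D.T ^ 2551) + D.T ^ 2551) := by
          refine mul_le_mul_of_nonneg_left ?_ (by positivity)
          linarith
      _ = 28 * D.T ^ 2552 := by rw [h4]; ring
      _ ≤ D.T ^ 2555 := h3
  · refine (h.sN v c).trans ((bd1_le hD f j hm (wN_nonneg v) zero_le_one
      (sum_wN hD hP v le_rfl)).trans ?_)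
    have h1 : D.rho * D.T ^ 6401 ≤ 2 * D.T ^ 2403 := rho_mul_le2 hD (by norm_num)
    have h2 : (1 : ℝ) * D.T ^ 150 ≤ D.T ^ 2403 := num_pow hD (by norm_num) (by norm_num)
    have h3 : 28 * D.T ^ 2404 ≤ D.T ^ 2406 := num_pow hD (by norm_num) (by norm_num)
    have h4 : D.T ^ 2404 = D.T ^ 2403 * D.T := pow_succ _ _
    calc 4 * D.T * (D.rho * (3 * D.T ^ 6401) + D.T ^ 150 * 1)
        = 4 * D.T * (3 * (D.rho * D.T ^ 6401) + D.T ^ 150) := by ring
      _ ≤ 4 * D.T * (3 * (2 * D.T ^ 2403) + D.T ^ 2403) := by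
          refine mul_le_mul_of_nonneg_left ?_ (by positivity)
          linarith
      _ = 28 * D.T ^ 2404 := by rw [h4]; ring
      _ ≤ D.T ^ 2406 := h3
  · refine (h.sM a b hab).trans ((bd2_le hD f j hm (wM_nonneg a b) (by positivity)
      (sum_wM hD hP a b le_rfl)).trans ?_)
    have h1 : D.rho * D.T ^ 5602 ≤ 2 * D.T ^ 1604 := rho_mul_le2 hD (by norm_num)
    have h2 : (1 : ℝ) * D.T ^ 303 ≤ D.T ^ 1604 := num_pow hD (by norm_num) (by norm_num)
    have h3 : 494 * D.T ^ 1606 ≤ D.T ^ 1608 := num_pow hD (by norm_num) (by norm_num)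
    have h4 : D.T ^ 1606 = D.T ^ 1604 * D.T ^ 2 := by rw [← pow_add]
    have h5 : D.T ^ 150 * D.T ^ 153 = D.T ^ 303 := by rw [← pow_add]
    calc 26 * D.T ^ 2 * (D.rho * (9 * D.T ^ 5602) + D.T ^ 150 * D.T ^ 153)
        = 26 * D.T ^ 2 * (9 * (D.rho * D.T ^ 5602) + D.T ^ 303) := by rw [h5]; ring
      _ ≤ 26 * D.T ^ 2 * (9 * (2 * D.T ^ 1604) + D.T ^ 1604) := by
          refine mul_le_mul_of_nonneg_left ?_ (by positivity)
          linarith
      _ = 494 * D.T ^ 1606 := by rw [h4]; ring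
      _ ≤ D.T ^ 1608 := h3
  · refine (h.sQ v).trans ((bd2_le hD f j hm (wQ_nonneg v) (by positivity)
      (sum_wQ hD hP v le_rfl)).trans ?_)
    have h5 : D.T ^ 150 * D.T ^ 2557 = D.T ^ 2707 := by rw [← pow_add]
    have h6 : D.rho * (9 * (D.T ^ 9585 / D.R ^ 2)) = 18 * (D.T ^ 9586 / (D.k * D.R ^ 2)) := by
      have e0 : D.T ^ 9586 = D.T ^ 9585 * D.T := pow_succ _ _
      have e1 : (D.k : ℝ) ≠ 0 := hk.ne'
      have e2 : (D.R : ℝ) ≠ 0 := hR.ne'
      rw [e0]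
      unfold rho
      generalize D.T ^ 9585 = A
      field_simp
      ring
    have h7 : D.T ^ 2 * (D.T ^ 9586 / (D.k * D.R ^ 2)) = D.T ^ 9588 / (D.k * D.R ^ 2) := by
      rw [mul_div_assoc', ← pow_add]
    have h8 : 26 * D.T ^ 2709 ≤ D.T ^ 9588 / (D.k * D.R ^ 2) := by
      rw [le_div_iff₀ (by positivity)]
      have h9 : (D.k : ℝ) * D.R ^ 2 ≤ D.T ^ 4000 * (D.T ^ 800) ^ 2 :=
        mul_le_mul hD.k_hi (pow_le_pow_left₀ hR.le hD.R_hi 2) (by positivity) (by positivity)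
      calc 26 * D.T ^ 2709 * (D.k * D.R ^ 2) ≤ 26 * D.T ^ 2709 * (D.T ^ 4000 * (D.T ^ 800) ^ 2) :=
            mul_le_mul_of_nonneg_left h9 (by positivity)
        _ = 26 * D.T ^ 8309 := by
            rw [← pow_mul, ← pow_add, mul_assoc, ← pow_add]
        _ ≤ D.T ^ 9588 := num_pow hD (by norm_num) (by norm_num)
    have h10 : D.T ^ 2 * D.T ^ 2707 = D.T ^ 2709 := by rw [← pow_add]
    calc 26 * D.T ^ 2 * (D.rho * (9 * (D.T ^ 9585 / D.R ^ 2)) + D.T ^ 150 * D.T ^ 2557)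
        = 468 * (D.T ^ 2 * (D.T ^ 9586 / (D.k * D.R ^ 2))) + 26 * (D.T ^ 2 * D.T ^ 2707) := by
          rw [h5, h6]; ring
      _ = 468 * (D.T ^ 9588 / (D.k * D.R ^ 2)) + 26 * D.T ^ 2709 := by rw [h7, h10]
      _ ≤ 500 * (D.T ^ 9588 / (D.k * D.R ^ 2)) := by
          have : 0 ≤ D.T ^ 9588 / (D.k * D.R ^ 2) := by positivity
          linarith
  · refine (h.rM v).trans ?_
    calc (m : ℝ) * D.T ^ 1360 ≤ D.T ^ 150 * D.T ^ 1360 :=
          mul_le_mul_of_nonneg_right hmM (Tp hD _).le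
      _ = D.T ^ 1510 := by rw [← pow_add]
      _ ≤ D.T ^ 1520 := hD.big.pw (by norm_num)
  · refine (h.rP v).trans ?_
    calc (m : ℝ) * D.T ^ 4960 ≤ D.T ^ 150 * D.T ^ 4960 :=
          mul_le_mul_of_nonneg_right hmM (Tp hD _).le
      _ = D.T ^ 5110 := by rw [← pow_add]
      _ ≤ D.T ^ 5120 := hD.big.pw (by norm_num)
  · refine (h.rF v).trans ?_
    calc (m : ℝ) * D.T ^ 3760 ≤ D.T ^ 150 * D.T ^ 3760 :=
          mul_le_mul_of_nonneg_right hmM (Tp hD _).le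
      _ = D.T ^ 3910 := by rw [← pow_add]
      _ ≤ D.T ^ 3920 := hD.big.pw (by norm_num)

/-! ## Pairs with `E3` -/

theorem wC_congr {j : ℕ} {C col : V → Option (Fin D.k × ℕ)} {v : V} (hv : D.lv v = j)
    (u u' : V) : D.wC (D.addCol C j col) v u u' = D.wC C v u u' := by
  unfold wC
  refine if_congr (E3_congr fun z hz => ?_) rfl rfl
  rw [hv] at hz
  exact addCol_ne hz.ne

theorem wC_le (hD : D.Ok) {f : V → Option (Fin D.k × ℕ)} {j : ℕ} (v u u' : V)
    (hv : D.lv v = j) (hu : D.lv u = j) (hu' : D.lv u' = j) :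
    D.wC f v u u' ≤ ∑ z, ∑ z', (if D.Same f z z' ∧ D.lv z < j ∧ z ∈ D.N v ∧ z' ∈ D.N v
      then (1 : ℝ) else 0) * ((if D.lv u' = j ∧ u' ∈ D.N z' then (1 : ℝ) else 0) *
      ∑ z'', if D.Same f z z'' ∧ ¬ D.Spc z z'' ∧ D.lv u = j ∧ u ∈ cN D.N z z'' then
        (1 : ℝ) else 0) := by
  have hp1 : ∀ z, 0 ≤ ∑ z'', (if D.Same f z z'' ∧ ¬ D.Spc z z'' ∧ D.lv u = j ∧
      u ∈ cN D.N z z'' then (1 : ℝ) else 0) := fun z => Finset.sum_nonneg fun _ _ => ds_ind _
  have hp2 : ∀ z z', 0 ≤ (if D.Same f z z' ∧ D.lv z < j ∧ z ∈ D.N v ∧ z' ∈ D.N v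
      then (1 : ℝ) else 0) * ((if D.lv u' = j ∧ u' ∈ D.N z' then (1 : ℝ) else 0) *
      ∑ z'', if D.Same f z z'' ∧ ¬ D.Spc z z'' ∧ D.lv u = j ∧ u ∈ cN D.N z z'' then
        (1 : ℝ) else 0) :=
    fun z z' => mul_nonneg (ds_ind _) (mul_nonneg (ds_ind _) (hp1 z))
  unfold wC
  split_ifs with h
  · obtain ⟨z, z', z'', -, h1, h2, h3, h4, h5, h6, h7, h8⟩ := h
    rw [hv] at h5
    rw [mem_cN] at h6 h7
    refine le_trans ?_ (Finset.single_le_sum
      (fun z _ => Finset.sum_nonneg fun z' _ => hp2 z z') (mem_univ z))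
    refine le_trans ?_ (Finset.single_le_sum (fun z' _ => hp2 z z') (mem_univ z'))
    rw [if_pos ⟨h1, h5, h6.1, h7.1⟩, if_pos ⟨hu', hD.N_symm _ _ h7.2⟩, one_mul, one_mul]
    refine le_trans ?_ (Finset.single_le_sum (fun _ _ => ds_ind _) (mem_univ z''))
    rw [if_pos ⟨h2, h4, hu, mem_cN.2 ⟨hD.N_symm _ _ h6.2, hD.N_symm _ _ h8⟩⟩]
  · exact Finset.sum_nonneg fun z _ => Finset.sum_nonneg fun z' _ => hp2 z z'

/-- Second steps from `z`. -/
theorem wC_aux {C : V → Option (Fin D.k × ℕ)} {j : ℕ} (hp : D.Past C j) (z : V)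
    (hz : D.lv z < j) (hT : 0 < D.T) :
    (∑ u, ∑ z'', if D.Same C z z'' ∧ ¬ D.Spc z z'' ∧ D.lv u = j ∧ u ∈ cN D.N z z'' then
        (1 : ℝ) else 0) ≤ D.T ^ 1757 := by
  by_cases hc : ∃ c, hasCol C z c
  · obtain ⟨c, hc⟩ := hc
    refine le_trans ?_ (hp.curL _ hz z c)
    rw [Finset.sum_comm]
    unfold L1
    refine Finset.sum_le_sum fun z'' _ => ?_
    by_cases h1 : D.Same C z z'' ∧ ¬ D.Spc z z''
    · rw [if_pos ⟨h1.1.2.1.symm, h1.1.hasCol hc⟩]
      unfold wLj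
      rw [if_pos ⟨h1.1.1, h1.2⟩]
      have h3 : ((cN D.N z z'').filter fun x => D.lv x = j) =
          univ.filter fun x => D.lv x = j ∧ x ∈ cN D.N z z'' := by
        ext x
        rw [mem_filter, mem_filter]
        exact ⟨fun h => ⟨mem_univ _, h.2, h.1⟩, fun h => ⟨h.2.2, h.2.1⟩⟩
      rw [h3, Finset.natCast_card_filter]
      refine Finset.sum_le_sum fun u _ => ?_
      by_cases h4 : D.lv u = j ∧ u ∈ cN D.N z z''
      · rw [if_pos ⟨h1.1, h1.2, h4⟩, if_pos h4]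
      · rw [if_neg (fun h5 => h4 h5.2.2), if_neg h4]
    · refine le_trans (le_of_eq (Finset.sum_eq_zero fun u _ => ?_)) ?_
      · rw [if_neg (fun h2 => h1 ⟨h2.1, h2.2.1⟩)]
      · split_ifs
        · exact wLj_nonneg _ _ _
        · exact le_rfl
  · refine le_trans (le_of_eq (Finset.sum_eq_zero fun u _ => Finset.sum_eq_zero fun z'' _ => ?_))
      (pow_pos hT _).le
    rw [if_neg]
    rintro ⟨⟨-, -, c, h1, -⟩, -⟩
    exact hc ⟨c, h1⟩

/-- Sum over the smaller stages. -/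
theorem st_parts (j : ℕ) (f : V → Option (Fin D.k × ℕ)) (w : V → V → ℝ)
    {B : ℝ} (hB : ∀ i, i < j → D.S2 f i w ≤ B) :
    (∑ z, ∑ z', if D.Same f z z' ∧ D.lv z < j then w z z' else 0) ≤ j * B := by
  have h1 : ∀ z z', (if D.Same f z z' ∧ D.lv z < j then w z z' else 0) =
      ∑ i ∈ Finset.range j, if D.lv z = i ∧ D.Same f z z' then w z z' else 0 := by
    intro z z'
    by_cases h : D.Same f z z' ∧ D.lv z < j
    · rw [if_pos h, Finset.sum_eq_single (D.lv z)]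
      · rw [if_pos ⟨rfl, h.1⟩]
      · intro i _ hi
        rw [if_neg (fun h' => hi h'.1.symm)]
      · intro h'
        exact absurd (Finset.mem_range.2 h.2) h'
    · rw [if_neg h]
      symm
      refine Finset.sum_eq_zero fun i hi => ?_
      rw [if_neg]
      rintro ⟨h2, h3⟩
      exact h ⟨h3, h2 ▸ Finset.mem_range.1 hi⟩
  have h2 : (∑ z, ∑ z', if D.Same f z z' ∧ D.lv z < j then w z z' else 0) =
      ∑ i ∈ Finset.range j, D.S2 f i w := by
    simp_rw [h1]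
    unfold S2
    have h3 : ∀ z, (∑ z', ∑ i ∈ Finset.range j,
        if D.lv z = i ∧ D.Same f z z' then w z z' else 0) =
        ∑ i ∈ Finset.range j, ∑ z', if D.lv z = i ∧ D.Same f z z' then w z z' else 0 :=
      fun z => Finset.sum_comm
    simp_rw [h3]
    rw [Finset.sum_comm]
  rw [h2]
  refine (Finset.sum_le_sum fun i hi => hB i (Finset.mem_range.1 hi)).trans (le_of_eq ?_)
  rw [Finset.sum_const, Finset.card_range, nsmul_eq_mul]

/-- Pairs `(u, u')` in the stage of `v` with `E3`. -/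
theorem sum_wC (hD : D.Ok) {C : V → Option (Fin D.k × ℕ)} {j : ℕ} (hp : D.Past C j)
    (col : V → Option (Fin D.k × ℕ)) (v : V) (hv : D.lv v = j) :
    (∑ u, ∑ u', if D.lv u = j ∧ D.lv u' = j then D.wC (D.addCol C j col) v u u' else 0) ≤
      D.T ^ 7000 := by
  have hT := T0 hD
  set S : V → V → ℝ := fun z u => ∑ z'', if D.Same C z z'' ∧ ¬ D.Spc z z'' ∧
    D.lv u = j ∧ u ∈ cN D.N z z'' then (1 : ℝ) else 0 with hS
  have hS0 : ∀ z u, 0 ≤ S z u := fun z u => Finset.sum_nonneg fun _ _ => ds_ind _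
  set A : V → V → ℝ := fun z z' => if D.Same C z z' ∧ D.lv z < j ∧ z ∈ D.N v ∧
    z' ∈ D.N v then (1 : ℝ) else 0 with hA
  set I : V → V → ℝ := fun z' u' => if D.lv u' = j ∧ u' ∈ D.N z' then (1 : ℝ) else 0
    with hI
  have h1 : ∀ u u', (if D.lv u = j ∧ D.lv u' = j then
      D.wC (D.addCol C j col) v u u' else 0) ≤ ∑ z, ∑ z', A z z' * (I z' u' * S z u) := by
    intro u u'
    split_ifs with h2
    · rw [wC_congr hv]
      exact wC_le hD v u u' hv h2.1 h2.2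
    · exact Finset.sum_nonneg fun z _ => Finset.sum_nonneg fun z' _ =>
        mul_nonneg (ds_ind _) (mul_nonneg (ds_ind _) (hS0 z u))
  refine (Finset.sum_le_sum fun u _ => Finset.sum_le_sum fun u' _ => h1 u u').trans ?_
  have h2 : (∑ u, ∑ u', ∑ z, ∑ z', A z z' * (I z' u' * S z u)) =
      ∑ z, ∑ z', A z z' * ((∑ u', I z' u') * ∑ u, S z u) := by
    have e1 : ∀ u, (∑ u', ∑ z, ∑ z', A z z' * (I z' u' * S z u)) =
        ∑ z, ∑ z', A z z' * ((∑ u', I z' u') * S z u) := by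
      intro u
      rw [Finset.sum_comm]
      refine Finset.sum_congr rfl fun z _ => ?_
      rw [Finset.sum_comm]
      refine Finset.sum_congr rfl fun z' _ => ?_
      rw [Finset.sum_mul, Finset.mul_sum]
    simp_rw [e1]
    rw [Finset.sum_comm]
    refine Finset.sum_congr rfl fun z _ => ?_
    rw [Finset.sum_comm]
    refine Finset.sum_congr rfl fun z' _ => ?_
    rw [Finset.mul_sum, Finset.mul_sum]
  rw [h2]
  have h3 : ∀ z z', A z z' * ((∑ u', I z' u') * ∑ u, S z u) ≤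
      A z z' * (3 * D.T ^ 2801 * D.T ^ 1757) := by
    intro z z'
    by_cases hz : D.Same C z z' ∧ D.lv z < j ∧ z ∈ D.N v ∧ z' ∈ D.N v
    · refine mul_le_mul_of_nonneg_left ?_ (ds_ind _)
      have h4 := (st_nb hD hp.parts z' le_rfl).trans (st_b_le hD)
      have h5 := wC_aux hp z hz.2.1 hT
      exact mul_le_mul h4 h5 (Finset.sum_nonneg fun u _ => hS0 z u) (by positivity)
    · have h4 : A z z' = 0 := by
        rw [hA]
        exact if_neg hz
      rw [h4, zero_mul, zero_mul]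
  refine (Finset.sum_le_sum fun z _ => Finset.sum_le_sum fun z' _ => h3 z z').trans ?_
  have h4 : (∑ z, ∑ z', A z z') ≤ D.T ^ 801 * D.T ^ 1608 := by
    have h5 : ∀ z z', A z z' = if D.Same C z z' ∧ D.lv z < j then D.wM v v z z' else 0 := by
      intro z z'
      rw [hA]
      unfold wM
      by_cases h6 : D.Same C z z' <;> by_cases h7 : D.lv z < j <;> simp [h6, h7]
    simp_rw [h5]
    refine (st_parts j C (D.wM v v) fun i hi => (hp.old.stat i hi).sM v v (Or.inl rfl)).trans ?_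
    exact mul_le_mul_of_nonneg_right (j_le' hD hp.parts) (by positivity)
  have h5 : (∑ z, ∑ z', A z z' * (3 * D.T ^ 2801 * D.T ^ 1757)) =
      (∑ z, ∑ z', A z z') * (3 * D.T ^ 2801 * D.T ^ 1757) := by
    rw [Finset.sum_mul]
    refine Finset.sum_congr rfl fun z _ => ?_
    rw [Finset.sum_mul]
  rw [h5]
  refine (mul_le_mul_of_nonneg_right h4 (by positivity)).trans ?_
  have h6 : D.T ^ 801 * D.T ^ 1608 * (3 * D.T ^ 2801 * D.T ^ 1757) = 3 * D.T ^ 6967 := by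
    have : D.T ^ 6967 = D.T ^ 801 * D.T ^ 1608 * D.T ^ 2801 * D.T ^ 1757 := by
      rw [← pow_add, ← pow_add, ← pow_add]
    rw [this]
    ring
  rw [h6]
  exact num_pow hD (by norm_num) (by norm_num)

/-- Monochromatic pairs `(u, u')` with `E3`. -/
theorem cp_le (hD : D.Ok) {C : V → Option (Fin D.k × ℕ)} {j : ℕ} (hp : D.Past C j)
    {col : V → Option (Fin D.k × ℕ)} {m : ℕ} (hm : m ≤ D.M)
    (hprog : D.ProgS (D.addCol C j col) j m) (v : V) (hv : D.lv v = j) :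
    D.S2 (D.addCol C j col) j (D.wC (D.addCol C j col) v) ≤ D.T ^ 3006 := by
  have hT := T0 hD
  refine (hprog.sC v hv).trans ((bd2_le hD _ j hm (wC_nonneg _ v) (by positivity)
    (sum_wC hD hp col v hv)).trans ?_)
  have h1 : D.rho * D.T ^ 7000 ≤ 2 * D.T ^ 3002 := rho_mul_le2 hD (by norm_num)
  have h2 : (1 : ℝ) * D.T ^ 2557 ≤ D.T ^ 3002 := num_pow hD (by norm_num) (by norm_num)
  have h3 : 78 * D.T ^ 3004 ≤ D.T ^ 3006 := num_pow hD (by norm_num) (by norm_num)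
  have h4 : D.T ^ 3004 = D.T ^ 3002 * D.T ^ 2 := by rw [← pow_add]
  have h5 : D.T ^ 150 * D.T ^ 2407 = D.T ^ 2557 := by rw [← pow_add]
  calc 26 * D.T ^ 2 * (D.rho * D.T ^ 7000 + D.T ^ 150 * D.T ^ 2407)
      = 26 * D.T ^ 2 * (D.rho * D.T ^ 7000 + D.T ^ 2557) := by rw [h5]
    _ ≤ 26 * D.T ^ 2 * (2 * D.T ^ 3002 + D.T ^ 3002) := by
        refine mul_le_mul_of_nonneg_left ?_ (by positivity)
        linarith
    _ = 78 * D.T ^ 3004 := by rw [h4]; ring
    _ ≤ D.T ^ 3006 := h3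

end DD

end

end Pool.Agent.AcyGD
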