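import Pool.Agent.AcyGD.Base
import Pool.Agent.AcyGD.Stat
import Pool.Agent.AcyK.DropD

/-! # Rule (d) of the dropped set, general graphs (project MP_af9dfb_G, row D5) -/

set_option autoImplicit false
set_option linter.unusedSectionVars false

namespace Pool.Agent.AcyGD

open Finset
open Pool.Agent.Acy (IsPM wt Ex Pr mean cnt ext Holds)
open Pool.Agent.AcyK
open scoped Classical

universe u v

section

variable {V : Type u} [Fintype V] [DecidableEq V]

namespace DD

variable {D : DD V}

namespace DropDA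

theorem same_loc {f f' : V → Option (Fin D.k × ℕ)} {z z' : V} (h1 : f z = f' z)
    (h2 : f z' = f' z') (h : D.Same f z z') : D.Same f' z z' := by
  obtain ⟨a, b, c, ⟨r, hr⟩, ⟨r', hr'⟩⟩ := h
  exact ⟨a, b, c, ⟨r, h1 ▸ hr⟩, ⟨r', h2 ▸ hr'⟩⟩

theorem E3_loc {f f' : V → Option (Fin D.k × ℕ)} {v u u' : V}
    (hff : ∀ z, D.lv z < D.lv v → f z = f' z) (h : D.E3 f v u u') : D.E3 f' v u u' := by
  obtain ⟨z, z', z'', h1, h2, h3, h4, h5, h6, h7, h8, h9⟩ := h
  have e1 := hff z h6
  have e2 := hff z' (by rw [← h2.2.1]; exact h6)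
  have e3 := hff z'' (by rw [← h3.2.1]; exact h6)
  exact ⟨z, z', z'', h1, same_loc e1 e2 h2, same_loc e1 e3 h3, h4, h5, h6, h7, h8, h9⟩

theorem addCol_lt {C : V → Option (Fin D.k × ℕ)} {j : ℕ} {col : V → Option (Fin D.k × ℕ)}
    {v : V} (hv : D.lv v = j) (z : V) (hz : D.lv z < D.lv v) : D.addCol C j col z = C z := by
  unfold addCol
  rw [if_neg]
  omega

theorem colour_cases {j m : ℕ} {C col : V → Option (Fin D.k × ℕ)} {lam : V → Option Bool}
    {ω : V → Fin D.k} {v u : V} (hv : D.Now j col lam v)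
    (hs : D.Same (D.addCol C j (updCol m col lam ω)) v u) :
    v ≠ u ∧ D.lv u = j ∧ ((D.Now j col lam u ∧ ω v = ω u) ∨ hasCol col u (ω v)) := by
  obtain ⟨hne, hl, c, ⟨r, hr⟩, ⟨r', hr'⟩⟩ := hs
  have hvj := hv.1
  have huj : D.lv u = j := by rw [← hl]; exact hvj
  unfold addCol at hr hr'
  rw [if_pos hvj] at hr
  rw [if_pos huj] at hr'
  unfold updCol at hr hr'
  rw [if_pos ⟨hv.2.1, hv.2.2⟩] at hr
  have hc : ω v = c := congrArg Prod.fst (Option.some.inj hr)
  by_cases hu : col u = none ∧ lam u = some true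
  · rw [if_pos hu] at hr'
    have hc' : ω u = c := congrArg Prod.fst (Option.some.inj hr')
    exact ⟨hne, huj, Or.inl ⟨⟨huj, hu.1, hu.2⟩, hc.trans hc'.symm⟩⟩
  · rw [if_neg hu] at hr'
    exact ⟨hne, huj, Or.inr ⟨r', by rw [hc]; exact hr'⟩⟩

/-- Both old. -/
noncomputable def g1 (D : DD V) (j : ℕ) (C col : V → Option (Fin D.k × ℕ))
    (lam : V → Option Bool) (w v : V) (c : Fin D.k) : ℝ :=
  if v ∈ D.N w ∧ D.Now j col lam v ∧ ∃ u u', u ≠ u' ∧ (D.lv u = j ∧ hasCol col u c) ∧
    (D.lv u' = j ∧ hasCol col u' c) ∧ D.E3 C v u u' then 1 else 0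

/-- One old, one new. -/
noncomputable def g2 (D : DD V) (j : ℕ) (C col : V → Option (Fin D.k × ℕ))
    (lam : V → Option Bool) (w v y : V) (c : Fin D.k) : ℝ :=
  if (v ∈ D.N w ∧ D.Now j col lam v) ∧ D.Now j col lam y ∧ v ≠ y ∧
    ∃ u, (D.lv u = j ∧ hasCol col u c) ∧ (D.E3 C v u y ∨ D.E3 C v y u) then 1 else 0

/-- Both new. -/
noncomputable def g3 (D : DD V) (j : ℕ) (C col : V → Option (Fin D.k × ℕ))
    (lam : V → Option Bool) (w v u u' : V) (_c : Fin D.k) : ℝ :=
  if (v ∈ D.N w ∧ D.Now j col lam v) ∧ (D.Now j col lam u ∧ D.Now j col lam u') ∧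
    (v ≠ u ∧ v ≠ u' ∧ u ≠ u') ∧ D.E3 C v u u' then 1 else 0

variable {j m : ℕ} {C col : V → Option (Fin D.k × ℕ)} {lam : V → Option Bool}

theorem g1_nonneg (w v : V) (c : Fin D.k) : 0 ≤ g1 D j C col lam w v c := by
  unfold g1; split_ifs <;> norm_num

theorem g2_nonneg (w v y : V) (c : Fin D.k) : 0 ≤ g2 D j C col lam w v y c := by
  unfold g2; split_ifs <;> norm_num

theorem g3_nonneg (w v u u' : V) (c : Fin D.k) : 0 ≤ g3 D j C col lam w v u u' c := by
  unfold g3; split_ifs <;> norm_num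

theorem path_le (w : V) (ω : V → Fin D.k) :
    D.newc j col lam w (D.RD (D.addCol C j (updCol m col lam ω))) ≤
      ∑ v, g1 D j C col lam w v (ω v) +
      ∑ v, ∑ y, (if ω v = ω y then g2 D j C col lam w v y (ω v) else 0) +
      ∑ v, ∑ u, ∑ u', (if ω v = ω u ∧ ω v = ω u' then
        g3 D j C col lam w v u u' (ω v) else 0) := by
  unfold newc
  rw [Finset.card_filter]
  push_cast
  rw [← Finset.sum_add_distrib, ← Finset.sum_add_distrib]
  refine Finset.sum_le_sum fun v _ => ?_
  have a1 := g1_nonneg (D := D) (j := j) (C := C) (col := col) (lam := lam) w v (ω v)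
  have b2 : ∀ y, 0 ≤ (if ω v = ω y then g2 D j C col lam w v y (ω v) else 0) := by
    intro y
    have := g2_nonneg (D := D) (j := j) (C := C) (col := col) (lam := lam) w v y (ω v)
    split_ifs
    · exact this
    · exact le_rfl
  have b3 : ∀ u u', 0 ≤ (if ω v = ω u ∧ ω v = ω u' then
      g3 D j C col lam w v u u' (ω v) else 0) := by
    intro u u'
    have := g3_nonneg (D := D) (j := j) (C := C) (col := col) (lam := lam) w v u u' (ω v)
    split_ifs
    · exact this
    · exact le_rfl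
  have a2 : 0 ≤ ∑ y, (if ω v = ω y then g2 D j C col lam w v y (ω v) else 0) :=
    Finset.sum_nonneg fun y _ => b2 y
  have a3 : 0 ≤ ∑ u, ∑ u', (if ω v = ω u ∧ ω v = ω u' then
      g3 D j C col lam w v u u' (ω v) else 0) :=
    Finset.sum_nonneg fun u _ => Finset.sum_nonneg fun u' _ => b3 u u'
  split_ifs with hv
  swap
  · linarith
  obtain ⟨hw, hn, u, u', hne, s1, s2, -, -, hE⟩ := hv
  obtain ⟨n1, l1, c1⟩ := colour_cases hn s1
  obtain ⟨n2, l2, c2⟩ := colour_cases hn s2
  have hE' : D.E3 C v u u' := E3_loc (addCol_lt hn.1) hE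
  rcases c1 with ⟨k1, o1⟩ | k1 <;> rcases c2 with ⟨k2, o2⟩ | k2
  · have h1 : (1 : ℝ) ≤ ∑ u, ∑ u', (if ω v = ω u ∧ ω v = ω u' then
        g3 D j C col lam w v u u' (ω v) else 0) := by
      have h2 := Finset.single_le_sum (f := fun u => ∑ u', (if ω v = ω u ∧ ω v = ω u' then
        g3 D j C col lam w v u u' (ω v) else 0))
        (fun u _ => Finset.sum_nonneg fun u' _ => b3 u u') (mem_univ u)
      have h3 := Finset.single_le_sum (f := fun u' => (if ω v = ω u ∧ ω v = ω u' then
        g3 D j C col lam w v u u' (ω v) else 0)) (fun u' _ => b3 u u') (mem_univ u')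
      have h4 : (if ω v = ω u ∧ ω v = ω u' then
        g3 D j C col lam w v u u' (ω v) else 0) = 1 := by
        rw [if_pos ⟨o1, o2⟩]
        unfold g3
        rw [if_pos ⟨⟨hw, hn⟩, ⟨k1, k2⟩, ⟨n1, n2, hne⟩, hE'⟩]
      linarith
    linarith
  · have h1 : (1 : ℝ) ≤ ∑ y, (if ω v = ω y then g2 D j C col lam w v y (ω v) else 0) := by
      have h3 := Finset.single_le_sum (f := fun y => (if ω v = ω y then
        g2 D j C col lam w v y (ω v) else 0)) (fun y _ => b2 y) (mem_univ u)
      have h4 : (if ω v = ω u then g2 D j C col lam w v u (ω v) else 0) = 1 := by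
        rw [if_pos o1]
        unfold g2
        rw [if_pos ⟨⟨hw, hn⟩, k1, n1, u', ⟨l2, k2⟩, Or.inr hE'⟩]
      linarith
    linarith
  · have h1 : (1 : ℝ) ≤ ∑ y, (if ω v = ω y then g2 D j C col lam w v y (ω v) else 0) := by
      have h3 := Finset.single_le_sum (f := fun y => (if ω v = ω y then
        g2 D j C col lam w v y (ω v) else 0)) (fun y _ => b2 y) (mem_univ u')
      have h4 : (if ω v = ω u' then g2 D j C col lam w v u' (ω v) else 0) = 1 := by
        rw [if_pos o2]
        unfold g2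
        rw [if_pos ⟨⟨hw, hn⟩, k2, n2, u, ⟨l1, k1⟩, Or.inl hE'⟩]
      linarith
    linarith
  · have h1 : g1 D j C col lam w v (ω v) = 1 := by
      unfold g1
      rw [if_pos ⟨hw, hn, u, u', hne, ⟨l1, k1⟩, ⟨l2, k2⟩, hE'⟩]
    linarith

/-- The vertices close to `w`. -/
noncomputable def nbh (D : DD V) (w : V) : Finset V :=
  univ.filter fun y => y ∈ D.N w ∨ ∃ v ∈ D.N w, (cN D.N v y).Nonempty

theorem nbh_symm (hD : D.Ok) {w y : V} (h : y ∈ nbh D w) : w ∈ nbh D y := by
  rw [nbh, mem_filter] at h ⊢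
  refine ⟨mem_univ _, ?_⟩
  rcases h.2 with h | ⟨v, hv, z, hz⟩
  · exact Or.inl (hD.N_symm _ _ h)
  · obtain ⟨h1, h2⟩ := DD.mem_cN.1 hz
    exact Or.inr ⟨z, h2, v, DD.mem_cN.2 ⟨hD.N_symm _ _ h1, hv⟩⟩

theorem nbh_card (hD : D.Ok) (w : V) : ((nbh D w).card : ℝ) ≤ D.T ^ 11000 := by
  have hT := hD.big
  have hT1 := hT.one_le
  have h0 : ∀ v, ((D.N v).biUnion D.N).card ≤ ∑ x ∈ D.N v, (D.N x).card := fun v =>
    card_biUnion_le
  have h1 : nbh D w ⊆ D.N w ∪ (D.N w).biUnion fun v => (D.N v).biUnion D.N := by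
    intro y hy
    rw [nbh, mem_filter] at hy
    rcases hy.2 with h | ⟨v, hv, z, hz⟩
    · exact mem_union_left _ h
    · obtain ⟨h1, h2⟩ := DD.mem_cN.1 hz
      exact mem_union_right _ (mem_biUnion.2 ⟨v, hv, mem_biUnion.2 ⟨z, h1, hD.N_symm _ _ h2⟩⟩)
  have h2 : ∀ v, (((D.N v).biUnion D.N).card : ℝ) ≤ D.T ^ 3600 * D.T ^ 3600 := by
    intro v
    calc (((D.N v).biUnion D.N).card : ℝ) ≤ ∑ x ∈ D.N v, ((D.N x).card : ℝ) := by
          exact_mod_cast h0 v
      _ ≤ ∑ _x ∈ D.N v, D.T ^ 3600 := Finset.sum_le_sum fun x _ => hD.deg x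
      _ = (D.N v).card * D.T ^ 3600 := by rw [sum_const, nsmul_eq_mul]
      _ ≤ D.T ^ 3600 * D.T ^ 3600 := mul_le_mul_of_nonneg_right (hD.deg v) (by positivity)
  have h3 : (((D.N w).biUnion fun v => (D.N v).biUnion D.N).card : ℝ) ≤
      D.T ^ 3600 * (D.T ^ 3600 * D.T ^ 3600) := by
    calc (((D.N w).biUnion fun v => (D.N v).biUnion D.N).card : ℝ) ≤
        ∑ v ∈ D.N w, (((D.N v).biUnion D.N).card : ℝ) := by
          exact_mod_cast card_biUnion_le
      _ ≤ ∑ _x ∈ D.N w, D.T ^ 3600 * D.T ^ 3600 := Finset.sum_le_sum fun x _ => h2 x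
      _ = (D.N w).card * (D.T ^ 3600 * D.T ^ 3600) := by rw [sum_const, nsmul_eq_mul]
      _ ≤ D.T ^ 3600 * (D.T ^ 3600 * D.T ^ 3600) :=
          mul_le_mul_of_nonneg_right (hD.deg w) (by positivity)
  have h4 : ((nbh D w).card : ℝ) ≤ (D.N w).card +
      (((D.N w).biUnion fun v => (D.N v).biUnion D.N).card : ℝ) := by
    exact_mod_cast (card_le_card h1).trans (card_union_le _ _)
  have h5 := hD.deg w
  have e1 : D.T ^ 3600 * (D.T ^ 3600 * D.T ^ 3600) = D.T ^ 10800 := by
    rw [← pow_add, ← pow_add]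
  have e2 : D.T ^ 3600 ≤ D.T ^ 10800 := pow_le_pow_right₀ hT1 (by norm_num)
  have e3 : D.T ^ 10801 ≤ D.T ^ 11000 := pow_le_pow_right₀ hT1 (by norm_num)
  have e4 : D.T ^ 10801 = D.T ^ 10800 * D.T := by rw [pow_succ]
  have e5 : D.T ^ 10800 * 2 ≤ D.T ^ 10800 * D.T := by
    refine mul_le_mul_of_nonneg_left ?_ (by positivity)
    have := hT.big
    norm_num at this
    linarith
  linarith

theorem nbh_deg (hD : D.Ok) (y : V) : ∃ F : Finset V, (∀ a, True → y ∈ nbh D a → a ∈ F) ∧
    (F.card : ℝ) ≤ D.T ^ 11000 :=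
  ⟨nbh D y, fun _ _ h => nbh_symm hD h, nbh_card hD y⟩

theorem E3_ne {v u u' : V} (h : D.E3 C v u u') :
    (cN D.N v u).Nonempty ∧ (cN D.N v u').Nonempty := by
  obtain ⟨z, z', z'', h1, h2, h3, h4, h5, h6, h7, h8, h9⟩ := h
  exact ⟨⟨z, h7⟩, ⟨z', h8⟩⟩

/-! ### Numbers -/

theorem rho_mul (hD : D.Ok) {a b : ℕ} (hab : a + 1 ≤ 3999 + b) :
    D.rho * D.T ^ a ≤ 2 * D.T ^ b := rho_mul_le2 hD (by omega)

/-! ### Bounds -/

/-- New vertices in `N w`. -/
noncomputable def nw (D : DD V) (j : ℕ) (col : V → Option (Fin D.k × ℕ))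
    (lam : V → Option Bool) (w v : V) : ℝ :=
  if v ∈ D.N w ∧ D.Now j col lam v then 1 else 0

/-- Vertices of part `j` at distance two. -/
noncomputable def n2 (D : DD V) (j : ℕ) (v y : V) : ℝ :=
  if D.lv y = j ∧ (cN D.N v y).Nonempty then 1 else 0

/-- Pairs with `E3`. -/
noncomputable def ee (D : DD V) (j : ℕ) (C : V → Option (Fin D.k × ℕ)) (v a b : V) : ℝ :=
  if D.lv a = j ∧ D.lv b = j ∧ D.E3 C v a b then 1 else 0

theorem nw_nonneg (w v : V) : 0 ≤ nw D j col lam w v := by
  unfold nw; split_ifs <;> norm_num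

theorem n2_nonneg (v y : V) : 0 ≤ n2 D j v y := by
  unfold n2; split_ifs <;> norm_num

theorem ee_nonneg (v a b : V) : 0 ≤ ee D j C v a b := by
  unfold ee; split_ifs <;> norm_num

theorem n2_le (v y : V) : n2 D j v y ≤ 1 := by
  unfold n2; split_ifs <;> norm_num

theorem nw_le (w v : V) : nw D j col lam w v ≤ 1 := by
  unfold nw; split_ifs <;> norm_num

theorem ee_le1 (v a b : V) : ee D j C v a b ≤ n2 D j v a := by
  unfold ee n2
  split_ifs with h1 h2 h2
  · exact le_rfl
  · exact absurd ⟨h1.1, (E3_ne h1.2.2).1⟩ h2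
  · norm_num
  · exact le_rfl

theorem ee_le2 (v a b : V) : ee D j C v a b ≤ n2 D j v b := by
  unfold ee n2
  split_ifs with h1 h2 h2
  · exact le_rfl
  · exact absurd ⟨h1.2.1, (E3_ne h1.2.2).2⟩ h2
  · norm_num
  · exact le_rfl

theorem g2_le (w v y : V) (c : Fin D.k) :
    g2 D j C col lam w v y c ≤ nw D j col lam w v * n2 D j v y := by
  unfold g2
  split_ifs with h1
  · obtain ⟨h1, h2, h3, u, hu, hE⟩ := h1
    have e1 : nw D j col lam w v = 1 := by unfold nw; rw [if_pos h1]
    have e2 : n2 D j v y = 1 := by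
      unfold n2
      rw [if_pos]
      refine ⟨h2.1, ?_⟩
      rcases hE with hE | hE
      · exact (E3_ne hE).2
      · exact (E3_ne hE).1
    rw [e1, e2]
    norm_num
  · exact mul_nonneg (nw_nonneg w v) (n2_nonneg v y)

theorem g3_le (w v u u' : V) (c : Fin D.k) :
    g3 D j C col lam w v u u' c ≤ nw D j col lam w v * ee D j C v u u' := by
  unfold g3
  split_ifs with h1
  · obtain ⟨h1, h2, h3, hE⟩ := h1
    have e1 : nw D j col lam w v = 1 := by unfold nw; rw [if_pos h1]
    have e2 : ee D j C v u u' = 1 := by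
      unfold ee
      rw [if_pos ⟨h2.1.1, h2.2.1, hE⟩]
    rw [e1, e2]
    norm_num
  · exact mul_nonneg (nw_nonneg w v) (ee_nonneg v u u')

/-- A vertex has at most one colour. -/
theorem onecol {k : ℕ} (col : V → Option (Fin k × ℕ)) (u : V) {x : ℝ} (hx : 0 ≤ x)
    (P : Fin k → Prop) [DecidablePred P] :
    ∑ c, (if hasCol col u c ∧ P c then x else 0) ≤ x := by
  by_cases h : ∃ c, hasCol col u c
  · obtain ⟨c, r, hr⟩ := h
    rw [Finset.sum_eq_single c]
    · split_ifs
      · exact le_rfl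
      · exact hx
    · intro c' _ hc'
      rw [if_neg]
      rintro ⟨⟨r', hr'⟩, -⟩
      rw [hr] at hr'
      exact hc' (congrArg Prod.fst (Option.some.inj hr')).symm
    · intro h
      exact absurd (mem_univ _) h
  · rw [Finset.sum_eq_zero]
    · exact hx
    · intro c _
      rw [if_neg]
      rintro ⟨hc, -⟩
      exact h ⟨c, hc⟩

variable {p : V → Fin D.k → ℝ} (h : D.DRnd j C m col lam p)
include h

theorem sumN (v : V) : ∑ y, n2 D j v y ≤ 3 * D.T ^ 6401 := by
  refine le_trans (le_of_eq ?_) (sum_wN h.ok h.past.parts v (i := j) le_rfl)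
  refine Finset.sum_congr rfl fun y _ => ?_
  unfold n2 wN
  by_cases h1 : D.lv y = j <;> simp [h1]

theorem sumNow (w : V) : ∑ v, nw D j col lam w v ≤ D.T ^ 2671 := by
  have h1 := h.lam.nbr w
  rw [Finset.card_filter] at h1
  push_cast at h1
  exact h1

theorem wC_eq {v : V} (hv : D.lv v = j) : D.wC (D.addCol C j col) v = D.wC C v := by
  funext u u'
  unfold wC
  have : D.E3 (D.addCol C j col) v u u' ↔ D.E3 C v u u' :=
    ⟨E3_loc (addCol_lt hv), E3_loc fun z hz => (addCol_lt hv z hz).symm⟩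
  simp only [this]

theorem sumE {v : V} (hv : D.lv v = j) : ∑ u, ∑ u', ee D j C v u u' ≤ D.T ^ 7000 := by
  refine le_trans (le_of_eq ?_) (sum_wC h.ok h.past col v hv)
  refine Finset.sum_congr rfl fun u _ => Finset.sum_congr rfl fun u' _ => ?_
  rw [wC_eq h hv]
  unfold ee wC
  by_cases h1 : D.lv u = j <;> by_cases h2 : D.lv u' = j <;> simp [h1, h2]

theorem cpC {v : V} (hv : D.lv v = j) :
    D.S2 (D.addCol C j col) j (D.wC C v) ≤ D.T ^ 3006 := by
  have h1 := cp_le h.ok h.past h.m_lt.le h.prog.toProgS v hv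
  rwa [wC_eq h hv] at h1

theorem Tpow {a b : ℕ} (c : ℝ) (hc : c ≤ 10 ^ 6) (hab : a + 1 ≤ b) :
    c * D.T ^ a ≤ D.T ^ b := by
  have hT1 := h.ok.big.one_le
  have hTb := h.ok.big.big
  calc c * D.T ^ a ≤ D.T * D.T ^ a :=
        mul_le_mul_of_nonneg_right (hc.trans hTb) (by positivity)
    _ = D.T ^ (a + 1) := by rw [pow_succ]; ring
    _ ≤ D.T ^ b := pow_le_pow_right₀ hT1 hab

theorem pc {v : V} {c : Fin D.k} : 0 ≤ p v c ∧ p v c ≤ D.rho := ⟨h.pm.nonneg v c, h.p_le v c⟩

/-- Kind (i): the dangerous colours. -/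
theorem col1 (w v : V) : ∑ c, g1 D j C col lam w v c ≤ nw D j col lam w v * D.T ^ 3006 := by
  have hT1 := h.ok.big.one_le
  by_cases hv : v ∈ D.N w ∧ D.Now j col lam v
  swap
  · have h1 : ∀ c, g1 D j C col lam w v c = 0 := by
      intro c
      unfold g1
      rw [if_neg]
      rintro ⟨a, b, -⟩
      exact hv ⟨a, b⟩
    rw [Finset.sum_eq_zero fun c _ => h1 c]
    exact mul_nonneg (nw_nonneg w v) (by positivity)
  have e1 : nw D j col lam w v = 1 := by unfold nw; rw [if_pos hv]
  rw [e1, one_mul]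
  refine le_trans ?_ (cpC h hv.2.1)
  unfold S2
  calc ∑ c, g1 D j C col lam w v c ≤ ∑ c, ∑ u, ∑ u', (if hasCol col u c ∧
        (u ≠ u' ∧ D.lv u = j ∧ (D.lv u' = j ∧ hasCol col u' c) ∧ D.E3 C v u u') then
          (1 : ℝ) else 0) := by
        refine Finset.sum_le_sum fun c _ => ?_
        have hnn : ∀ u u' : V, (0 : ℝ) ≤ (if hasCol col u c ∧
          (u ≠ u' ∧ D.lv u = j ∧ (D.lv u' = j ∧ hasCol col u' c) ∧ D.E3 C v u u') then
          (1 : ℝ) else 0) := by
          intro u u'
          split_ifs <;> norm_num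
        unfold g1
        split_ifs with h1
        · obtain ⟨-, -, u, u', a1, a2, a3, a4⟩ := h1
          have h2 := Finset.single_le_sum (f := fun u => ∑ u', (if hasCol col u c ∧
            (u ≠ u' ∧ D.lv u = j ∧ (D.lv u' = j ∧ hasCol col u' c) ∧ D.E3 C v u u') then
            (1 : ℝ) else 0)) (fun u _ => Finset.sum_nonneg fun u' _ => hnn u u') (mem_univ u)
          have h3 := Finset.single_le_sum (f := fun u' => (if hasCol col u c ∧
            (u ≠ u' ∧ D.lv u = j ∧ (D.lv u' = j ∧ hasCol col u' c) ∧ D.E3 C v u u') then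
            (1 : ℝ) else 0)) (fun u' _ => hnn u u') (mem_univ u')
          have h4 : (if hasCol col u c ∧
            (u ≠ u' ∧ D.lv u = j ∧ (D.lv u' = j ∧ hasCol col u' c) ∧ D.E3 C v u u') then
            (1 : ℝ) else 0) = 1 := if_pos ⟨a2.2, a1, a2.1, a3, a4⟩
          linarith
        · exact Finset.sum_nonneg fun u _ => Finset.sum_nonneg fun u' _ => hnn u u'
    _ = ∑ u, ∑ u', ∑ c, (if hasCol col u c ∧
        (u ≠ u' ∧ D.lv u = j ∧ (D.lv u' = j ∧ hasCol col u' c) ∧ D.E3 C v u u') then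
          (1 : ℝ) else 0) := by
        rw [Finset.sum_comm]
        refine Finset.sum_congr rfl fun u _ => ?_
        rw [Finset.sum_comm]
    _ ≤ ∑ y, ∑ y', if D.lv y = j ∧ D.Same (D.addCol C j col) y y' then D.wC C v y y' else 0 := by
        refine Finset.sum_le_sum fun u _ => Finset.sum_le_sum fun u' _ => ?_
        by_cases hex : ∃ c, hasCol col u c ∧
          (u ≠ u' ∧ D.lv u = j ∧ (D.lv u' = j ∧ hasCol col u' c) ∧ D.E3 C v u u')
        · obtain ⟨c, a1, a2, a3, a4, a5⟩ := hex
          have h1 := onecol (V := V) col u (zero_le_one (α := ℝ)) (fun c =>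
            u ≠ u' ∧ D.lv u = j ∧ (D.lv u' = j ∧ hasCol col u' c) ∧ D.E3 C v u u')
          refine h1.trans (le_of_eq ?_)
          rw [if_pos]
          · unfold wC
            rw [if_pos a5]
          · refine ⟨a3, a2, a3.trans a4.1.symm, c, ?_, ?_⟩
            · obtain ⟨r, hr⟩ := a1
              exact ⟨r, by unfold addCol; rw [if_pos a3]; exact hr⟩
            · obtain ⟨r, hr⟩ := a4.2
              exact ⟨r, by unfold addCol; rw [if_pos a4.1]; exact hr⟩
        · rw [Finset.sum_eq_zero]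
          · unfold wC
            split_ifs <;> norm_num
          · intro c _
            rw [if_neg]
            exact fun hc => hex ⟨c, hc⟩

/-- Kind (ii): the number of dangerous pairs (vertex, colour). -/
theorem col2 (w v : V) : ∑ y, ∑ c, g2 D j C col lam w v y c ≤
    nw D j col lam w v * (2 * D.T ^ 7000) := by
  have hT1 := h.ok.big.one_le
  by_cases hv : v ∈ D.N w ∧ D.Now j col lam v
  swap
  · have h1 : ∀ y c, g2 D j C col lam w v y c = 0 := by
      intro y c
      unfold g2
      rw [if_neg]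
      rintro ⟨a, b, -⟩
      exact hv a
    rw [Finset.sum_eq_zero fun y _ => Finset.sum_eq_zero fun c _ => h1 y c]
    exact mul_nonneg (nw_nonneg w v) (by positivity)
  have e1 : nw D j col lam w v = 1 := by unfold nw; rw [if_pos hv]
  rw [e1, one_mul]
  have hE := sumE h hv.2.1
  calc ∑ y, ∑ c, g2 D j C col lam w v y c ≤
      ∑ y, ∑ u, (ee D j C v u y + ee D j C v y u) := by
        refine Finset.sum_le_sum fun y _ => ?_
        calc ∑ c, g2 D j C col lam w v y c ≤ ∑ c, ∑ u, (if hasCol col u c ∧ True then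
              (ee D j C v u y + ee D j C v y u) else 0) := by
              refine Finset.sum_le_sum fun c _ => ?_
              have hnn : ∀ u : V, (0 : ℝ) ≤ (if hasCol col u c ∧ True then
                  (ee D j C v u y + ee D j C v y u) else 0) := by
                intro u
                have i1 := ee_nonneg (D := D) (j := j) (C := C) v u y
                have i2 := ee_nonneg (D := D) (j := j) (C := C) v y u
                split_ifs <;> linarith
              unfold g2
              split_ifs with h1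
              · obtain ⟨a0, a1, a2, u, a3, a4⟩ := h1
                have h3 := Finset.single_le_sum (f := fun u => (if hasCol col u c ∧ True then
                  (ee D j C v u y + ee D j C v y u) else 0)) (fun u _ => hnn u) (mem_univ u)
                have i1 := ee_nonneg (D := D) (j := j) (C := C) v u y
                have i2 := ee_nonneg (D := D) (j := j) (C := C) v y u
                have h4 : (1 : ℝ) ≤ ee D j C v u y + ee D j C v y u := by
                  rcases a4 with a4 | a4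
                  · have : ee D j C v u y = 1 := by
                      unfold ee
                      rw [if_pos ⟨a3.1, a1.1, a4⟩]
                    linarith
                  · have : ee D j C v y u = 1 := by
                      unfold ee
                      rw [if_pos ⟨a1.1, a3.1, a4⟩]
                    linarith
                have h5 : (if hasCol col u c ∧ True then
                  (ee D j C v u y + ee D j C v y u) else 0) =
                  ee D j C v u y + ee D j C v y u := if_pos ⟨a3.2, trivial⟩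
                linarith
              · exact Finset.sum_nonneg fun u _ => hnn u
          _ = ∑ u, ∑ c, (if hasCol col u c ∧ True then
              (ee D j C v u y + ee D j C v y u) else 0) := Finset.sum_comm
          _ ≤ ∑ u, (ee D j C v u y + ee D j C v y u) := by
              refine Finset.sum_le_sum fun u _ => ?_
              have i1 := ee_nonneg (D := D) (j := j) (C := C) v u y
              have i2 := ee_nonneg (D := D) (j := j) (C := C) v y u
              have i3 : 0 ≤ ee D j C v u y + ee D j C v y u := by linarith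
              exact onecol (V := V) col u i3 (fun _ => True)
    _ = ∑ y, ∑ u, ee D j C v u y + ∑ y, ∑ u, ee D j C v y u := by
        simp only [Finset.sum_add_distrib]
    _ ≤ 2 * D.T ^ 7000 := by
        rw [Finset.sum_comm]
        linarith

theorem rho2 : D.rho * (D.rho * D.T ^ 9671) ≤ 4 * D.T ^ 1675 := by
  have h1 := rho_mul h.ok (show 9671 + 1 ≤ 3999 + 5673 by norm_num)
  have h2 := rho_mul h.ok (show 5673 + 1 ≤ 3999 + 1675 by norm_num)
  have h0 := rho_nonneg h.ok
  calc D.rho * (D.rho * D.T ^ 9671) ≤ D.rho * (2 * D.T ^ 5673) :=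
        mul_le_mul_of_nonneg_left h1 h0
    _ = 2 * (D.rho * D.T ^ 5673) := by ring
    _ ≤ 2 * (2 * D.T ^ 1675) := by linarith
    _ = 4 * D.T ^ 1675 := by ring

theorem s1_g1 (w : V) : ∑ v, ∑ c, g1 D j C col lam w v c * p v c ≤ D.T ^ 2405 := by
  have h0 := rho_nonneg h.ok
  have hT1 := h.ok.big.one_le
  calc ∑ v, ∑ c, g1 D j C col lam w v c * p v c ≤
      ∑ v, nw D j col lam w v * (D.T ^ 3006 * D.rho) := by
        refine Finset.sum_le_sum fun v _ => ?_
        calc ∑ c, g1 D j C col lam w v c * p v c ≤ ∑ c, g1 D j C col lam w v c * D.rho :=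
              Finset.sum_le_sum fun c _ => mul_le_mul_of_nonneg_left (pc h).2 (g1_nonneg w v c)
          _ = (∑ c, g1 D j C col lam w v c) * D.rho := by rw [Finset.sum_mul]
          _ ≤ nw D j col lam w v * D.T ^ 3006 * D.rho :=
              mul_le_mul_of_nonneg_right (col1 h w v) h0
          _ = nw D j col lam w v * (D.T ^ 3006 * D.rho) := by ring
    _ = (∑ v, nw D j col lam w v) * (D.T ^ 3006 * D.rho) := by rw [Finset.sum_mul]
    _ ≤ D.T ^ 2671 * (D.T ^ 3006 * D.rho) :=
        mul_le_mul_of_nonneg_right (sumNow h w) (by positivity)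
    _ = D.rho * D.T ^ 5677 := by
        rw [show (5677 : ℕ) = 2671 + 3006 from rfl, pow_add]
        ring
    _ ≤ 2 * D.T ^ 1679 := rho_mul h.ok (by norm_num)
    _ ≤ D.T ^ 2405 := Tpow h 2 (by norm_num) (by norm_num)

theorem s_g2 (w : V) : ∑ v, ∑ y, ∑ c, g2 D j C col lam w v y c * (p v c * p y c) ≤
    D.T ^ 2405 := by
  have h0 := rho_nonneg h.ok
  have hT1 := h.ok.big.one_le
  calc ∑ v, ∑ y, ∑ c, g2 D j C col lam w v y c * (p v c * p y c) ≤
      ∑ v, nw D j col lam w v * (2 * D.T ^ 7000 * (D.rho * D.rho)) := by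
        refine Finset.sum_le_sum fun v _ => ?_
        calc ∑ y, ∑ c, g2 D j C col lam w v y c * (p v c * p y c) ≤
            ∑ y, ∑ c, g2 D j C col lam w v y c * (D.rho * D.rho) := by
              refine Finset.sum_le_sum fun y _ => Finset.sum_le_sum fun c _ => ?_
              exact mul_le_mul_of_nonneg_left (mul_le_mul (pc h).2 (pc h).2 (pc h).1 h0)
                (g2_nonneg w v y c)
          _ = (∑ y, ∑ c, g2 D j C col lam w v y c) * (D.rho * D.rho) := by
              simp only [Finset.sum_mul]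
          _ ≤ nw D j col lam w v * (2 * D.T ^ 7000) * (D.rho * D.rho) :=
              mul_le_mul_of_nonneg_right (col2 h w v) (by positivity)
          _ = nw D j col lam w v * (2 * D.T ^ 7000 * (D.rho * D.rho)) := by ring
    _ = (∑ v, nw D j col lam w v) * (2 * D.T ^ 7000 * (D.rho * D.rho)) := by
        rw [Finset.sum_mul]
    _ ≤ D.T ^ 2671 * (2 * D.T ^ 7000 * (D.rho * D.rho)) :=
        mul_le_mul_of_nonneg_right (sumNow h w) (by positivity)
    _ = 2 * (D.rho * (D.rho * D.T ^ 9671)) := by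
        rw [show (9671 : ℕ) = 2671 + 7000 from rfl, pow_add]
        ring
    _ ≤ 8 * D.T ^ 1675 := by have := rho2 h; linarith
    _ ≤ D.T ^ 2405 := Tpow h 8 (by norm_num) (by norm_num)

theorem sum_n2p (v : V) (x : Fin D.k) : ∑ y, n2 D j v y * p y x ≤ D.T ^ 2404 := by
  have h0 := rho_nonneg h.ok
  calc ∑ y, n2 D j v y * p y x ≤ ∑ y, n2 D j v y * D.rho :=
        Finset.sum_le_sum fun y _ => mul_le_mul_of_nonneg_left (pc h).2 (n2_nonneg v y)
    _ = (∑ y, n2 D j v y) * D.rho := by rw [Finset.sum_mul]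
    _ ≤ 3 * D.T ^ 6401 * D.rho := mul_le_mul_of_nonneg_right (sumN h v) h0
    _ = 3 * (D.rho * D.T ^ 6401) := by ring
    _ ≤ 3 * (2 * D.T ^ 2403) :=
        mul_le_mul_of_nonneg_left (rho_mul h.ok (by norm_num)) (by norm_num)
    _ = 6 * D.T ^ 2403 := by ring
    _ ≤ D.T ^ 2404 := Tpow h 6 (by norm_num) (by norm_num)

theorem sum_nwp (w : V) (x : Fin D.k) : ∑ y, nw D j col lam w y * p y x ≤ 2 := by
  have h0 := rho_nonneg h.ok
  calc ∑ y, nw D j col lam w y * p y x ≤ ∑ y, nw D j col lam w y * D.rho :=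
        Finset.sum_le_sum fun y _ => mul_le_mul_of_nonneg_left (pc h).2 (nw_nonneg w y)
    _ = (∑ y, nw D j col lam w y) * D.rho := by rw [Finset.sum_mul]
    _ ≤ D.T ^ 2671 * D.rho := mul_le_mul_of_nonneg_right (sumNow h w) h0
    _ = D.rho * D.T ^ 2671 := by ring
    _ ≤ 2 * D.T ^ 0 := rho_mul h.ok (by norm_num)
    _ = 2 := by rw [pow_zero, mul_one]

theorem s_g2' (w v : V) (c : Fin D.k) :
    ∑ y, (g2 D j C col lam w v y c + g2 D j C col lam w y v c) * p y c ≤ D.T ^ 2405 := by
  have h1 := sum_n2p h v c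
  have h2 := sum_nwp h w c
  calc ∑ y, (g2 D j C col lam w v y c + g2 D j C col lam w y v c) * p y c ≤
      ∑ y, (n2 D j v y * p y c + nw D j col lam w y * p y c) := by
        refine Finset.sum_le_sum fun y _ => ?_
        rw [add_mul]
        refine add_le_add ?_ ?_
        · refine mul_le_mul_of_nonneg_right ((g2_le w v y c).trans ?_) (pc h).1
          exact mul_le_of_le_one_left (n2_nonneg v y) (nw_le w v)
        · refine mul_le_mul_of_nonneg_right ((g2_le w y v c).trans ?_) (pc h).1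
          exact mul_le_of_le_one_right (nw_nonneg w y) (n2_le y v)
    _ = ∑ y, n2 D j v y * p y c + ∑ y, nw D j col lam w y * p y c := Finset.sum_add_distrib
    _ ≤ D.T ^ 2404 + 2 := add_le_add h1 h2
    _ ≤ 3 * D.T ^ 2404 := by
        have := one_le_pow₀ (n := 2404) h.ok.big.one_le
        linarith
    _ ≤ D.T ^ 2405 := Tpow h 3 (by norm_num) (by norm_num)

theorem g3_le' (w a b c : V) (x : Fin D.k) : g3 D j C col lam w a b c x ≤
    nw D j col lam w a * n2 D j a b * n2 D j a c := by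
  refine (g3_le w a b c x).trans ?_
  rw [mul_assoc]
  refine mul_le_mul_of_nonneg_left ?_ (nw_nonneg w a)
  have h5 := mul_nonneg (n2_nonneg (D := D) (j := j) a b) (n2_nonneg (D := D) (j := j) a c)
  unfold ee
  split_ifs with h6
  · have e1 : n2 D j a b = 1 := by
      unfold n2
      rw [if_pos ⟨h6.1, (E3_ne h6.2.2).1⟩]
    have e2 : n2 D j a c = 1 := by
      unfold n2
      rw [if_pos ⟨h6.2.1, (E3_ne h6.2.2).2⟩]
    rw [e1, e2]
    norm_num
  · exact h5

theorem mul3 {x a b : ℝ} {y : ℝ} (hx : 0 ≤ x) (ha : 0 ≤ a) (hb : 0 ≤ b) (ha' : a ≤ y)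
    (hb' : b ≤ y) : x * (a * b) ≤ x * (y * y) :=
  mul_le_mul_of_nonneg_left (mul_le_mul ha' hb' hb (ha.trans ha')) hx

theorem t0 (w : V) : ∑ x, ∑ a, ∑ b, ∑ c, g3 D j C col lam w a b c x *
    (p a x * (p b x * p c x)) ≤ D.T ^ 2405 := by
  have h0 := rho_nonneg h.ok
  have hT1 := h.ok.big.one_le
  calc ∑ x, ∑ a, ∑ b, ∑ c, g3 D j C col lam w a b c x * (p a x * (p b x * p c x)) ≤
      ∑ x, ∑ a, nw D j col lam w a * p a x * (D.T ^ 7000 * (D.rho * D.rho)) := by
        refine Finset.sum_le_sum fun x _ => Finset.sum_le_sum fun a _ => ?_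
        by_cases ha : a ∈ D.N w ∧ D.Now j col lam a
        swap
        · have h1 : ∀ b c, g3 D j C col lam w a b c x = 0 := by
            intro b c
            unfold g3
            rw [if_neg]
            rintro ⟨h2, -⟩
            exact ha h2
          rw [Finset.sum_eq_zero fun b _ => Finset.sum_eq_zero fun c _ => by rw [h1, zero_mul]]
          exact mul_nonneg (mul_nonneg (nw_nonneg w a) (pc h).1) (by positivity)
        calc ∑ b, ∑ c, g3 D j C col lam w a b c x * (p a x * (p b x * p c x)) ≤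
            ∑ b, ∑ c, nw D j col lam w a * p a x * (ee D j C a b c * (D.rho * D.rho)) := by
              refine Finset.sum_le_sum fun b _ => Finset.sum_le_sum fun c _ => ?_
              calc g3 D j C col lam w a b c x * (p a x * (p b x * p c x)) ≤
                  nw D j col lam w a * ee D j C a b c * (p a x * (p b x * p c x)) :=
                    mul_le_mul_of_nonneg_right (g3_le w a b c x)
                      (mul_nonneg (pc h).1 (mul_nonneg (pc h).1 (pc h).1))
                _ = nw D j col lam w a * p a x * ee D j C a b c * (p b x * p c x) := by ring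
                _ ≤ nw D j col lam w a * p a x * ee D j C a b c * (D.rho * D.rho) :=
                    mul3 h (mul_nonneg (mul_nonneg (nw_nonneg w a) (pc h).1)
                      (ee_nonneg a b c)) (pc h).1 (pc h).1 (pc h).2 (pc h).2
                _ = nw D j col lam w a * p a x * (ee D j C a b c * (D.rho * D.rho)) := by ring
          _ = nw D j col lam w a * p a x * ((∑ b, ∑ c, ee D j C a b c) * (D.rho * D.rho)) := by
              simp only [Finset.mul_sum, Finset.sum_mul]
          _ ≤ nw D j col lam w a * p a x * (D.T ^ 7000 * (D.rho * D.rho)) := by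
              refine mul_le_mul_of_nonneg_left ?_ (mul_nonneg (nw_nonneg w a) (pc h).1)
              exact mul_le_mul_of_nonneg_right (sumE h ha.2.1) (by positivity)
    _ = (∑ a, nw D j col lam w a * ∑ x, p a x) * (D.T ^ 7000 * (D.rho * D.rho)) := by
        rw [Finset.sum_comm, Finset.sum_mul]
        refine Finset.sum_congr rfl fun a _ => ?_
        rw [Finset.mul_sum, Finset.sum_mul]
    _ = (∑ a, nw D j col lam w a) * (D.T ^ 7000 * (D.rho * D.rho)) := by
        congr 1
        refine Finset.sum_congr rfl fun a _ => ?_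
        rw [h.pm.sum_one, mul_one]
    _ ≤ D.T ^ 2671 * (D.T ^ 7000 * (D.rho * D.rho)) :=
        mul_le_mul_of_nonneg_right (sumNow h w) (by positivity)
    _ = D.rho * (D.rho * D.T ^ 9671) := by
        rw [show (9671 : ℕ) = 2671 + 7000 from rfl, pow_add]
        ring
    _ ≤ 4 * D.T ^ 1675 := rho2 h
    _ ≤ D.T ^ 2405 := Tpow h 4 (by norm_num) (by norm_num)

theorem t1 (w a : V) (x : Fin D.k) : ∑ b, ∑ c, g3 D j C col lam w a b c x *
    (p b x * p c x) ≤ D.T ^ 2405 := by
  have h0 := rho_nonneg h.ok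
  have hT1 := h.ok.big.one_le
  by_cases ha : a ∈ D.N w ∧ D.Now j col lam a
  swap
  · have h1 : ∀ b c, g3 D j C col lam w a b c x = 0 := by
      intro b c
      unfold g3
      rw [if_neg]
      rintro ⟨h2, -⟩
      exact ha h2
    rw [Finset.sum_eq_zero fun b _ => Finset.sum_eq_zero fun c _ => by rw [h1, zero_mul]]
    positivity
  calc ∑ b, ∑ c, g3 D j C col lam w a b c x * (p b x * p c x) ≤
      ∑ b, ∑ c, ee D j C a b c * (D.rho * D.rho) := by
        refine Finset.sum_le_sum fun b _ => Finset.sum_le_sum fun c _ => ?_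
        calc g3 D j C col lam w a b c x * (p b x * p c x) ≤ ee D j C a b c * (p b x * p c x) := by
              refine mul_le_mul_of_nonneg_right ?_ (mul_nonneg (pc h).1 (pc h).1)
              exact (g3_le w a b c x).trans (mul_le_of_le_one_left (ee_nonneg a b c) (nw_le w a))
          _ ≤ _ := mul3 h (ee_nonneg a b c) (pc h).1 (pc h).1 (pc h).2 (pc h).2
    _ = (∑ b, ∑ c, ee D j C a b c) * (D.rho * D.rho) := by simp only [Finset.sum_mul]
    _ ≤ D.T ^ 7000 * (D.rho * D.rho) := mul_le_mul_of_nonneg_right (sumE h ha.2.1) (by positivity)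
    _ ≤ D.T ^ 9671 * (D.rho * D.rho) :=
        mul_le_mul_of_nonneg_right (pow_le_pow_right₀ hT1 (by norm_num)) (by positivity)
    _ = D.rho * (D.rho * D.T ^ 9671) := by ring
    _ ≤ 4 * D.T ^ 1675 := rho2 h
    _ ≤ D.T ^ 2405 := Tpow h 4 (by norm_num) (by norm_num)

/-- Sum over the root and one of the other two vertices. -/
theorem t23 (w : V) (x : Fin D.k) : ∑ a, ∑ c, nw D j col lam w a * n2 D j a c *
    (p a x * p c x) ≤ D.T ^ 2405 := by
  calc ∑ a, ∑ c, nw D j col lam w a * n2 D j a c * (p a x * p c x) =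
      ∑ a, nw D j col lam w a * p a x * ∑ c, n2 D j a c * p c x := by
        refine Finset.sum_congr rfl fun a _ => ?_
        rw [Finset.mul_sum]
        refine Finset.sum_congr rfl fun c _ => ?_
        ring
    _ ≤ ∑ a, nw D j col lam w a * p a x * D.T ^ 2404 :=
        Finset.sum_le_sum fun a _ => mul_le_mul_of_nonneg_left (sum_n2p h a x)
          (mul_nonneg (nw_nonneg w a) (pc h).1)
    _ = (∑ a, nw D j col lam w a * p a x) * D.T ^ 2404 := by rw [Finset.sum_mul]
    _ ≤ 2 * D.T ^ 2404 :=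
        mul_le_mul_of_nonneg_right (sum_nwp h w x) (pow_nonneg h.ok.big.pos.le _)
    _ ≤ D.T ^ 2405 := Tpow h 2 (by norm_num) (by norm_num)

theorem t2 (w b : V) (x : Fin D.k) : ∑ a, ∑ c, g3 D j C col lam w a b c x *
    (p a x * p c x) ≤ D.T ^ 2405 := by
  refine le_trans ?_ (t23 h w x)
  refine Finset.sum_le_sum fun a _ => Finset.sum_le_sum fun c _ => ?_
  refine mul_le_mul_of_nonneg_right ((g3_le' h w a b c x).trans ?_) (mul_nonneg (pc h).1 (pc h).1)
  refine mul_le_mul_of_nonneg_right ?_ (n2_nonneg a c)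
  exact mul_le_of_le_one_right (nw_nonneg w a) (n2_le a b)

theorem t3 (w c : V) (x : Fin D.k) : ∑ a, ∑ b, g3 D j C col lam w a b c x *
    (p a x * p b x) ≤ D.T ^ 2405 := by
  refine le_trans ?_ (t23 h w x)
  refine Finset.sum_le_sum fun a _ => Finset.sum_le_sum fun b _ => ?_
  refine mul_le_mul_of_nonneg_right ((g3_le' h w a b c x).trans ?_) (mul_nonneg (pc h).1 (pc h).1)
  exact mul_le_of_le_one_right (mul_nonneg (nw_nonneg w a) (n2_nonneg a b)) (n2_le a c)

theorem t12 (w a b : V) (x : Fin D.k) : ∑ c, g3 D j C col lam w a b c x * p c x ≤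
    D.T ^ 2405 := by
  have h1 : ∑ c, g3 D j C col lam w a b c x * p c x ≤ ∑ c, n2 D j a c * p c x := by
    refine Finset.sum_le_sum fun c _ => mul_le_mul_of_nonneg_right
      ((g3_le' h w a b c x).trans ?_) (pc h).1
    refine mul_le_of_le_one_left (n2_nonneg a c) ?_
    exact mul_le_one₀ (nw_le w a) (n2_nonneg a b) (n2_le a b)
  exact (h1.trans (sum_n2p h a x)).trans (pow_le_pow_right₀ h.ok.big.one_le (by norm_num))

theorem t13 (w a c : V) (x : Fin D.k) : ∑ b, g3 D j C col lam w a b c x * p b x ≤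
    D.T ^ 2405 := by
  have h1 : ∑ b, g3 D j C col lam w a b c x * p b x ≤ ∑ b, n2 D j a b * p b x := by
    refine Finset.sum_le_sum fun b _ => mul_le_mul_of_nonneg_right
      ((g3_le' h w a b c x).trans ?_) (pc h).1
    refine (mul_le_of_le_one_right (mul_nonneg (nw_nonneg w a) (n2_nonneg a b))
      (n2_le a c)).trans ?_
    exact mul_le_of_le_one_left (n2_nonneg a b) (nw_le w a)
  exact (h1.trans (sum_n2p h a x)).trans (pow_le_pow_right₀ h.ok.big.one_le (by norm_num))

theorem t23' (w b c : V) (x : Fin D.k) : ∑ a, g3 D j C col lam w a b c x * p a x ≤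
    D.T ^ 2405 := by
  have h1 : ∑ a, g3 D j C col lam w a b c x * p a x ≤ ∑ a, nw D j col lam w a * p a x := by
    refine Finset.sum_le_sum fun a _ => mul_le_mul_of_nonneg_right
      ((g3_le' h w a b c x).trans ?_) (pc h).1
    refine (mul_le_of_le_one_right (mul_nonneg (nw_nonneg w a) (n2_nonneg a b))
      (n2_le a c)).trans ?_
    exact mul_le_of_le_one_right (nw_nonneg w a) (n2_le a b)
  refine (h1.trans (sum_nwp h w x)).trans ?_
  have := Tpow h (a := 0) (b := 2405) 2 (by norm_num) (by norm_num)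
  rwa [pow_zero, mul_one] at this

theorem one_le_M : (1 : ℝ) ≤ D.T ^ 2405 := one_le_pow₀ h.ok.big.one_le

end DropDA

open DropDA in
/-- D5: rule (d). -/
theorem dropD_step {j : ℕ} {C : V → Option (Fin D.k × ℕ)} {m : ℕ}
    {col : V → Option (Fin D.k × ℕ)} {lam : V → Option Bool}
    {p : V → Fin D.k → ℝ} (h : D.DRnd j C m col lam p) :
    LocOK 40000 D.T p (fun ω => ∀ w,
      D.newc j col lam w (D.RD (D.addCol C j (updCol m col lam ω))) ≤ D.T ^ 2630) := by
  have hT := h.ok.big
  have hM := one_le_M h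
  have hM0 : (0 : ℝ) < D.T ^ 2405 := by linarith
  have mem1 : ∀ w v, v ∈ D.N w → v ∈ nbh D w := fun w v hv => by
    rw [nbh, mem_filter]
    exact ⟨mem_univ _, Or.inl hv⟩
  have mem2 : ∀ w v u, v ∈ D.N w → (cN D.N v u).Nonempty → u ∈ nbh D w := fun w v u hv hu => by
    rw [nbh, mem_filter]
    exact ⟨mem_univ _, Or.inr ⟨v, hv, hu⟩⟩
  have l1 := loc_single hT h.pm (κ := V) (fun _ => True) (fun w => g1 D j C col lam w)
    (fun w v c => g1_nonneg w v c) (fun _ => D.T ^ 2405) (fun _ _ => hM0)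
    (fun w _ => s1_g1 h w)
    (fun w _ v c => le_trans (by unfold g1; split_ifs <;> norm_num) hM)
    (nbh D) (fun w _ v c hv => by
      unfold g1 at hv
      split_ifs at hv with h1
      · exact mem1 w v h1.1
      · exact absurd rfl hv) 11000 (fun w _ => nbh_card h.ok w) (nbh_deg h.ok)
  have l2 := loc_pair hT h.pm (κ := V) (fun _ => True) (fun w => g2 D j C col lam w)
    (fun w v y c => g2_nonneg w v y c)
    (fun w v c => by
      unfold g2
      rw [if_neg]
      rintro ⟨-, -, h1, -⟩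
      exact h1 rfl) (fun _ => D.T ^ 2405) (fun _ _ => hM0)
    (fun w _ => s_g2 h w) (fun w _ v c => s_g2' h w v c)
    (fun w _ v y c => by
      have e1 : ∀ v y, g2 D j C col lam w v y c ≤ 1 := by
        intro v y
        unfold g2
        split_ifs <;> norm_num
      have e2 := Tpow h (a := 0) (b := 2405) 2 (by norm_num) (by norm_num)
      rw [pow_zero, mul_one] at e2
      have e3 := e1 v y
      have e4 := e1 y v
      linarith)
    (nbh D) (fun w _ v y c hv => by
      unfold g2 at hv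
      split_ifs at hv with h1
      · obtain ⟨⟨h1, -⟩, -, -, u, -, h3⟩ := h1
        refine ⟨mem1 w v h1, mem2 w v y h1 ?_⟩
        rcases h3 with h3 | h3
        · exact (E3_ne h3).2
        · exact (E3_ne h3).1
      · exact absurd rfl hv) 11000 (fun w _ => nbh_card h.ok w) (nbh_deg h.ok)
  have l3 := loc_triple hT h.pm (κ := V) (fun _ => True) (fun w => g3 D j C col lam w)
    (fun w v u u' c => g3_nonneg w v u u' c)
    (fun w v u u' c hv => by
      unfold g3 at hv
      split_ifs at hv with h1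
      · exact h1.2.2.1
      · exact absurd rfl hv) (fun _ => D.T ^ 2405) (fun _ _ => hM0)
    (fun w _ => t0 h w) (fun w _ => t1 h w) (fun w _ => t2 h w) (fun w _ => t3 h w)
    (fun w _ => t12 h w) (fun w _ => t13 h w) (fun w _ => t23' h w)
    (fun w _ a b c x => le_trans (by unfold g3; split_ifs <;> norm_num) hM)
    (nbh D) (fun w _ v u u' c hv => by
      unfold g3 at hv
      split_ifs at hv with h1
      · obtain ⟨⟨h1, -⟩, -, -, h3⟩ := h1
        exact ⟨mem1 w v h1, mem2 w v u h1 (E3_ne h3).1, mem2 w v u' h1 (E3_ne h3).2⟩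
      · exact absurd rfl hv) 11000 (fun w _ => nbh_card h.ok w) (nbh_deg h.ok)
  have l4 := LocOK.mono hT (LocOK.and hT (LocOK.mono hT l1 (Nat.le_succ 11000))
    (LocOK.and hT l2 l3)) (show 11001 + 1 ≤ 40000 by norm_num)
  obtain ⟨κ, hκ, E, S, hd, hp, hs, hi, hg⟩ := l4
  refine ⟨κ, hκ, E, S, hd, hp, hs, hi, fun ω hE w => ?_⟩
  obtain ⟨k1, k2, k3⟩ := hg ω hE
  have h1 := k1 w trivial
  have h2 := k2 w trivial
  have h3 := k3 w trivial
  have h4 := path_le (D := D) (j := j) (m := m) (C := C) (col := col) (lam := lam) w ω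
  have hT1 := hT.one_le
  have hTb := hT.big
  have e1 : 4 * D.T * D.T ^ 2405 = 4 * D.T ^ 2406 := by
    rw [pow_succ D.T 2405]; ring
  have e2 : 12 * D.T ^ 2 * D.T ^ 2405 = 12 * D.T ^ 2407 := by
    rw [show (2407 : ℕ) = 2 + 2405 from rfl, pow_add]; ring
  have e3 : 100 * D.T ^ 3 * (64 * D.T ^ 2405) = 6400 * D.T ^ 2408 := by
    rw [show (2408 : ℕ) = 3 + 2405 from rfl, pow_add]; ring
  rw [e1] at h1
  rw [e2] at h2
  rw [e3] at h3
  have f1 : D.T ^ 2406 ≤ D.T ^ 2408 := pow_le_pow_right₀ hT1 (by norm_num)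
  have f2 : D.T ^ 2407 ≤ D.T ^ 2408 := pow_le_pow_right₀ hT1 (by norm_num)
  have f3 := Tpow h (a := 2408) (b := 2630) 7000 (by norm_num) (by norm_num)
  have f4 : 0 ≤ D.T ^ 2408 := by positivity
  linarith

end DD

end

end Pool.Agent.AcyGD
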