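import Pool.Agent.AcyGD.Stat
import Pool.Agent.AcyK.DKind

/-! # The statistics in one round, general graphs (project MP_af9dfb_G, row D1, helper44) -/

set_option autoImplicit false
set_option linter.unusedSectionVars false

namespace Pool.Agent.AcyGD

open Finset
open Pool.Agent.Acy (IsPM wt Ex Pr mean)
open Pool.Agent.AcyK
open scoped Classical

universe u v

section

variable {V : Type u} [Fintype V] [DecidableEq V]

namespace DD

variable {D : DD V}

/-! ## Translation to one part -/

section tr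

variable {j : ℕ} {C col : V → Option (Fin D.k × ℕ)}

/-- Weight of the vertices of part `j`. -/
noncomputable def kd_cut1 (D : DD V) (j : ℕ) (w : V → ℝ) (y : V) : ℝ :=
  if D.lv y = j then w y else 0

/-- Weight of the pairs of part `j`. -/
noncomputable def kd_cut2 (D : DD V) (j : ℕ) (w : V → V → ℝ) (y y' : V) : ℝ :=
  if D.lv y = j ∧ D.lv y' = j then w y y' else 0

theorem kd_L1_tr (w : V → ℝ) (c : Fin D.k) :
    D.L1 (D.addCol C j col) j c w = AcyK.L1 col (D.kd_cut1 j w) c := by
  unfold L1 AcyK.L1 kd_cut1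
  refine sum_congr rfl fun y _ => ?_
  by_cases h : D.lv y = j
  · have h1 : hasCol (D.addCol C j col) y c ↔ HasC col y c := hasCol_congr (addCol_of h) c
    simp only [h, true_and, h1, if_true]
  · simp only [h, false_and, if_false, ite_self]

theorem kd_C1_tr (w : V → ℝ) : D.C1 (D.addCol C j col) j w = AcyK.C1 col (D.kd_cut1 j w) := by
  unfold C1 AcyK.C1 kd_cut1
  refine sum_congr rfl fun y _ => ?_
  by_cases h : D.lv y = j
  · have h1 : D.addCol C j col y = col y := addCol_of h
    simp only [h, true_and, h1, if_true]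
  · simp only [h, false_and, if_false, ite_self]

theorem kd_S2_tr (w : V → V → ℝ) :
    D.S2 (D.addCol C j col) j w = AcyK.S2 col (D.kd_cut2 j w) := by
  unfold S2 AcyK.S2 kd_cut2
  refine sum_congr rfl fun y _ => sum_congr rfl fun y' _ => ?_
  by_cases h : D.lv y = j
  · by_cases h' : D.lv y' = j
    · have h1 : ∀ c, hasCol (D.addCol C j col) y c ↔ HasC col y c :=
        fun c => hasCol_congr (addCol_of h) c
      have h2 : ∀ c, hasCol (D.addCol C j col) y' c ↔ HasC col y' c :=
        fun c => hasCol_congr (addCol_of h') c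
      simp only [Same, sameCol, SameC, h, h', h1, h2, true_and, and_self, if_true]
    · have h1 : ¬ D.Same (D.addCol C j col) y y' := fun h3 => h' (h3.2.1 ▸ h)
      simp only [h', h1, and_false, if_false, ite_self]
  · simp only [h, false_and, if_false, ite_self]

theorem kd_C2_tr (w : V → V → ℝ) :
    D.C2 (D.addCol C j col) j w = AcyK.C2 col (D.kd_cut2 j w) := by
  unfold C2 AcyK.C2 kd_cut2
  refine sum_congr rfl fun y _ => sum_congr rfl fun y' _ => ?_
  by_cases h : D.lv y = j
  · by_cases h' : D.lv y' = j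
    · have h1 : D.addCol C j col y = col y := addCol_of h
      have h2 : D.addCol C j col y' = col y' := addCol_of h'
      simp only [h, h', h1, h2, true_and, and_self, if_true]
      congr 1
      apply propext
      tauto
    · simp only [h', and_false, false_and, if_false, ite_self]
  · simp only [h, false_and, if_false, ite_self]

end tr

section gen

variable {j : ℕ} {C : V → Option (Fin D.k × ℕ)} {m : ℕ} {col : V → Option (Fin D.k × ℕ)}
  {lam : V → Option Bool} {p : V → Fin D.k → ℝ}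

theorem kd_mem_Sel_now {y : V} (hy : D.lv y = j) : y ∈ Sel col lam true ↔ D.Now j col lam y := by
  rw [mem_Sel]
  unfold Now
  simp only [hy, true_and]

theorem kd_ball_trans {r s : ℕ} {v u z : V} (h : u ∈ D.ball r v) (h' : z ∈ D.ball s u) :
    z ∈ D.ball (r + s) v := by
  induction s generalizing z with
  | zero =>
    rw [ball, mem_singleton] at h'
    rw [h']
    exact h
  | succ s ih =>
    rw [ball, mem_biUnion] at h'
    obtain ⟨y, hy, hy'⟩ := h'
    show z ∈ D.ball (r + s + 1) v
    rw [ball, mem_biUnion]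
    exact ⟨y, ih hy, hy'⟩

/-- Number of indices with a root in a ball. -/
theorem kd_card_root_ball (hD : D.Ok) {κ : Type u} [Fintype κ] (root : κ → V) (P : κ → Prop)
    (r n : ℕ)
    (hn : ∀ v, ((univ.filter fun a => root a = v ∧ P a).card : ℝ) ≤ D.T ^ n) (i : V) :
    ((univ.filter fun a => P a ∧ i ∈ D.ball r (root a)).card : ℝ) ≤ D.T ^ (3601 * r + n) := by
  have h1 : (univ.filter fun a => P a ∧ i ∈ D.ball r (root a)) ⊆
      (D.ball r i).biUnion fun v => univ.filter fun a => root a = v ∧ P a := by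
    intro b hb
    rw [mem_filter] at hb
    rw [mem_biUnion]
    exact ⟨root b, ball_symm hD hb.2.2, by simp [hb.2.1]⟩
  have h2 : ((univ.filter fun a => P a ∧ i ∈ D.ball r (root a)).card : ℝ) ≤
      ∑ v ∈ D.ball r i, ((univ.filter fun a => root a = v ∧ P a).card : ℝ) := by
    have h3 := (card_le_card h1).trans card_biUnion_le
    exact_mod_cast h3
  refine h2.trans ((sum_le_sum fun v _ => hn v).trans ?_)
  rw [sum_const, nsmul_eq_mul, pow_add]
  exact mul_le_mul_of_nonneg_right (ball_card hD r i) (Tp hD _).le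

/-- Kind 1, general. -/
theorem kd_k1 (h : D.DRnd j C m col lam p) {κ : Type u} [Fintype κ] (P : κ → Prop)
    (w : κ → V → ℝ) (hw : ∀ a y, 0 ≤ w a y) (b : κ → ℝ) (hb : ∀ a, P a → 0 < b a)
    (hwb : ∀ a, P a → ∀ y, D.lv y = j → w a y ≤ b a) (root : κ → V) (r n : ℕ)
    (hS : ∀ a, P a → ∀ y, w a y ≠ 0 → y ∈ D.ball r (root a))
    (hn : ∀ v, ((univ.filter fun a => root a = v ∧ P a).card : ℝ) ≤ D.T ^ n)
    (he : 3601 * r + n + 4000 ≤ 39000)
    (hinv : ∀ a, P a → ∀ c, D.L1 (D.addCol C j col) j c (w a) ≤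
      D.bd1 (D.addCol C j col) j m (w a) (b a)) :
    LocOK 39000 D.T p (fun ω => ∀ a, P a → ∀ c,
      D.L1 (D.addCol C j (updCol m col lam ω)) j c (w a) ≤
        D.bd1 (D.addCol C j (updCol m col lam ω)) j (m + 1) (w a) (b a)) := by
  have hD := h.ok
  have hT := hD.big
  have key := kind1_loc hT h.pm h.p_le (rho_pos hD).le m col lam P (fun a => D.kd_cut1 j (w a))
    (fun a y => by
      unfold kd_cut1
      split_ifs
      · exact hw a y
      · exact le_rfl) b hb
    (fun a ha y => by
      unfold kd_cut1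
      split_ifs with hy
      · exact hwb a ha y hy
      · exact (hb a ha).le)
    (fun a => D.ball r (root a))
    (fun a ha y hy => hS a ha y fun h0 => hy (by
      unfold kd_cut1
      rw [h0, ite_self])) 39000
    (fun a _ => (ball_card hD r (root a)).trans (hT.pw (by omega)))
    (fun y => ⟨univ.filter fun a => P a ∧ y ∈ D.ball r (root a),
      fun a ha hy => mem_filter.2 ⟨mem_univ _, ha, hy⟩, by
      calc ((univ.filter fun a => P a ∧ y ∈ D.ball r (root a)).card : ℝ) * D.k ≤
          D.T ^ (3601 * r + n) * D.T ^ 4000 :=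
            mul_le_mul (kd_card_root_ball hD root P r n hn y) hD.k_hi (Nat.cast_nonneg _)
              (Tp hD _).le
        _ = D.T ^ (3601 * r + n + 4000) := (pow_add _ _ _).symm
        _ ≤ D.T ^ 39000 := hT.pw he⟩)
    (fun a ha c => by
      have h1 := hinv a ha c
      rw [kd_L1_tr] at h1
      unfold bd1 at h1
      rw [kd_C1_tr] at h1
      exact h1)
  refine key.imp fun ω hω a ha c => ?_
  have h1 := hω a ha c
  rw [kd_L1_tr]
  unfold bd1
  rw [kd_C1_tr]
  exact h1

/-- Kind 2, general. -/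
theorem kd_k2 (h : D.DRnd j C m col lam p) {κ : Type u} [Fintype κ] (P : κ → Prop)
    (w : κ → V → V → ℝ) (hw : ∀ a y y', 0 ≤ w a y y') (b : κ → ℝ) (hb : ∀ a, P a → 0 < b a)
    (h1 : ∀ a, P a → ∀ y', D.Now j col lam y' → ∀ c,
      D.L1 (D.addCol C j col) j c (fun y => w a y y' + w a y' y) ≤ b a)
    (h1' : ∀ a, P a → ∀ y', D.Now j col lam y' →
      D.rho * ∑ y ∈ univ.filter (D.Now j col lam), (w a y y' + w a y' y) ≤ b a)
    (h2 : ∀ a, P a → ∀ y y', D.lv y = j → D.lv y' = j → w a y y' + w a y' y ≤ b a)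
    (root : κ → V) (r n : ℕ)
    (hS : ∀ a, P a → ∀ y y', w a y y' ≠ 0 → y ∈ D.ball r (root a) ∧ y' ∈ D.ball r (root a))
    (hn : ∀ v, ((univ.filter fun a => root a = v ∧ P a).card : ℝ) ≤ D.T ^ n)
    (he : 3601 * r + n ≤ 39000)
    (hinv : ∀ a, P a → D.S2 (D.addCol C j col) j (w a) ≤
      D.bd2 (D.addCol C j col) j m (w a) (b a)) :
    LocOK 39001 D.T p (fun ω => ∀ a, P a →
      D.S2 (D.addCol C j (updCol m col lam ω)) j (w a) ≤
        D.bd2 (D.addCol C j (updCol m col lam ω)) j (m + 1) (w a) (b a)) := by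
  have hD := h.ok
  have hT := hD.big
  have key := kind2_locK (K := 26 * D.T ^ 2) hT
    (by have := Tp hD 2; linarith) h.pm h.p_le (rho_pos hD).le m col lam P
    (fun a => D.kd_cut2 j (w a))
    (fun a y y' => by
      unfold kd_cut2
      split_ifs
      · exact hw a y y'
      · exact le_rfl) b hb
    (fun a ha y' hy' c => by
      by_cases hj : D.lv y' = j
      · have h3 := h1 a ha y' ((kd_mem_Sel_now hj).1 hy') c
        rw [kd_L1_tr] at h3
        refine le_trans (le_of_eq ?_) h3
        congr 1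
        funext y
        unfold kd_cut1 kd_cut2
        by_cases hy : D.lv y = j
        · simp only [hy, hj, and_self, if_true]
        · simp only [hy, hj, false_and, and_false, if_false, add_zero]
      · refine le_trans (le_of_eq ?_) (hb a ha).le
        unfold AcyK.L1 kd_cut2
        refine sum_eq_zero fun y _ => ?_
        simp only [hj, and_false, false_and, if_false, add_zero, ite_self])
    (fun a ha y' hy' => by
      by_cases hj : D.lv y' = j
      · have h3 := h1' a ha y' ((kd_mem_Sel_now hj).1 hy')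
        refine le_trans (le_of_eq ?_) h3
        congr 1
        rw [← sum_ite_mem_eq (Sel col lam true),
          ← sum_ite_mem_eq (univ.filter (D.Now j col lam))]
        refine sum_congr rfl fun y _ => ?_
        unfold kd_cut2
        by_cases hy : D.lv y = j
        · have h4 := kd_mem_Sel_now (col := col) (lam := lam) hy
          simp only [h4, mem_filter, mem_univ, true_and, hy, hj, and_self, if_true]
        · have h4 : ¬ D.Now j col lam y := fun h => hy h.1
          simp only [mem_filter, h4, and_false, hy, hj, false_and, if_false, add_zero, ite_self]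
      · refine le_trans (le_of_eq ?_) (hb a ha).le
        unfold kd_cut2
        rw [sum_eq_zero, mul_zero]
        intro y _
        simp only [hj, and_false, false_and, if_false, add_zero])
    (fun a ha y y' => by
      unfold kd_cut2
      by_cases hy : D.lv y = j <;> by_cases hy' : D.lv y' = j
      · simp only [hy, hy', and_self, if_true]
        exact h2 a ha y y' hy hy'
      · simp only [hy', and_false, false_and, if_false, add_zero]
        exact (hb a ha).le
      · simp only [hy, and_false, false_and, if_false, add_zero]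
        exact (hb a ha).le
      · simp only [hy, and_false, false_and, if_false, add_zero]
        exact (hb a ha).le)
    (fun a => D.ball r (root a))
    (fun a ha y y' hy => hS a ha y y' fun h0 => hy (by
      unfold kd_cut2
      rw [h0, ite_self])) 39000
    (fun a _ => (ball_card hD r (root a)).trans (hT.pw (by omega)))
    (fun y => ⟨univ.filter fun a => P a ∧ y ∈ D.ball r (root a),
      fun a ha hy => mem_filter.2 ⟨mem_univ _, ha, hy⟩,
      (kd_card_root_ball hD root P r n hn y).trans (hT.pw he)⟩)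
    (fun a ha => by
      have h3 := hinv a ha
      rw [kd_S2_tr] at h3
      unfold bd2 at h3
      rw [kd_C2_tr] at h3
      exact h3)
  refine key.imp fun ω hω a ha => ?_
  have h3 := hω a ha
  rw [kd_S2_tr]
  unfold bd2
  rw [kd_C2_tr]
  exact h3

end gen

/-! ## The statistics -/

section stat

variable {j : ℕ} {C : V → Option (Fin D.k × ℕ)} {m : ℕ} {col : V → Option (Fin D.k × ℕ)}
  {lam : V → Option Bool} {p : V → Fin D.k → ℝ}

theorem kd_card_root1 (hD : D.Ok) (P : V → Prop) (v : V) :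
    ((univ.filter fun a : V => a = v ∧ P a).card : ℝ) ≤ D.T ^ 0 := by
  refine le_trans ?_ (card_root_id hD v)
  exact_mod_cast card_le_card fun a ha => by
    rw [mem_filter] at ha ⊢
    exact ⟨ha.1, ha.2.1⟩

theorem kd_card_root2 {β : Type*} [Fintype β] {n : ℕ}
    (hβ : (Fintype.card β : ℝ) ≤ D.T ^ n) (P : V × β → Prop) (v : V) :
    ((univ.filter fun a : V × β => a.1 = v ∧ P a).card : ℝ) ≤ D.T ^ n := by
  have h1 : (univ.filter fun b : V × β => b.1 = v ∧ P b) ⊆
      (univ : Finset β).map ⟨fun c => (v, c), fun a b h => by simpa using h⟩ := by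
    rintro ⟨a, c⟩ h
    rw [mem_filter] at h
    rw [mem_map]
    exact ⟨c, mem_univ _, Prod.ext h.2.1.symm rfl⟩
  have h2 := card_le_card h1
  rw [card_map, card_univ] at h2
  refine le_trans ?_ hβ
  exact_mod_cast h2

/-- The common neighbourhood of a pair at distance two. -/
theorem kd_mem_ball_two {a y : V} (hD : D.Ok) (h : (cN D.N a y).Nonempty) : y ∈ D.ball 2 a := by
  obtain ⟨z, hz⟩ := h
  rw [mem_cN] at hz
  exact ball_step (mem_ball_one hz.1) ((N_comm hD).1 hz.2)

theorem kd_card_root3 (hD : D.Ok) (P : V × V → Prop) (hP : ∀ a, P a → a.2 ∈ D.ball 2 a.1) (v : V) :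
    ((univ.filter fun a : V × V => a.1 = v ∧ P a).card : ℝ) ≤ D.T ^ 7202 := by
  have h1 : (univ.filter fun a : V × V => a.1 = v ∧ P a) ⊆
      (D.ball 2 v).map ⟨fun c => (v, c), fun a b h => by simpa using h⟩ := by
    rintro ⟨a, b⟩ ha
    rw [mem_filter] at ha
    obtain ⟨_, ha1, ha2⟩ := ha
    have h3 : a = v := ha1
    subst h3
    have h4 : b ∈ D.ball 2 a := hP (a, b) ha2
    rw [mem_map]
    exact ⟨b, h4, rfl⟩
  have h2 := card_le_card h1
  rw [card_map] at h2
  refine le_trans ?_ ((ball_card hD 2 v).trans (hD.big.pw (show 3601 * 2 ≤ 7202 by norm_num)))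
  exact_mod_cast h2

theorem kd_cod_pos_iff {a y : V} : D.cod a y ≠ 0 ↔ (cN D.N a y).Nonempty := by
  unfold cod
  rw [Nat.cast_ne_zero, card_ne_zero]

theorem kd_kB (h : D.DRnd j C m col lam p) : LocOK 39000 D.T p (fun ω => ∀ a c,
    D.L1 (D.addCol C j (updCol m col lam ω)) j c (D.wB a) ≤
      D.bd1 (D.addCol C j (updCol m col lam ω)) j (m + 1) (D.wB a) 1) := by
  have hD := h.ok
  have key := kd_k1 h (κ := V) (fun _ => True) (fun a => D.wB a) (fun a y => wB_nonneg a y)
    (fun _ => 1) (fun _ _ => one_pos)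
    (fun a _ y _ => by
      show D.wB a y ≤ 1
      unfold wB
      split_ifs <;> norm_num)
    (fun a => a) 1 0
    (fun a _ y hy => mem_ball_one (by
      by_contra hc
      exact hy (by
        show D.wB a y = 0
        unfold wB
        rw [if_neg hc])))
    (fun v => kd_card_root1 hD _ v) (by norm_num) (fun a _ c => h.prog.sB a c)
  exact key.imp fun ω hω a c => hω a trivial c

theorem kd_kN (h : D.DRnd j C m col lam p) : LocOK 39000 D.T p (fun ω => ∀ a c,
    D.L1 (D.addCol C j (updCol m col lam ω)) j c (D.wN a) ≤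
      D.bd1 (D.addCol C j (updCol m col lam ω)) j (m + 1) (D.wN a) 1) := by
  have hD := h.ok
  have key := kd_k1 h (κ := V) (fun _ => True) (fun a => D.wN a) (fun a y => wN_nonneg a y)
    (fun _ => 1) (fun _ _ => one_pos)
    (fun a _ y _ => by
      show D.wN a y ≤ 1
      unfold wN
      split_ifs <;> norm_num)
    (fun a => a) 2 0
    (fun a _ y hy => kd_mem_ball_two hD (by
      by_contra hc
      exact hy (by
        show D.wN a y = 0
        unfold wN
        rw [if_neg hc])))
    (fun v => kd_card_root1 hD _ v) (by norm_num) (fun a _ c => h.prog.sN a c)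
  exact key.imp fun ω hω a c => hω a trivial c

theorem kd_wL_le (hD : D.Ok) (a y : V) : D.wL a y ≤ D.T ^ 2401 := by
  unfold wL
  split_ifs with hc
  · exact cod_le' hD hc.2
  · exact (Tp hD _).le

theorem kd_bd1_nonneg (hD : D.Ok) (f : V → Option (Fin D.k × ℕ)) (i m : ℕ) {w : V → ℝ}
    (hw : ∀ y, 0 ≤ w y) {b : ℝ} (hb : 0 ≤ b) : 0 ≤ D.bd1 f i m w b := by
  unfold bd1
  have h1 := T0 hD
  have h2 := rho_pos hD
  have h3 : 0 ≤ D.C1 f i w := by
    unfold C1
    refine sum_nonneg fun y _ => ?_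
    split_ifs
    · exact hw y
    · exact le_rfl
  positivity

theorem kd_bd2_nonneg (hD : D.Ok) (f : V → Option (Fin D.k × ℕ)) (i m : ℕ) {w : V → V → ℝ}
    (hw : ∀ y y', 0 ≤ w y y') {b : ℝ} (hb : 0 ≤ b) : 0 ≤ D.bd2 f i m w b := by
  unfold bd2
  have h1 := T0 hD
  have h2 := rho_pos hD
  have h3 : 0 ≤ D.C2 f i w := by
    unfold C2
    refine sum_nonneg fun y _ => sum_nonneg fun y' _ => ?_
    split_ifs
    · exact hw y y'
    · exact le_rfl
  positivity

theorem kd_kL (h : D.DRnd j C m col lam p) : LocOK 39000 D.T p (fun ω => ∀ a c,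
    D.L1 (D.addCol C j (updCol m col lam ω)) j c (D.wL a) ≤
      D.bd1 (D.addCol C j (updCol m col lam ω)) j (m + 1) (D.wL a) (D.T ^ 2401)) := by
  have hD := h.ok
  have key := kd_k1 h (κ := V) (fun _ => True) (fun a => D.wL a)
    (fun a y => wL_nonneg a y) (fun _ => D.T ^ 2401) (fun _ _ => Tp hD _)
    (fun a _ y _ => kd_wL_le hD a y)
    (fun a => a) 2 0
    (fun a _ y hy => kd_mem_ball_two hD (kd_cod_pos_iff.1 fun hc => hy (by
      show D.wL a y = 0
      unfold wL
      rw [hc, ite_self])))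
    (fun v => kd_card_root1 hD _ v) (by norm_num)
    (fun a _ c => h.prog.sL a c)
  exact key.imp fun ω hω a c => hω a trivial c

/-! ### Kind 2 -/

theorem kd_L1_add (f : V → Option (Fin D.k × ℕ)) (i : ℕ) (c : Fin D.k) (w w' : V → ℝ) :
    D.L1 f i c (fun y => w y + w' y) = D.L1 f i c w + D.L1 f i c w' := by
  unfold L1
  rw [← sum_add_distrib]
  refine sum_congr rfl fun y _ => ?_
  split_ifs
  · rfl
  · rw [add_zero]

theorem kd_L1_mono {f : V → Option (Fin D.k × ℕ)} {i : ℕ} {c : Fin D.k} {w w' : V → ℝ}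
    (h : ∀ y, D.lv y = i → hasCol f y c → w y ≤ w' y) : D.L1 f i c w ≤ D.L1 f i c w' := by
  unfold L1
  refine sum_le_sum fun y _ => ?_
  split_ifs with hy
  · exact h y hy.1 hy.2
  · exact le_rfl

theorem kd_L1_sum {ι : Type*} (s : Finset ι) (f : V → Option (Fin D.k × ℕ)) (i : ℕ) (c : Fin D.k)
    (w : ι → V → ℝ) : D.L1 f i c (fun y => ∑ a ∈ s, w a y) = ∑ a ∈ s, D.L1 f i c (w a) := by
  unfold L1
  rw [sum_comm]
  refine sum_congr rfl fun y _ => ?_
  split_ifs
  · rfl
  · rw [sum_const_zero]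

theorem kd_now_nbr (h : D.DRnd j C m col lam p) (w : V) :
    ∑ y ∈ univ.filter (D.Now j col lam), D.wB w y ≤ D.T ^ 2671 := by
  refine le_trans (le_of_eq ?_) (h.lam.nbr w)
  unfold wB
  rw [← sum_filter, sum_const, nsmul_eq_mul, mul_one, filter_filter]
  congr 2
  ext y
  simp only [mem_filter, mem_univ, true_and]
  tauto

theorem kd_sum_cod_now (h : D.DRnd j C m col lam p) (v : V) :
    ∑ y ∈ univ.filter (D.Now j col lam), D.cod y v ≤ D.T ^ 6271 := by
  have hD := h.ok
  have h1 : ∀ y, D.cod y v = ∑ x ∈ D.N v, D.wB x y := by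
    intro y
    unfold cod wB cN
    rw [← sum_filter, sum_const, nsmul_eq_mul, mul_one]
    congr 2
    ext x
    rw [mem_inter, mem_filter, N_comm hD (u := x)]
    tauto
  rw [sum_congr rfl fun y _ => h1 y, sum_comm]
  refine (sum_le_sum fun x _ => kd_now_nbr h x).trans ?_
  rw [sum_const, nsmul_eq_mul]
  calc ((D.N v).card : ℝ) * D.T ^ 2671 ≤ D.T ^ 3600 * D.T ^ 2671 :=
        mul_le_mul_of_nonneg_right (Nc hD v) (Tp hD _).le
    _ = D.T ^ 6271 := by rw [← pow_add]

/-- The final bounds hold during the part. -/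
theorem kd_dstat_now (h : D.DRnd j C m col lam p) : D.DStat (D.addCol C j col) j :=
  stat_of_prog h.ok h.past.parts h.m_lt.le h.prog.toProgS

theorem kd_two_T {a b : ℕ} (hD : D.Ok) (hab : a + 1 ≤ b) : 2 * D.T ^ a ≤ D.T ^ b := by
  calc 2 * D.T ^ a ≤ D.T * D.T ^ a :=
        mul_le_mul_of_nonneg_right (by linarith [Tb hD]) (Tp hD _).le
    _ = D.T ^ (a + 1) := (pow_succ' _ _).symm
    _ ≤ D.T ^ b := hD.big.pw hab

theorem kd_four_T {a b : ℕ} (hD : D.Ok) (hab : a + 1 ≤ b) : 4 * D.T ^ a ≤ D.T ^ b := by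
  calc 4 * D.T ^ a ≤ D.T * D.T ^ a :=
        mul_le_mul_of_nonneg_right (by linarith [Tb hD]) (Tp hD _).le
    _ = D.T ^ (a + 1) := (pow_succ' _ _).symm
    _ ≤ D.T ^ b := hD.big.pw hab

theorem kd_wM_le1 (a b y y' : V) : D.wM a b y y' ≤ D.wB a y := by
  unfold wM wB
  by_cases h1 : y ∈ D.N a
  · rw [if_pos h1]
    split_ifs <;> norm_num
  · rw [if_neg h1, if_neg fun h => h1 h.1]

theorem kd_wM_le2 (a b y y' : V) : D.wM a b y y' ≤ D.wB b y' := by
  unfold wM wB
  by_cases h1 : y' ∈ D.N b
  · rw [if_pos h1]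
    split_ifs <;> norm_num
  · rw [if_neg h1, if_neg fun h => h1 h.2]

theorem kd_wB_le_one (a y : V) : D.wB a y ≤ 1 := by
  unfold wB
  split_ifs <;> norm_num

theorem kd_kM (h : D.DRnd j C m col lam p) : LocOK 39001 D.T p (fun ω =>
    ∀ a b, (a = b ∨ (cN D.N a b).Nonempty) →
    D.S2 (D.addCol C j (updCol m col lam ω)) j (D.wM a b) ≤
      D.bd2 (D.addCol C j (updCol m col lam ω)) j (m + 1) (D.wM a b) (D.T ^ 153)) := by
  have hD := h.ok
  have hds := kd_dstat_now h
  have key := kd_k2 h (κ := V × V) (fun a => a.1 = a.2 ∨ (cN D.N a.1 a.2).Nonempty)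
    (fun a => D.wM a.1 a.2) (fun a y y' => wM_nonneg a.1 a.2 y y') (fun _ => D.T ^ 153)
    (fun _ _ => Tp hD _)
    (fun a _ y' _ c => by
      have h1 : D.L1 (D.addCol C j col) j c (fun y => D.wM a.1 a.2 y y' + D.wM a.1 a.2 y' y) ≤
          D.L1 (D.addCol C j col) j c (fun y => D.wB a.1 y + D.wB a.2 y) :=
        kd_L1_mono fun y _ _ => add_le_add (kd_wM_le1 _ _ _ _) (kd_wM_le2 _ _ _ _)
      replace h1 := h1.trans_eq (kd_L1_add _ _ _ _ _)
      have h2 := hds.sB a.1 c
      have h3 := hds.sB a.2 c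
      have h4 := kd_two_T hD (show 152 + 1 ≤ 153 by norm_num)
      linarith)
    (fun a _ y' _ => by
      have h1 : ∑ y ∈ univ.filter (D.Now j col lam), (D.wM a.1 a.2 y y' + D.wM a.1 a.2 y' y) ≤
          ∑ y ∈ univ.filter (D.Now j col lam), (D.wB a.1 y + D.wB a.2 y) :=
        sum_le_sum fun y _ => add_le_add (kd_wM_le1 _ _ _ _) (kd_wM_le2 _ _ _ _)
      replace h1 := h1.trans_eq sum_add_distrib
      have h2 := kd_now_nbr h a.1
      have h3 := kd_now_nbr h a.2
      have h4 := rho_mul_le2 hD (show 2671 ≤ 0 + 3998 by norm_num)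
      have h5 := kd_four_T hD (show 0 + 1 ≤ 153 by norm_num)
      have h6 := mul_le_mul_of_nonneg_left (h1.trans (add_le_add h2 h3)) (rho_pos hD).le
      linarith)
    (fun a _ y y' _ _ => by
      have h1 := (kd_wM_le1 (D := D) a.1 a.2 y y').trans (kd_wB_le_one _ _)
      have h2 := (kd_wM_le1 (D := D) a.1 a.2 y' y).trans (kd_wB_le_one _ _)
      have h5 := kd_two_T hD (show 0 + 1 ≤ 153 by norm_num)
      rw [pow_zero] at h5
      show D.wM a.1 a.2 y y' + D.wM a.1 a.2 y' y ≤ D.T ^ 153
      linarith)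
    (fun a => a.1) 3 7202
    (fun a ha y y' hy => by
      have h1 : y ∈ D.N a.1 ∧ y' ∈ D.N a.2 := by
        by_contra hc
        exact hy (by
          show D.wM a.1 a.2 y y' = 0
          unfold wM
          rw [if_neg hc])
      have h2 : a.2 ∈ D.ball 2 a.1 := by
        rcases ha with ha | ha
        · rw [← ha]
          exact self_mem_ball _ _
        · exact kd_mem_ball_two hD ha
      exact ⟨ball_mono (by norm_num) _ (mem_ball_one h1.1), ball_step h2 h1.2⟩)
    (fun v => kd_card_root3 hD _ (fun a ha => by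
      rcases ha with ha | ha
      · rw [← ha]
        exact self_mem_ball _ _
      · exact kd_mem_ball_two hD ha) v) (by norm_num)
    (fun a ha => h.prog.sM a.1 a.2 ha)
  exact key.imp fun ω hω a b hab => hω (a, b) hab

theorem kd_wQ_le (hD : D.Ok) {v y y' : V} (hne : y ≠ y') : D.wQ v y y' ≤ D.wL y' y := by
  have h0 := wL_nonneg (D := D) y' y
  unfold wQ
  split_ifs with hc
  · have h1 : ¬ D.Spc y' y := fun h => hc.2 (Spc_symm hD h)
    unfold wL cod
    rw [if_pos ⟨hne.symm, h1⟩, cN_comm D.N y' y]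
    exact_mod_cast card_le_card (filter_subset _ _)
  · exact h0

theorem kd_wQ_le' {v y y' : V} (hne : y ≠ y') : D.wQ v y' y ≤ D.wL y' y := by
  have h0 := wL_nonneg (D := D) y' y
  unfold wQ
  split_ifs with hc
  · unfold wL cod
    rw [if_pos ⟨hne.symm, hc.2⟩]
    exact_mod_cast card_le_card (filter_subset _ _)
  · exact h0

theorem kd_wQ_le_cod (v y y' : V) : D.wQ v y y' ≤ D.cod y y' := by
  unfold wQ cod
  split_ifs
  · exact_mod_cast card_le_card (filter_subset _ _)
  · exact Nat.cast_nonneg _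

theorem kd_wQ_le_T (hD : D.Ok) (v y y' : V) : D.wQ v y y' ≤ D.T ^ 2401 := by
  by_cases hc : (y ∈ D.N v ∧ y' ∈ D.N v) ∧ ¬ D.Spc y y'
  · exact (kd_wQ_le_cod v y y').trans (cod_le' hD hc.2)
  · unfold wQ
    rw [if_neg hc]
    exact (Tp hD _).le

theorem kd_kQ (h : D.DRnd j C m col lam p) : LocOK 39001 D.T p (fun ω => ∀ v,
    D.S2 (D.addCol C j (updCol m col lam ω)) j (D.wQ v) ≤
      D.bd2 (D.addCol C j (updCol m col lam ω)) j (m + 1) (D.wQ v) (D.T ^ 2557)) := by
  have hD := h.ok
  have hds := kd_dstat_now h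
  have key := kd_k2 h (κ := V) (fun _ => True)
    (fun a => D.wQ a) (fun a y y' => wQ_nonneg a y y') (fun _ => D.T ^ 2557)
    (fun _ _ => Tp hD _)
    (fun a _ y' hy' c => by
      have h1 : D.L1 (D.addCol C j col) j c (fun y => D.wQ a y y' + D.wQ a y' y) ≤
          D.L1 (D.addCol C j col) j c (fun y => D.wL y' y + D.wL y' y) :=
        kd_L1_mono fun y _ hc => by
          have hne : y ≠ y' := by
            rintro rfl
            exact hasCol_ne_none hc (now_none hy')
          exact add_le_add (kd_wQ_le hD hne) (kd_wQ_le' hne)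
      replace h1 := h1.trans_eq (kd_L1_add _ _ _ _ _)
      have h2 : D.L1 (D.addCol C j col) j c (fun y => D.wL y' y) ≤ D.T ^ 2555 := hds.sL y' c
      have h4 := kd_two_T hD (show 2555 + 1 ≤ 2557 by norm_num)
      linarith)
    (fun a _ y' _ => by
      have h1 : ∑ y ∈ univ.filter (D.Now j col lam), (D.wQ a y y' + D.wQ a y' y) ≤
          ∑ y ∈ univ.filter (D.Now j col lam), (D.cod y y' + D.cod y y') :=
        sum_le_sum fun y _ => add_le_add (kd_wQ_le_cod _ _ _) (by
          rw [cod_symm y y']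
          exact kd_wQ_le_cod _ _ _)
      replace h1 := h1.trans_eq sum_add_distrib
      have h2 := kd_sum_cod_now h y'
      have h4 := rho_mul_le2 hD (show 6271 ≤ 2273 + 3998 by norm_num)
      have h5 := kd_four_T hD (show 2273 + 1 ≤ 2557 by norm_num)
      have h6 := mul_le_mul_of_nonneg_left (h1.trans (add_le_add h2 h2)) (rho_pos hD).le
      linarith)
    (fun a _ y y' _ _ => by
      have h1 := kd_wQ_le_T hD a y y'
      have h2 := kd_wQ_le_T hD a y' y
      have h5 := kd_two_T hD (show 2401 + 1 ≤ 2557 by norm_num)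
      show D.wQ a y y' + D.wQ a y' y ≤ D.T ^ 2557
      linarith)
    (fun a => a) 1 0
    (fun a ha y y' hy => by
      have h1 : (y ∈ D.N a ∧ y' ∈ D.N a) ∧ ¬ D.Spc y y' := by
        by_contra hc
        exact hy (by
          show D.wQ a y y' = 0
          unfold wQ
          rw [if_neg hc])
      exact ⟨mem_ball_one h1.1.1, mem_ball_one h1.1.2⟩)
    (fun v => kd_card_root1 hD _ v) (by norm_num)
    (fun a _ => h.prog.sQ a)
  exact key.imp fun ω hω v => hω v trivial

theorem kd_wC_le (f : V → Option (Fin D.k × ℕ)) (v u u' : V) : D.wC f v u u' ≤ D.wN v u := by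
  unfold wC wN
  split_ifs with h1 h2
  · exact le_rfl
  · obtain ⟨z, z', z'', g1, g2, g3, g4, g5, g6, g7, g8, g9⟩ := h1
    exact absurd ⟨z, g7⟩ h2
  · norm_num
  · exact le_rfl

theorem kd_wC_le' (f : V → Option (Fin D.k × ℕ)) (v u u' : V) : D.wC f v u u' ≤ D.wN v u' := by
  unfold wC wN
  split_ifs with h1 h2
  · exact le_rfl
  · obtain ⟨z, z', z'', g1, g2, g3, g4, g5, g6, g7, g8, g9⟩ := h1
    exact absurd ⟨z', g8⟩ h2
  · norm_num
  · exact le_rfl

theorem kd_wN_le_cod (v y : V) : D.wN v y ≤ D.cod y v := by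
  unfold wN cod
  split_ifs with h
  · rw [cN_comm] at h
    exact_mod_cast card_pos.2 h
  · exact Nat.cast_nonneg _

theorem kd_wC_congr {f f' : V → Option (Fin D.k × ℕ)} {v : V}
    (h : ∀ z, D.lv z < D.lv v → f z = f' z) : D.wC f v = D.wC f' v := by
  funext u u'
  unfold wC
  rw [E3_congr h]

theorem kd_kC (h : D.DRnd j C m col lam p) : LocOK 39001 D.T p (fun ω => ∀ v, D.lv v = j →
    D.S2 (D.addCol C j (updCol m col lam ω)) j (D.wC (D.addCol C j (updCol m col lam ω)) v) ≤
      D.bd2 (D.addCol C j (updCol m col lam ω)) j (m + 1)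
        (D.wC (D.addCol C j (updCol m col lam ω)) v) (D.T ^ 2407)) := by
  have hD := h.ok
  have hds := kd_dstat_now h
  have hcg : ∀ (col' : V → Option (Fin D.k × ℕ)) (v : V), D.lv v = j →
      D.wC (D.addCol C j col') v = D.wC C v := fun col' v hv =>
    kd_wC_congr fun z hz => addCol_ne (by omega)
  have key := kd_k2 h (κ := V) (fun v => D.lv v = j)
    (fun a => D.wC C a) (fun a y y' => wC_nonneg C a y y') (fun _ => D.T ^ 2407)
    (fun _ _ => Tp hD _)
    (fun a _ y' hy' c => by
      have h1 : D.L1 (D.addCol C j col) j c (fun y => D.wC C a y y' + D.wC C a y' y) ≤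
          D.L1 (D.addCol C j col) j c (fun y => D.wN a y + D.wN a y) :=
        kd_L1_mono fun y _ _ => add_le_add (kd_wC_le _ _ _ _) (kd_wC_le' _ _ _ _)
      replace h1 := h1.trans_eq (kd_L1_add _ _ _ _ _)
      have h2 : D.L1 (D.addCol C j col) j c (fun y => D.wN a y) ≤ D.T ^ 2406 := hds.sN a c
      have h4 := kd_two_T hD (show 2406 + 1 ≤ 2407 by norm_num)
      linarith)
    (fun a _ y' _ => by
      have h1 : ∑ y ∈ univ.filter (D.Now j col lam), (D.wC C a y y' + D.wC C a y' y) ≤
          ∑ y ∈ univ.filter (D.Now j col lam), (D.cod y a + D.cod y a) :=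
        sum_le_sum fun y _ => add_le_add ((kd_wC_le _ _ _ _).trans (kd_wN_le_cod _ _))
          ((kd_wC_le' _ _ _ _).trans (kd_wN_le_cod _ _))
      replace h1 := h1.trans_eq sum_add_distrib
      have h2 := kd_sum_cod_now h a
      have h4 := rho_mul_le2 hD (show 6271 ≤ 2273 + 3998 by norm_num)
      have h5 := kd_four_T hD (show 2273 + 1 ≤ 2407 by norm_num)
      have h6 := mul_le_mul_of_nonneg_left (h1.trans (add_le_add h2 h2)) (rho_pos hD).le
      linarith)
    (fun a _ y y' _ _ => by
      have h1 : ∀ y y', D.wC C a y y' ≤ 1 := by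
        intro y y'
        unfold wC
        split_ifs <;> norm_num
      have h2 := h1 y y'
      have h3 := h1 y' y
      have h5 := kd_two_T hD (show 0 + 1 ≤ 2407 by norm_num)
      rw [pow_zero] at h5
      show D.wC C a y y' + D.wC C a y' y ≤ D.T ^ 2407
      linarith)
    (fun a => a) 2 0
    (fun a ha y y' hy => by
      have h1 : D.E3 C a y y' := by
        by_contra hc
        exact hy (by
          show D.wC C a y y' = 0
          unfold wC
          rw [if_neg hc])
      obtain ⟨z, z', z'', g1, g2, g3, g4, g5, g6, g7, g8, g9⟩ := h1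
      exact ⟨kd_mem_ball_two hD ⟨z, g7⟩, kd_mem_ball_two hD ⟨z', g8⟩⟩)
    (fun v => kd_card_root1 hD _ v) (by norm_num)
    (fun a ha => by
      have h1 := h.prog.sC a ha
      rw [hcg _ a ha] at h1
      exact h1)
  refine key.imp fun ω hω v hv => ?_
  rw [hcg _ v hv]
  exact hω v hv

/-- The fields of `ProgS` that are proved here. -/
structure KindsS (D : DD V) (f : V → Option (Fin D.k × ℕ)) (j : ℕ) (m : ℕ) : Prop where
  lt : ∀ v c r, D.lv v = j → f v = some (c, r) → r < m
  sB : ∀ a c, D.L1 f j c (D.wB a) ≤ D.bd1 f j m (D.wB a) 1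
  sL : ∀ a c, D.L1 f j c (D.wL a) ≤ D.bd1 f j m (D.wL a) (D.T ^ 2401)
  sN : ∀ v c, D.L1 f j c (D.wN v) ≤ D.bd1 f j m (D.wN v) 1
  sM : ∀ a b, (a = b ∨ (cN D.N a b).Nonempty) →
    D.S2 f j (D.wM a b) ≤ D.bd2 f j m (D.wM a b) (D.T ^ 153)
  sQ : ∀ v, D.S2 f j (D.wQ v) ≤ D.bd2 f j m (D.wQ v) (D.T ^ 2557)
  sC : ∀ v, D.lv v = j → D.S2 f j (D.wC f v) ≤ D.bd2 f j m (D.wC f v) (D.T ^ 2407)

/-- D1. The statistics in one round. -/
theorem kinds_step {j : ℕ} {C : V → Option (Fin D.k × ℕ)} {m : ℕ}
    {col : V → Option (Fin D.k × ℕ)} {lam : V → Option Bool}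
    {p : V → Fin D.k → ℝ} (h : D.DRnd j C m col lam p) :
    LocOK 40000 D.T p (fun ω => D.KindsS (D.addCol C j (updCol m col lam ω)) j (m + 1)) := by
  have hT := h.ok.big
  have h1 := LocOK.mono hT (LocOK.and hT (kd_kB h) (kd_kN h)) (show 39000 + 1 ≤ 39001 by norm_num)
  have h2 := LocOK.and hT (LocOK.mono hT (kd_kL h) (show 39000 ≤ 39001 by norm_num)) h1
  have h4 := LocOK.and hT (kd_kQ h) (kd_kC h)
  have h6 := LocOK.and hT (LocOK.mono hT (kd_kM h) (show 39001 ≤ 39001 + 1 by norm_num)) h4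
  have h7 := LocOK.mono hT h2 (show 39001 + 1 ≤ 39001 + 1 + 1 by norm_num)
  have h5 := LocOK.mono hT (LocOK.and hT h7 h6) (show 39001 + 1 + 1 + 1 ≤ 40000 by norm_num)
  refine h5.imp fun ω hω => ?_
  obtain ⟨⟨g1, g2, g3⟩, g4, g6, g7⟩ := hω
  refine ⟨?_, g2, g1, g3, g4, g6, g7⟩
  intro v c r hv hc
  by_cases hn : D.Now j col lam v
  · rw [upd_now hn] at hc
    simp only [Option.some.injEq, Prod.mk.injEq] at hc
    omega
  · rw [upd_not_now hn] at hc
    have := h.prog.lt v c r hv hc
    omega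

end stat

end DD

end

end Pool.Agent.AcyGD
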