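import Pool.Agent.AcyGD.StepA
import Pool.Agent.AcyGD.Kinds
import Pool.Agent.AcyGD.RKinds
import Pool.Agent.AcyGD.DropAB
import Pool.Agent.AcyGD.DropC
import Pool.Agent.AcyGD.DropD
import Pool.Agent.AcyGD.Stat

/-! # One round of the D-part, the end of a stage (row D9 of MP_af9dfb_G, helper14) -/

set_option autoImplicit false
set_option linter.unusedSectionVars false

namespace Pool.Agent.AcyGD

open Finset
open Pool.Agent.Acy (IsPM wt Ex Pr mean)
open Pool.Agent.AcyK
open scoped Classical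

universe u v

section

variable {V : Type u} [Fintype V] [DecidableEq V]

namespace DD

variable {D : DD V}

theorem prog_step {j : ℕ} {C : V → Option (Fin D.k × ℕ)} {m : ℕ}
    {col : V → Option (Fin D.k × ℕ)} {lam : V → Option Bool}
    {p : V → Fin D.k → ℝ} (h : D.DRnd j C m col lam p) :
    LocOK 40010 D.T p (fun ω => D.Prog (D.addCol C j (updCol m col lam ω)) j (m + 1)) := by
  refine prog_combine h ?_ (dropA_step h) (dropB_step h) (dropC_step h) (dropD_step h)
  obtain ⟨κ, hκ, E, S, hd, hp, hs, hi, hg⟩ := (kinds_step h).and h.ok.big (rkinds_step h)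
  refine ⟨κ, hκ, E, S, hd, hp, hs, hi, fun ω hE => ?_⟩
  obtain ⟨g, g1, g2, g3⟩ := hg ω hE
  exact ⟨g.lt, g.sB, g.sL, g.sN, g.sM, g.sQ, g.sC, g1, g2, g3⟩

/-- The end of stage `j`: `C'` is the real colouring (some formal colours are deleted). -/
theorem old_next (hD : D.Ok) {j : ℕ} {C : V → Option (Fin D.k × ℕ)} (hp : D.Past C j)
    {col : V → Option (Fin D.k × ℕ)} (h : D.Prog (D.addCol C j col) j D.M)
    {C' : V → Option (Fin D.k × ℕ)} {l : V → ℕ}
    (h1 : ∀ v, C' v ≠ none → C' v = D.addCol C j col v ∧ l v = D.lv v)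
    (h2 : ∀ v, C' v = none → j < l v) :
    (D.withLv l).Old C' (j + 1) :=
  old_next' hD hp h (stat_of_prog hD hp.parts le_rfl h.toProgS) h1 h2

end DD

end

end Pool.Agent.AcyGD
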