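import Pool.Agent.AcyGD.Base

/-! # One round, the end of a stage: the parts that do not depend on the other rows (row D9 of
MP_af9dfb_G, helper14)

`prog_init`, `old_zero`, `old_withLv`, the congruence and restriction lemmas, and the combination
of the events of a round. -/

set_option autoImplicit false
set_option linter.unusedSectionVars false

namespace Pool.Agent.AcyGD

open Finset
open Pool.Agent.Acy (IsPM wt Ex Pr mean)
open Pool.Agent.AcyK
open scoped Classical

universe u v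

section

variable {V : Type u} [Fintype V] [DecidableEq V]

namespace DD

variable {D : DD V}

/-! ## The start of a stage -/

theorem L1_none {f : V → Option (Fin D.k × ℕ)} {j : ℕ} (h : ∀ y, D.lv y = j → f y = none)
    (c : Fin D.k) (w : V → ℝ) : D.L1 f j c w = 0 := by
  unfold L1
  refine sum_eq_zero fun y _ => ?_
  rw [if_neg]
  rintro ⟨h1, h2⟩
  exact hasCol_ne_none h2 (h y h1)

theorem C1_none {f : V → Option (Fin D.k × ℕ)} {j : ℕ} (h : ∀ y, D.lv y = j → f y = none)
    (w : V → ℝ) : D.C1 f j w = 0 := by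
  unfold C1
  refine sum_eq_zero fun y _ => ?_
  rw [if_neg]
  rintro ⟨h1, h2⟩
  exact h2 (h y h1)

theorem S2_none {f : V → Option (Fin D.k × ℕ)} {j : ℕ} (h : ∀ y, D.lv y = j → f y = none)
    (w : V → V → ℝ) : D.S2 f j w = 0 := by
  unfold S2
  refine sum_eq_zero fun y _ => sum_eq_zero fun y' _ => ?_
  rw [if_neg]
  rintro ⟨h1, h2⟩
  exact h2.left_ne_none (h y h1)

theorem S2r_none {f : V → Option (Fin D.k × ℕ)} {j : ℕ} (h : ∀ y, D.lv y = j → f y = none)
    (w : V → V → ℝ) : D.S2r f j w = 0 := by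
  unfold S2r
  refine sum_eq_zero fun y _ => sum_eq_zero fun y' _ => ?_
  rw [if_neg]
  rintro ⟨h1, h2, -⟩
  exact h2.left_ne_none (h y h1)

theorem C2_none {f : V → Option (Fin D.k × ℕ)} {j : ℕ} (h : ∀ y, D.lv y = j → f y = none)
    (w : V → V → ℝ) : D.C2 f j w = 0 := by
  unfold C2
  refine sum_eq_zero fun y _ => sum_eq_zero fun y' _ => ?_
  rw [if_neg]
  rintro ⟨⟨h1, h2⟩, -⟩
  exact h2 (h y h1)

theorem cfB_nonneg (hD : D.Ok) : 0 ≤ D.cfB := div_nonneg (Tp hD _).le (R0 hD).le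

theorem prog_init (hD : D.Ok) {j : ℕ} {C : V → Option (Fin D.k × ℕ)}
    (_hp : D.Past C j) : D.Prog (D.addCol C j fun _ => none) j 0 := by
  have hn : ∀ y, D.lv y = j → D.addCol C j (fun _ => none) y = none := fun y hy => by
    rw [addCol_of hy]
  have hb1 : ∀ w b, D.bd1 (D.addCol C j fun _ => none) j 0 w b = 0 := by
    intro w b
    unfold bd1
    rw [C1_none hn]
    simp
  have hb2 : ∀ w b, D.bd2 (D.addCol C j fun _ => none) j 0 w b = 0 := by
    intro w b
    unfold bd2
    rw [C2_none hn]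
    simp
  refine ⟨⟨?_, ?_, ?_, ?_, ?_, ?_, ?_, ?_, ?_, ?_⟩, ?_⟩
  · intro v c r hv h
    rw [hn v hv] at h
    exact absurd h (by simp)
  · intro a c
    rw [L1_none hn, hb1]
  · intro a c
    rw [L1_none hn, hb1]
  · intro v c
    rw [L1_none hn, hb1]
  · intro a b _
    rw [S2_none hn, hb2]
  · intro v
    rw [S2_none hn, hb2]
  · intro v _
    rw [S2_none hn, hb2]
  · intro v
    rw [S2r_none hn]
    simp
  · intro v
    rw [S2r_none hn]
    simp
  · intro v
    rw [S2r_none hn]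
    simp
  · intro w
    have h1 : (univ.filter fun v => D.lv v = j ∧ v ∈ D.N w ∧
        D.Drop (D.addCol C j fun _ => none) v) = ∅ := by
      apply filter_eq_empty_iff.2
      rintro v - ⟨h1, -, h2⟩
      exact h2.1 (hn v h1)
    rw [h1, card_empty]
    have h2 := T0 hD
    have h3 := rho_pos hD
    have h4 := cfB_nonneg hD
    push_cast
    positivity

/-- Before the first stage. -/
theorem old_zero (C : V → Option (Fin D.k × ℕ)) : D.Old C 0 :=
  ⟨fun _ h => absurd h (Nat.not_lt_zero _), fun _ h => absurd h (Nat.not_lt_zero _),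
    fun _ h => absurd h (Nat.not_lt_zero _)⟩

/-! ## The statistics only look at the colours of the stage -/

theorem L1_congr {f f' : V → Option (Fin D.k × ℕ)} {i : ℕ} (h : ∀ y, D.lv y = i → f y = f' y)
    (c : Fin D.k) (w : V → ℝ) : D.L1 f i c w = D.L1 f' i c w := by
  unfold L1
  refine sum_congr rfl fun y _ => ?_
  by_cases h1 : D.lv y = i
  · have h2 : (D.lv y = i ∧ hasCol f y c) ↔ (D.lv y = i ∧ hasCol f' y c) := by
      rw [hasCol_congr (h y h1)]
    exact if_congr h2 rfl rfl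
  · rw [if_neg fun h' => h1 h'.1, if_neg fun h' => h1 h'.1]

theorem S2_congr {f f' : V → Option (Fin D.k × ℕ)} {i : ℕ} (h : ∀ y, D.lv y = i → f y = f' y)
    (w : V → V → ℝ) : D.S2 f i w = D.S2 f' i w := by
  unfold S2
  refine sum_congr rfl fun y _ => sum_congr rfl fun y' _ => ?_
  have h2 : (D.lv y = i ∧ D.Same f y y') ↔ (D.lv y = i ∧ D.Same f' y y') := by
    constructor
    · rintro ⟨h1, h3⟩
      exact ⟨h1, (Same_congr (h y h1) (h y' (h3.2.1.symm.trans h1))).1 h3⟩
    · rintro ⟨h1, h3⟩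
      exact ⟨h1, (Same_congr (h y h1) (h y' (h3.2.1.symm.trans h1))).2 h3⟩
  exact if_congr h2 rfl rfl

theorem S2r_congr {f f' : V → Option (Fin D.k × ℕ)} {i : ℕ} (h : ∀ y, D.lv y = i → f y = f' y)
    (w : V → V → ℝ) : D.S2r f i w = D.S2r f' i w := by
  unfold S2r
  refine sum_congr rfl fun y _ => sum_congr rfl fun y' _ => ?_
  have h2 : (D.lv y = i ∧ D.Same f y y' ∧ D.rd f y = D.rd f y') ↔
      (D.lv y = i ∧ D.Same f' y y' ∧ D.rd f' y = D.rd f' y') := by
    constructor
    · rintro ⟨h1, h3, h4⟩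
      have e := h y h1
      have e' := h y' (h3.2.1.symm.trans h1)
      exact ⟨h1, (Same_congr e e').1 h3, by rw [← rd_congr e, ← rd_congr e', h4]⟩
    · rintro ⟨h1, h3, h4⟩
      have e := h y h1
      have e' := h y' (h3.2.1.symm.trans h1)
      exact ⟨h1, (Same_congr e e').2 h3, by rw [rd_congr e, rd_congr e', h4]⟩
  exact if_congr h2 rfl rfl

theorem DStat.congr {f f' : V → Option (Fin D.k × ℕ)} {i : ℕ}
    (h : ∀ y, D.lv y = i → f y = f' y) (hs : D.DStat f i) : D.DStat f' i := by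
  refine ⟨?_, ?_, ?_, ?_, ?_, ?_, ?_, ?_⟩
  · intro a c
    rw [← L1_congr h]
    exact hs.sB a c
  · intro a c
    rw [← L1_congr h]
    exact hs.sL a c
  · intro v c
    rw [← L1_congr h]
    exact hs.sN v c
  · intro a b hab
    rw [← S2_congr h]
    exact hs.sM a b hab
  · intro v
    rw [← S2_congr h]
    exact hs.sQ v
  · intro v
    rw [← S2r_congr h]
    exact hs.rM v
  · intro v
    rw [← S2r_congr h]
    exact hs.rP v
  · intro v
    rw [← S2r_congr h]
    exact hs.rF v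

theorem drop_filter_congr {f f' : V → Option (Fin D.k × ℕ)} {i : ℕ}
    (h : ∀ y, D.lv y ≤ i → f y = f' y) (w : V) :
    (univ.filter fun v => D.lv v = i ∧ v ∈ D.N w ∧ D.Drop f' v) =
      univ.filter fun v => D.lv v = i ∧ v ∈ D.N w ∧ D.Drop f v := by
  apply filter_congr
  intro v _
  refine and_congr_right fun hv => and_congr_right fun _ => ?_
  exact (Drop_congr (h v hv.le) (fun z hz => h z (hz.le.trans hv.le))
    (fun z hz _ _ => h z (hz.le.trans hv.le)) fun z hz _ _ => h z (hz.le.trans hv.le)).symm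

/-! ## Restriction: some formal colours are deleted, the vertices that are not coloured get other
stages -/

section restr

variable {f f' : V → Option (Fin D.k × ℕ)} {l : V → ℕ} {i : ℕ}

/-- The colouring `f'` with the stages `l` is a restriction of `f`. -/
def RstA (D : DD V) (l : V → ℕ) (f f' : V → Option (Fin D.k × ℕ)) : Prop :=
  ∀ v, f' v ≠ none → f' v = f v ∧ l v = D.lv v

theorem rst_same (h : D.RstA l f f') {u v : V} (hs : (D.withLv l).Same f' u v) :
    D.Same f u v := by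
  have hu := h u hs.left_ne_none
  have hv := h v hs.right_ne_none
  obtain ⟨h1, h2, c, ⟨r, h3⟩, ⟨r', h4⟩⟩ := hs
  refine ⟨h1, ?_, c, ⟨r, ?_⟩, ⟨r', ?_⟩⟩
  · rw [← hu.2, ← hv.2]
    exact h2
  · rw [← hu.1]
    exact h3
  · rw [← hv.1]
    exact h4

theorem rst_same' (h : D.RstA l f f') {u v : V} (hu : f' u ≠ none) (hv : f' v ≠ none)
    (hs : D.Same f u v) : (D.withLv l).Same f' u v := by
  have hu := h u hu
  have hv := h v hv
  obtain ⟨h1, h2, c, ⟨r, h3⟩, ⟨r', h4⟩⟩ := hs
  refine ⟨h1, ?_, c, ⟨r, ?_⟩, ⟨r', ?_⟩⟩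
  · exact (hu.2.trans h2).trans hv.2.symm
  · exact hu.1.trans h3
  · exact hv.1.trans h4

theorem rst_rd (h : D.RstA l f f') {v : V} (hv : f' v ≠ none) :
    (D.withLv l).rd f' v = D.rd f v := by
  have hv := (h v hv).1
  unfold rd
  show ((f' v).map Prod.snd).getD 0 = _
  rw [hv]

/-- A vertex of the stage is coloured. -/
theorem rst_ne (h2 : ∀ v, f' v = none → i < l v) {v : V} (hv : l v = i) : f' v ≠ none := by
  intro hc
  have := h2 v hc
  omega

theorem rst_lv (h : D.RstA l f f') (h2 : ∀ v, f' v = none → i < l v) {v : V} (hv : l v = i) :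
    D.lv v = i := by
  rw [← (h v (rst_ne h2 hv)).2]
  exact hv

theorem rst_part (h : D.RstA l f f') (h2 : ∀ v, f' v = none → i < l v) (hp : D.PartAt i) :
    (D.withLv l).PartAt i := by
  have key : ∀ (P : V → Prop) (b : ℝ), ((univ.filter fun z => P z ∧ D.lv z = i).card : ℝ) ≤ b →
      ((univ.filter fun z => P z ∧ l z = i).card : ℝ) ≤ b := by
    intro P b hb
    refine le_trans ?_ hb
    have : (univ.filter fun z => P z ∧ l z = i) ⊆ univ.filter fun z => P z ∧ D.lv z = i := by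
      intro z hz
      rw [mem_filter] at hz ⊢
      exact ⟨hz.1, hz.2.1, rst_lv h h2 hz.2.2⟩
    exact_mod_cast card_le_card this
  have key2 : ∀ (S : Finset V) (b : ℝ), ((S.filter fun z => D.lv z = i).card : ℝ) ≤ b →
      ((S.filter fun z => l z = i).card : ℝ) ≤ b := by
    intro S b hb
    refine le_trans ?_ hb
    have : (S.filter fun z => l z = i) ⊆ S.filter fun z => D.lv z = i := by
      intro z hz
      rw [mem_filter] at hz ⊢
      exact ⟨hz.1, rst_lv h h2 hz.2⟩
    exact_mod_cast card_le_card this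
  refine ⟨fun v => key2 _ _ (hp.b1 v), fun u x hux => key2 _ _ (hp.b2 u x hux),
    fun u x hux => key2 _ _ (hp.b2l u x hux), fun x => ?_⟩
  have h3 := key (fun u => u ≠ x ∧ D.T ^ 2385 ≤ D.cod u x) (D.T ^ 4018) (by
    have := hp.b3c x
    simp only [and_assoc]
    exact this)
  simp only [and_assoc] at h3
  exact h3

theorem rst_L1 (h : D.RstA l f f') (h2 : ∀ v, f' v = none → i < l v) (c : Fin D.k)
    {w : V → ℝ} (hw : ∀ y, 0 ≤ w y) : (D.withLv l).L1 f' i c w ≤ D.L1 f i c w := by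
  show (∑ y, if l y = i ∧ hasCol f' y c then w y else 0) ≤
    ∑ y, if D.lv y = i ∧ hasCol f y c then w y else 0
  refine sum_le_sum fun y _ => ?_
  by_cases h1 : l y = i ∧ hasCol f' y c
  · rw [if_pos h1, if_pos]
    refine ⟨rst_lv h h2 h1.1, ?_⟩
    obtain ⟨r, hr⟩ := h1.2
    exact ⟨r, by rw [← (h y (rst_ne h2 h1.1)).1]; exact hr⟩
  · rw [if_neg h1]
    split_ifs
    · exact hw y
    · exact le_rfl

theorem rst_S2 (h : D.RstA l f f') (h2 : ∀ v, f' v = none → i < l v)
    {w : V → V → ℝ} (hw : ∀ y y', 0 ≤ w y y') : (D.withLv l).S2 f' i w ≤ D.S2 f i w := by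
  show (∑ y, ∑ y', if l y = i ∧ (D.withLv l).Same f' y y' then w y y' else 0) ≤
    ∑ y, ∑ y', if D.lv y = i ∧ D.Same f y y' then w y y' else 0
  refine sum_le_sum fun y _ => sum_le_sum fun y' _ => ?_
  by_cases h1 : l y = i ∧ (D.withLv l).Same f' y y'
  · rw [if_pos h1, if_pos]
    exact ⟨rst_lv h h2 h1.1, rst_same h h1.2⟩
  · rw [if_neg h1]
    split_ifs
    · exact hw y y'
    · exact le_rfl

theorem rst_S2r (h : D.RstA l f f') (h2 : ∀ v, f' v = none → i < l v)
    {w : V → V → ℝ} (hw : ∀ y y', 0 ≤ w y y') : (D.withLv l).S2r f' i w ≤ D.S2r f i w := by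
  show (∑ y, ∑ y', if l y = i ∧ (D.withLv l).Same f' y y' ∧
      (D.withLv l).rd f' y = (D.withLv l).rd f' y' then w y y' else 0) ≤
    ∑ y, ∑ y', if D.lv y = i ∧ D.Same f y y' ∧ D.rd f y = D.rd f y' then w y y' else 0
  refine sum_le_sum fun y _ => sum_le_sum fun y' _ => ?_
  by_cases h1 : l y = i ∧ (D.withLv l).Same f' y y' ∧
      (D.withLv l).rd f' y = (D.withLv l).rd f' y'
  · rw [if_pos h1, if_pos]
    refine ⟨rst_lv h h2 h1.1, rst_same h h1.2.1, ?_⟩
    rw [← rst_rd h h1.2.1.left_ne_none, ← rst_rd h h1.2.1.right_ne_none]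
    exact h1.2.2
  · rw [if_neg h1]
    split_ifs
    · exact hw y y'
    · exact le_rfl

theorem rst_stat (h : D.RstA l f f') (h2 : ∀ v, f' v = none → i < l v) (hs : D.DStat f i) :
    (D.withLv l).DStat f' i :=
  ⟨fun a c => (rst_L1 h h2 c fun y => wB_nonneg a y).trans (hs.sB a c),
    fun a c => (rst_L1 h h2 c fun y => wL_nonneg a y).trans (hs.sL a c),
    fun a c => (rst_L1 h h2 c fun y => wN_nonneg a y).trans (hs.sN a c),
    fun a b hab => (rst_S2 h h2 fun y y' => wM_nonneg a b y y').trans (hs.sM a b hab),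
    fun v => (rst_S2 h h2 fun y y' => wQ_nonneg v y y').trans (hs.sQ v),
    fun v => (rst_S2r h h2 fun y y' => wM_nonneg v v y y').trans (hs.rM v),
    fun v => (rst_S2r h h2 fun y y' => wP_nonneg v y y').trans (hs.rP v),
    fun v => (rst_S2r h h2 fun y y' => wF_nonneg D.am v y y').trans (hs.rF v)⟩

theorem rst_cf (h : D.RstA l f f') {v x : V} (hv : l v = D.lv v) (hx : f' x ≠ none)
    (hc : (D.withLv l).Cf f' v x) : D.Cf f v x := by
  obtain ⟨h1, h2, h3, z, z', h4, h5, h6, h7, h8⟩ := hc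
  refine ⟨h1, ?_, h3, z, z', rst_same h h4, h5, ?_, h7, h8⟩
  · rw [← hv, ← (h x hx).2]
    exact h2
  · rw [← hv, ← (h z h4.left_ne_none).2]
    exact h6

theorem rst_e3 (h : D.RstA l f f') {v u u' : V} (hv : l v = D.lv v)
    (hc : (D.withLv l).E3 f' v u u') : D.E3 f v u u' := by
  obtain ⟨z, z', z'', h1, h2, h3, h4, h5, h6, h7, h8, h9⟩ := hc
  refine ⟨z, z', z'', h1, rst_same h h2, rst_same h h3, h4, h5, ?_, h7, h8, h9⟩
  rw [← hv, ← (h z h2.left_ne_none).2]
  exact h6

/-- A vertex that is dropped after the restriction was dropped before. -/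
theorem rst_drop (h : D.RstA l f f') {v : V} (hd : (D.withLv l).Drop f' v) : D.Drop f v := by
  obtain ⟨h0, hd⟩ := hd
  have hv := h v h0
  have hr := rst_rd h h0
  refine ⟨hv.1 ▸ h0, ?_⟩
  rcases hd with ⟨x, g1, g2, g3⟩ | ⟨x, g1, g2, g3⟩ |
    ⟨z, z', u, u', g1, g2, g3, g4, g5, g6, g7, g8, g9, g10, g11, g12, g13, g14⟩ |
    ⟨u, u', g0, g1, g2, g3, g4, g5⟩
  · refine .inl ⟨x, rst_same h g1, ?_, g3⟩
    rw [← hr, ← rst_rd h g1.right_ne_none]
    exact g2
  · refine .inr (.inl ⟨x, rst_same h g1, ?_, rst_cf h hv.2 g1.right_ne_none g3⟩)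
    rw [← hr, ← rst_rd h g1.right_ne_none]
    exact g2
  · have e3 : D.lv z = D.lv v := by
      rw [← hv.2, ← (h z g1.left_ne_none).2]
      exact g3
    refine .inr (.inr (.inl ⟨z, z', u, u', rst_same h g1, g2, e3, g4, g5, g6, g7,
      rst_same h g8, rst_same h g9, fun hs => g10 (rst_same' h h0 g1.left_ne_none hs),
      ?_, ?_, ?_, ?_⟩))
    · rw [← hr, ← rst_rd h g1.left_ne_none]; exact g11
    · rw [← hr, ← rst_rd h g1.right_ne_none]; exact g12
    · rw [← hr, ← rst_rd h g8.right_ne_none]; exact g13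
    · rw [← hr, ← rst_rd h g9.right_ne_none]; exact g14
  · refine .inr (.inr (.inr ⟨u, u', g0, rst_same h g1, rst_same h g2, ?_, ?_,
      rst_e3 h hv.2 g5⟩))
    · rw [← hr, ← rst_rd h g1.right_ne_none]; exact g3
    · rw [← hr, ← rst_rd h g2.right_ne_none]; exact g4

theorem rst_dr (h : D.RstA l f f') (h2 : ∀ v, f' v = none → i < l v) {w : V}
    (hd : ((univ.filter fun v => D.lv v = i ∧ v ∈ D.N w ∧ D.Drop f v).card : ℝ) ≤ D.drB) :
    ((univ.filter fun v => (D.withLv l).lv v = i ∧ v ∈ (D.withLv l).N w ∧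
      (D.withLv l).Drop f' v).card : ℝ) ≤ (D.withLv l).drB := by
  refine le_trans ?_ hd
  have h3 : (univ.filter fun v => (D.withLv l).lv v = i ∧ v ∈ (D.withLv l).N w ∧
      (D.withLv l).Drop f' v) ⊆
      univ.filter fun v => D.lv v = i ∧ v ∈ D.N w ∧ D.Drop f v := by
    intro z hz
    rw [mem_filter] at hz ⊢
    exact ⟨hz.1, rst_lv h h2 hz.2.1, hz.2.2.1, rst_drop h hz.2.2.2⟩
  exact_mod_cast card_le_card h3

theorem rst_old (h : D.RstA l f f') {j : ℕ} (h2 : ∀ v, f' v = none → j ≤ l v)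
    (ho : D.Old f j) : (D.withLv l).Old f' j :=
  ⟨fun i hi => rst_part h (fun v hv => lt_of_lt_of_le hi (h2 v hv)) (ho.part i hi),
    fun i hi => rst_stat h (fun v hv => lt_of_lt_of_le hi (h2 v hv)) (ho.stat i hi),
    fun i hi w => rst_dr h (fun v hv => lt_of_lt_of_le hi (h2 v hv)) (ho.dr i hi w)⟩

end restr

/-- The vertices that are not coloured get other stages. -/
theorem old_withLv {j : ℕ} {C : V → Option (Fin D.k × ℕ)} (h : D.Old C j) {l : V → ℕ}
    (h1 : ∀ v, C v ≠ none → l v = D.lv v) (h2 : ∀ v, C v = none → j ≤ l v) :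
    (D.withLv l).Old C j :=
  rst_old (fun v hv => ⟨rfl, h1 v hv⟩) h2 h

/-! ## The end of a stage -/

/-- The bound of `DrB` at the end of a stage. -/
theorem drB_le (hD : D.Ok) {j : ℕ} (hP : D.Parts j) {f : V → Option (Fin D.k × ℕ)} {m : ℕ}
    (hm : m ≤ D.M) (h : D.DrB f j m) (w : V) :
    ((univ.filter fun v => D.lv v = j ∧ v ∈ D.N w ∧ D.Drop f v).card : ℝ) ≤ D.drB := by
  refine (h w).trans ?_
  have hT := T0 hD
  have hk := k0 hD
  have hR := R0 hD
  have h1 : ((univ.filter fun v => D.lv v = j ∧ v ∈ D.N w ∧ f v ≠ none).card : ℝ) ≤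
      3 * (D.T ^ 3600 / D.R) := by
    refine le_trans ?_ (pb1' hD hP w le_rfl)
    have : (univ.filter fun v => D.lv v = j ∧ v ∈ D.N w ∧ f v ≠ none) ⊆
        (D.N w).filter fun z => D.lv z = j := by
      intro z hz
      rw [mem_filter] at hz ⊢
      exact ⟨hz.2.2.1, hz.2.1⟩
    exact_mod_cast card_le_card this
  have h2 : 4 * D.T * (D.rho * D.cfB *
      ((univ.filter fun v => D.lv v = j ∧ v ∈ D.N w ∧ f v ≠ none).card : ℝ)) ≤
      D.T ^ 3596 / D.R := by
    have h3 : D.rho * D.cfB *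
        ((univ.filter fun v => D.lv v = j ∧ v ∈ D.N w ∧ f v ≠ none).card : ℝ) ≤
        D.rho * D.cfB * (3 * (D.T ^ 3600 / D.R)) :=
      mul_le_mul_of_nonneg_left h1 (mul_nonneg (rho_nonneg hD) (cfB_nonneg hD))
    have h4 : D.rho * D.cfB * (3 * (D.T ^ 3600 / D.R)) =
        6 * (D.T * D.T ^ 4792 * D.T ^ 3600) / (D.k * D.R * D.R) := by
      unfold rho cfB
      field_simp
      ring
    have h5 : 6 * (D.T * D.T ^ 4792 * D.T ^ 3600) / (D.k * D.R * D.R) ≤
        6 * (D.T * D.T ^ 4792 * D.T ^ 3600) / (D.T ^ 4799 * D.R) := by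
      apply div_le_div_of_nonneg_left (by positivity) (by positivity)
      exact mul_le_mul_of_nonneg_right hD.kR hR.le
    have h6 : 4 * D.T * (6 * (D.T * D.T ^ 4792 * D.T ^ 3600) / (D.T ^ 4799 * D.R)) =
        24 * D.T ^ 3595 / D.R := by
      have e : D.T * (D.T * D.T ^ 4792 * D.T ^ 3600) = D.T ^ 3595 * D.T ^ 4799 := by
        rw [← pow_succ', ← pow_add, ← pow_succ', ← pow_add]
      have e2 : 4 * D.T * (6 * (D.T * D.T ^ 4792 * D.T ^ 3600) / (D.T ^ 4799 * D.R)) =
          24 * (D.T * (D.T * D.T ^ 4792 * D.T ^ 3600)) / (D.T ^ 4799 * D.R) := by ring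
      rw [e2, e, div_eq_div_iff (by positivity) (by positivity)]
      ring
    have h7 : 24 * D.T ^ 3595 ≤ D.T ^ 3596 := num_pow hD (by norm_num) (by norm_num)
    calc _ ≤ 4 * D.T * (D.rho * D.cfB * (3 * (D.T ^ 3600 / D.R))) :=
          mul_le_mul_of_nonneg_left h3 (by positivity)
      _ ≤ 4 * D.T * (6 * (D.T * D.T ^ 4792 * D.T ^ 3600) / (D.T ^ 4799 * D.R)) := by
          rw [h4]
          exact mul_le_mul_of_nonneg_left h5 (by positivity)
      _ = 24 * D.T ^ 3595 / D.R := h6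
      _ ≤ D.T ^ 3596 / D.R := div_le_div_of_nonneg_right h7 hR.le
  have h8 : (m : ℝ) * D.T ^ 2640 ≤ D.T ^ 3596 / D.R := by
    calc (m : ℝ) * D.T ^ 2640 ≤ D.T ^ 150 * D.T ^ 2640 :=
          mul_le_mul_of_nonneg_right (mM hD hm) (Tp hD _).le
      _ = D.T ^ 2790 := by rw [← pow_add]
      _ ≤ D.T ^ 3596 / D.R := le_div_R hD (by norm_num)
  have h9 : 2 * D.T ^ 3596 ≤ D.T ^ 3597 := num_pow hD (by norm_num) (by norm_num)
  have h10 : 2 * (D.T ^ 3596 / D.R) ≤ D.T ^ 3597 / D.R := by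
    rw [← mul_div_assoc]
    exact div_le_div_of_nonneg_right h9 hR.le
  unfold drB
  linarith

/-- The end of stage `j`, with the statistics of stage `j` as a hypothesis. -/
theorem old_next' (hD : D.Ok) {j : ℕ} {C : V → Option (Fin D.k × ℕ)} (hp : D.Past C j)
    {col : V → Option (Fin D.k × ℕ)} (h : D.Prog (D.addCol C j col) j D.M)
    (hs : D.DStat (D.addCol C j col) j)
    {C' : V → Option (Fin D.k × ℕ)} {l : V → ℕ}
    (h1 : ∀ v, C' v ≠ none → C' v = D.addCol C j col v ∧ l v = D.lv v)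
    (h2 : ∀ v, C' v = none → j < l v) :
    (D.withLv l).Old C' (j + 1) := by
  have hlow : ∀ i, i < j → ∀ y, D.lv y ≤ i → C y = D.addCol C j col y := fun i hi y hy =>
    (addCol_ne (hy.trans_lt hi).ne).symm
  refine rst_old h1 h2 ⟨?_, ?_, ?_⟩
  · intro i hi
    exact hp.parts.part i (Nat.lt_succ_iff.1 hi)
  · intro i hi
    rcases Nat.lt_succ_iff_lt_or_eq.1 hi with h3 | h3
    · exact (hp.old.stat i h3).congr fun y hy => hlow i h3 y hy.le
    · subst h3
      exact hs
  · intro i hi w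
    rcases Nat.lt_succ_iff_lt_or_eq.1 hi with h3 | h3
    · rw [drop_filter_congr (hlow i h3) w]
      exact hp.old.dr i h3 w
    · subst h3
      exact drB_le hD hp.parts le_rfl h.dr w

/-! ## One round -/

section

variable {j m : ℕ} {C col : V → Option (Fin D.k × ℕ)} {lam : V → Option Bool}
  {ω : V → Fin D.k} {p : V → Fin D.k → ℝ}

theorem newc_true (w : V) : D.newc j col lam w (fun _ => True) =
    ((univ.filter fun y => y ∈ D.N w ∧ D.Now j col lam y).card : ℝ) := by
  unfold newc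
  rw [Nat.cast_inj]
  apply congrArg
  ext y
  simp

theorem dst_cu (A B : Finset V) : ((A ∪ B).card : ℝ) ≤ A.card + B.card := by
  exact_mod_cast card_union_le A B

/-- The vertices coloured before the round are dropped before or never. -/
theorem drop_old (h : D.DRnd j C m col lam p) {v : V} (hv : D.lv v = j)
    (hn : ¬ D.Now j col lam v) :
    D.Drop (D.addCol C j (updCol m col lam ω)) v → D.Drop (D.addCol C j col) v := by
  have e1 := upd_not_now (C := C) (m := m) (ω := ω) hn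
  intro hd
  have hne : D.addCol C j col v ≠ none := by
    rw [← e1]
    exact hd.1
  have hr : D.rd (D.addCol C j (updCol m col lam ω)) v < m := by
    obtain ⟨⟨c, r⟩, hc⟩ := Option.ne_none_iff_exists'.1 hne
    rw [rd_congr e1, rd_some hc]
    exact h.prog.lt v c r hv hc
  refine Drop_mono e1 ?_ ?_ hd
  · intro z hz
    exact upd_lt (hv ▸ hz)
  · intro z _ _ hz
    apply upd_not_now
    intro hz'
    rw [rd_now hz'] at hz
    omega

theorem drB_next (h : D.DRnd j C m col lam p)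
    (hA : ∀ w, D.newc j col lam w (D.RA (D.addCol C j (updCol m col lam ω))) ≤ D.T ^ 2630)
    (hB : ∀ w, D.newc j col lam w (D.RB (D.addCol C j (updCol m col lam ω))) ≤
      4 * D.T * (D.rho * D.cfB * D.newc j col lam w (fun _ => True)) + D.T ^ 2630)
    (hC : ∀ w, D.newc j col lam w (D.RC (D.addCol C j (updCol m col lam ω))) ≤ D.T ^ 2630)
    (hR : ∀ w, D.newc j col lam w (D.RD (D.addCol C j (updCol m col lam ω))) ≤ D.T ^ 2630) :
    D.DrB (D.addCol C j (updCol m col lam ω)) j (m + 1) := by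
  intro w
  have hD := h.ok
  have h0 := h.prog.dr w
  set f' := D.addCol C j (updCol m col lam ω) with hf'
  set f := D.addCol C j col with hf
  -- dropped vertices
  have h1 : (univ.filter fun v => D.lv v = j ∧ v ∈ D.N w ∧ D.Drop f' v) ⊆
      ((((univ.filter fun v => D.lv v = j ∧ v ∈ D.N w ∧ D.Drop f v) ∪
        (univ.filter fun y => y ∈ D.N w ∧ D.Now j col lam y ∧ D.RA f' y)) ∪
        (univ.filter fun y => y ∈ D.N w ∧ D.Now j col lam y ∧ D.RB f' y)) ∪
        (univ.filter fun y => y ∈ D.N w ∧ D.Now j col lam y ∧ D.RC f' y)) ∪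
        (univ.filter fun y => y ∈ D.N w ∧ D.Now j col lam y ∧ D.RD f' y) := by
    intro v hv
    simp only [mem_filter, mem_union, mem_univ, true_and] at hv ⊢
    obtain ⟨hv1, hv2, hv3⟩ := hv
    by_cases hn : D.Now j col lam v
    · rcases hv3.2 with g | g | g | g
      · exact .inl (.inl (.inl (.inr ⟨hv2, hn, g⟩)))
      · exact .inl (.inl (.inr ⟨hv2, hn, g⟩))
      · exact .inl (.inr ⟨hv2, hn, g⟩)
      · exact .inr ⟨hv2, hn, g⟩
    · exact .inl (.inl (.inl (.inl ⟨hv1, hv2, drop_old h hv1 hn hv3⟩)))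
  have h2 : ((univ.filter fun v => D.lv v = j ∧ v ∈ D.N w ∧ D.Drop f' v).card : ℝ) ≤
      (univ.filter fun v => D.lv v = j ∧ v ∈ D.N w ∧ D.Drop f v).card +
        D.newc j col lam w (D.RA f') + D.newc j col lam w (D.RB f') +
        D.newc j col lam w (D.RC f') + D.newc j col lam w (D.RD f') := by
    have h3 := card_le_card h1
    have h4 : ((univ.filter fun v => D.lv v = j ∧ v ∈ D.N w ∧ D.Drop f' v).card : ℝ) ≤
        ((((((univ.filter fun v => D.lv v = j ∧ v ∈ D.N w ∧ D.Drop f v) ∪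
        (univ.filter fun y => y ∈ D.N w ∧ D.Now j col lam y ∧ D.RA f' y)) ∪
        (univ.filter fun y => y ∈ D.N w ∧ D.Now j col lam y ∧ D.RB f' y)) ∪
        (univ.filter fun y => y ∈ D.N w ∧ D.Now j col lam y ∧ D.RC f' y)) ∪
        (univ.filter fun y => y ∈ D.N w ∧ D.Now j col lam y ∧ D.RD f' y)).card : ℝ) := by
      exact_mod_cast h3
    have h5 := dst_cu ((((univ.filter fun v => D.lv v = j ∧ v ∈ D.N w ∧ D.Drop f v) ∪
        (univ.filter fun y => y ∈ D.N w ∧ D.Now j col lam y ∧ D.RA f' y)) ∪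
        (univ.filter fun y => y ∈ D.N w ∧ D.Now j col lam y ∧ D.RB f' y)) ∪
        (univ.filter fun y => y ∈ D.N w ∧ D.Now j col lam y ∧ D.RC f' y))
        (univ.filter fun y => y ∈ D.N w ∧ D.Now j col lam y ∧ D.RD f' y)
    have h6 := dst_cu (((univ.filter fun v => D.lv v = j ∧ v ∈ D.N w ∧ D.Drop f v) ∪
        (univ.filter fun y => y ∈ D.N w ∧ D.Now j col lam y ∧ D.RA f' y)) ∪
        (univ.filter fun y => y ∈ D.N w ∧ D.Now j col lam y ∧ D.RB f' y))
        (univ.filter fun y => y ∈ D.N w ∧ D.Now j col lam y ∧ D.RC f' y)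
    have h7 := dst_cu ((univ.filter fun v => D.lv v = j ∧ v ∈ D.N w ∧ D.Drop f v) ∪
        (univ.filter fun y => y ∈ D.N w ∧ D.Now j col lam y ∧ D.RA f' y))
        (univ.filter fun y => y ∈ D.N w ∧ D.Now j col lam y ∧ D.RB f' y)
    have h8 := dst_cu (univ.filter fun v => D.lv v = j ∧ v ∈ D.N w ∧ D.Drop f v)
        (univ.filter fun y => y ∈ D.N w ∧ D.Now j col lam y ∧ D.RA f' y)
    unfold newc
    linarith
  -- coloured vertices
  have h3 : (univ.filter fun v => D.lv v = j ∧ v ∈ D.N w ∧ f v ≠ none).card +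
      (univ.filter fun y => y ∈ D.N w ∧ D.Now j col lam y).card ≤
      (univ.filter fun v => D.lv v = j ∧ v ∈ D.N w ∧ f' v ≠ none).card := by
    rw [← card_union_of_disjoint]
    · apply card_le_card
      intro v hv
      simp only [mem_filter, mem_union, mem_univ, true_and] at hv ⊢
      by_cases hn : D.Now j col lam v
      · have hw : v ∈ D.N w := by
          rcases hv with g | g
          · exact g.2.1
          · exact g.1
        refine ⟨hn.1, hw, ?_⟩
        rw [hf', upd_now hn]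
        exact Option.some_ne_none _
      · rcases hv with g | g
        · refine ⟨g.1, g.2.1, ?_⟩
          rw [hf', upd_not_now hn]
          exact g.2.2
        · exact absurd g.2 hn
    · rw [disjoint_left]
      intro v hv hv'
      simp only [mem_filter, mem_univ, true_and] at hv hv'
      exact hv.2.2 (now_none hv'.2)
  have h4 : ((univ.filter fun v => D.lv v = j ∧ v ∈ D.N w ∧ f v ≠ none).card : ℝ) +
      D.newc j col lam w (fun _ => True) ≤
      ((univ.filter fun v => D.lv v = j ∧ v ∈ D.N w ∧ f' v ≠ none).card : ℝ) := by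
    have h5 := (Nat.cast_le (α := ℝ)).2 h3
    rw [Nat.cast_add] at h5
    rw [newc_true]
    exact h5
  have hA' := hA w
  have hB' := hB w
  have hC' := hC w
  have hR' := hR w
  have hT := T0 hD
  have hrho := rho_pos hD
  have hcf := cfB_nonneg hD
  have h5 : 4 * D.T ^ 2630 ≤ D.T ^ 2640 := num_pow hD (by norm_num) (by norm_num)
  have h6 : 4 * D.T * (D.rho * D.cfB *
      ((univ.filter fun v => D.lv v = j ∧ v ∈ D.N w ∧ f v ≠ none).card : ℝ)) +
      4 * D.T * (D.rho * D.cfB * D.newc j col lam w (fun _ => True)) ≤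
      4 * D.T * (D.rho * D.cfB *
      ((univ.filter fun v => D.lv v = j ∧ v ∈ D.N w ∧ f' v ≠ none).card : ℝ)) := by
    rw [← mul_add, ← mul_add]
    apply mul_le_mul_of_nonneg_left _ (by positivity)
    exact mul_le_mul_of_nonneg_left h4 (mul_nonneg hrho.le hcf)
  push_cast
  rw [add_mul, one_mul]
  linarith

/-- The events of a round together. -/
theorem prog_combine (h : D.DRnd j C m col lam p)
    (hK : LocOK 40001 D.T p (fun ω => D.ProgS (D.addCol C j (updCol m col lam ω)) j (m + 1)))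
    (hA : LocOK 40000 D.T p (fun ω => ∀ w,
      D.newc j col lam w (D.RA (D.addCol C j (updCol m col lam ω))) ≤ D.T ^ 2630))
    (hB : LocOK 40000 D.T p (fun ω => ∀ w,
      D.newc j col lam w (D.RB (D.addCol C j (updCol m col lam ω))) ≤
        4 * D.T * (D.rho * D.cfB * D.newc j col lam w (fun _ => True)) + D.T ^ 2630))
    (hC : LocOK 40000 D.T p (fun ω => ∀ w,
      D.newc j col lam w (D.RC (D.addCol C j (updCol m col lam ω))) ≤ D.T ^ 2630))
    (hR : LocOK 40000 D.T p (fun ω => ∀ w,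
      D.newc j col lam w (D.RD (D.addCol C j (updCol m col lam ω))) ≤ D.T ^ 2630)) :
    LocOK 40010 D.T p (fun ω => D.Prog (D.addCol C j (updCol m col lam ω)) j (m + 1)) := by
  have hb := h.ok.big
  have h1 := hK.and hb (hA.mono hb (show 40000 ≤ 40001 by norm_num))
  have h2 := h1.and hb (hB.mono hb (show 40000 ≤ 40002 by norm_num))
  have h3 := h2.and hb (hC.mono hb (show 40000 ≤ 40003 by norm_num))
  have h4 := h3.and hb (hR.mono hb (show 40000 ≤ 40004 by norm_num))
  obtain ⟨κ, hκ, E, S, hd, hp, hs, hi, hg⟩ := h4.mono hb (show 40005 ≤ 40010 by norm_num)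
  refine ⟨κ, hκ, E, S, hd, hp, hs, hi, fun ω hE => ?_⟩
  obtain ⟨⟨⟨⟨g1, g2⟩, g3⟩, g4⟩, g5⟩ := hg ω hE
  exact ⟨g1, drB_next h g2 g3 g4 g5⟩

end

end DD

end

end Pool.Agent.AcyGD
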